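import Pool.Agent.Helper34.BD.Defs

set_option autoImplicit false

open MeasureTheory Real Filter Topology Set InnerProductSpace
open scoped ContDiff

noncomputable section

namespace Pool.Agent.Helper34.BD

open Pool.Agent.Helper12.RD

theorem A0_second {f : ℂ → ℝ} {w : ℂ} (h : ContDiffAt ℝ 2 f w) (a b : ℂ) :
    fderiv ℝ (fun y => fderiv ℝ f y a) w b = fderiv ℝ (fderiv ℝ f) w b a := by
  have h1 : DifferentiableAt ℝ (fderiv ℝ f) w :=
    (h.fderiv_right (m := 1) (by norm_num)).differentiableAt one_ne_zero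
  have h3 := (h1.hasFDerivAt.clm_apply (hasFDerivAt_const a w)).fderiv
  rw [h3]
  simp

theorem A0_one {f : ℂ → ℝ} {w : ℂ} (h : ContDiffAt ℝ 2 f w) (a : ℂ) :
    ContDiffAt ℝ 1 (fun y => fderiv ℝ f y a) w :=
  (h.fderiv_right (m := 1) (by norm_num)).clm_apply contDiffAt_const

theorem A0_ev {f : ℂ → ℝ} {w : ℂ} (h : ContDiffAt ℝ 2 f w) :
    ∀ᶠ y in 𝓝 w, ContDiffAt ℝ 2 f y := h.eventually (by simp)

/-- `lap` is the Laplacian of Mathlib: `laplacian_eq_iteratedFDeriv_complexPlane`,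
`iteratedFDeriv_two_apply`. -/
theorem lap_eq {f : ℂ → ℝ} {w : ℂ} (h : ContDiffAt ℝ 2 f w) :
    lap f w = Laplacian.laplacian f w := by
  rw [laplacian_eq_iteratedFDeriv_complexPlane]
  simp only [iteratedFDeriv_two_apply]
  unfold lap
  rw [A0_second h, A0_second h]
  simp

theorem harm_iff {f : ℂ → ℝ} {w : ℂ} :
    HarmonicAt f w ↔ ContDiffAt ℝ 2 f w ∧ ∀ᶠ y in 𝓝 w, lap f y = 0 := by
  constructor
  · rintro ⟨h1, h2⟩
    refine ⟨h1, ?_⟩
    filter_upwards [h2, A0_ev h1] with y hy1 hy2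
    rw [lap_eq hy2, hy1]
    rfl
  · rintro ⟨h1, h2⟩
    refine ⟨h1, ?_⟩
    filter_upwards [h2, A0_ev h1] with y hy1 hy2
    rw [← lap_eq hy2, hy1]
    rfl

/-- harmonic functions are analytic: `HarmonicAt.analyticAt` -/
theorem harm_smooth {f : ℂ → ℝ} {w : ℂ} (h : HarmonicAt f w) : ContDiffAt ℝ ∞ f w := by
  exact (HarmonicAt.analyticAt h).contDiffAt

theorem lap_congr {f g : ℂ → ℝ} {w : ℂ} (h : f =ᶠ[𝓝 w] g) : lap f w = lap g w := by
  have h1 : fderiv ℝ f =ᶠ[𝓝 w] fderiv ℝ g := h.fderiv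
  have h2 : ∀ a : ℂ, (fun y => fderiv ℝ f y a) =ᶠ[𝓝 w] fun y => fderiv ℝ g y a := by
    intro a
    filter_upwards [h1] with y hy
    rw [hy]
  unfold lap
  rw [(h2 1).fderiv_eq, (h2 Complex.I).fderiv_eq]

theorem lap_continuousAt {f : ℂ → ℝ} {w : ℂ} (h : ContDiffAt ℝ 2 f w) :
    ContinuousAt (lap f) w := by
  have h1 : ∀ a : ℂ, ContinuousAt (fun y => fderiv ℝ (fun z => fderiv ℝ f z a) y a) w := by
    intro a
    have h2 := (A0_one h a).fderiv_right (m := 0) (by norm_num)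
    exact h2.continuousAt.clm_apply continuousAt_const
  exact (h1 1).add (h1 Complex.I)

theorem lap_add {f g : ℂ → ℝ} {w : ℂ} (hf : ContDiffAt ℝ 2 f w) (hg : ContDiffAt ℝ 2 g w) :
    lap (fun y => f y + g y) w = lap f w + lap g w := by
  have h1 : ∀ a : ℂ, fderiv ℝ (fun y => fderiv ℝ (fun z => f z + g z) y a) w a =
      fderiv ℝ (fun y => fderiv ℝ f y a) w a + fderiv ℝ (fun y => fderiv ℝ g y a) w a := by
    intro a
    have h2 : (fun y => fderiv ℝ (fun z => f z + g z) y a) =ᶠ[𝓝 w]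
        fun y => fderiv ℝ f y a + fderiv ℝ g y a := by
      filter_upwards [A0_ev hf, A0_ev hg] with y hy1 hy2
      rw [fderiv_fun_add (hy1.differentiableAt two_ne_zero) (hy2.differentiableAt two_ne_zero)]
      rfl
    rw [h2.fderiv_eq, fderiv_fun_add ((A0_one hf a).differentiableAt one_ne_zero)
      ((A0_one hg a).differentiableAt one_ne_zero)]
    rfl
  unfold lap
  rw [h1, h1]
  ring

theorem lap_const_mul {f : ℂ → ℝ} {w : ℂ} (hf : ContDiffAt ℝ 2 f w) (c : ℝ) :
    lap (fun y => c * f y) w = c * lap f w := by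
  have h1 : ∀ a : ℂ, fderiv ℝ (fun y => fderiv ℝ (fun z => c * f z) y a) w a =
      c * fderiv ℝ (fun y => fderiv ℝ f y a) w a := by
    intro a
    have h2 : (fun y => fderiv ℝ (fun z => c * f z) y a) =ᶠ[𝓝 w]
        fun y => c * fderiv ℝ f y a := by
      filter_upwards [A0_ev hf] with y hy1
      rw [fderiv_const_mul (hy1.differentiableAt two_ne_zero)]
      rfl
    rw [h2.fderiv_eq, fderiv_const_mul ((A0_one hf a).differentiableAt one_ne_zero)]
    rfl
  unfold lap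
  rw [h1, h1]
  ring

/-- second derivative of a composition `H ∘ f` -/
theorem lap_comp {f : ℂ → ℝ} {H : ℝ → ℝ} {w : ℂ} (hf : ContDiffAt ℝ 2 f w)
    (hH : ContDiff ℝ 2 H) :
    lap (fun y => H (f y)) w = deriv (deriv H) (f w) * ((fderiv ℝ f w 1) ^ 2 +
      (fderiv ℝ f w Complex.I) ^ 2) + deriv H (f w) * lap f w := by
  have hH1 : Differentiable ℝ H := hH.differentiable two_ne_zero
  have hH2 : ContDiff ℝ 1 (deriv H) := by
    have h12 : (2 : WithTop ℕ∞) = 1 + 1 := by norm_num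
    rw [h12] at hH
    exact (contDiff_succ_iff_deriv.1 hH).2.2
  have hH3 : Differentiable ℝ (deriv H) := hH2.differentiable one_ne_zero
  have h1 : ∀ a : ℂ, fderiv ℝ (fun y => fderiv ℝ (fun z => H (f z)) y a) w a =
      deriv (deriv H) (f w) * (fderiv ℝ f w a) ^ 2 +
        deriv H (f w) * fderiv ℝ (fun y => fderiv ℝ f y a) w a := by
    intro a
    have h2 : (fun y => fderiv ℝ (fun z => H (f z)) y a) =ᶠ[𝓝 w]
        fun y => deriv H (f y) * fderiv ℝ f y a := by
      filter_upwards [A0_ev hf] with y hy1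
      have h3 := ((hH1 (f y)).hasDerivAt.comp_hasFDerivAt y
        (hy1.differentiableAt two_ne_zero).hasFDerivAt).fderiv
      have h4 : (fun z => H (f z)) = H ∘ f := rfl
      rw [h4, h3]
      simp
    have hf1 : DifferentiableAt ℝ f w := hf.differentiableAt two_ne_zero
    have h5 : HasFDerivAt (fun y => deriv H (f y)) (deriv (deriv H) (f w) • fderiv ℝ f w) w :=
      (hH3 (f w)).hasDerivAt.comp_hasFDerivAt w hf1.hasFDerivAt
    have h6 := (h5.mul ((A0_one hf a).differentiableAt one_ne_zero).hasFDerivAt).fderiv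
    have h7 : (fun y => deriv H (f y) * fderiv ℝ f y a) =
        (fun y => deriv H (f y)) * fun y => fderiv ℝ f y a := rfl
    rw [h2.fderiv_eq, h7, h6]
    simp
    ring
  unfold lap
  rw [h1, h1]
  ring

/-- `‖fderiv‖ ^ 2` in coordinates -/
theorem norm_fderiv_sq {f : ℂ → ℝ} {w : ℂ} :
    ‖fderiv ℝ f w‖ ^ 2 = (fderiv ℝ f w 1) ^ 2 + (fderiv ℝ f w Complex.I) ^ 2 := by
  set L := fderiv ℝ f w with hL
  set g := (InnerProductSpace.toDual ℝ ℂ).symm L with hg
  have h1 : ‖L‖ = ‖g‖ := by rw [hg, LinearIsometryEquiv.norm_map]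
  have h2 : ∀ a : ℂ, inner ℝ g a = L a := by
    intro a
    rw [hg, InnerProductSpace.toDual_symm_apply]
  have h3 : L 1 = g.re := by
    rw [← h2, Complex.inner]; simp
  have h4 : L Complex.I = g.im := by
    rw [← h2, Complex.inner]; simp
  rw [h1, h3, h4, ← Complex.normSq_eq_norm_sq, Complex.normSq_apply]
  ring

end Pool.Agent.Helper34.BD
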