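import Pool.Agent.Helper34.BD.St.A0

set_option autoImplicit false

open MeasureTheory Real Filter Topology Set InnerProductSpace
open scoped ContDiff

noncomputable section

namespace Pool.Agent.Helper34.BD

open Pool.Agent.Helper12.RD

theorem A1_int {f g : ℂ → ℝ} {K : Set ℂ} (hK : IsCompact K) (hf : ∀ z ∈ K, ContinuousAt f z)
    (hg : Continuous g) (hs : ∀ z, z ∉ K → g z = 0) : Integrable fun z => f z * g z := by
  have h1 : ContinuousOn (fun z => f z * g z) K := by
    intro z hz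
    exact ((hf z hz).mul hg.continuousAt).continuousWithinAt
  have h2 : IntegrableOn (fun z => f z * g z) K := h1.integrableOn_compact hK
  refine h2.integrable_of_forall_notMem_eq_zero fun z hz => ?_
  rw [hs z hz, mul_zero]

theorem A1_diff1 {h : ℂ → ℝ} {z : ℂ} (hh : ContDiffAt ℝ 2 h z) (v : ℂ) :
    ContDiffAt ℝ 1 (fun y => fderiv ℝ h y v) z :=
  (hh.fderiv_right (m := 1) (by norm_num)).clm_apply contDiffAt_const

theorem A1_diff2 {h : ℂ → ℝ} {z : ℂ} (hh : ContDiffAt ℝ 2 h z) (v : ℂ) :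
    ContinuousAt (fun y => fderiv ℝ (fun y' => fderiv ℝ h y' v) y v) z :=
  (((A1_diff1 hh v).fderiv_right (m := 0) (by norm_num)).clm_apply contDiffAt_const).continuousAt

/-- one direction -/
theorem A1_dir {h φ : ℂ → ℝ} (hφ : ContDiff ℝ ∞ φ) (hc : HasCompactSupport φ)
    (hh : ∀ z ∈ tsupport φ, ContDiffAt ℝ 2 h z) (v : ℂ) :
    Integrable (fun z => h z * fderiv ℝ (fun y => fderiv ℝ φ y v) z v) ∧
    Integrable (fun z => fderiv ℝ (fun y => fderiv ℝ h y v) z v * φ z) ∧
    ∫ z, h z * fderiv ℝ (fun y => fderiv ℝ φ y v) z v =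
      ∫ z, fderiv ℝ (fun y => fderiv ℝ h y v) z v * φ z := by
  have hK : IsCompact (tsupport φ) := hc
  have hφ1 : ContDiff ℝ ∞ (fun y => fderiv ℝ φ y v) :=
    (hφ.fderiv_right (m := ∞) (by norm_num)).clm_apply contDiff_const
  have hφ2 : ContDiff ℝ ∞ (fun z => fderiv ℝ (fun y => fderiv ℝ φ y v) z v) :=
    (hφ1.fderiv_right (m := ∞) (by norm_num)).clm_apply contDiff_const
  have t1 : tsupport (fun y => fderiv ℝ φ y v) ⊆ tsupport φ := tsupport_fderiv_apply_subset ℝ v
  have t2 : tsupport (fun z => fderiv ℝ (fun y => fderiv ℝ φ y v) z v) ⊆ tsupport φ :=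
    (tsupport_fderiv_apply_subset ℝ v).trans t1
  have z0 : ∀ z, z ∉ tsupport φ → φ z = 0 := fun z hz => image_eq_zero_of_notMem_tsupport hz
  have z1 : ∀ z, z ∉ tsupport φ → fderiv ℝ φ z v = 0 := fun z hz =>
    image_eq_zero_of_notMem_tsupport (f := fun y => fderiv ℝ φ y v) fun h' => hz (t1 h')
  have z2 : ∀ z, z ∉ tsupport φ → fderiv ℝ (fun y => fderiv ℝ φ y v) z v = 0 := fun z hz =>
    image_eq_zero_of_notMem_tsupport (f := fun z => fderiv ℝ (fun y => fderiv ℝ φ y v) z v)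
      fun h' => hz (t2 h')
  have c0 : ∀ z ∈ tsupport φ, ContinuousAt h z := fun z hz => (hh z hz).continuousAt
  have c1 : ∀ z ∈ tsupport φ, ContinuousAt (fun y => fderiv ℝ h y v) z := fun z hz =>
    (A1_diff1 (hh z hz) v).continuousAt
  have c2 : ∀ z ∈ tsupport φ,
      ContinuousAt (fun y => fderiv ℝ (fun y' => fderiv ℝ h y' v) y v) z := fun z hz =>
    A1_diff2 (hh z hz) v
  have i1 := A1_int hK c0 hφ2.continuous z2
  have i2 := A1_int hK c1 hφ1.continuous z1
  have i3 := A1_int hK c0 hφ1.continuous z1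
  have i4 := A1_int hK c2 hφ.continuous z0
  have i5 := A1_int hK c1 hφ.continuous z0
  refine ⟨i1, i4, ?_⟩
  have e1 := integral_mul_fderiv_eq_neg_fderiv_mul_of_integrable (μ := volume) (f := h)
    (g := fun y => fderiv ℝ φ y v) (v := v) i2 i1 i3
    (fun z hz => (hh z (t1 hz)).differentiableAt (by norm_num))
    (fun z _ => hφ1.contDiffAt.differentiableAt (by norm_num))
  have e2 := integral_mul_fderiv_eq_neg_fderiv_mul_of_integrable (μ := volume)
    (f := fun y => fderiv ℝ h y v)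
    (g := φ) (v := v) i4 i2 i5
    (fun z hz => (A1_diff1 (hh z hz) v).differentiableAt (by norm_num))
    (fun z _ => hφ.contDiffAt.differentiableAt (by norm_num))
  rw [e1, e2, neg_neg]

/-- integration by parts: `h` is `C²` near the support of `φ` -/
theorem lap_symm {h φ : ℂ → ℝ} (hφ : ContDiff ℝ ∞ φ) (hc : HasCompactSupport φ)
    (hh : ∀ z ∈ tsupport φ, ContDiffAt ℝ 2 h z) :
    ∫ z, h z * lap φ z = ∫ z, lap h z * φ z := by
  obtain ⟨a1, a2, a3⟩ := A1_dir hφ hc hh 1
  obtain ⟨b1, b2, b3⟩ := A1_dir hφ hc hh Complex.I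
  simp only [lap, mul_add, add_mul]
  rw [integral_add a1 b1, integral_add a2 b2, a3, b3]

/-- a function harmonic near the support of `φ` pairs to zero with `lap φ` -/
theorem lap_zero {h φ : ℂ → ℝ} (hφ : ContDiff ℝ ∞ φ) (hc : HasCompactSupport φ)
    (hh : ∀ z ∈ tsupport φ, HarmonicAt h z) : ∫ z, h z * lap φ z = 0 := by
  rw [lap_symm hφ hc fun z hz => (harm_iff.1 (hh z hz)).1]
  rw [← integral_zero ℂ ℝ (μ := volume)]
  congr 1
  funext z
  by_cases hz : z ∈ tsupport φ
  · rw [(harm_iff.1 (hh z hz)).2.self_of_nhds, zero_mul]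
  · rw [image_eq_zero_of_notMem_tsupport hz, mul_zero]

theorem lap_int_zero {φ : ℂ → ℝ} (hφ : ContDiff ℝ ∞ φ) (hc : HasCompactSupport φ) :
    ∫ z, lap φ z = 0 := by
  have h1 := lap_symm (h := fun _ => (1 : ℝ)) hφ hc fun z _ => contDiffAt_const
  simp only [one_mul] at h1
  rw [h1]
  have h2 : ∀ z, lap (fun _ => (1 : ℝ)) z = 0 := by
    intro z
    simp [lap]
  simp [h2]

end Pool.Agent.Helper34.BD
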