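import Pool.Agent.Helper34.BD.St.A9

set_option autoImplicit false

open MeasureTheory Real Filter Topology Set InnerProductSpace
open scoped ContDiff

noncomputable section

namespace Pool.Agent.Helper34.BD

open Pool.Agent.Helper12.RD

/-- Continuous linear maps are harmonic. -/
theorem A10_lin (L : ℂ →L[ℝ] ℝ) (y : ℂ) : HarmonicAt (fun z => L z) y := by
  refine ⟨L.contDiff.contDiffAt, Filter.Eventually.of_forall fun z => ?_⟩
  rw [laplacian_eq_iteratedFDeriv_complexPlane]
  have h1 : fderiv ℝ (fun z => L z) = fun _ => L := by
    funext w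
    exact L.fderiv
  simp only [iteratedFDeriv_two_apply, h1]
  simp

/-- `V` minus an affine function is harmonic where `V` is. -/
theorem A10_aff {V : ℂ → ℝ} {y : ℂ} (h : HarmonicAt V y) (L : ℂ →L[ℝ] ℝ) (b : ℝ) :
    HarmonicAt (fun z => V z - (L z + b)) y := by
  have h1 := h.sub ((A10_lin L y).add (harmonicAt_const b))
  exact h1

/-- A function harmonic off a closed set `S`, differentiable on `S` with gradient continuous on
`S`, is `C¹`. At `z₀ ∈ S` apply `grad_est` to `V` minus its affine part at `z₀`, at all points
`z` of the ball `(z₀, r)` with `ρ = r` (in the ball of radius `2 r` it is `≤ 2 ε r` and its gradient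
on `S` is `≤ ε`). -/
theorem c1_of_diff {V : ℂ → ℝ} {S O : Set ℂ} (hO : IsOpen O) (hSc : IsClosed S)
    (hcont : ContinuousOn V O) (hS : ∀ y ∈ O, y ∉ S → HarmonicAt V y)
    (hd : ∀ y ∈ O, y ∈ S → DifferentiableAt ℝ V y)
    (hg : ContinuousOn (fderiv ℝ V) (O ∩ S)) :
    (∀ y ∈ O, DifferentiableAt ℝ V y) ∧ ContinuousOn (fderiv ℝ V) O := by
  have hdiff : ∀ y ∈ O, DifferentiableAt ℝ V y := by
    intro y hy
    by_cases hyS : y ∈ S
    · exact hd y hy hyS
    · exact (hS y hy hyS).1.differentiableAt (by norm_num)
  refine ⟨hdiff, fun z₀ hz₀ => ?_⟩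
  by_cases hzS : z₀ ∈ S
  · -- points of `S`
    set L : ℂ →L[ℝ] ℝ := fderiv ℝ V z₀ with hL
    rw [Metric.continuousWithinAt_iff]
    intro ε hε
    have hε' : 0 < ε / 18 := by positivity
    obtain ⟨d1, hd1, hO1⟩ := Metric.isOpen_iff.mp hO z₀ hz₀
    have hder := (hd z₀ hz₀ hzS).hasFDerivAt
    have hlittle := (hasFDerivAt_iff_isLittleO.mp hder).def hε'
    obtain ⟨d2, hd2, hV2⟩ := Metric.eventually_nhds_iff.mp hlittle
    have hcS := hg z₀ ⟨hz₀, hzS⟩
    rw [Metric.continuousWithinAt_iff] at hcS
    obtain ⟨d3, hd3, hg3⟩ := hcS (ε / 18) hε'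
    refine ⟨min d1 (min d2 d3) / 2, by positivity, ?_⟩
    intro z hzO hz
    have hm1 : min d1 (min d2 d3) ≤ d1 := min_le_left _ _
    have hm2 : min d1 (min d2 d3) ≤ d2 := (min_le_right _ _).trans (min_le_left _ _)
    have hm3 : min d1 (min d2 d3) ≤ d3 := (min_le_right _ _).trans (min_le_right _ _)
    by_cases hzz : z = z₀
    · subst hzz
      rw [dist_self]
      exact hε
    · set r : ℝ := dist z z₀ with hr
      have hr0 : 0 < r := dist_pos.mpr hzz
      -- distances in the closed ball
      have hball : ∀ w ∈ Metric.closedBall z r, dist w z₀ ≤ 2 * r := by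
        intro w hw
        have h1 := dist_triangle w z z₀
        have h2 := Metric.mem_closedBall.mp hw
        linarith
      have hballO : ∀ w ∈ Metric.closedBall z r, w ∈ O := by
        intro w hw
        refine hO1 (Metric.mem_ball.mpr ?_)
        have := hball w hw
        linarith
      set V1 : ℂ → ℝ := fun w => V w - (L w + (V z₀ - L z₀)) with hV1
      have hfd : ∀ w ∈ O, fderiv ℝ V1 w = fderiv ℝ V w - L := by
        intro w hw
        have h1 : HasFDerivAt V1 (fderiv ℝ V w - L) w := by
          have h2 := (hdiff w hw).hasFDerivAt.sub (L.hasFDerivAt.add_const (V z₀ - L z₀) (x := w))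
          exact h2
        exact h1.fderiv
      have hcl : Metric.ball z r ⊆ Metric.closedBall z r := Metric.ball_subset_closedBall
      have hest := grad_est (V := V1) (S := S) (z₀ := z) (ρ := r) (c := ε / 18)
        (M := ε / 18 * (2 * r)) hr0 hε'.le
        (by
          refine ContinuousOn.sub (hcont.mono fun w hw => hballO w hw) ?_
          exact (L.continuous.add continuous_const).continuousOn)
        (by
          intro w hw
          have h1 := hball w hw
          have h2 : dist w z₀ < d2 := by linarith
          have h3 := hV2 h2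
          have h4 : V1 w = V w - V z₀ - L (w - z₀) := by
            rw [hV1]
            simp only [map_sub]
            ring
          rw [h4]
          rw [Real.norm_eq_abs] at h3
          refine h3.trans ?_
          rw [← dist_eq_norm]
          exact mul_le_mul_of_nonneg_left h1 hε'.le)
        (by
          intro w hw hwS
          exact A10_aff (hS w (hballO w (hcl hw)) hwS) L _)
        (by
          intro w hw hwS
          have hwO := hballO w (hcl hw)
          constructor
          · exact (hdiff w hwO).sub (L.differentiableAt.add_const _)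
          · rw [hfd w hwO]
            have h1 := hball w (hcl hw)
            have h2 := hg3 ⟨hwO, hwS⟩ (by linarith)
            rw [dist_eq_norm] at h2
            exact h2.le)
      rw [hfd z hzO] at hest
      rw [dist_eq_norm]
      have h5 : 8 * (ε / 18 * (2 * r)) / r = 16 * (ε / 18) := by
        field_simp
        ring
      rw [h5] at hest
      refine lt_of_le_of_lt hest ?_
      linarith
  · -- points off `S`
    have hnh : ContDiffAt ℝ 2 V z₀ := (hS z₀ hz₀ hzS).1
    have h1 : ContDiffAt ℝ 1 (fderiv ℝ V) z₀ := hnh.fderiv_right (by norm_num)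
    exact h1.continuousAt.continuousWithinAt

end Pool.Agent.Helper34.BD
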