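import Pool.Agent.Helper34.BD.St.A1

set_option autoImplicit false

open MeasureTheory Real Filter Topology Set InnerProductSpace
open scoped ContDiff

noncomputable section

namespace Pool.Agent.Helper34.BD

open Pool.Agent.Helper12.RD

/-- the profile: smooth, one on `(-∞, 169/196]`, zero on `[1, ∞)` -/
def A2_th (u : ℝ) : ℝ := Real.smoothTransition (196 / 27 * (1 - u))

lemma A2_th_smooth : ContDiff ℝ ∞ A2_th := by
  unfold A2_th
  exact Real.smoothTransition.contDiff.comp (by fun_prop)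

lemma A2_th_nonneg (u : ℝ) : 0 ≤ A2_th u := Real.smoothTransition.nonneg _

lemma A2_th_le_one (u : ℝ) : A2_th u ≤ 1 := Real.smoothTransition.le_one _

lemma A2_th_zero {u : ℝ} (h : 1 ≤ u) : A2_th u = 0 :=
  Real.smoothTransition.zero_of_nonpos (by nlinarith)

lemma A2_th_one {u : ℝ} (h : u ≤ 169 / 196) : A2_th u = 1 :=
  Real.smoothTransition.one_of_one_le (by nlinarith)

lemma A2_th_cont : Continuous A2_th := A2_th_smooth.continuous

/-- primitive of the profile -/
def A2_T (s : ℝ) : ℝ := ∫ u in (0 : ℝ)..s, A2_th u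

lemma A2_T_deriv (s : ℝ) : HasDerivAt A2_T (A2_th s) s :=
  intervalIntegral.integral_hasDerivAt_right (A2_th_cont.intervalIntegrable _ _)
    (A2_th_cont.stronglyMeasurableAtFilter _ _) A2_th_cont.continuousAt

lemma A2_T_smooth : ContDiff ℝ ∞ A2_T := by
  rw [contDiff_infty_iff_deriv]
  refine ⟨fun s => (A2_T_deriv s).differentiableAt, ?_⟩
  have : deriv A2_T = A2_th := funext fun s => (A2_T_deriv s).deriv
  rw [this]; exact A2_th_smooth

lemma A2_T_mono : Monotone A2_T :=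
  monotone_of_deriv_nonneg (fun s => (A2_T_deriv s).differentiableAt)
    (fun s => by rw [(A2_T_deriv s).deriv]; exact A2_th_nonneg s)

lemma A2_T_small {s : ℝ} (h : s ≤ 169 / 196) : A2_T s = s := by
  unfold A2_T
  have : ∫ u in (0 : ℝ)..s, A2_th u = ∫ u in (0 : ℝ)..s, (1 : ℝ) := by
    apply intervalIntegral.integral_congr
    intro u hu
    have : u ≤ 169 / 196 := by
      rcases le_total 0 s with h0 | h0
      · rw [uIcc_of_le h0] at hu; exact hu.2.trans h
      · rw [uIcc_of_ge h0] at hu; have := hu.2; linarith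
    exact A2_th_one this
  rw [this]; simp

lemma A2_T_big {s : ℝ} (h : 1 ≤ s) : A2_T s = A2_T 1 := by
  unfold A2_T
  have h1 : ∫ u in (1 : ℝ)..s, A2_th u = 0 := by
    have : ∫ u in (1 : ℝ)..s, A2_th u = ∫ u in (1 : ℝ)..s, (0 : ℝ) := by
      apply intervalIntegral.integral_congr
      intro u hu
      rw [uIcc_of_le h] at hu
      exact A2_th_zero hu.1
    rw [this]; simp
  have h2 := intervalIntegral.integral_add_adjacent_intervals
    (A2_th_cont.intervalIntegrable (μ := volume) 0 1) (A2_th_cont.intervalIntegrable (μ := volume) 1 s)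
  linarith

/-- the smooth function `T s / (4 s)` -/
def A2_k (s : ℝ) : ℝ := if s ≤ 1 / 2 then 1 / 4 else A2_T s / (4 * s)

lemma A2_k_mul (s : ℝ) : 4 * (s * A2_k s) = A2_T s := by
  unfold A2_k
  split_ifs with h
  · rw [A2_T_small (by linarith)]; ring
  · have : s ≠ 0 := by intro h0; apply h; rw [h0]; norm_num
    field_simp

lemma A2_k_smooth : ContDiff ℝ ∞ A2_k := by
  rw [contDiff_iff_contDiffAt]
  intro s
  rcases lt_or_ge s (169 / 196) with h | h
  · have : A2_k =ᶠ[𝓝 s] fun _ => (1 / 4 : ℝ) := by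
      filter_upwards [gt_mem_nhds h] with u hu
      unfold A2_k
      split_ifs with h2
      · rfl
      · rw [A2_T_small hu.le]
        have : u ≠ 0 := by intro h0; apply h2; rw [h0]; norm_num
        field_simp
    exact contDiffAt_const.congr_of_eventuallyEq this
  · have h' : (1 / 2 : ℝ) < s := by linarith
    have : A2_k =ᶠ[𝓝 s] fun u => A2_T u / (4 * u) := by
      filter_upwards [lt_mem_nhds h'] with u hu
      unfold A2_k
      rw [if_neg (not_le.mpr hu)]
    refine ContDiffAt.congr_of_eventuallyEq ?_ this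
    exact A2_T_smooth.contDiffAt.div (by fun_prop) (by linarith : 4 * s ≠ 0) |> fun h => h

/-- primitive -/
def A2_g (s : ℝ) : ℝ := ∫ u in (1 : ℝ)..s, A2_k u

lemma A2_g_deriv (s : ℝ) : HasDerivAt A2_g (A2_k s) s :=
  intervalIntegral.integral_hasDerivAt_right (A2_k_smooth.continuous.intervalIntegrable _ _)
    (A2_k_smooth.continuous.stronglyMeasurableAtFilter _ _) A2_k_smooth.continuous.continuousAt

lemma A2_g_smooth : ContDiff ℝ ∞ A2_g := by
  rw [contDiff_infty_iff_deriv]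
  refine ⟨fun s => (A2_g_deriv s).differentiableAt, ?_⟩
  have : deriv A2_g = A2_k := funext fun s => (A2_g_deriv s).deriv
  rw [this]; exact A2_k_smooth

lemma A2_g_big {s : ℝ} (h : 1 ≤ s) : A2_g s = A2_T 1 / 4 * Real.log s := by
  unfold A2_g
  have : ∫ u in (1 : ℝ)..s, A2_k u = ∫ u in (1 : ℝ)..s, A2_T 1 / 4 * u⁻¹ := by
    apply intervalIntegral.integral_congr
    intro u hu
    rw [uIcc_of_le h] at hu
    have h1 := hu.1
    show A2_k u = A2_T 1 / 4 * u⁻¹
    have h2 := A2_k_mul u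
    rw [A2_T_big h1] at h2
    have : u ≠ 0 := by intro h0; rw [h0] at h1; norm_num at h1
    rw [← h2]; field_simp
  rw [this, intervalIntegral.integral_const_mul, integral_inv_of_pos one_pos (by linarith)]
  simp

lemma A2_comp_div {F : ℝ → ℝ} {F' c s : ℝ} (h : HasDerivAt F F' (s / c)) :
    HasDerivAt (fun s => F (s / c)) (F' / c) s := by
  have h1 : HasDerivAt (fun s : ℝ => s / c) (1 / c) s := (hasDerivAt_id s).div_const c
  have h2 : HasDerivAt (F ∘ fun s : ℝ => s / c) (F' * (1 / c)) s := HasDerivAt.comp s h h1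
  have h3 : F' / c = F' * (1 / c) := by ring
  rw [h3]
  exact h2

/-- the radial profile of the test function -/
def A2_P (r R s : ℝ) : ℝ :=
  A2_g (s / R ^ 2) - A2_g (s / r ^ 2) + A2_T 1 / 4 * (Real.log (R ^ 2) - Real.log (r ^ 2))

lemma A2_P_smooth (r R : ℝ) : ContDiff ℝ ∞ (A2_P r R) := by
  unfold A2_P
  exact ((A2_g_smooth.comp (contDiff_id.div_const _)).sub
    (A2_g_smooth.comp (contDiff_id.div_const _))).add contDiff_const

lemma A2_P_deriv (r R s : ℝ) : HasDerivAt (A2_P r R)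
    (A2_k (s / R ^ 2) / R ^ 2 - A2_k (s / r ^ 2) / r ^ 2) s := by
  unfold A2_P
  exact ((A2_comp_div (A2_g_deriv (s / R ^ 2))).sub
    (A2_comp_div (A2_g_deriv (s / r ^ 2)))).add_const _

lemma A2_P_zero {r R s : ℝ} (hr : 0 < r) (hrR : r ≤ R) (hs : R ^ 2 ≤ s) : A2_P r R s = 0 := by
  have hR : 0 < R := hr.trans_le hrR
  have hs2 : r ^ 2 ≤ s := le_trans (by nlinarith) hs
  have hs0 : 0 < s := lt_of_lt_of_le (by positivity) hs
  unfold A2_P
  rw [A2_g_big ((one_le_div (by positivity)).mpr hs), A2_g_big ((one_le_div (by positivity)).mpr hs2),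
    Real.log_div hs0.ne' (by positivity), Real.log_div hs0.ne' (by positivity)]
  ring

lemma A2_P_nonneg {r R s : ℝ} (hr : 0 < r) (hrR : r ≤ R) (hs : 0 ≤ s) : 0 ≤ A2_P r R s := by
  have hR : 0 < R := hr.trans_le hrR
  rcases le_total (R ^ 2) s with h | h
  · rw [A2_P_zero hr hrR h]
  · have hanti : AntitoneOn (A2_P r R) (Ici 0) := by
      apply antitoneOn_of_deriv_nonpos (convex_Ici 0) (A2_P_smooth r R).continuous.continuousOn
      · exact fun x _ => ((A2_P_deriv r R x).differentiableAt).differentiableWithinAt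
      · intro x hx
        rw [interior_Ici] at hx
        have hx' : 0 < x := hx
        rw [(A2_P_deriv r R x).deriv]
        have e1 := A2_k_mul (x / R ^ 2)
        have e2 := A2_k_mul (x / r ^ 2)
        have hm : A2_T (x / R ^ 2) ≤ A2_T (x / r ^ 2) := by
          apply A2_T_mono
          apply div_le_div_of_nonneg_left hx'.le (by positivity)
          nlinarith
        have e3 : 4 * x * (A2_k (x / R ^ 2) / R ^ 2 - A2_k (x / r ^ 2) / r ^ 2)
            = A2_T (x / R ^ 2) - A2_T (x / r ^ 2) := by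
          rw [← e1, ← e2]; field_simp
        by_contra hcon
        push Not at hcon
        have : 0 < 4 * x * (A2_k (x / R ^ 2) / R ^ 2 - A2_k (x / r ^ 2) / r ^ 2) := by positivity
        linarith
    have := hanti (mem_Ici.mpr hs) (mem_Ici.mpr (by positivity : (0:ℝ) ≤ R ^ 2)) h
    rw [A2_P_zero hr hrR le_rfl] at this
    exact this

lemma A2_P_lap {r R : ℝ} (hr : r ≠ 0) (hR : R ≠ 0) (s : ℝ) : 4 * s * deriv (deriv (A2_P r R)) s + 4 * deriv (A2_P r R) s
    = A2_th (s / R ^ 2) / R ^ 2 - A2_th (s / r ^ 2) / r ^ 2 := by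
  have hd : deriv (A2_P r R) = fun s => A2_k (s / R ^ 2) / R ^ 2 - A2_k (s / r ^ 2) / r ^ 2 :=
    funext fun s => (A2_P_deriv r R s).deriv
  have hsm : Differentiable ℝ (deriv (A2_P r R)) := by
    have := (contDiff_infty_iff_deriv.mp (A2_P_smooth r R)).2
    exact this.differentiable (by simp)
  have h1 : HasDerivAt (fun s => 4 * (s * deriv (A2_P r R) s))
      (4 * (1 * deriv (A2_P r R) s + s * deriv (deriv (A2_P r R)) s)) s :=
    ((hasDerivAt_id s).mul (hsm s).hasDerivAt).const_mul 4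
  have h2 : (fun s => 4 * (s * deriv (A2_P r R) s))
      = fun s => A2_T (s / R ^ 2) - A2_T (s / r ^ 2) := by
    funext x
    rw [hd, ← A2_k_mul (x / R ^ 2), ← A2_k_mul (x / r ^ 2)]
    field_simp
  rw [h2] at h1
  have h3 : HasDerivAt (fun s => A2_T (s / R ^ 2) - A2_T (s / r ^ 2))
      (A2_th (s / R ^ 2) / R ^ 2 - A2_th (s / r ^ 2) / r ^ 2) s :=
    (A2_comp_div (A2_T_deriv (s / R ^ 2))).sub (A2_comp_div (A2_T_deriv (s / r ^ 2)))
  have := h1.unique h3
  linarith

/-- squared distance to `z₀` -/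
def A2_q (z₀ y : ℂ) : ℝ := (y.re - z₀.re) ^ 2 + (y.im - z₀.im) ^ 2

lemma A2_q_eq (z₀ y : ℂ) : A2_q z₀ y = ‖y - z₀‖ ^ 2 := by
  unfold A2_q
  rw [← Complex.normSq_eq_norm_sq, Complex.normSq_apply]
  simp; ring

lemma A2_q_smooth (z₀ : ℂ) : ContDiff ℝ ∞ (A2_q z₀) := by
  unfold A2_q
  have h1 : ContDiff ℝ ∞ (fun y : ℂ => y.re) := Complex.reCLM.contDiff
  have h2 : ContDiff ℝ ∞ (fun y : ℂ => y.im) := Complex.imCLM.contDiff
  fun_prop

lemma A2_q_fderiv (z₀ y v : ℂ) : fderiv ℝ (A2_q z₀) y v =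
    2 * (y.re - z₀.re) * v.re + 2 * (y.im - z₀.im) * v.im := by
  have h1 : HasFDerivAt (fun y : ℂ => y.re - z₀.re) Complex.reCLM y :=
    Complex.reCLM.hasFDerivAt.sub_const _
  have h2 : HasFDerivAt (fun y : ℂ => y.im - z₀.im) Complex.imCLM y :=
    Complex.imCLM.hasFDerivAt.sub_const _
  have h3 := (h1.pow 2).add (h2.pow 2)
  have h4 : HasFDerivAt (A2_q z₀) _ y := h3
  rw [h4.fderiv]
  simp

lemma A2_q_lap (z₀ y : ℂ) : lap (A2_q z₀) y = 4 := by
  unfold lap
  have e1 : (fun y => fderiv ℝ (A2_q z₀) y 1) = fun y : ℂ => 2 * (y.re - z₀.re) := by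
    funext y; rw [A2_q_fderiv]; simp
  have e2 : (fun y => fderiv ℝ (A2_q z₀) y Complex.I) = fun y : ℂ => 2 * (y.im - z₀.im) := by
    funext y; rw [A2_q_fderiv]; simp
  rw [e1, e2]
  have h1 : HasFDerivAt (fun y : ℂ => 2 * (y.re - z₀.re)) ((2 : ℝ) • Complex.reCLM) y :=
    (Complex.reCLM.hasFDerivAt.sub_const _).const_mul _
  have h2 : HasFDerivAt (fun y : ℂ => 2 * (y.im - z₀.im)) ((2 : ℝ) • Complex.imCLM) y :=
    (Complex.imCLM.hasFDerivAt.sub_const _).const_mul _
  rw [h1.fderiv, h2.fderiv]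
  simp; norm_num

lemma A2_lap_comp {r R : ℝ} (hr : r ≠ 0) (hR : R ≠ 0) (z₀ y : ℂ) :
    lap (fun y => A2_P r R (A2_q z₀ y)) y =
      A2_th (A2_q z₀ y / R ^ 2) / R ^ 2 - A2_th (A2_q z₀ y / r ^ 2) / r ^ 2 := by
  rw [lap_comp ((A2_q_smooth z₀).contDiffAt.of_le (WithTop.coe_le_coe.mpr le_top))
    ((A2_P_smooth r R).of_le (WithTop.coe_le_coe.mpr le_top)), A2_q_lap, ← A2_P_lap hr hR, A2_q_fderiv, A2_q_fderiv]
  simp only [Complex.one_re, Complex.one_im, Complex.I_re, Complex.I_im]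
  unfold A2_q
  ring

/-- the unnormalised kernel -/
def A2_K (y : ℂ) : ℝ := A2_th (‖y‖ ^ 2)

lemma A2_K_smooth : ContDiff ℝ ∞ A2_K := by
  have : A2_K = fun y => A2_th (A2_q 0 y) := by
    funext y; unfold A2_K; rw [A2_q_eq, sub_zero]
  rw [this]
  exact A2_th_smooth.comp (A2_q_smooth 0)

lemma A2_K_zero {y : ℂ} (h : 1 ≤ ‖y‖) : A2_K y = 0 := A2_th_zero (by nlinarith)

lemma A2_K_one {y : ℂ} (h : ‖y‖ ≤ 13 / 14) : A2_K y = 1 :=
  A2_th_one (by have := norm_nonneg y; nlinarith)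

lemma A2_K_supp : HasCompactSupport A2_K := by
  apply HasCompactSupport.of_support_subset_isCompact (isCompact_closedBall (0 : ℂ) 1)
  intro y hy
  rw [mem_closedBall_zero_iff]
  by_contra hcon
  push Not at hcon
  exact hy (A2_K_zero hcon.le)

lemma A2_K_int : Integrable A2_K :=
  A2_K_smooth.continuous.integrable_of_hasCompactSupport A2_K_supp

lemma A2_I_le : ∫ y, A2_K y ≤ π := by
  have h1 : ∫ y, A2_K y ≤ ∫ y, (Metric.closedBall (0 : ℂ) 1).indicator (fun _ => (1 : ℝ)) y := by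
    apply integral_mono A2_K_int
    · exact (integrable_indicator_iff measurableSet_closedBall).mpr
        (integrableOn_const (measure_closedBall_lt_top).ne)
    · intro y
      by_cases h : y ∈ Metric.closedBall (0 : ℂ) 1
      · rw [indicator_of_mem h]; exact A2_th_le_one _
      · rw [indicator_of_notMem h]
        rw [mem_closedBall_zero_iff, not_le] at h
        rw [A2_K_zero h.le]
  rw [integral_indicator measurableSet_closedBall] at h1
  simp only [integral_const, smul_eq_mul, mul_one] at h1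
  have h2 : (volume.restrict (Metric.closedBall (0 : ℂ) 1)).real univ = π := by
    rw [measureReal_def, Measure.restrict_apply_univ, Complex.volume_closedBall]
    simp
  rwa [h2] at h1

lemma A2_I_ge : 1 / 100 ≤ ∫ y, A2_K y := by
  have h1 : ∫ y, (Metric.closedBall (0 : ℂ) (13 / 14)).indicator (fun _ => (1 : ℝ)) y ≤
      ∫ y, A2_K y := by
    apply integral_mono _ A2_K_int
    · intro y
      by_cases h : y ∈ Metric.closedBall (0 : ℂ) (13 / 14)
      · rw [indicator_of_mem h]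
        rw [mem_closedBall_zero_iff] at h
        rw [A2_K_one h]
      · rw [indicator_of_notMem h]; exact A2_th_nonneg _
    · exact (integrable_indicator_iff measurableSet_closedBall).mpr
        (integrableOn_const (measure_closedBall_lt_top).ne)
  rw [integral_indicator measurableSet_closedBall] at h1
  simp only [integral_const, smul_eq_mul, mul_one] at h1
  have h2 : (volume.restrict (Metric.closedBall (0 : ℂ) (13 / 14))).real univ
      = (13 / 14) ^ 2 * π := by
    rw [measureReal_def, Measure.restrict_apply_univ, Complex.volume_closedBall]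
    rw [ENNReal.toReal_mul, ENNReal.toReal_pow, ENNReal.toReal_ofReal (by norm_num)]
    simp
  rw [h2] at h1
  have := Real.pi_gt_three
  nlinarith

lemma A2_scale {r : ℝ} (hr : 0 < r) (z₀ : ℂ) (F : ℂ → ℝ) :
    ∫ y, (r ^ 2)⁻¹ * F ((r : ℂ)⁻¹ * (y - z₀)) = ∫ y, F y := by
  rw [integral_const_mul]
  have h1 : ∫ y, F ((r : ℂ)⁻¹ * (y - z₀)) = ∫ y, F ((r : ℂ)⁻¹ * y) :=
    integral_sub_right_eq_self (fun y => F ((r : ℂ)⁻¹ * y)) z₀
  have h2 : ∫ y, F ((r : ℂ)⁻¹ * y) = ∫ y, F (r⁻¹ • y) := by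
    congr 1; funext y; rw [Complex.real_smul]; push_cast; rfl
  rw [h1, h2, Measure.integral_comp_inv_smul, Complex.finrank_real_complex, smul_eq_mul,
    abs_of_pos (by positivity)]
  field_simp

/-- Mean value kernel. Let `θ : ℝ → ℝ` be smooth, nonnegative, zero on `[1, ∞)`, equal to a
positive constant on `(-∞, 169 / 196]` (a multiple of `Real.smoothTransition` of an affine
function), normalised so that `κ y = θ (‖y‖ ^ 2)` has integral one, and
`Θ x = ∫ u in x..1, θ u`. For `κ_R y = R⁻² κ (y / R)` and `Ψ_R y = Θ (‖y‖ ^ 2 / R ^ 2) / 2 ≥ 0`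
(smooth, supported in the closed ball of radius `R`) one has
`∂_R κ_R = R⁻¹ lap Ψ_R`, hence `F R = ∫ h (z₀ + y) κ_R y` is nondecreasing on `(0, R]` when
`∫ h * lap φ ≥ 0` for test functions `φ ≥ 0`, and `F r → h z₀` as `r → 0`. -/
theorem mv_kernel : ∃ κ : ℂ → ℝ, ContDiff ℝ ∞ κ ∧ (∀ y, 0 ≤ κ y) ∧ (∀ y, κ y ≤ 100) ∧
    (∀ y, 1 ≤ ‖y‖ → κ y = 0) ∧ (∀ y, ‖y‖ ≤ 13 / 14 → 1 / 100 ≤ κ y) ∧ (∫ y, κ y = 1) ∧
    ∀ h : ℂ → ℝ, Continuous h → ∀ z₀ : ℂ, ∀ R : ℝ, 0 < R →
      (∀ φ : ℂ → ℝ, ContDiff ℝ ∞ φ → HasCompactSupport φ → tsupport φ ⊆ Metric.closedBall z₀ R →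
        (∀ y, 0 ≤ φ y) → 0 ≤ ∫ y, h y * lap φ y) →
      h z₀ ≤ ∫ y, h y * ((R ^ 2)⁻¹ * κ ((R : ℂ)⁻¹ * (y - z₀))) := by
  set I : ℝ := ∫ y, A2_K y with hI
  have hI1 : 1 / 100 ≤ I := A2_I_ge
  have hI2 : I ≤ π := A2_I_le
  have hI0 : 0 < I := by linarith
  have hK0 : ∀ y, 0 ≤ A2_K y := fun y => A2_th_nonneg _
  refine ⟨fun y => I⁻¹ * A2_K y, contDiff_const.mul A2_K_smooth, fun y => by
    have := hK0 y; positivity, fun y => ?_, fun y hy => by simp [A2_K_zero hy], fun y hy => ?_,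
    ?_, ?_⟩
  · have h1 : A2_K y ≤ 1 := A2_th_le_one _
    have h2 : I⁻¹ ≤ 100 := by
      rw [inv_le_comm₀ hI0 (by norm_num)]; linarith
    have h3 : 0 < I⁻¹ := by positivity
    nlinarith [hK0 y]
  · show 1 / 100 ≤ I⁻¹ * A2_K y
    rw [A2_K_one hy, mul_one, le_inv_comm₀ (by norm_num) hI0]
    have := Real.pi_lt_four
    linarith
  · rw [integral_const_mul, ← hI]; field_simp
  · intro h hh z₀ R hR hsub
    have hint : ∀ ρ : ℝ, 0 < ρ → Integrable fun y : ℂ =>
        h y * ((ρ ^ 2)⁻¹ * A2_K ((ρ : ℂ)⁻¹ * (y - z₀))) := by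
      intro ρ hρ
      have hcont : Continuous fun y : ℂ => h y * ((ρ ^ 2)⁻¹ * A2_K ((ρ : ℂ)⁻¹ * (y - z₀))) := by
        have := A2_K_smooth.continuous
        fun_prop
      apply hcont.integrable_of_hasCompactSupport
      apply HasCompactSupport.of_support_subset_isCompact (isCompact_closedBall z₀ ρ)
      intro y hy
      rw [Metric.mem_closedBall, dist_eq_norm]
      by_contra hcon
      push Not at hcon
      apply hy
      have : 1 ≤ ‖(ρ : ℂ)⁻¹ * (y - z₀)‖ := by
        rw [norm_mul, norm_inv, Complex.norm_real, Real.norm_of_nonneg hρ.le, ← div_eq_inv_mul,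
          one_le_div hρ]
        exact hcon.le
      simp [A2_K_zero this]
    have hsupp : ∀ r, 0 < r → r ≤ R →
        Function.support (fun y => A2_P r R (A2_q z₀ y)) ⊆ Metric.closedBall z₀ R := by
      intro r hr hrR y hy
      rw [Metric.mem_closedBall, dist_eq_norm]
      by_contra hcon
      push Not at hcon
      apply hy
      apply A2_P_zero hr hrR
      rw [A2_q_eq]
      nlinarith
    -- comparison of the scales
    have hcomp : ∀ r, 0 < r → r ≤ R → ∫ y, h y * ((r ^ 2)⁻¹ * A2_K ((r : ℂ)⁻¹ * (y - z₀))) ≤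
        ∫ y, h y * ((R ^ 2)⁻¹ * A2_K ((R : ℂ)⁻¹ * (y - z₀))) := by
      intro r hr hrR
      have hKq : ∀ ρ : ℝ, 0 < ρ → ∀ y : ℂ, (ρ ^ 2)⁻¹ * A2_K ((ρ : ℂ)⁻¹ * (y - z₀)) =
          A2_th (A2_q z₀ y / ρ ^ 2) / ρ ^ 2 := by
        intro ρ hρ y
        unfold A2_K
        rw [A2_q_eq, norm_mul, norm_inv, Complex.norm_real, Real.norm_of_nonneg hρ.le, mul_pow,
          inv_pow]
        rw [div_eq_inv_mul (‖y - z₀‖ ^ 2), div_eq_inv_mul (A2_th _)]
      have h0 := hsub (fun y => A2_P r R (A2_q z₀ y)) ((A2_P_smooth r R).comp (A2_q_smooth z₀)) ?_ ?_ ?_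
      · have h1 : ∫ y, h y * lap (fun y => A2_P r R (A2_q z₀ y)) y =
            ∫ y, (h y * ((R ^ 2)⁻¹ * A2_K ((R : ℂ)⁻¹ * (y - z₀))) -
              h y * ((r ^ 2)⁻¹ * A2_K ((r : ℂ)⁻¹ * (y - z₀)))) := by
          congr 1; funext y
          rw [A2_lap_comp hr.ne' hR.ne', hKq R hR, hKq r hr]; ring
        rw [h1, integral_sub (hint R hR) (hint r hr)] at h0
        linarith
      · apply HasCompactSupport.of_support_subset_isCompact (isCompact_closedBall z₀ R)
        exact hsupp r hr hrR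
      · exact closure_minimal (hsupp r hr hrR) Metric.isClosed_closedBall
      · intro y
        apply A2_P_nonneg hr hrR
        unfold A2_q; positivity
    by_contra hcon
    push Not at hcon
    set FR := ∫ y, h y * ((R ^ 2)⁻¹ * (I⁻¹ * A2_K ((R : ℂ)⁻¹ * (y - z₀)))) with hFR
    obtain ⟨δ, hδ, hδh⟩ := Metric.continuousAt_iff.mp hh.continuousAt ((h z₀ - FR) / 2)
      (by linarith)
    set r := min R δ with hr
    have hr0 : 0 < r := lt_min hR hδ
    have h1 := hcomp r hr0 (min_le_left _ _)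
    have e1 : ∀ ρ : ℝ, ∫ y, h y * ((ρ ^ 2)⁻¹ * (I⁻¹ * A2_K ((ρ : ℂ)⁻¹ * (y - z₀)))) =
        I⁻¹ * ∫ y, h y * ((ρ ^ 2)⁻¹ * A2_K ((ρ : ℂ)⁻¹ * (y - z₀))) := by
      intro ρ
      rw [← integral_const_mul]
      congr 1; funext y; ring
    have h2 : I⁻¹ * ∫ y, h y * ((r ^ 2)⁻¹ * A2_K ((r : ℂ)⁻¹ * (y - z₀))) ≤ FR := by
      rw [hFR, e1]
      exact mul_le_mul_of_nonneg_left h1 (by positivity)
    have h3 : (h z₀ - (h z₀ - FR) / 2) * I ≤
        ∫ y, h y * ((r ^ 2)⁻¹ * A2_K ((r : ℂ)⁻¹ * (y - z₀))) := by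
      rw [hI, ← A2_scale hr0 z₀ A2_K, ← integral_const_mul]
      apply integral_mono _ (hint r hr0)
      · intro y
        show (h z₀ - (h z₀ - FR) / 2) * ((r ^ 2)⁻¹ * A2_K ((r : ℂ)⁻¹ * (y - z₀))) ≤ _
        by_cases hy : dist y z₀ < r
        · have := hδh (lt_of_lt_of_le hy (min_le_right _ _))
          rw [Real.dist_eq, abs_lt] at this
          apply mul_le_mul_of_nonneg_right (by linarith)
          have := hK0 ((r : ℂ)⁻¹ * (y - z₀))
          positivity
        · push Not at hy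
          rw [dist_eq_norm] at hy
          have : 1 ≤ ‖(r : ℂ)⁻¹ * (y - z₀)‖ := by
            rw [norm_mul, norm_inv, Complex.norm_real, Real.norm_of_nonneg hr0.le, ← div_eq_inv_mul,
              one_le_div hr0]
            exact hy
          simp [A2_K_zero this]
      · refine Integrable.const_mul ?_ _
        have hcont : Continuous fun y : ℂ => (r ^ 2)⁻¹ * A2_K ((r : ℂ)⁻¹ * (y - z₀)) := by
          have := A2_K_smooth.continuous
          fun_prop
        apply hcont.integrable_of_hasCompactSupport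
        apply HasCompactSupport.of_support_subset_isCompact (isCompact_closedBall z₀ r)
        intro y hy
        rw [Metric.mem_closedBall, dist_eq_norm]
        by_contra hcon
        push Not at hcon
        apply hy
        have : 1 ≤ ‖(r : ℂ)⁻¹ * (y - z₀)‖ := by
          rw [norm_mul, norm_inv, Complex.norm_real, Real.norm_of_nonneg hr0.le, ← div_eq_inv_mul,
            one_le_div hr0]
          exact hcon.le
        simp [A2_K_zero this]
    have h4 : h z₀ - (h z₀ - FR) / 2 ≤ I⁻¹ * ∫ y, h y * ((r ^ 2)⁻¹ * A2_K ((r : ℂ)⁻¹ * (y - z₀))) := by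
      rw [← div_eq_inv_mul, le_div_iff₀ hI0]
      exact h3
    linarith

end Pool.Agent.Helper34.BD
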