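import Pool.Agent.Helper34.BD.St.A2

set_option autoImplicit false

open MeasureTheory Real Filter Topology Set InnerProductSpace
open scoped ContDiff

noncomputable section

namespace Pool.Agent.Helper34.BD

open Pool.Agent.Helper12.RD

/-- `w` is smooth at the points of `O` -/
theorem A3_smooth {w : ℂ → ℝ} (hc : Continuous w) {O : Set ℂ} (hO : IsOpen O)
    (h : ∀ φ : ℂ → ℝ, ContDiff ℝ ∞ φ → HasCompactSupport φ → tsupport φ ⊆ O →
      ∫ z, w z * lap φ z = 0) {z₀ : ℂ} (hz₀ : z₀ ∈ O) : ContDiffAt ℝ ∞ w z₀ := by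
  obtain ⟨κ, hκ1, -, -, hκ4, -, -, hκ7⟩ := mv_kernel
  obtain ⟨δ, hδ, hball⟩ := Metric.isOpen_iff.1 hO z₀ hz₀
  set R : ℝ := δ / 2 with hR
  have hR0 : 0 < R := by positivity
  set K : ℂ → ℝ := fun u => (R ^ 2)⁻¹ * κ ((R : ℂ)⁻¹ * (-u)) with hK
  -- the representation
  have hrep : ∀ z ∈ Metric.ball z₀ R, w z = ∫ y, K (z - y) * w y := by
    intro z hz
    have hsub : Metric.closedBall z R ⊆ O := by
      intro y hy
      apply hball
      rw [Metric.mem_ball] at hz ⊢
      rw [Metric.mem_closedBall] at hy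
      calc dist y z₀ ≤ dist y z + dist z z₀ := dist_triangle _ _ _
        _ < R + R := by linarith
        _ = δ := by rw [hR]; ring
    have h1 := hκ7 w hc z R hR0 (fun φ a1 a2 a3 _ => (h φ a1 a2 (a3.trans hsub)).ge)
    have h2 := hκ7 (fun y => - w y) hc.neg z R hR0 (fun φ a1 a2 a3 _ => by
      have := h φ a1 a2 (a3.trans hsub)
      simp only [neg_mul, integral_neg]
      rw [this, neg_zero])
    simp only [neg_mul, integral_neg] at h2
    have h3 : w z = ∫ y, w y * ((R ^ 2)⁻¹ * κ ((R : ℂ)⁻¹ * (y - z))) :=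
      le_antisymm h1 (by linarith)
    rw [h3]
    refine integral_congr_ae (Eventually.of_forall fun y => ?_)
    simp only [hK, neg_sub]
    ring
  have hKs : ContDiff ℝ ∞ K := by
    refine contDiff_const.mul (hκ1.comp ?_)
    exact contDiff_const.mul contDiff_neg
  have hKc : HasCompactSupport K := by
    refine HasCompactSupport.of_support_subset_isCompact (isCompact_closedBall (0 : ℂ) R) ?_
    intro u hu
    rw [Metric.mem_closedBall, dist_zero_right]
    by_contra hcon
    apply hu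
    simp only [hK]
    rw [hκ4, mul_zero]
    rw [norm_mul, norm_inv, norm_neg, Complex.norm_real, Real.norm_of_nonneg hR0.le,
      ← div_eq_inv_mul, le_div_iff₀ hR0]
    linarith [not_le.1 hcon]
  have hconv : ContDiff ℝ ∞ (convolution K w (ContinuousLinearMap.lsmul ℝ ℝ) volume) :=
    hKc.contDiff_convolution_left (n := ⊤) _ hKs hc.locallyIntegrable
  refine hconv.contDiffAt.congr_of_eventuallyEq ?_
  filter_upwards [Metric.ball_mem_nhds z₀ hR0] with z hz
  rw [hrep z hz, convolution_eq_swap]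
  rfl

/-- Weyl's lemma. Near `z₀ ∈ O` apply the inequality of `mv_kernel` to `w` and `-w` at all
centres near `z₀` with a fixed small `R`: `w z = ∫ w y R⁻² κ ((y - z) / R) dy`, a convolution
with a smooth compactly supported kernel (after multiplying `w` by a cutoff), so `w` is smooth
near `z₀`; then `lap w = 0` there by `lap_symm`. -/
theorem weyl2 {w : ℂ → ℝ} (hc : Continuous w) {O : Set ℂ} (hO : IsOpen O)
    (h : ∀ φ : ℂ → ℝ, ContDiff ℝ ∞ φ → HasCompactSupport φ → tsupport φ ⊆ O →
      ∫ z, w z * lap φ z = 0) : ∀ z ∈ O, HarmonicAt w z := by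
  have hs : ∀ z ∈ O, ContDiffAt ℝ ∞ w z := fun z hz => A3_smooth hc hO h hz
  have hs2 : ∀ z ∈ O, ContDiffAt ℝ 2 w z := fun z hz =>
    (hs z hz).of_le (by
      have h : ((2 : ℕ∞) : WithTop ℕ∞) ≤ ((⊤ : ℕ∞) : WithTop ℕ∞) := WithTop.coe_le_coe.2 le_top
      exact h)
  have hcl : ContinuousOn (lap w) O := fun z hz =>
    (lap_continuousAt (hs2 z hz)).continuousWithinAt
  have hae : ∀ᵐ z, z ∈ O → lap w z = 0 := by
    refine hO.ae_eq_zero_of_integral_contDiff_smul_eq_zero
      (hcl.locallyIntegrableOn hO.measurableSet) fun g g1 g2 g3 => ?_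
    have h1 := lap_symm (h := w) g1 g2 (fun z hz => hs2 z (g3 hz))
    rw [h g g1 g2 g3] at h1
    rw [h1]
    refine integral_congr_ae (Eventually.of_forall fun y => ?_)
    simp only [smul_eq_mul]
    ring
  have hz : ∀ z ∈ O, lap w z = 0 := by
    have h2 : EqOn (lap w) (fun _ => 0) O := by
      refine Measure.eqOn_open_of_ae_eq (μ := volume) ?_ hO hcl continuousOn_const
      rw [Filter.EventuallyEq, ae_restrict_iff' hO.measurableSet]
      exact hae
    exact h2
  intro z hzO
  rw [harm_iff]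
  exact ⟨hs2 z hzO, Filter.eventually_of_mem (hO.mem_nhds hzO) hz⟩

end Pool.Agent.Helper34.BD
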