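import Pool.Agent.Helper34.BD.St.A0

set_option autoImplicit false

open MeasureTheory Real Filter Topology Set InnerProductSpace
open scoped ContDiff

noncomputable section

namespace Pool.Agent.Helper34.BD

open Pool.Agent.Helper12.RD

/-- smooth convex approximation of `x ↦ max x 0` -/
theorem exists_convex (δ : ℝ) (hδ : 0 < δ) : ∃ G : ℝ → ℝ, ContDiff ℝ ∞ G ∧ (∀ x, x ≤ 0 → G x = 0) ∧
    (∀ x, 0 ≤ G x) ∧ (∀ x, G x ≤ max x 0) ∧ (∀ x, x - δ ≤ G x) ∧ (∀ x, 0 ≤ deriv (deriv G) x) ∧
    (∀ x, 0 ≤ deriv G x) ∧ ∀ x, δ ≤ x → deriv (deriv G) x = 0 ∧ deriv G x = 1 := by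
  set s : ℝ → ℝ := fun t => Real.smoothTransition (t / δ) with hs
  have hsc : Continuous s := Real.smoothTransition.continuous.comp (continuous_id.div_const δ)
  have hsd : ContDiff ℝ ∞ s := Real.smoothTransition.contDiff.comp (contDiff_id.div_const δ)
  have hs0 : ∀ t, t ≤ 0 → s t = 0 := fun t ht =>
    Real.smoothTransition.zero_of_nonpos (div_nonpos_of_nonpos_of_nonneg ht hδ.le)
  have hs1 : ∀ t, δ ≤ t → s t = 1 := fun t ht =>
    Real.smoothTransition.one_of_one_le ((one_le_div hδ).2 ht)
  have hsn : ∀ t, 0 ≤ s t := fun t => Real.smoothTransition.nonneg _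
  have hsl : ∀ t, s t ≤ 1 := fun t => Real.smoothTransition.le_one _
  have hsm : Monotone s := fun a b hab =>
    Real.smoothTransition.monotone (div_le_div_of_nonneg_right hab hδ.le)
  set G : ℝ → ℝ := fun x => ∫ t in (0 : ℝ)..x, s t with hG
  have hGd : ∀ x, HasDerivAt G (s x) x := fun x =>
    intervalIntegral.integral_hasDerivAt_right (hsc.intervalIntegrable _ _)
      hsc.stronglyMeasurable.stronglyMeasurableAtFilter hsc.continuousAt
  have hGe : deriv G = s := funext fun x => (hGd x).deriv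
  have hG0 : ∀ x, x ≤ 0 → G x = 0 := by
    intro x hx
    have h1 : G x = ∫ t in (0 : ℝ)..x, (0 : ℝ) := by
      refine intervalIntegral.integral_congr fun t ht => ?_
      rw [uIcc_of_ge hx] at ht
      exact hs0 t ht.2
    rw [h1]
    simp
  have hGn : ∀ x, 0 ≤ G x := by
    intro x
    rcases le_total x 0 with hx | hx
    · rw [hG0 x hx]
    · exact intervalIntegral.integral_nonneg hx fun t _ => hsn t
  have hGx : Differentiable ℝ G := fun x => (hGd x).differentiableAt
  refine ⟨G, ?_, hG0, hGn, ?_, ?_, ?_, ?_, ?_⟩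
  · rw [contDiff_infty_iff_deriv, hGe]
    exact ⟨hGx, hsd⟩
  · intro x
    rcases le_total x 0 with hx | hx
    · rw [hG0 x hx]
      exact le_max_right _ _
    · refine le_trans ?_ (le_max_left _ _)
      have h1 : G x ≤ ∫ t in (0 : ℝ)..x, (1 : ℝ) :=
        intervalIntegral.integral_mono_on hx (hsc.intervalIntegrable _ _)
          (continuous_const.intervalIntegrable _ _) fun t _ => hsl t
      simpa using h1
  · intro x
    rcases le_total x δ with hx | hx
    · linarith [hGn x]
    · have h1 : ∫ t in (0 : ℝ)..x, s t = (∫ t in (0 : ℝ)..δ, s t) + ∫ t in δ..x, s t :=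
        (intervalIntegral.integral_add_adjacent_intervals (hsc.intervalIntegrable _ _)
          (hsc.intervalIntegrable _ _)).symm
      have h2 : ∫ t in δ..x, s t = ∫ t in δ..x, (1 : ℝ) := by
        refine intervalIntegral.integral_congr fun t ht => ?_
        rw [uIcc_of_le hx] at ht
        exact hs1 t ht.1
      have h3 : G x = G δ + (x - δ) := by
        show ∫ t in (0 : ℝ)..x, s t = _
        rw [h1, h2]
        simp [hG]
      rw [h3]
      linarith [hGn δ]
  · intro x
    rw [hGe]
    exact hsm.deriv_nonneg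
  · intro x
    rw [hGe]
    exact hsn x
  · intro x hx
    rw [hGe]
    refine ⟨?_, hs1 x hx⟩
    have h1 : IsLocalMax s x := by
      refine Filter.Eventually.of_forall fun y => ?_
      rw [hs1 x hx]
      exact hsl y
    exact h1.deriv_eq_zero

theorem A4a_pos {v : ℂ → ℝ} {c' : ℝ} {z : ℂ} (hv : ContDiffAt ℝ 2 v z) (hl : lap v z = 0)
    {G : ℝ → ℝ} (hG : ContDiff ℝ ∞ G) :
    lap (fun y => G (v y - c')) z = deriv (deriv G) (v z - c') * ‖fderiv ℝ v z‖ ^ 2 := by
  have hH : ContDiff ℝ 2 (fun x => G (x - c')) :=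
    (contDiff_infty.1 hG 2).comp (contDiff_id.sub contDiff_const)
  have h1 := lap_comp hv hH
  have h2 : deriv (fun x => G (x - c')) = fun x => deriv G (x - c') := by
    funext x
    exact deriv_comp_sub_const _ _ _
  have h3 : deriv (fun x => deriv G (x - c')) = fun x => deriv (deriv G) (x - c') := by
    funext x
    exact deriv_comp_sub_const _ _ _
  rw [h1, h2, h3, hl, norm_fderiv_sq]
  ring

/-- If `v` is continuous and harmonic at the points of a set where `|v| > c`, and `G` is smooth
and zero on `(-∞, 0]`, then `G (|v| - c')` is smooth at the points of the set, for `c < c'`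
and `0 ≤ c`, with Laplacian `G'' (|v| - c') |∇ v| ^ 2`. -/
theorem comp_smooth {v : ℂ → ℝ} (hv : Continuous v) {c c' : ℝ} (hc : 0 ≤ c) (hcc : c < c')
    {z : ℂ} (hz : c < |v z| → HarmonicAt v z) {G : ℝ → ℝ} (hG : ContDiff ℝ ∞ G)
    (hG0 : ∀ x, x ≤ 0 → G x = 0) :
    ContDiffAt ℝ ∞ (fun y => G (|v y| - c')) z ∧
      lap (fun y => G (|v y| - c')) z = deriv (deriv G) (|v z| - c') * ‖fderiv ℝ v z‖ ^ 2 := by
  rcases lt_or_ge (|v z|) c' with h | h
  · have h1 : (fun y => G (|v y| - c')) =ᶠ[𝓝 z] fun _ => (0 : ℝ) := by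
      filter_upwards [hv.abs.continuousAt.eventually (gt_mem_nhds h)] with y hy
      exact hG0 _ (by linarith)
    refine ⟨contDiffAt_const.congr_of_eventuallyEq h1, ?_⟩
    have h2 : deriv G =ᶠ[𝓝 (|v z| - c')] fun _ => (0 : ℝ) := by
      have h3 : |v z| - c' < 0 := by linarith
      filter_upwards [gt_mem_nhds h3] with x hx
      have h4 : G =ᶠ[𝓝 x] fun _ => (0 : ℝ) := by
        filter_upwards [gt_mem_nhds hx] with y hy
        exact hG0 y hy.le
      rw [h4.deriv_eq]
      simp
    rw [lap_congr h1, h2.deriv_eq]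
    simp [lap]
  · have hh : HarmonicAt v z := hz (lt_of_lt_of_le hcc h)
    have hsm : ContDiffAt ℝ ∞ v z := harm_smooth hh
    have h2 : ContDiffAt ℝ 2 v z := hh.1
    have hl : lap v z = 0 := (harm_iff.1 hh).2.self_of_nhds
    have h0 : 0 < |v z| := lt_of_lt_of_le (lt_of_le_of_lt hc hcc) h
    rcases lt_or_gt_of_ne (abs_pos.1 h0) with hn | hp
    · have h1 : (fun y => G (|v y| - c')) =ᶠ[𝓝 z] fun y => G ((fun y => -1 * v y) y - c') := by
        filter_upwards [hv.continuousAt.eventually (gt_mem_nhds hn)] with y hy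
        rw [abs_of_neg hy]
        simp
      have hsm' : ContDiffAt ℝ ∞ (fun y => -1 * v y) z := contDiffAt_const.mul hsm
      have h2' : ContDiffAt ℝ 2 (fun y => -1 * v y) z := contDiffAt_const.mul h2
      have hl' : lap (fun y => -1 * v y) z = 0 := by
        rw [lap_const_mul h2, hl, mul_zero]
      refine ⟨ContDiffAt.congr_of_eventuallyEq ?_ h1, ?_⟩
      · exact (hG.contDiffAt).comp z (hsm'.sub contDiffAt_const)
      · rw [lap_congr h1, A4a_pos h2' hl' hG, abs_of_neg hn,
          fderiv_const_mul (h2.differentiableAt two_ne_zero), norm_smul]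
        simp
    · have h1 : (fun y => G (|v y| - c')) =ᶠ[𝓝 z] fun y => G (v y - c') := by
        filter_upwards [hv.continuousAt.eventually (lt_mem_nhds hp)] with y hy
        rw [abs_of_pos hy]
      refine ⟨ContDiffAt.congr_of_eventuallyEq ?_ h1, ?_⟩
      · exact (hG.contDiffAt).comp z (hsm.sub contDiffAt_const)
      · rw [lap_congr h1, A4a_pos h2 hl hG, abs_of_pos hp]

end Pool.Agent.Helper34.BD
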