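import Pool.Agent.Helper34.BD.St.A2
import Pool.Agent.Helper34.BD.St.A4a

set_option autoImplicit false

open MeasureTheory Real Filter Topology Set InnerProductSpace
open scoped ContDiff

noncomputable section

namespace Pool.Agent.Helper34.BD

open Pool.Agent.Helper12.RD

/-- the rescaled kernel: continuity, support and sign -/
theorem A4b_kernel {κ : ℂ → ℝ} (hκc : ContDiff ℝ ∞ κ) (hκ0 : ∀ y, 0 ≤ κ y)
    (hκ2 : ∀ y, 1 ≤ ‖y‖ → κ y = 0) {R : ℝ} (hR : 0 < R) (z₀ : ℂ) :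
    Continuous (fun y : ℂ => (R ^ 2)⁻¹ * κ ((R : ℂ)⁻¹ * (y - z₀))) ∧
      (∀ y : ℂ, 0 ≤ (R ^ 2)⁻¹ * κ ((R : ℂ)⁻¹ * (y - z₀))) ∧
      (∀ y : ℂ, y ∉ Metric.closedBall z₀ R → (R ^ 2)⁻¹ * κ ((R : ℂ)⁻¹ * (y - z₀)) = 0) := by
  refine ⟨?_, ?_, ?_⟩
  · exact continuous_const.mul (hκc.continuous.comp
      (continuous_const.mul (continuous_id.sub continuous_const)))
  · intro y
    exact mul_nonneg (by positivity) (hκ0 _)
  · intro y hy
    rw [Metric.mem_closedBall, not_le, dist_eq_norm] at hy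
    rw [hκ2, mul_zero]
    rw [norm_mul, norm_inv, Complex.norm_real, Real.norm_of_nonneg hR.le, ← div_eq_inv_mul,
      le_div_iff₀ hR]
    linarith

/-- products of a continuous function with the rescaled kernel are integrable -/
theorem A4b_integrable {κ : ℂ → ℝ} (hκc : ContDiff ℝ ∞ κ) (hκ0 : ∀ y, 0 ≤ κ y)
    (hκ2 : ∀ y, 1 ≤ ‖y‖ → κ y = 0) {R : ℝ} (hR : 0 < R) (z₀ : ℂ) {h : ℂ → ℝ}
    (hh : Continuous h) :
    Integrable (fun y : ℂ => h y * ((R ^ 2)⁻¹ * κ ((R : ℂ)⁻¹ * (y - z₀)))) := by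
  obtain ⟨h1, -, h3⟩ := A4b_kernel hκc hκ0 hκ2 hR z₀
  refine (hh.mul h1).integrable_of_hasCompactSupport ?_
  refine HasCompactSupport.of_support_subset_isCompact (isCompact_closedBall z₀ R) ?_
  intro y hy
  by_contra hcon
  apply hy
  show h y * ((R ^ 2)⁻¹ * κ ((R : ℂ)⁻¹ * (y - z₀))) = 0
  rw [h3 y hcon, mul_zero]


/-- Submean value property for `(|v| - c)⁺` with the kernel of `mv_kernel`: apply it to
`G (|v| - c')` with `G` from `exists_convex`, and let `c' → c`, `δ → 0`. -/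
theorem submean {κ : ℂ → ℝ} (hκc : ContDiff ℝ ∞ κ) (hκ0 : ∀ y, 0 ≤ κ y) (hκ2 : ∀ y, 1 ≤ ‖y‖ → κ y = 0)
    (hκ : ∀ h : ℂ → ℝ, Continuous h → ∀ z₀ : ℂ, ∀ R : ℝ, 0 < R →
      (∀ φ : ℂ → ℝ, ContDiff ℝ ∞ φ → HasCompactSupport φ → tsupport φ ⊆ Metric.closedBall z₀ R →
        (∀ y, 0 ≤ φ y) → 0 ≤ ∫ y, h y * lap φ y) →
      h z₀ ≤ ∫ y, h y * ((R ^ 2)⁻¹ * κ ((R : ℂ)⁻¹ * (y - z₀))))
    {v : ℂ → ℝ} (hv : Continuous v) {c R : ℝ} (hc : 0 ≤ c) (hR : 0 < R) {z₀ : ℂ}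
    (hh : ∀ z ∈ Metric.closedBall z₀ R, c < |v z| → HarmonicAt v z) :
    max 0 (|v z₀| - c) ≤ ∫ y, max 0 (|v y| - c) * ((R ^ 2)⁻¹ * κ ((R : ℂ)⁻¹ * (y - z₀))) := by
  obtain ⟨-, hK0, -⟩ := A4b_kernel hκc hκ0 hκ2 hR z₀
  have hmaxc : Continuous (fun y => max 0 (|v y| - c)) :=
    continuous_const.max (hv.abs.sub continuous_const)
  have hI0 : 0 ≤ ∫ y, max 0 (|v y| - c) * ((R ^ 2)⁻¹ * κ ((R : ℂ)⁻¹ * (y - z₀))) :=
    integral_nonneg fun y => mul_nonneg (le_max_left _ _) (hK0 y)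
  refine max_le hI0 ?_
  refine le_of_forall_pos_le_add fun ε hε => ?_
  obtain ⟨G, hG1, hG2, hG3, hG4, hG5, hG6, -, -⟩ := exists_convex (ε / 2) (by positivity)
  have hcc : c < c + ε / 2 := by linarith
  have hhc : Continuous (fun y => G (|v y| - (c + ε / 2))) :=
    hG1.continuous.comp (hv.abs.sub continuous_const)
  have key := hκ (fun y => G (|v y| - (c + ε / 2))) hhc z₀ R hR (fun φ a1 a2 a3 a4 => by
    have hs : ∀ z ∈ tsupport φ, ContDiffAt ℝ 2 (fun y => G (|v y| - (c + ε / 2))) z := by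
      intro z hz
      refine ((comp_smooth hv hc hcc (hh z (a3 hz)) hG1 hG2).1).of_le ?_
      have h : ((2 : ℕ∞) : WithTop ℕ∞) ≤ ((⊤ : ℕ∞) : WithTop ℕ∞) := WithTop.coe_le_coe.2 le_top
      exact h
    rw [lap_symm a1 a2 hs]
    refine integral_nonneg fun z => ?_
    by_cases hz : z ∈ tsupport φ
    · refine mul_nonneg ?_ (a4 z)
      rw [(comp_smooth hv hc hcc (hh z (a3 hz)) hG1 hG2).2]
      exact mul_nonneg (hG6 _) (by positivity)
    · rw [image_eq_zero_of_notMem_tsupport hz, mul_zero]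
      exact le_rfl)
  have h1 : ∫ y, G (|v y| - (c + ε / 2)) * ((R ^ 2)⁻¹ * κ ((R : ℂ)⁻¹ * (y - z₀))) ≤
      ∫ y, max 0 (|v y| - c) * ((R ^ 2)⁻¹ * κ ((R : ℂ)⁻¹ * (y - z₀))) := by
    refine integral_mono (A4b_integrable hκc hκ0 hκ2 hR z₀ hhc)
      (A4b_integrable hκc hκ0 hκ2 hR z₀ hmaxc) fun y => ?_
    refine mul_le_mul_of_nonneg_right ?_ (hK0 y)
    refine (hG4 _).trans ?_
    rw [max_comm]
    exact max_le_max le_rfl (by linarith)
  have h2 := hG5 (|v z₀| - (c + ε / 2))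
  linarith

/-- the crude form -/
theorem submean_ball {v : ℂ → ℝ} (hv : Continuous v) {c R : ℝ} (hc : 0 ≤ c) (hR : 0 < R) {z₀ : ℂ}
    (hh : ∀ z ∈ Metric.closedBall z₀ R, c < |v z| → HarmonicAt v z) :
    |v z₀| ≤ c + 100 / R ^ 2 * ∫ y in Metric.closedBall z₀ R, |v y| := by
  obtain ⟨κ, hκ1, hκ2, hκ3, hκ4, -, -, hκ7⟩ := mv_kernel
  have h1 := submean hκ1 hκ2 hκ4 hκ7 hv hc hR hh
  obtain ⟨-, hK0, hK1⟩ := A4b_kernel hκ1 hκ2 hκ4 hR z₀
  have hmaxc : Continuous (fun y => max 0 (|v y| - c)) :=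
    continuous_const.max (hv.abs.sub continuous_const)
  have h2 : ∫ y, max 0 (|v y| - c) * ((R ^ 2)⁻¹ * κ ((R : ℂ)⁻¹ * (y - z₀))) ≤
      ∫ y, (Metric.closedBall z₀ R).indicator (fun y => 100 / R ^ 2 * |v y|) y := by
    refine integral_mono (A4b_integrable hκ1 hκ2 hκ4 hR z₀ hmaxc) ?_ fun y => ?_
    · rw [integrable_indicator_iff measurableSet_closedBall]
      exact (continuous_const.mul hv.abs).continuousOn.integrableOn_compact
        (isCompact_closedBall z₀ R)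
    · by_cases hy : y ∈ Metric.closedBall z₀ R
      · rw [indicator_of_mem hy]
        have h3 : max 0 (|v y| - c) ≤ |v y| := max_le (abs_nonneg _) (by linarith)
        have h4 : (R ^ 2)⁻¹ * κ ((R : ℂ)⁻¹ * (y - z₀)) ≤ 100 / R ^ 2 := by
          rw [div_eq_inv_mul]
          exact mul_le_mul_of_nonneg_left (hκ3 _) (by positivity)
        calc max 0 (|v y| - c) * ((R ^ 2)⁻¹ * κ ((R : ℂ)⁻¹ * (y - z₀)))
            ≤ |v y| * (100 / R ^ 2) := mul_le_mul h3 h4 (hK0 y) (abs_nonneg _)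
          _ = 100 / R ^ 2 * |v y| := mul_comm _ _
      · rw [indicator_of_notMem hy]
        simp only
        rw [hK1 y hy, mul_zero]
  rw [integral_indicator measurableSet_closedBall, integral_const_mul] at h2
  have h3 := le_max_right 0 (|v z₀| - c)
  linarith

end Pool.Agent.Helper34.BD
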