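import Pool.Agent.Helper34.BD.St.A4b

set_option autoImplicit false

open MeasureTheory Real Filter Topology Set InnerProductSpace
open scoped ContDiff

noncomputable section

namespace Pool.Agent.Helper34.BD

open Pool.Agent.Helper12.RD

/-- closed annuli are connected -/
theorem A5_ann (z₀ : ℂ) {r η : ℝ} (hηr : η < r) :
    IsPreconnected {z : ℂ | r - η ≤ ‖z - z₀‖ ∧ ‖z - z₀‖ ≤ r + η} := by
  have h1 : IsPreconnected (Metric.sphere (0 : ℂ) 1) :=
    isPreconnected_sphere (by rw [Complex.rank_real_complex]; exact Cardinal.one_lt_two) 0 1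
  have h2 := (h1.prod (isPreconnected_Icc (a := r - η) (b := r + η))).image
    (fun q : ℂ × ℝ => z₀ + (q.2 : ℂ) * q.1) (by fun_prop)
  convert h2 using 1
  ext z
  simp only [mem_ofPred_eq, mem_image, mem_prod, Prod.exists, mem_sphere_iff_norm, sub_zero,
    mem_Icc]
  constructor
  · rintro ⟨a, b⟩
    have hp : 0 < ‖z - z₀‖ := by linarith
    have hp' : (‖z - z₀‖ : ℂ) ≠ 0 := Complex.ofReal_ne_zero.2 hp.ne'
    refine ⟨((‖z - z₀‖ : ℂ))⁻¹ * (z - z₀), ‖z - z₀‖, ⟨?_, a, b⟩, ?_⟩
    · rw [norm_mul, norm_inv, Complex.norm_real, norm_norm, inv_mul_cancel₀ hp.ne']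
    · rw [mul_inv_cancel_left₀ hp', add_sub_cancel]
  · rintro ⟨u, ρ, ⟨hu, h1, h2⟩, rfl⟩
    have hρ : 0 < ρ := by linarith
    rw [add_sub_cancel_left, norm_mul, Complex.norm_real, hu, mul_one, Real.norm_of_nonneg hρ.le]
    exact ⟨h1, h2⟩

theorem A5_thick {z₀ : ℂ} {r δ : ℝ} (hr : 0 < r) (z : ℂ) (hz : 0 < ‖z - z₀‖)
    (h : |‖z - z₀‖ - r| < δ) : z ∈ Metric.thickening δ (Metric.sphere z₀ r) := by
  rw [Metric.mem_thickening_iff]
  refine ⟨z₀ + ((r / ‖z - z₀‖ : ℝ) : ℂ) * (z - z₀), ?_, ?_⟩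
  · rw [mem_sphere_iff_norm, add_sub_cancel_left, norm_mul, Complex.norm_real,
      Real.norm_of_nonneg (by positivity), div_mul_cancel₀ _ hz.ne']
  · rw [dist_eq_norm]
    have h1 : z - (z₀ + ((r / ‖z - z₀‖ : ℝ) : ℂ) * (z - z₀)) =
        ((1 - r / ‖z - z₀‖ : ℝ) : ℂ) * (z - z₀) := by push_cast; ring
    rw [h1, norm_mul, Complex.norm_real, Real.norm_eq_abs]
    have h2 : |1 - r / ‖z - z₀‖| * ‖z - z₀‖ = |‖z - z₀‖ - r| := by
      have h3 : |‖z - z₀‖| = ‖z - z₀‖ := abs_of_pos hz
      calc |1 - r / ‖z - z₀‖| * ‖z - z₀‖ = |1 - r / ‖z - z₀‖| * |‖z - z₀‖| := by rw [h3]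
        _ = |(1 - r / ‖z - z₀‖) * ‖z - z₀‖| := (abs_mul _ _).symm
        _ = _ := by rw [sub_mul, one_mul, div_mul_cancel₀ _ hz.ne']
    rw [h2]
    exact h

/-- constant sign on the annulus -/
theorem A5_sign {v : ℂ → ℝ} (hv : Continuous v) {A : Set ℂ} (hA : IsPreconnected A)
    (h : ∀ z ∈ A, v z ≠ 0) : ∃ σ : ℝ, ∀ z ∈ A, |v z| = σ * v z := by
  by_cases hneg : ∃ z ∈ A, v z < 0
  · obtain ⟨z₁, hz₁, h1⟩ := hneg
    refine ⟨-1, fun z hz => ?_⟩
    have h2 : v z ≤ 0 := by
      by_contra hcon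
      push Not at hcon
      obtain ⟨y, hy, hy0⟩ := hA.intermediate_value hz₁ hz hv.continuousOn ⟨h1.le, hcon.le⟩
      exact h y hy hy0
    rw [abs_of_nonpos h2]
    ring
  · push Not at hneg
    refine ⟨1, fun z hz => ?_⟩
    rw [abs_of_nonneg (hneg z hz), one_mul]

/-- value of `G` beyond `δ` -/
theorem A5_lin {G : ℝ → ℝ} {δ : ℝ} (hG : ContDiff ℝ ∞ G) (h : ∀ x, δ ≤ x → deriv G x = 1)
    {x : ℝ} (hx : δ ≤ x) : G x = G δ + (x - δ) := by
  have hd : Differentiable ℝ G := hG.differentiable (by simp)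
  have h1 : ∫ t in δ..x, deriv G t = G x - G δ := by
    refine intervalIntegral.integral_deriv_eq_sub (fun t _ => hd t) ?_
    exact (hG.continuous_deriv (by simp)).intervalIntegrable _ _
  have h2 : ∫ t in δ..x, deriv G t = ∫ t in δ..x, (1 : ℝ) := by
    refine intervalIntegral.integral_congr fun t ht => ?_
    rw [uIcc_of_le hx] at ht
    exact h t ht.1
  rw [h2, intervalIntegral.integral_const, smul_eq_mul, mul_one] at h1
  linarith

theorem A5_two_le : ((2 : WithTop ℕ∞)) ≤ (∞ : WithTop ℕ∞) := by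
  have h : ((2 : ℕ∞) : WithTop ℕ∞) ≤ ((⊤ : ℕ∞) : WithTop ℕ∞) := WithTop.coe_le_coe.2 le_top
  exact h

/-- the Laplacian vanishes off the support -/
theorem A5_lap_off {φ : ℂ → ℝ} {z : ℂ} {a : ℝ} (h : ∀ᶠ y in 𝓝 z, φ y = a) : lap φ z = 0 := by
  rw [lap_congr (g := fun _ => a) h]
  simp [lap]

/-- Circle lemma. Suppose `|v| > c` on the circle. Then `v > c` on the circle (or `< -c`;
connectedness), so there are `c < c' < c'' < m` with `|v| > m` on an annulus
`{r - η ≤ |z - z₀| ≤ r + η}`, inside the ball of radius `R`. Let `G` be from `exists_convex` with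
`δ = c'' - c'`, `h = G (|v| - c')`: smooth with `lap h = G'' |∇ v| ^ 2 ≥ 0` at all points of the
ball, `h = |v| - b` on the annulus. Let `χ` be a smooth radial cutoff, one on the ball of radius
`r - η / 2`, zero outside the ball of radius `r + η / 2`, `0 ≤ χ`. Then `χ` is locally constant
near all points with `|v| ≤ c`, so `∫ v * lap χ = 0` and (`lap χ` lives on the annulus, where `v`
has constant sign) `∫ h * lap χ = ± ∫ v * lap χ - b ∫ lap χ = 0`; by `lap_symm`
`∫ χ * lap h = 0`, so `lap h = 0` on the ball of radius `r - η / 2` (continuity), `h` is harmonic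
there, `h z₀ = 0` but the circle average of `h` over a circle in the annulus is positive,
contradicting `HarmonicOnNhd.circleAverage_eq`. -/
theorem circle_pt {v : ℂ → ℝ} (hv : Continuous v) {z₀ : ℂ} {r R c : ℝ} (hr : 0 < r) (hrR : r < R)
    (hc : 0 ≤ c) (hz₀ : |v z₀| ≤ c) (hh : ∀ z ∈ Metric.ball z₀ R, c < |v z| → HarmonicAt v z)
    (hw : ∀ χ : ℂ → ℝ, ContDiff ℝ ∞ χ → HasCompactSupport χ → tsupport χ ⊆ Metric.ball z₀ R →
      (∀ z ∈ Metric.ball z₀ R, |v z| ≤ c → ∀ᶠ y in 𝓝 z, χ y = χ z) → ∫ z, v z * lap χ z = 0) :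
    ∃ z ∈ Metric.sphere z₀ r, |v z| ≤ c := by
  by_contra hcon
  push Not at hcon
  have hS : IsCompact (Metric.sphere z₀ r) := isCompact_sphere z₀ r
  have hne : (Metric.sphere z₀ r).Nonempty := NormedSpace.sphere_nonempty.2 hr.le
  obtain ⟨zm, hzm, hmin⟩ := hS.exists_isMinOn hne hv.abs.continuousOn
  have hm0 : c < |v zm| := hcon zm hzm
  obtain ⟨m, hm1, hm2⟩ := exists_between hm0
  obtain ⟨δ, hδ, hδs⟩ := hS.exists_thickening_subset_open
    (isOpen_lt continuous_const hv.abs : IsOpen {z | m < |v z|})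
    (fun z hz => hm2.trans_le (hmin hz))
  obtain ⟨η, hη, hη1, hη2, hη3⟩ : ∃ η : ℝ, 0 < η ∧ η < δ ∧ η ≤ r / 2 ∧ η ≤ (R - r) / 2 := by
    refine ⟨min (δ / 2) (min (r / 2) ((R - r) / 2)), ?_, ?_, ?_, ?_⟩
    · exact lt_min (by linarith) (lt_min (by linarith) (by linarith))
    · exact (min_le_left _ _).trans_lt (by linarith)
    · exact (min_le_right _ _).trans (min_le_left _ _)
    · exact (min_le_right _ _).trans (min_le_right _ _)
  have hann : ∀ z, r - η ≤ ‖z - z₀‖ → ‖z - z₀‖ ≤ r + η → m < |v z| := by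
    intro z h1 h2
    refine hδs (A5_thick hr z (by linarith) ?_)
    exact (abs_le.2 ⟨by linarith, by linarith⟩ : |‖z - z₀‖ - r| ≤ η).trans_lt hη1
  obtain ⟨σ, hσ⟩ := A5_sign hv (A5_ann z₀ (r := r) (η := η) (by linarith)) (fun z hz h0 => by
    have h1 := hann z hz.1 hz.2
    rw [h0, abs_zero] at h1
    linarith)
  -- the function `h`
  obtain ⟨G, hG1, hG2, hG3, -, hG5, hG6, -, hG8⟩ := exists_convex ((m - c) / 2) (by linarith)
  set c' : ℝ := c + (m - c) / 4 with hc'
  have hcc : c < c' := by rw [hc']; linarith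
  set h : ℂ → ℝ := fun y => G (|v y| - c') with hh_def
  have hhc : Continuous h := hG1.continuous.comp (hv.abs.sub continuous_const)
  have hsm : ∀ z ∈ Metric.ball z₀ R, ContDiffAt ℝ 2 h z ∧ 0 ≤ lap h z := by
    intro z hz
    obtain ⟨h1, h2⟩ := comp_smooth hv hc hcc (hh z hz) hG1 hG2
    refine ⟨h1.of_le A5_two_le, ?_⟩
    rw [hh_def, h2]
    exact mul_nonneg (hG6 _) (by positivity)
  have hlin : ∀ z, r - η ≤ ‖z - z₀‖ → ‖z - z₀‖ ≤ r + η →
      h z = σ * v z - (c' + (m - c) / 2 - G ((m - c) / 2)) := by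
    intro z h1 h2
    have h3 := hann z h1 h2
    simp only [hh_def]
    rw [A5_lin hG1 (fun x hx => (hG8 x hx).2) (x := |v z| - c') (by rw [hc']; linarith),
      hσ z ⟨h1, h2⟩]
    ring
  -- the cutoff
  let χ : ContDiffBump z₀ := ⟨r - η / 2, r + η / 2, by linarith, by linarith⟩
  have hχin : χ.rIn = r - η / 2 := rfl
  have hχout : χ.rOut = r + η / 2 := rfl
  have hχs : ContDiff ℝ ∞ χ := χ.contDiff
  have hχc : HasCompactSupport χ := χ.hasCompactSupport
  have hχt : tsupport χ ⊆ Metric.ball z₀ R := by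
    rw [χ.tsupport_eq, hχout]
    exact Metric.closedBall_subset_ball (by linarith)
  have h_in : ∀ z, ‖z - z₀‖ < r - η / 2 → ∀ᶠ y in 𝓝 z, χ y = 1 := by
    intro z hz
    have := χ.eventuallyEq_one_of_mem_ball (x := z) (by
      rw [hχin, mem_ball_iff_norm]; exact hz)
    exact this
  have h_out : ∀ z, r + η / 2 < ‖z - z₀‖ → ∀ᶠ y in 𝓝 z, χ y = 0 := by
    intro z hz
    have h1 : IsOpen {y : ℂ | r + η / 2 < ‖y - z₀‖} :=
      isOpen_lt continuous_const (by fun_prop)
    filter_upwards [h1.mem_nhds hz] with y hy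
    apply χ.zero_of_le_dist
    rw [hχout, dist_eq_norm]
    exact le_of_lt hy
  have hloc : ∀ z ∈ Metric.ball z₀ R, |v z| ≤ c → ∀ᶠ y in 𝓝 z, χ y = χ z := by
    intro z _ hz
    by_cases h1 : r - η ≤ ‖z - z₀‖
    · have h2 : r + η < ‖z - z₀‖ := by
        by_contra h2
        push Not at h2
        have := hann z h1 h2
        linarith
      have h3 := h_out z (by linarith)
      filter_upwards [h3] with y hy
      rw [hy, h3.self_of_nhds]
    · push Not at h1
      have h3 := h_in z (by linarith)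
      filter_upwards [h3] with y hy
      rw [hy, h3.self_of_nhds]
  have e1 : ∫ z, v z * lap χ z = 0 := hw χ hχs hχc hχt hloc
  have e2 : ∫ z, lap χ z = 0 := lap_int_zero hχs hχc
  have hlapc : Continuous (lap χ) := by
    rw [continuous_iff_continuousAt]
    intro z
    exact lap_continuousAt (hχs.contDiffAt.of_le A5_two_le)
  have hlap0 : ∀ z, z ∉ tsupport χ → lap χ z = 0 := by
    intro z hz
    have h1 : ∀ᶠ y in 𝓝 z, χ y = 0 := by
      filter_upwards [(isClosed_tsupport χ).isOpen_compl.mem_nhds hz] with y hy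
      exact image_eq_zero_of_notMem_tsupport hy
    exact A5_lap_off h1
  have hlapcs : HasCompactSupport (lap χ) := by
    refine HasCompactSupport.of_support_subset_isCompact (K := tsupport χ) hχc ?_
    intro z hz
    by_contra hcon2
    exact hz (hlap0 z hcon2)
  have i1 : Integrable (fun z => v z * lap χ z) :=
    (hv.mul hlapc).integrable_of_hasCompactSupport hlapcs.mul_left
  have i2 : Integrable (fun z => lap χ z) := hlapc.integrable_of_hasCompactSupport hlapcs
  have e3 : ∫ z, h z * lap χ z = 0 := by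
    have h1 : ∀ z, h z * lap χ z =
        σ * (v z * lap χ z) - (c' + (m - c) / 2 - G ((m - c) / 2)) * lap χ z := by
      intro z
      by_cases h1 : r - η ≤ ‖z - z₀‖
      · by_cases h2 : ‖z - z₀‖ ≤ r + η
        · rw [hlin z h1 h2]
          ring
        · push Not at h2
          rw [A5_lap_off (h_out z (by linarith))]
          ring
      · push Not at h1
        rw [A5_lap_off (h_in z (by linarith))]
        ring
    simp_rw [h1]
    rw [integral_sub (i1.const_mul σ) (i2.const_mul _), integral_const_mul, integral_const_mul,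
      e1, e2, mul_zero, mul_zero, sub_zero]
  have e4 : ∫ z, lap h z * χ z = 0 := by
    rw [← lap_symm hχs hχc fun z hz => (hsm z (hχt hz)).1]
    exact e3
  have hpc : Continuous (fun z => lap h z * χ z) := by
    rw [continuous_iff_continuousAt]
    intro z
    by_cases hz : z ∈ Metric.ball z₀ R
    · exact (lap_continuousAt (hsm z hz).1).mul χ.continuous.continuousAt
    · have h1 : z ∉ tsupport χ := fun hcon2 => hz (hχt hcon2)
      have h2 : (fun z => lap h z * χ z) =ᶠ[𝓝 z] fun _ => 0 := by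
        filter_upwards [(isClosed_tsupport χ).isOpen_compl.mem_nhds h1] with y hy
        rw [image_eq_zero_of_notMem_tsupport hy, mul_zero]
      exact h2.continuousAt
  have hpn : ∀ z, 0 ≤ lap h z * χ z := by
    intro z
    by_cases hz : z ∈ Metric.ball z₀ R
    · exact mul_nonneg (hsm z hz).2 χ.nonneg
    · rw [image_eq_zero_of_notMem_tsupport fun hcon2 => hz (hχt hcon2), mul_zero]
  have hpi : Integrable (fun z => lap h z * χ z) :=
    hpc.integrable_of_hasCompactSupport hχc.mul_left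
  have e5 : ∀ z, lap h z * χ z = 0 := by
    rw [integral_eq_zero_iff_of_nonneg hpn hpi] at e4
    have := (hpc.ae_eq_iff_eq volume continuous_const).1 e4
    exact fun z => congrFun this z
  have e6 : ∀ z, ‖z - z₀‖ < r - η / 2 → lap h z = 0 := by
    intro z hz
    have h1 := e5 z
    rwa [(h_in z hz).self_of_nhds, mul_one] at h1
  have hharm : HarmonicOnNhd h (Metric.closedBall z₀ |r - 3 * η / 4|) := by
    intro z hz
    rw [abs_of_pos (by linarith), mem_closedBall_iff_norm] at hz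
    rw [harm_iff]
    refine ⟨(hsm z (by rw [mem_ball_iff_norm]; linarith)).1, ?_⟩
    have h1 : IsOpen {y : ℂ | ‖y - z₀‖ < r - η / 2} :=
      isOpen_lt (by fun_prop) continuous_const
    filter_upwards [h1.mem_nhds (show ‖z - z₀‖ < r - η / 2 by linarith)] with y hy
    exact e6 y hy
  have e7 := hharm.circleAverage_eq
  have e8 : h z₀ = 0 := hG2 _ (by linarith)
  have e9 : (m - c) / 4 ≤ circleAverage h z₀ (r - 3 * η / 4) := by
    have h1 : circleAverage (fun _ => (m - c) / 4) z₀ (r - 3 * η / 4) ≤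
        circleAverage h z₀ (r - 3 * η / 4) := by
      refine circleAverage_mono (continuous_const.continuousOn.circleIntegrable')
        (hhc.continuousOn.circleIntegrable') ?_
      intro z hz
      rw [abs_of_pos (by linarith), mem_sphere_iff_norm] at hz
      have h2 := hann z (by linarith) (by linarith)
      have h3 := hG5 (|v z| - c')
      simp only [hh_def]
      linarith
    rwa [circleAverage_const] at h1
  rw [e7, e8] at e9
  linarith

end Pool.Agent.Helper34.BD
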