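import Pool.Agent.Helper34.BD.St.A4b

set_option autoImplicit false

open MeasureTheory Real Filter Topology Set InnerProductSpace
open scoped ContDiff

noncomputable section

namespace Pool.Agent.Helper34.BD

open Pool.Agent.Helper12.RD

/-- If the value near the centre is almost maximal, the function is almost maximal on average:
`submean` at `z₁` with radius `7 / 8`; `κ ≥ 1 / 100` on the ball `‖y‖ ≤ 13 / 14`, which after
scaling and translation contains the ball of radius `11 / 16` about `0`. -/
theorem avg_growth {v : ℂ → ℝ} (hv : Continuous v) {c M ε : ℝ} (hc : 0 ≤ c) (hM : 0 < M)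
    (hh : ∀ z ∈ Metric.closedBall (0 : ℂ) 1, c < |v z| → HarmonicAt v z)
    (hb : ∀ z ∈ Metric.closedBall (0 : ℂ) 1, |v z| ≤ c + M) {z₁ : ℂ} (hz₁ : ‖z₁‖ ≤ 1 / 8)
    (h1 : c + (1 - ε) * M ≤ |v z₁|) (hε : ε < 1) :
    ∫ z in Metric.closedBall (0 : ℂ) (11 / 16), (1 - max 0 ((|v z| - c) / M)) ≤ 100 * ε := by
  obtain ⟨κ, hκc, hκ0, -, hκ2, hκ3, hκint, hκ⟩ := mv_kernel
  set R : ℝ := 7 / 8 with hR
  have hR0 : 0 < R := by rw [hR]; norm_num
  have hsub : Metric.closedBall z₁ R ⊆ Metric.closedBall (0 : ℂ) 1 := by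
    apply Metric.closedBall_subset_closedBall'
    rw [dist_zero_right, hR]
    linarith
  have hε0 : 0 ≤ ε := by
    have h2 : z₁ ∈ Metric.closedBall (0 : ℂ) 1 := by
      rw [Metric.mem_closedBall, dist_zero_right]
      linarith
    have h3 := hb z₁ h2
    have h4 : (1 - ε) * M ≤ 1 * M := by linarith
    have h5 := le_of_mul_le_mul_right h4 hM
    linarith
  have hs := submean hκc hκ0 hκ2 hκ hv hc hR0 (z₀ := z₁) (fun z hz => hh z (hsub hz))
  set K : ℂ → ℝ := fun y => (R ^ 2)⁻¹ * κ ((R : ℂ)⁻¹ * (y - z₁)) with hK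
  have hKc : Continuous K := by
    refine continuous_const.mul (hκc.continuous.comp ?_)
    exact continuous_const.mul (continuous_id.sub continuous_const)
  have hK0 : ∀ y, 0 ≤ K y := fun y => mul_nonneg (by positivity) (hκ0 _)
  have hnorm : ∀ y : ℂ, ‖(R : ℂ)⁻¹ * (y - z₁)‖ = ‖y - z₁‖ / R := by
    intro y
    rw [norm_mul, norm_inv, Complex.norm_real, Real.norm_of_nonneg hR0.le, div_eq_inv_mul]
  have hKz : ∀ y, y ∉ Metric.closedBall z₁ R → K y = 0 := by
    intro y hy
    rw [Metric.mem_closedBall, dist_eq_norm] at hy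
    simp only [hK]
    rw [hκ2, mul_zero]
    rw [hnorm, le_div_iff₀ hR0]
    linarith [not_le.1 hy]
  have hKcs : HasCompactSupport K := by
    refine HasCompactSupport.of_support_subset_isCompact (isCompact_closedBall z₁ R) ?_
    intro y hy
    by_contra hcon
    exact hy (hKz y hcon)
  have hKi : Integrable K := hKc.integrable_of_hasCompactSupport hKcs
  have hKint : ∫ y, K y = 1 := by
    have h2 : ∀ y, K y = (R ^ 2)⁻¹ * (fun u : ℂ => κ ((R⁻¹ : ℝ) • u)) (y - z₁) := by
      intro y
      simp only [hK]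
      congr 2
      rw [Complex.real_smul]
      push_cast
      rfl
    simp_rw [h2]
    rw [integral_const_mul, integral_sub_right_eq_self (fun u : ℂ => κ ((R⁻¹ : ℝ) • u)) z₁,
      Measure.integral_comp_smul, hκint, Complex.finrank_real_complex, smul_eq_mul, mul_one,
      inv_pow, inv_inv, abs_of_pos (by positivity)]
    field_simp
  -- the integrand
  set g : ℂ → ℝ := fun z => 1 - max 0 ((|v z| - c) / M) with hg
  have hgc : Continuous g := by
    refine continuous_const.sub (continuous_const.max ?_)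
    exact (hv.abs.sub continuous_const).div_const M
  have hgm : ∀ z, g z = 1 - M⁻¹ * max 0 (|v z| - c) := by
    intro z
    simp only [hg]
    congr 1
    rw [div_eq_inv_mul, ← mul_zero M⁻¹, ← mul_max_of_nonneg _ _ (inv_nonneg.2 hM.le), mul_zero]
  have hg0 : ∀ z ∈ Metric.closedBall (0 : ℂ) 1, 0 ≤ g z := by
    intro z hz
    have h2 := hb z hz
    simp only [hg]
    rw [sub_nonneg, max_le_iff]
    refine ⟨zero_le_one, ?_⟩
    rw [div_le_one hM]
    linarith
  have hmc : Continuous (fun z => max 0 (|v z| - c)) :=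
    continuous_const.max (hv.abs.sub continuous_const)
  have hmKi : Integrable (fun y => max 0 (|v y| - c) * K y) :=
    (hmc.mul hKc).integrable_of_hasCompactSupport hKcs.mul_left
  have hgKi : Integrable (fun y => g y * K y) :=
    (hgc.mul hKc).integrable_of_hasCompactSupport hKcs.mul_left
  have hgK : ∫ y, g y * K y ≤ ε := by
    have h2 : ∀ y, g y * K y = K y - M⁻¹ * (max 0 (|v y| - c) * K y) := by
      intro y
      rw [hgm]
      ring
    simp_rw [h2]
    rw [integral_sub hKi (hmKi.const_mul _),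
      integral_const_mul M⁻¹ (fun y => max 0 (|v y| - c) * K y), hKint]
    have h3 : (1 - ε) * M ≤ ∫ y, max 0 (|v y| - c) * K y := by
      refine le_trans ?_ hs
      refine le_trans ?_ (le_max_right _ _)
      linarith
    have h4 : 1 - ε ≤ M⁻¹ * ∫ y, max 0 (|v y| - c) * K y := by
      rw [← div_eq_inv_mul, le_div_iff₀ hM]
      exact h3
    linarith
  have hgK0 : ∀ y, 0 ≤ g y * K y := by
    intro y
    by_cases hy : y ∈ Metric.closedBall z₁ R
    · exact mul_nonneg (hg0 y (hsub hy)) (hK0 y)
    · rw [hKz y hy, mul_zero]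
  have hball : ∀ y ∈ Metric.closedBall (0 : ℂ) (11 / 16), g y ≤ 100 * (g y * K y) := by
    intro y hy
    rw [Metric.mem_closedBall, dist_zero_right] at hy
    have h2 : 0 ≤ g y := hg0 y (by
      rw [Metric.mem_closedBall, dist_zero_right]
      linarith)
    have h3 : ‖y - z₁‖ ≤ 13 / 16 := (norm_sub_le y z₁).trans (by linarith)
    have h4 : 1 / 100 ≤ κ ((R : ℂ)⁻¹ * (y - z₁)) := by
      apply hκ3
      rw [hnorm, div_le_iff₀ hR0, hR]
      linarith
    have h5 : 1 ≤ (R ^ 2)⁻¹ := by
      rw [hR]
      norm_num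
    have h6 : 1 ≤ 100 * K y := by
      simp only [hK]
      nlinarith
    nlinarith
  calc ∫ z in Metric.closedBall (0 : ℂ) (11 / 16), g z
      ≤ ∫ z in Metric.closedBall (0 : ℂ) (11 / 16), 100 * (g z * K z) := by
        refine setIntegral_mono_on ?_ ?_ measurableSet_closedBall hball
        · exact hgc.continuousOn.integrableOn_compact (isCompact_closedBall _ _)
        · exact (hgKi.const_mul 100).integrableOn
    _ ≤ ∫ z, 100 * (g z * K z) := by
        refine setIntegral_le_integral (hgKi.const_mul 100) ?_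
        exact Eventually.of_forall fun y => mul_nonneg (by norm_num) (hgK0 y)
    _ = 100 * ∫ z, g z * K z := integral_const_mul _ _
    _ ≤ 100 * ε := by linarith

end Pool.Agent.Helper34.BD
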