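import Pool.Agent.Helper34.BD.St.A4b

set_option autoImplicit false

open MeasureTheory Real Filter Topology Set InnerProductSpace
open scoped ContDiff

noncomputable section

namespace Pool.Agent.Helper34.BD

open Pool.Agent.Helper12.RD

/-- A smooth step: zero on `(-∞, 1/4]`, one on `[3/4, ∞)`, nondecreasing
(an affine reparametrisation of `Real.smoothTransition`). -/
def stp (x : ℝ) : ℝ := Real.smoothTransition (2 * x - 1 / 2)

theorem A7_stp_smooth : ContDiff ℝ ∞ stp := by
  unfold stp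
  exact Real.smoothTransition.contDiff.comp (by fun_prop)

theorem A7_stp_zero {x : ℝ} (h : x ≤ 1 / 4) : stp x = 0 :=
  Real.smoothTransition.zero_of_nonpos (by linarith)

theorem A7_stp_nonneg (x : ℝ) : 0 ≤ stp x := Real.smoothTransition.nonneg _

theorem A7_dstp_zero {x : ℝ} (h : x ≤ 1 / 4) : deriv stp x = 0 := by
  have h1 : IsLocalMin stp x := by
    refine Eventually.of_forall fun y => ?_
    rw [A7_stp_zero h]
    exact A7_stp_nonneg y
  exact h1.deriv_eq_zero

theorem A7_dsmooth {G : ℝ → ℝ} (hG : ContDiff ℝ ∞ G) : ContDiff ℝ ∞ (deriv G) :=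
  (contDiff_infty_iff_deriv.1 hG).2

/-- square of the derivative of the step -/
def A7_q (x : ℝ) : ℝ := (deriv stp x) ^ 2

/-- first primitive -/
def A7_L1 (x : ℝ) : ℝ := ∫ u in (0 : ℝ)..x, A7_q u

/-- second primitive -/
def A7_L (x : ℝ) : ℝ := ∫ u in (0 : ℝ)..x, A7_L1 u

theorem A7_q_smooth : ContDiff ℝ ∞ A7_q := by
  unfold A7_q
  exact (A7_dsmooth A7_stp_smooth).pow 2

theorem A7_L1_deriv (x : ℝ) : HasDerivAt A7_L1 (A7_q x) x :=
  intervalIntegral.integral_hasDerivAt_right (A7_q_smooth.continuous.intervalIntegrable _ _)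
    (A7_q_smooth.continuous.stronglyMeasurableAtFilter _ _) A7_q_smooth.continuous.continuousAt

theorem A7_L1_smooth : ContDiff ℝ ∞ A7_L1 := by
  rw [contDiff_infty_iff_deriv]
  refine ⟨fun s => (A7_L1_deriv s).differentiableAt, ?_⟩
  have : deriv A7_L1 = A7_q := funext fun s => (A7_L1_deriv s).deriv
  rw [this]; exact A7_q_smooth

theorem A7_L_deriv (x : ℝ) : HasDerivAt A7_L (A7_L1 x) x :=
  intervalIntegral.integral_hasDerivAt_right (A7_L1_smooth.continuous.intervalIntegrable _ _)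
    (A7_L1_smooth.continuous.stronglyMeasurableAtFilter _ _) A7_L1_smooth.continuous.continuousAt

theorem A7_L_smooth : ContDiff ℝ ∞ A7_L := by
  rw [contDiff_infty_iff_deriv]
  refine ⟨fun s => (A7_L_deriv s).differentiableAt, ?_⟩
  have : deriv A7_L = A7_L1 := funext fun s => (A7_L_deriv s).deriv
  rw [this]; exact A7_L1_smooth

theorem A7_prim_zero {f : ℝ → ℝ} (hf : ∀ x, x ≤ 1 / 4 → f x = 0) {x : ℝ} (hx : x ≤ 1 / 4) :
    ∫ u in (0 : ℝ)..x, f u = 0 := by
  have h1 : ∫ u in (0 : ℝ)..x, f u = ∫ u in (0 : ℝ)..x, (0 : ℝ) := by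
    refine intervalIntegral.integral_congr fun u hu => hf u ?_
    rcases le_total 0 x with h0 | h0
    · rw [uIcc_of_le h0] at hu; exact hu.2.trans hx
    · rw [uIcc_of_ge h0] at hu; have := hu.2; linarith
  rw [h1, intervalIntegral.integral_zero]

theorem A7_q_zero {x : ℝ} (h : x ≤ 1 / 4) : A7_q x = 0 := by
  rw [A7_q, A7_dstp_zero h]; norm_num

theorem A7_L1_zero {x : ℝ} (h : x ≤ 1 / 4) : A7_L1 x = 0 :=
  A7_prim_zero (fun _ hx => A7_q_zero hx) h

theorem A7_L_zero {x : ℝ} (h : x ≤ 1 / 4) : A7_L x = 0 :=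
  A7_prim_zero (fun _ hx => A7_L1_zero hx) h

theorem A7_L1_mono : Monotone A7_L1 :=
  monotone_of_deriv_nonneg (fun s => (A7_L1_deriv s).differentiableAt)
    (fun s => by rw [(A7_L1_deriv s).deriv]; exact sq_nonneg _)

theorem A7_L1_nonneg (x : ℝ) : 0 ≤ A7_L1 x := by
  rcases le_total x 0 with h | h
  · rw [A7_L1_zero (by linarith)]
  · rw [← A7_L1_zero (x := 0) (by norm_num)]
    exact A7_L1_mono h

theorem A7_L_bound {x : ℝ} (hx : x ≤ 1) : |A7_L x - A7_L 1| ≤ A7_L1 1 * (1 - x) := by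
  have h1 : ∫ u in x..1, A7_L1 u = A7_L 1 - A7_L x := by
    refine intervalIntegral.integral_eq_sub_of_hasDerivAt (fun t _ => A7_L_deriv t) ?_
    exact A7_L1_smooth.continuous.intervalIntegrable _ _
  have h2 : 0 ≤ ∫ u in x..1, A7_L1 u :=
    intervalIntegral.integral_nonneg hx fun u _ => A7_L1_nonneg u
  have h3 : ∫ u in x..1, A7_L1 u ≤ ∫ u in x..1, A7_L1 1 :=
    intervalIntegral.integral_mono_on hx (A7_L1_smooth.continuous.intervalIntegrable _ _)
      (continuous_const.intervalIntegrable _ _) fun u hu => A7_L1_mono hu.2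
  rw [intervalIntegral.integral_const, smul_eq_mul] at h3
  rw [abs_le]
  constructor <;> linarith

theorem A7_two_le : ((2 : WithTop ℕ∞)) ≤ (∞ : WithTop ℕ∞) := by
  have h : ((2 : ℕ∞) : WithTop ℕ∞) ≤ ((⊤ : ℕ∞) : WithTop ℕ∞) := WithTop.coe_le_coe.2 le_top
  exact h

/-- the gradient of `G (|v| - c')` -/
theorem A7_grad {v : ℂ → ℝ} (hv : Continuous v) {c c' : ℝ} (hc : 0 ≤ c) (hcc : c < c')
    {z : ℂ} (hz : c < |v z| → HarmonicAt v z) {G : ℝ → ℝ} (hG : ContDiff ℝ ∞ G)
    (hG0 : ∀ x, x ≤ 0 → G x = 0) :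
    ‖fderiv ℝ (fun y => G (|v y| - c')) z‖ ^ 2 =
      (deriv G (|v z| - c')) ^ 2 * ‖fderiv ℝ v z‖ ^ 2 := by
  obtain ⟨h1, h2⟩ := comp_smooth hv hc hcc hz hG hG0
  obtain ⟨-, h4⟩ := comp_smooth hv hc hcc hz (hG.pow 2)
    (fun x hx => by rw [hG0 x hx]; norm_num)
  have h5 := lap_comp (f := fun y => G (|v y| - c')) (H := fun x => x ^ 2) (w := z)
    (h1.of_le A7_two_le) (by fun_prop)
  have hdd : ∀ x : ℝ, deriv (fun x : ℝ => x ^ 2) x = 2 * x := fun x => by simp
  have hdd1 : deriv (fun x : ℝ => x ^ 2) = fun x => 2 * x := funext hdd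
  have hd2 : ∀ x : ℝ, deriv (fun x : ℝ => 2 * x) x = 2 := fun x => by simp
  rw [hdd1] at h5
  simp only [hd2] at h5
  rw [h2] at h5
  have hGd : ∀ x, HasDerivAt G (deriv G x) x := fun x =>
    (hG.differentiable (by simp) x).hasDerivAt
  have hGd2 : ∀ x, HasDerivAt (deriv G) (deriv (deriv G) x) x := fun x =>
    ((A7_dsmooth hG).differentiable (by simp) x).hasDerivAt
  have hsq : deriv (fun x => G x ^ 2) = fun x => 2 * (G x * deriv G x) := by
    funext x
    have h7 : HasDerivAt (fun x => G x ^ 2) (2 * (G x * deriv G x)) x :=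
      ((hGd x).fun_pow 2).congr_deriv (by norm_num; ring)
    exact h7.deriv
  have hsq2 : ∀ x, deriv (deriv (fun x => G x ^ 2)) x =
      2 * (deriv G x * deriv G x + G x * deriv (deriv G) x) := by
    intro x
    rw [hsq]
    exact (((hGd x).mul (hGd2 x)).const_mul 2).deriv
  rw [hsq2] at h4
  rw [norm_fderiv_sq (f := fun y => G (|v y| - c'))]
  have h6 := h4.symm.trans h5
  linarith

theorem A7_lap_off {φ : ℂ → ℝ} {z : ℂ} {a : ℝ} (h : ∀ᶠ y in 𝓝 z, φ y = a) : lap φ z = 0 := by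
  rw [lap_congr (g := fun _ => a) h]
  simp [lap]

/-- Energy estimate. With `w = max 0 ((|v| - c) / M)`, `0 ≤ w ≤ 1` on the closed unit ball, and
`G = stp ∘ w`. Let `Λ x = ∫∫ (stp')²` (so `Λ = 0` on `(-∞, 1/4]`, `Λ' ≤ C`),
`h = Λ ∘ w`; both are smooth near the closed ball of radius `3/4` (they are
`F (|v| - c')` with `c' = c + M / 4` and `F 0 = 0`, see `comp_smooth`), `lap h = ‖∇ G‖ ^ 2`.
With a fixed smooth cutoff `φ`, one on the ball of radius `5/8`, zero outside the ball of radius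
`11/16`, `∫_{B(5/8)} ‖∇ G‖ ^ 2 ≤ ∫ φ * lap h = ∫ (h - Λ 1) * lap φ`
`≤ sup |lap φ| * sup Λ' * ∫_{B(11/16)} (1 - w)`. -/
theorem energy_growth : ∃ C : ℝ, 0 < C ∧ ∀ v : ℂ → ℝ, Continuous v → ∀ c M : ℝ, 0 ≤ c → 0 < M →
    (∀ z ∈ Metric.closedBall (0 : ℂ) 1, c < |v z| → HarmonicAt v z) →
    (∀ z ∈ Metric.closedBall (0 : ℂ) 1, |v z| ≤ c + M) →
    (∀ z ∈ Metric.ball (0 : ℂ) (3 / 4),
      ContDiffAt ℝ 1 (fun y => stp (max 0 ((|v y| - c) / M))) z) ∧
    ∫ z in Metric.ball (0 : ℂ) (5 / 8), ‖fderiv ℝ (fun y => stp (max 0 ((|v y| - c) / M))) z‖ ^ 2 ≤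
      C * ∫ z in Metric.closedBall (0 : ℂ) (11 / 16), (1 - max 0 ((|v z| - c) / M)) := by
  -- the cutoff
  let φ : ContDiffBump (0 : ℂ) := ⟨5 / 8, 11 / 16, by norm_num, by norm_num⟩
  have hφin : φ.rIn = 5 / 8 := rfl
  have hφout : φ.rOut = 11 / 16 := rfl
  have hφs : ContDiff ℝ ∞ φ := φ.contDiff
  have hφc : HasCompactSupport φ := φ.hasCompactSupport
  have hφt : tsupport φ = Metric.closedBall (0 : ℂ) (11 / 16) := by
    rw [φ.tsupport_eq, hφout]
  have hlapc : Continuous (lap φ) := by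
    rw [continuous_iff_continuousAt]
    intro z
    exact lap_continuousAt (hφs.contDiffAt.of_le A7_two_le)
  have hlap0 : ∀ z, z ∉ tsupport φ → lap φ z = 0 := by
    intro z hz
    have h1 : ∀ᶠ y in 𝓝 z, φ y = 0 := by
      filter_upwards [(isClosed_tsupport φ).isOpen_compl.mem_nhds hz] with y hy
      exact image_eq_zero_of_notMem_tsupport hy
    exact A7_lap_off h1
  have hlapcs : HasCompactSupport (lap φ) := by
    refine HasCompactSupport.of_support_subset_isCompact (K := tsupport φ) hφc ?_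
    intro z hz
    by_contra hcon2
    exact hz (hlap0 z hcon2)
  obtain ⟨B, hB⟩ := hlapc.bounded_above_of_compact_support hlapcs
  have hB0 : 0 ≤ B := (norm_nonneg _).trans (hB 0)
  refine ⟨B * A7_L1 1 + 1, by have := A7_L1_nonneg 1; positivity, ?_⟩
  intro v hv c M hc hM hh hM2
  set c' : ℝ := c + M / 4 with hc'
  have hcc : c < c' := by rw [hc']; linarith
  have harg : ∀ y, (|v y| - c) / M = (|v y| - c') / M + 1 / 4 := by
    intro y
    rw [hc']
    field_simp
    ring
  -- the two functions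
  set G1 : ℝ → ℝ := fun x => stp (x / M + 1 / 4) with hG1
  set G2 : ℝ → ℝ := fun x => A7_L (x / M + 1 / 4) with hG2
  have hG1s : ContDiff ℝ ∞ G1 := A7_stp_smooth.comp (by fun_prop)
  have hG2s : ContDiff ℝ ∞ G2 := A7_L_smooth.comp (by fun_prop)
  have hle : ∀ x, x ≤ 0 → x / M + 1 / 4 ≤ 1 / 4 := by
    intro x hx
    have := div_nonpos_of_nonpos_of_nonneg hx hM.le
    linarith
  have hG10 : ∀ x, x ≤ 0 → G1 x = 0 := fun x hx => A7_stp_zero (hle x hx)
  have hG20 : ∀ x, x ≤ 0 → G2 x = 0 := fun x hx => A7_L_zero (hle x hx)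
  have haff : ∀ x : ℝ, HasDerivAt (fun x => x / M + 1 / 4) (1 / M) x := fun x =>
    ((hasDerivAt_id x).div_const M).add_const _
  have hdG1 : ∀ x, deriv G1 x = deriv stp (x / M + 1 / 4) * (1 / M) := by
    intro x
    have h1 : HasDerivAt stp (deriv stp (x / M + 1 / 4)) (x / M + 1 / 4) :=
      (A7_stp_smooth.differentiable (by simp) _).hasDerivAt
    exact (h1.comp x (haff x)).deriv
  have hdG2 : deriv G2 = fun x => A7_L1 (x / M + 1 / 4) * (1 / M) := by
    funext x
    exact ((A7_L_deriv (x / M + 1 / 4)).comp x (haff x)).deriv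
  have hddG2 : ∀ x, deriv (deriv G2) x = (deriv G1 x) ^ 2 := by
    intro x
    rw [hdG2, hdG1]
    have h1 := ((A7_L1_deriv (x / M + 1 / 4)).comp x (haff x)).mul_const (1 / M)
    have h2 : deriv (fun x => A7_L1 (x / M + 1 / 4) * (1 / M)) x =
        A7_q (x / M + 1 / 4) * (1 / M) * (1 / M) := h1.deriv
    rw [h2, A7_q]
    ring
  have hfun : (fun y => stp (max 0 ((|v y| - c) / M))) = fun y => G1 (|v y| - c') := by
    funext y
    rw [harg y]
    simp only [hG1]
    rcases le_total 0 ((|v y| - c') / M + 1 / 4) with h | h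
    · rw [max_eq_right h]
    · rw [max_eq_left h, A7_stp_zero (by norm_num), A7_stp_zero (by linarith)]
  rw [hfun]
  have hhb : ∀ z ∈ Metric.closedBall (0 : ℂ) (11 / 16), c < |v z| → HarmonicAt v z :=
    fun z hz => hh z (Metric.closedBall_subset_closedBall (by norm_num) hz)
  refine ⟨fun z hz => ?_, ?_⟩
  · have hz1 : z ∈ Metric.closedBall (0 : ℂ) 1 := by
      rw [Metric.mem_closedBall]
      rw [Metric.mem_ball] at hz
      linarith
    refine (comp_smooth hv hc hcc (hh z hz1) hG1s hG10).1.of_le ?_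
    exact le_trans (by norm_num) A7_two_le
  set h : ℂ → ℝ := fun y => G2 (|v y| - c') with hhd
  have hhc : Continuous h := hG2s.continuous.comp (hv.abs.sub continuous_const)
  have hsm : ∀ z ∈ Metric.closedBall (0 : ℂ) (11 / 16), ContDiffAt ℝ 2 h z ∧
      lap h z = ‖fderiv ℝ (fun y => G1 (|v y| - c')) z‖ ^ 2 := by
    intro z hz
    obtain ⟨h1, h2⟩ := comp_smooth hv hc hcc (hhb z hz) hG2s hG20
    refine ⟨h1.of_le A7_two_le, ?_⟩
    rw [A7_grad hv hc hcc (hhb z hz) hG1s hG10, hhd, h2, hddG2]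
  have i1 : Integrable (fun z => lap h z * φ z) := by
    refine A1_int (K := tsupport φ) hφc (fun z hz => ?_) φ.continuous
      (fun z hz => image_eq_zero_of_notMem_tsupport hz)
    exact lap_continuousAt (hsm z (hφt ▸ hz)).1
  have hpn : ∀ z, 0 ≤ lap h z * φ z := by
    intro z
    by_cases hz : z ∈ tsupport φ
    · rw [(hsm z (hφt ▸ hz)).2]
      exact mul_nonneg (by positivity) φ.nonneg
    · rw [image_eq_zero_of_notMem_tsupport hz, mul_zero]
  have e1 : ∫ z in Metric.ball (0 : ℂ) (5 / 8), ‖fderiv ℝ (fun y => G1 (|v y| - c')) z‖ ^ 2 =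
      ∫ z in Metric.ball (0 : ℂ) (5 / 8), lap h z * φ z := by
    refine setIntegral_congr_fun measurableSet_ball fun z hz => ?_
    have hz1 : z ∈ Metric.closedBall (0 : ℂ) (11 / 16) := by
      rw [Metric.mem_closedBall]
      rw [Metric.mem_ball] at hz
      linarith
    have hz2 : φ z = 1 := φ.one_of_mem_closedBall (by
      rw [hφin]; exact Metric.ball_subset_closedBall hz)
    rw [hz2, mul_one, (hsm z hz1).2]
  have e2 : ∫ z in Metric.ball (0 : ℂ) (5 / 8), lap h z * φ z ≤ ∫ z, lap h z * φ z :=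
    setIntegral_le_integral i1 (Eventually.of_forall hpn)
  have e3 : ∫ z, h z * lap φ z = ∫ z, lap h z * φ z :=
    lap_symm hφs hφc fun z hz => (hsm z (hφt ▸ hz)).1
  have e4 : ∫ z, lap φ z = 0 := lap_int_zero hφs hφc
  have i2 : Integrable (fun z => h z * lap φ z) :=
    (hhc.mul hlapc).integrable_of_hasCompactSupport hlapcs.mul_left
  have i3 : Integrable (fun z => lap φ z) := hlapc.integrable_of_hasCompactSupport hlapcs
  have e5 : ∫ z, (h z * lap φ z - A7_L 1 * lap φ z) = ∫ z, h z * lap φ z := by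
    rw [integral_sub i2 (i3.const_mul _), integral_const_mul, e4, mul_zero, sub_zero]
  -- the pointwise bound
  have hwc : Continuous (fun z => 1 - max 0 ((|v z| - c) / M)) := by fun_prop
  have hw1 : ∀ z ∈ Metric.closedBall (0 : ℂ) (11 / 16), 0 ≤ 1 - max 0 ((|v z| - c) / M) := by
    intro z hz
    have h1 := hM2 z (Metric.closedBall_subset_closedBall (by norm_num) hz)
    have h2 : (|v z| - c) / M ≤ 1 := by
      rw [div_le_one hM]
      linarith
    have := max_le (zero_le_one) h2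
    linarith
  have hwi : IntegrableOn (fun z => 1 - max 0 ((|v z| - c) / M))
      (Metric.closedBall (0 : ℂ) (11 / 16)) :=
    hwc.continuousOn.integrableOn_compact (isCompact_closedBall _ _)
  have e6 : ∫ z, (h z * lap φ z - A7_L 1 * lap φ z) ≤
      ∫ z, (Metric.closedBall (0 : ℂ) (11 / 16)).indicator
        (fun z => B * A7_L1 1 * (1 - max 0 ((|v z| - c) / M))) z := by
    refine integral_mono (i2.sub (i3.const_mul _)) ?_ fun z => ?_
    · rw [integrable_indicator_iff measurableSet_closedBall]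
      exact hwi.const_mul _
    · by_cases hz : z ∈ Metric.closedBall (0 : ℂ) (11 / 16)
      · rw [indicator_of_mem hz]
        simp only
        have h0 := hw1 z hz
        have h1 : h z = A7_L (max 0 ((|v z| - c) / M)) := by
          simp only [hhd, hG2]
          rw [← harg z]
          rcases le_total 0 ((|v z| - c) / M) with h8 | h8
          · rw [max_eq_right h8]
          · rw [max_eq_left h8, A7_L_zero (by linarith), A7_L_zero (by norm_num)]
        have h2 : |h z - A7_L 1| ≤ A7_L1 1 * (1 - max 0 ((|v z| - c) / M)) := by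
          rw [h1]
          exact A7_L_bound (by linarith)
        have h3 : |lap φ z| ≤ B := hB z
        calc h z * lap φ z - A7_L 1 * lap φ z = (h z - A7_L 1) * lap φ z := by ring
          _ ≤ |(h z - A7_L 1) * lap φ z| := le_abs_self _
          _ = |h z - A7_L 1| * |lap φ z| := abs_mul _ _
          _ ≤ (A7_L1 1 * (1 - max 0 ((|v z| - c) / M))) * B :=
              mul_le_mul h2 h3 (abs_nonneg _)
                (mul_nonneg (A7_L1_nonneg 1) h0)
          _ = B * A7_L1 1 * (1 - max 0 ((|v z| - c) / M)) := by ring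
      · rw [indicator_of_notMem hz, hlap0 z (by rw [hφt]; exact hz)]
        simp
  rw [integral_indicator measurableSet_closedBall, integral_const_mul] at e6
  have e7 : 0 ≤ ∫ z in Metric.closedBall (0 : ℂ) (11 / 16), (1 - max 0 ((|v z| - c) / M)) :=
    setIntegral_nonneg measurableSet_closedBall hw1
  rw [e1]
  calc ∫ z in Metric.ball (0 : ℂ) (5 / 8), lap h z * φ z ≤ ∫ z, lap h z * φ z := e2
    _ = ∫ z, (h z * lap φ z - A7_L 1 * lap φ z) := by rw [e5, e3]
    _ ≤ B * A7_L1 1 * ∫ z in Metric.closedBall (0 : ℂ) (11 / 16),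
        (1 - max 0 ((|v z| - c) / M)) := e6
    _ ≤ (B * A7_L1 1 + 1) * ∫ z in Metric.closedBall (0 : ℂ) (11 / 16),
        (1 - max 0 ((|v z| - c) / M)) := by
      rw [add_mul, one_mul]
      linarith

end Pool.Agent.Helper34.BD
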