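import Pool.Agent.Helper34.BD.Defs

set_option autoImplicit false

open MeasureTheory Real Filter Topology Set InnerProductSpace
open scoped ContDiff

noncomputable section

namespace Pool.Agent.Helper34.BD

open Pool.Agent.Helper12.RD

lemma A8_amgm (x : ℝ) : |x| ≤ π * x ^ 2 + 1 / (4 * π) := by
  have hpi := Real.pi_pos
  have h : 0 ≤ π * (|x| - 1 / (2 * π)) ^ 2 := by positivity
  have h2 : π * (|x| - 1 / (2 * π)) ^ 2 = π * x ^ 2 - |x| + 1 / (4 * π) := by
    rw [← sq_abs x]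
    field_simp
    ring
  linarith

/-- the energy inequality on a circle -/
lemma A8_circle {G w : ℂ → ℝ} (hG : ∀ z ∈ Metric.ball (0 : ℂ) (3 / 4), ContDiffAt ℝ 1 G z)
    (hF : ContinuousOn (fun z => 7 * ‖fderiv ℝ G z‖ ^ 2 + 8 * (1 - w z))
      (Metric.ball (0 : ℂ) (3 / 4)))
    (hw : Continuous w) (hw0 : ∀ z ∈ Metric.ball (0 : ℂ) (3 / 4), 0 ≤ w z ∧ w z ≤ 1)
    (hG1 : ∀ z ∈ Metric.ball (0 : ℂ) (3 / 4), 3 / 4 ≤ w z → G z = 1) {r : ℝ}
    (hr1 : 1 / 2 < r) (hr2 : r < 5 / 8)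
    (hG0 : ∃ z ∈ Metric.sphere (0 : ℂ) r, G z = 0) :
    1 ≤ ∫ θ in (-π)..π, (7 * ‖fderiv ℝ G (circleMap 0 r θ)‖ ^ 2 + 8 * (1 - w (circleMap 0 r θ))) := by
  have hpi := Real.pi_pos
  have hpi3 := Real.pi_gt_three
  have hpi4 := Real.pi_lt_d2
  have hr0 : 0 < r := by linarith
  have hmem : ∀ θ : ℝ, circleMap 0 r θ ∈ Metric.ball (0 : ℂ) (3 / 4) := by
    intro θ
    rw [Metric.mem_ball, dist_zero_right]
    simp [abs_of_pos hr0]
    linarith
  have hcm : Continuous fun θ : ℝ => circleMap (0 : ℂ) r θ := continuous_circleMap 0 r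
  have hFc : Continuous fun θ : ℝ =>
      7 * ‖fderiv ℝ G (circleMap 0 r θ)‖ ^ 2 + 8 * (1 - w (circleMap 0 r θ)) :=
    hF.comp_continuous hcm hmem
  have hwc : Continuous fun θ : ℝ => 8 * (1 - w (circleMap 0 r θ)) := by
    have := hw.comp hcm
    fun_prop
  have hNc : Continuous fun θ : ℝ => 7 * ‖fderiv ℝ G (circleMap 0 r θ)‖ ^ 2 := by
    have := hFc.sub hwc
    refine this.congr fun θ => ?_
    simp only [Pi.sub_apply]
    ring
  by_contra hcon
  push Not at hcon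
  rw [intervalIntegral.integral_add (hNc.intervalIntegrable _ _) (hwc.intervalIntegrable _ _)]
    at hcon
  have hle : -π ≤ π := by linarith
  have hN0 : 0 ≤ ∫ θ in (-π)..π, 7 * ‖fderiv ℝ G (circleMap 0 r θ)‖ ^ 2 :=
    intervalIntegral.integral_nonneg hle fun θ _ => by positivity
  have hw00 : 0 ≤ ∫ θ in (-π)..π, 8 * (1 - w (circleMap 0 r θ)) :=
    intervalIntegral.integral_nonneg hle fun θ _ => by
      have := (hw0 _ (hmem θ)).2
      linarith
  -- a point with w ≥ 3 / 4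
  obtain ⟨θ1, hθ1, hθ1w⟩ : ∃ θ1 ∈ Icc (-π) π, 3 / 4 ≤ w (circleMap 0 r θ1) := by
    by_contra hno
    push Not at hno
    have h1 : ∫ θ in (-π)..π, (2 : ℝ) ≤ ∫ θ in (-π)..π, 8 * (1 - w (circleMap 0 r θ)) :=
      intervalIntegral.integral_mono_on hle (by simp) (hwc.intervalIntegrable _ _)
        fun θ hθ => by
          have := hno θ hθ
          linarith
    rw [intervalIntegral.integral_const, smul_eq_mul] at h1
    linarith
  obtain ⟨z0, hz0, hz00⟩ := hG0
  set θ0 := Complex.arg z0 with hθ0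
  have hz0' : circleMap 0 r θ0 = z0 := by
    rw [circleMap, zero_add]
    have hn : ‖z0‖ = r := by simpa using hz0
    rw [← hn]
    exact Complex.norm_mul_exp_arg_mul_I z0
  have hθ0m : θ0 ∈ Icc (-π) π := ⟨(Complex.neg_pi_lt_arg z0).le, Complex.arg_le_pi z0⟩
  -- the derivative along the circle
  set g : ℝ → ℝ := fun θ => G (circleMap 0 r θ) with hg
  set g' : ℝ → ℝ := fun θ => fderiv ℝ G (circleMap 0 r θ) (circleMap 0 r θ * Complex.I) with hg'
  have hgd : ∀ θ, HasDerivAt g (g' θ) θ := by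
    intro θ
    have h1 := ((hG _ (hmem θ)).differentiableAt one_ne_zero).hasFDerivAt
    exact h1.comp_hasDerivAt θ (hasDerivAt_circleMap 0 r θ)
  have hGon : ContDiffOn ℝ 1 G (Metric.ball (0 : ℂ) (3 / 4)) := fun z hz =>
    (hG z hz).contDiffWithinAt
  have hfd : ContinuousOn (fderiv ℝ G) (Metric.ball (0 : ℂ) (3 / 4)) :=
    hGon.continuousOn_fderiv_of_isOpen Metric.isOpen_ball le_rfl
  have hfdc : Continuous fun θ : ℝ => fderiv ℝ G (circleMap 0 r θ) :=
    hfd.comp_continuous hcm hmem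
  have hg'c : Continuous g' := hfdc.clm_apply (hcm.mul continuous_const)
  have hbd : ∀ θ, |g' θ| ≤ ‖fderiv ℝ G (circleMap 0 r θ)‖ := by
    intro θ
    have h1 := (fderiv ℝ G (circleMap 0 r θ)).le_opNorm (circleMap 0 r θ * Complex.I)
    have h2 : ‖circleMap 0 r θ * Complex.I‖ = r := by simp [abs_of_pos hr0]
    rw [h2, Real.norm_eq_abs] at h1
    have h3 : 0 ≤ ‖fderiv ℝ G (circleMap 0 r θ)‖ := norm_nonneg _
    nlinarith
  have hsq : ∀ θ, g' θ ^ 2 ≤ ‖fderiv ℝ G (circleMap 0 r θ)‖ ^ 2 := by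
    intro θ
    rw [← sq_abs]
    exact pow_le_pow_left₀ (abs_nonneg _) (hbd θ) 2
  have hint : ∫ θ in θ0..θ1, g' θ = g θ1 - g θ0 :=
    intervalIntegral.integral_eq_sub_of_hasDerivAt (fun θ _ => hgd θ)
      (hg'c.intervalIntegrable _ _)
  have hone : g θ1 - g θ0 = 1 := by
    have h1 : g θ1 = 1 := hG1 _ (hmem θ1) hθ1w
    have h2 : g θ0 = 0 := by
      show G (circleMap 0 r θ0) = 0
      rw [hz0', hz00]
    rw [h1, h2, sub_zero]
  have habs : (1 : ℝ) ≤ ∫ θ in (-π)..π, |g' θ| := by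
    have h1 : (1 : ℝ) = |∫ θ in θ0..θ1, g' θ| := by rw [hint, hone, abs_one]
    have h2 := intervalIntegral.norm_integral_le_integral_norm_uIoc (f := g') (μ := volume)
      (a := θ0) (b := θ1)
    rw [Real.norm_eq_abs, ← h1] at h2
    refine h2.trans ?_
    rw [intervalIntegral.integral_of_le hle]
    refine setIntegral_mono_set ?_ ?_ ?_
    · exact (hg'c.norm.intervalIntegrable (-π) π).1.congr_fun (fun _ _ => rfl)
        measurableSet_Ioc
    · exact Eventually.of_forall fun θ => norm_nonneg _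
    · refine HasSubset.Subset.eventuallyLE ?_
      intro θ hθ
      rcases hθ with ⟨ha, hb⟩
      constructor
      · exact lt_of_le_of_lt (le_min hθ0m.1 hθ1.1) ha
      · exact hb.trans (max_le hθ0m.2 hθ1.2)
  have hup : ∫ θ in (-π)..π, |g' θ| ≤ ∫ θ in (-π)..π,
      (π / 7 * (7 * ‖fderiv ℝ G (circleMap 0 r θ)‖ ^ 2) + 1 / (4 * π)) := by
    refine intervalIntegral.integral_mono_on hle (hg'c.abs.intervalIntegrable _ _)
      (((continuous_const.mul hNc).add continuous_const).intervalIntegrable _ _) ?_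
    intro θ _
    have h1 := A8_amgm (g' θ)
    have h2 := hsq θ
    have h3 : π * g' θ ^ 2 ≤ π * ‖fderiv ℝ G (circleMap 0 r θ)‖ ^ 2 :=
      mul_le_mul_of_nonneg_left h2 hpi.le
    calc |g' θ| ≤ π * g' θ ^ 2 + 1 / (4 * π) := h1
      _ ≤ π * ‖fderiv ℝ G (circleMap 0 r θ)‖ ^ 2 + 1 / (4 * π) := by linarith
      _ = _ := by ring
  have hNc2 : Continuous fun θ : ℝ => π / 7 * (7 * ‖fderiv ℝ G (circleMap 0 r θ)‖ ^ 2) :=
    continuous_const.mul hNc
  rw [intervalIntegral.integral_add (hNc2.intervalIntegrable _ _)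
    (by simp), intervalIntegral.integral_const_mul, intervalIntegral.integral_const,
    smul_eq_mul] at hup
  have h5 : (π - -π) * (1 / (4 * π)) = 1 / 2 := by
    field_simp
    ring
  rw [h5] at hup
  set E := ∫ θ in (-π)..π, 7 * ‖fderiv ℝ G (circleMap 0 r θ)‖ ^ 2 with hE
  have h6 : 1 / 2 ≤ π / 7 * E := by linarith
  have h7 : E < 1 := by linarith
  have h8 : π / 7 * E ≤ π / 7 * 1 := mul_le_mul_of_nonneg_left h7.le (by positivity)
  linarith

/-- Polar coordinates (`Complex.polarCoord`, `Complex.integral_comp_polarCoord_symm`). For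
`r ∈ (1/2, 5/8)` let `E r = ∫ θ in (-π)..π, (d/dθ G (r e^{iθ})) ^ 2 ≤ r² ∫ ‖∇ G‖ ^ 2 dθ`. If
`∫ θ, (1 - w) < 1 / 8` on the circle then `w ≥ 3/4` somewhere on it, so `G = 1` there, while
`G = 0` somewhere on it, so `1 ≤ ∫ |d/dθ G| ≤ (2 π E r)^{1/2}`. Hence
`1 ≤ 7 E r + 8 ∫ (1 - w) dθ` for all such `r`; integrate against `r dr` over `(1/2, 5/8)`
(`∫ r dr = 9 / 128`). -/
theorem dip {G w : ℂ → ℝ} (hG : ∀ z ∈ Metric.ball (0 : ℂ) (3 / 4), ContDiffAt ℝ 1 G z)
    (hw : Continuous w) (hw0 : ∀ z ∈ Metric.ball (0 : ℂ) (3 / 4), 0 ≤ w z ∧ w z ≤ 1)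
    (hG1 : ∀ z ∈ Metric.ball (0 : ℂ) (3 / 4), 3 / 4 ≤ w z → G z = 1)
    (hG0 : ∀ r : ℝ, 1 / 2 < r → r < 5 / 8 → ∃ z ∈ Metric.sphere (0 : ℂ) r, G z = 0) :
    9 / 128 ≤ 7 * (∫ z in Metric.ball (0 : ℂ) (5 / 8), ‖fderiv ℝ G z‖ ^ 2) +
      8 * ∫ z in Metric.ball (0 : ℂ) (5 / 8), (1 - w z) := by
  have hGon : ContDiffOn ℝ 1 G (Metric.ball (0 : ℂ) (3 / 4)) := fun z hz =>
    (hG z hz).contDiffWithinAt
  have hfd : ContinuousOn (fderiv ℝ G) (Metric.ball (0 : ℂ) (3 / 4)) :=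
    hGon.continuousOn_fderiv_of_isOpen Metric.isOpen_ball le_rfl
  have hN : ContinuousOn (fun z => ‖fderiv ℝ G z‖ ^ 2) (Metric.ball (0 : ℂ) (3 / 4)) :=
    hfd.norm.pow 2
  set F : ℂ → ℝ := fun z => 7 * ‖fderiv ℝ G z‖ ^ 2 + 8 * (1 - w z) with hFdef
  have hFc : ContinuousOn F (Metric.ball (0 : ℂ) (3 / 4)) :=
    (continuousOn_const.mul hN).add
      (continuousOn_const.mul (continuousOn_const.sub hw.continuousOn))
  have hsub : Metric.closedBall (0 : ℂ) (5 / 8) ⊆ Metric.ball (0 : ℂ) (3 / 4) :=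
    Metric.closedBall_subset_ball (by norm_num)
  have hsub' : Metric.ball (0 : ℂ) (5 / 8) ⊆ Metric.ball (0 : ℂ) (3 / 4) :=
    Metric.ball_subset_ball (by norm_num)
  have hNi : IntegrableOn (fun z => ‖fderiv ℝ G z‖ ^ 2) (Metric.ball (0 : ℂ) (5 / 8)) :=
    ((hN.mono hsub).integrableOn_compact (isCompact_closedBall _ _)).mono_set
      Metric.ball_subset_closedBall
  have hwi : IntegrableOn (fun z => 1 - w z) (Metric.ball (0 : ℂ) (5 / 8)) := by
    have h1 : ContinuousOn (fun z => 1 - w z) (Metric.closedBall (0 : ℂ) (5 / 8)) :=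
      (continuous_const.sub hw).continuousOn
    exact (h1.integrableOn_compact (isCompact_closedBall _ _)).mono_set
      Metric.ball_subset_closedBall
  have hFi : IntegrableOn F (Metric.ball (0 : ℂ) (5 / 8)) :=
    (hNi.const_mul 7).add (hwi.const_mul 8)
  have hF0 : ∀ z ∈ Metric.ball (0 : ℂ) (5 / 8), 0 ≤ F z := by
    intro z hz
    have h1 := (hw0 z (hsub' hz)).2
    have h2 : 0 ≤ ‖fderiv ℝ G z‖ ^ 2 := by positivity
    show 0 ≤ 7 * ‖fderiv ℝ G z‖ ^ 2 + 8 * (1 - w z)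
    linarith
  have hsum : 7 * (∫ z in Metric.ball (0 : ℂ) (5 / 8), ‖fderiv ℝ G z‖ ^ 2) +
      8 * (∫ z in Metric.ball (0 : ℂ) (5 / 8), (1 - w z)) =
        ∫ z in Metric.ball (0 : ℂ) (5 / 8), F z := by
    rw [← integral_const_mul, ← integral_const_mul, ← integral_add (hNi.const_mul 7)
      (hwi.const_mul 8)]
  rw [hsum]
  -- pass to lower integrals
  have hmeasF : Measurable F := by
    have h1 : Measurable (fderiv ℝ G) := measurable_fderiv ℝ G
    have h2 := hw.measurable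
    show Measurable fun z => 7 * ‖fderiv ℝ G z‖ ^ 2 + 8 * (1 - w z)
    fun_prop
  have hlin : ENNReal.ofReal (∫ z in Metric.ball (0 : ℂ) (5 / 8), F z) =
      ∫⁻ z in Metric.ball (0 : ℂ) (5 / 8), ENNReal.ofReal (F z) :=
    ofReal_integral_eq_lintegral_ofReal hFi
      ((ae_restrict_iff' measurableSet_ball).2 (Eventually.of_forall hF0))
  have hnn : 0 ≤ ∫ z in Metric.ball (0 : ℂ) (5 / 8), F z :=
    setIntegral_nonneg measurableSet_ball hF0
  rw [← ENNReal.ofReal_le_ofReal_iff hnn, hlin]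
  set H : ℂ → ENNReal := (Metric.ball (0 : ℂ) (5 / 8)).indicator fun z => ENNReal.ofReal (F z)
    with hH
  have hHm : Measurable H := (hmeasF.ennreal_ofReal).indicator measurableSet_ball
  rw [← lintegral_indicator measurableSet_ball]
  rw [show (∫⁻ z, (Metric.ball (0 : ℂ) (5 / 8)).indicator (fun z => ENNReal.ofReal (F z)) z) =
    ∫⁻ z, H z from rfl, ← Complex.lintegral_comp_polarCoord_symm]
  have hmap : ∀ r θ : ℝ, Complex.polarCoord.symm (r, θ) = circleMap 0 r θ := by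
    intro r θ
    rw [Complex.polarCoord_symm_apply, circleMap, zero_add, Complex.exp_mul_I]
    push_cast
    ring
  have hcont2 : Measurable fun p : ℝ × ℝ => Complex.polarCoord.symm p := by
    have : (fun p : ℝ × ℝ => Complex.polarCoord.symm p) = fun p : ℝ × ℝ =>
        ((p.1 : ℂ) * ((Real.cos p.2 : ℝ) + (Real.sin p.2 : ℝ) * Complex.I)) := by
      funext p
      rw [Complex.polarCoord_symm_apply]
    rw [this]
    have hc : Continuous fun p : ℝ × ℝ =>
        ((p.1 : ℂ) * ((Real.cos p.2 : ℝ) + (Real.sin p.2 : ℝ) * Complex.I)) := by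
      fun_prop
    exact hc.measurable
  have hKm : Measurable fun p : ℝ × ℝ => ENNReal.ofReal p.1 • H (Complex.polarCoord.symm p) := by
    have h1 : Measurable fun p : ℝ × ℝ => H (Complex.polarCoord.symm p) := hHm.comp hcont2
    exact (measurable_fst.ennreal_ofReal).mul h1
  have hS : (Ioo (1 / 2 : ℝ) (5 / 8)) ×ˢ (Ioo (-π) π) ⊆ polarCoord.target := by
    rintro ⟨r, θ⟩ ⟨h1, h2⟩
    exact ⟨lt_trans (by norm_num) h1.1, h2⟩
  refine le_trans ?_ (lintegral_mono_set hS)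
  rw [Measure.volume_eq_prod, setLIntegral_prod _ hKm.aemeasurable]
  -- the bound on every circle
  have hcirc : ∀ r ∈ Ioo (1 / 2 : ℝ) (5 / 8), ENNReal.ofReal r ≤
      ∫⁻ θ in Ioo (-π) π, ENNReal.ofReal (r, θ).1 • H (Complex.polarCoord.symm (r, θ)) := by
    intro r hr
    have hr0 : 0 < r := lt_trans (by norm_num) hr.1
    have h1 := A8_circle hG hFc hw hw0 hG1 hr.1 hr.2 (hG0 r hr.1 hr.2)
    have hmem : ∀ θ : ℝ, circleMap 0 r θ ∈ Metric.ball (0 : ℂ) (5 / 8) := by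
      intro θ
      rw [Metric.mem_ball, dist_zero_right]
      simp [abs_of_pos hr0]
      exact hr.2
    have hcm : Continuous fun θ : ℝ => F (circleMap 0 r θ) :=
      hFc.comp_continuous (continuous_circleMap 0 r) fun θ => hsub' (hmem θ)
    have h2 : ∀ θ : ℝ, ENNReal.ofReal (r, θ).1 • H (Complex.polarCoord.symm (r, θ)) =
        ENNReal.ofReal (r * F (circleMap 0 r θ)) := by
      intro θ
      rw [hmap, hH, indicator_of_mem (hmem θ), smul_eq_mul, ENNReal.ofReal_mul hr0.le]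
    simp_rw [h2]
    have h3 : ∫⁻ θ in Ioo (-π) π, ENNReal.ofReal (r * F (circleMap 0 r θ)) =
        ENNReal.ofReal (∫ θ in Ioo (-π) π, r * F (circleMap 0 r θ)) := by
      rw [ofReal_integral_eq_lintegral_ofReal]
      · exact ((continuous_const.mul hcm).integrableOn_Icc).mono_set Ioo_subset_Icc_self
      · exact Eventually.of_forall fun θ => mul_nonneg hr0.le (hF0 _ (hmem θ))
    rw [h3]
    apply ENNReal.ofReal_le_ofReal
    rw [← integral_Ioc_eq_integral_Ioo,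
      ← intervalIntegral.integral_of_le (by linarith [Real.pi_pos] : -π ≤ π),
      intervalIntegral.integral_const_mul]
    have h4 : r * 1 ≤ r * ∫ θ in (-π)..π, F (circleMap 0 r θ) :=
      mul_le_mul_of_nonneg_left h1 hr0.le
    linarith
  calc ENNReal.ofReal (9 / 128) = ∫⁻ r in Ioo (1 / 2 : ℝ) (5 / 8), ENNReal.ofReal r := by
        have h1 : ∫⁻ r in Ioo (1 / 2 : ℝ) (5 / 8), ENNReal.ofReal r =
            ENNReal.ofReal (∫ r in Ioo (1 / 2 : ℝ) (5 / 8), r) := by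
          rw [ofReal_integral_eq_lintegral_ofReal]
          · exact (continuous_id.integrableOn_Icc).mono_set Ioo_subset_Icc_self
          · exact (ae_restrict_iff' measurableSet_Ioo).2
              (Eventually.of_forall fun r hr => (lt_trans (by norm_num) hr.1).le)
        rw [h1, ← integral_Ioc_eq_integral_Ioo,
          ← intervalIntegral.integral_of_le (by norm_num : (1 / 2 : ℝ) ≤ 5 / 8), integral_id]
        norm_num
    _ ≤ _ := setLIntegral_mono' measurableSet_Ioo hcirc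

end Pool.Agent.Helper34.BD
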