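import Pool.Agent.Helper34.BD.St.A0

set_option autoImplicit false

open MeasureTheory Real Filter Topology Set InnerProductSpace
open scoped ContDiff

noncomputable section

namespace Pool.Agent.Helper34.BD

open Pool.Agent.Helper12.RD

/-- the line through `a` in the direction `v` -/
theorem A9_aff (a v : ℂ) (τ : ℝ) : HasDerivAt (fun τ : ℝ => a + τ • v) v τ := by
  simpa using ((hasDerivAt_id τ).smul_const v).const_add a

theorem A9_aff_tendsto (a v : ℂ) : Tendsto (fun τ : ℝ => a + τ • v) (𝓝 0) (𝓝 a) := by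
  have := (A9_aff a v 0).continuousAt
  simpa [ContinuousAt] using this

/-- first derivative along a line -/
theorem A9_line1 {V : ℂ → ℝ} {a : ℂ} (v : ℂ) (h : DifferentiableAt ℝ V a) :
    HasDerivAt (fun τ : ℝ => V (a + τ • v)) (fderiv ℝ V a v) 0 := by
  have h5 : HasFDerivAt V (fderiv ℝ V a) (a + (0 : ℝ) • v) := by simpa using h.hasFDerivAt
  exact h5.comp_hasDerivAt 0 (A9_aff a v 0)

/-- second derivative along a line -/
theorem A9_line2 {V : ℂ → ℝ} {a : ℂ} (v : ℂ) (h : ContDiffAt ℝ 2 V a) :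
    (∀ᶠ τ : ℝ in 𝓝 0, HasDerivAt (fun τ : ℝ => V (a + τ • v)) (fderiv ℝ V (a + τ • v) v) τ) ∧
    HasDerivAt (fun τ : ℝ => fderiv ℝ V (a + τ • v) v) (fderiv ℝ (fderiv ℝ V) a v v) 0 := by
  constructor
  · have h1 : ∀ᶠ y in 𝓝 a, DifferentiableAt ℝ V y := by
      have := h.eventually (by simp)
      filter_upwards [this] with y hy using hy.differentiableAt (by norm_num)
    filter_upwards [(A9_aff_tendsto a v).eventually h1] with τ hτ
    exact hτ.hasFDerivAt.comp_hasDerivAt τ (A9_aff a v τ)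
  · have h3 : DifferentiableAt ℝ (fderiv ℝ V) a :=
      (h.fderiv_right (m := 1) (by norm_num)).differentiableAt (by norm_num)
    have h4 : HasDerivAt (fun τ : ℝ => fderiv ℝ V (a + τ • v)) (fderiv ℝ (fderiv ℝ V) a v) 0 := by
      have h5 : HasFDerivAt (fderiv ℝ V) (fderiv ℝ (fderiv ℝ V) a) (a + (0 : ℝ) • v) := by
        simpa using h3.hasFDerivAt
      exact h5.comp_hasDerivAt 0 (A9_aff a v 0)
    simpa using h4.clm_apply (hasDerivAt_const (0 : ℝ) v)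

/-- the Laplacian in a rotated basis -/
theorem A9_lap {V : ℂ → ℝ} {a e : ℂ} (h : HarmonicAt V a) (he : ‖e‖ = 1) :
    fderiv ℝ (fderiv ℝ V) a e e +
      fderiv ℝ (fderiv ℝ V) a (Complex.I * e) (Complex.I * e) = 0 := by
  have h0 : Laplacian.laplacian V a = 0 := by
    have := h.2.eq_of_nhds
    simpa using this
  rw [laplacian_eq_iteratedFDeriv_complexPlane] at h0
  simp only [iteratedFDeriv_two_apply, Matrix.cons_val_zero, Matrix.cons_val_one] at h0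
  set B := fderiv ℝ (fderiv ℝ V) a with hB
  have e1 : e = e.re • (1 : ℂ) + e.im • Complex.I := by
    apply Complex.ext <;> simp
  have e2 : Complex.I * e = (-e.im) • (1 : ℂ) + e.re • Complex.I := by
    apply Complex.ext <;> simp
  have h1 : B e e = e.re * (e.re * B 1 1 + e.im * B 1 Complex.I) +
      e.im * (e.re * B Complex.I 1 + e.im * B Complex.I Complex.I) := by
    conv_lhs => rw [e1]
    simp only [map_add, map_smul, ContinuousLinearMap.add_apply, ContinuousLinearMap.smul_apply,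
      smul_eq_mul]
    ring
  have h2 : B (Complex.I * e) (Complex.I * e) =
      (-e.im) * ((-e.im) * B 1 1 + e.re * B 1 Complex.I) +
      e.re * ((-e.im) * B Complex.I 1 + e.re * B Complex.I Complex.I) := by
    rw [e2]
    simp only [map_add, map_smul, ContinuousLinearMap.add_apply, ContinuousLinearMap.smul_apply,
      smul_eq_mul]
    ring
  rw [h1, h2]
  have h3 : e.re * (e.re * B 1 1 + e.im * B 1 Complex.I) +
      e.im * (e.re * B Complex.I 1 + e.im * B Complex.I Complex.I) +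
      ((-e.im) * ((-e.im) * B 1 1 + e.re * B 1 Complex.I) +
      e.re * ((-e.im) * B Complex.I 1 + e.re * B Complex.I Complex.I)) =
      (e.re ^ 2 + e.im ^ 2) * (B 1 1 + B Complex.I Complex.I) := by ring
  rw [h3, h0, mul_zero]

/-- one variable: no local maximum with positive second derivative -/
theorem A9_test {φ φ' : ℝ → ℝ} {D : ℝ} (h1 : ∀ᶠ τ in 𝓝 (0 : ℝ), HasDerivAt φ (φ' τ) τ)
    (h2 : HasDerivAt φ' D 0) (hm : IsLocalMax φ 0) : D ≤ 0 := by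
  by_contra hD
  push Not at hD
  have e1 : deriv φ =ᶠ[𝓝 0] φ' := by
    filter_upwards [h1] with τ hτ using hτ.deriv
  have e2 : deriv (deriv φ) 0 = D := by
    rw [e1.deriv_eq]
    exact h2.deriv
  have e3 : deriv φ 0 = 0 := hm.deriv_eq_zero
  have hc : ContinuousAt φ 0 := h1.self_of_nhds.continuousAt
  have hmin : IsLocalMin φ 0 := isLocalMin_of_deriv_deriv_pos (by rw [e2]; exact hD) e3 hc
  have hconst : φ =ᶠ[𝓝 0] fun _ => φ 0 := by
    filter_upwards [hm, hmin] with τ h3 h4 using le_antisymm h3 h4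
  have e4 : deriv φ =ᶠ[𝓝 0] fun _ => (0 : ℝ) := by
    have := hconst.deriv
    filter_upwards [this] with τ hτ
    rw [hτ]
    simp
  have e5 : deriv (deriv φ) 0 = 0 := by
    rw [e4.deriv_eq]
    simp
  rw [e2] at e5
  linarith

/-- the square of the norm along a line -/
theorem A9_sq (a v : ℂ) (hv : ‖v‖ = 1) (τ : ℝ) :
    ‖a + τ • v‖ ^ 2 = ‖a‖ ^ 2 + 2 * τ * inner ℝ a v + τ ^ 2 := by
  rw [norm_add_sq_real, norm_smul, real_inner_smul_right, hv]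
  have : ‖τ‖ ^ 2 = τ ^ 2 := by rw [Real.norm_eq_abs, sq_abs]
  rw [mul_one, this]
  ring

/-- the key inequality for one slope -/
theorem A9_key {V : ℂ → ℝ} {S : Set ℂ} {z₀ : ℂ} {ρ c M θ : ℝ} (hρ : 0 < ρ) (hc : 0 ≤ c)
    (hM0 : 0 < M) (hθ : c + 8 * M / ρ < θ)
    (hcont : ContinuousOn V (Metric.closedBall z₀ ρ))
    (hM : ∀ y ∈ Metric.closedBall z₀ ρ, |V y| ≤ M)
    (hS : ∀ y ∈ Metric.ball z₀ ρ, y ∉ S → HarmonicAt V y)
    (hd : ∀ y ∈ Metric.ball z₀ ρ, y ∈ S → DifferentiableAt ℝ V y ∧ ‖fderiv ℝ V y‖ ≤ c)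
    {x y : ℂ} (hx : x ∈ Metric.closedBall z₀ ρ) (hy : y ∈ Metric.closedBall z₀ ρ) :
    V x - V y ≤ θ * ‖x - y‖ - θ / (4 * ρ) * ‖x - y‖ ^ 2 +
      2 * M / ρ ^ 2 * (‖x - z₀‖ ^ 2 + ‖y - z₀‖ ^ 2) := by
  set μ : ℝ := θ / (4 * ρ) with hμ
  set K : ℝ := 2 * M / ρ ^ 2 with hK
  have hMρ : 0 < M / ρ := div_pos hM0 hρ
  have hθ' : c + 8 * (M / ρ) < θ := by rw [mul_div_assoc] at hθ; exact hθ
  have hθ0 : 0 < θ := by linarith
  have hK0 : 0 < K := by positivity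
  have hμ0 : 0 < μ := by positivity
  have hKρ : K * ρ ^ 2 = 2 * M := by rw [hK]; field_simp
  have hKρ' : K * ρ = 2 * (M / ρ) := by rw [hK]; field_simp
  have hμρ : μ * ρ = θ / 4 := by rw [hμ]; field_simp
  have hμK : K < μ := by
    have h1 : K * ρ < μ * ρ := by rw [hKρ', hμρ]; linarith
    exact lt_of_mul_lt_mul_right h1 hρ.le
  let F : ℂ × ℂ → ℝ := fun q => V q.1 - V q.2 - (θ * ‖q.1 - q.2‖ - μ * ‖q.1 - q.2‖ ^ 2) -
    K * (‖q.1 - z₀‖ ^ 2 + ‖q.2 - z₀‖ ^ 2)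
  have hFc : ContinuousOn F (Metric.closedBall z₀ ρ ×ˢ Metric.closedBall z₀ ρ) := by
    have h1 : ContinuousOn (fun q : ℂ × ℂ => V q.1)
        (Metric.closedBall z₀ ρ ×ˢ Metric.closedBall z₀ ρ) :=
      hcont.comp continuousOn_fst (fun q hq => hq.1)
    have h2 : ContinuousOn (fun q : ℂ × ℂ => V q.2)
        (Metric.closedBall z₀ ρ ×ˢ Metric.closedBall z₀ ρ) :=
      hcont.comp continuousOn_snd (fun q hq => hq.2)
    have h3 : Continuous fun q : ℂ × ℂ => θ * ‖q.1 - q.2‖ - μ * ‖q.1 - q.2‖ ^ 2 := by fun_prop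
    have h4 : Continuous fun q : ℂ × ℂ => K * (‖q.1 - z₀‖ ^ 2 + ‖q.2 - z₀‖ ^ 2) := by fun_prop
    exact ((h1.sub h2).sub h3.continuousOn).sub h4.continuousOn
  have hcomp : IsCompact (Metric.closedBall z₀ ρ ×ˢ Metric.closedBall z₀ ρ) :=
    (isCompact_closedBall z₀ ρ).prod (isCompact_closedBall z₀ ρ)
  obtain ⟨⟨x₁, y₁⟩, hxy, hmax⟩ := hcomp.exists_isMaxOn ⟨(x, y), ⟨hx, hy⟩⟩ hFc
  suffices hF : F (x₁, y₁) ≤ 0 by
    have h1 : F (x, y) ≤ F (x₁, y₁) := hmax (show (x, y) ∈ _ from ⟨hx, hy⟩)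
    have h2 : F (x, y) ≤ 0 := h1.trans hF
    simp only [F] at h2
    linarith
  by_contra hpos
  push Not at hpos
  obtain ⟨hx₁, hy₁⟩ := hxy
  simp only at hx₁ hy₁
  set s : ℝ := ‖x₁ - y₁‖ with hs
  have hs0 : 0 ≤ s := norm_nonneg _
  have hxn : ‖x₁ - z₀‖ ≤ ρ := by simpa [dist_eq_norm] using hx₁
  have hyn : ‖y₁ - z₀‖ ≤ ρ := by simpa [dist_eq_norm] using hy₁
  have hs2 : s ≤ 2 * ρ := by
    have : x₁ - y₁ = (x₁ - z₀) - (y₁ - z₀) := by ring
    rw [hs, this]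
    exact (norm_sub_le _ _).trans (by linarith)
  have hVx := abs_le.mp (hM x₁ hx₁)
  have hVy := abs_le.mp (hM y₁ hy₁)
  have hFv : F (x₁, y₁) = V x₁ - V y₁ - (θ * s - μ * s ^ 2) -
    K * (‖x₁ - z₀‖ ^ 2 + ‖y₁ - z₀‖ ^ 2) := rfl
  have hμs : μ * s ^ 2 ≤ θ * s / 2 := by
    have h1 : μ * s ^ 2 = (μ * s) * s := by ring
    have h2 : μ * s ≤ θ / 2 := by
      have : μ * s ≤ μ * (2 * ρ) := mul_le_mul_of_nonneg_left hs2 hμ0.le
      have h3 : μ * (2 * ρ) = θ / 2 := by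
        have : μ * (2 * ρ) = 2 * (μ * ρ) := by ring
        rw [this, hμρ]; ring
      linarith
    rw [h1]
    have := mul_le_mul_of_nonneg_right h2 hs0
    linarith
  have hmain : θ * s / 2 + K * (‖x₁ - z₀‖ ^ 2 + ‖y₁ - z₀‖ ^ 2) < 2 * M := by
    rw [hFv] at hpos
    linarith [hVx.1, hVx.2, hVy.1, hVy.2]
  have hnx : 0 ≤ ‖x₁ - z₀‖ := norm_nonneg _
  have hny : 0 ≤ ‖y₁ - z₀‖ := norm_nonneg _
  have hθs : 0 ≤ θ * s := mul_nonneg hθ0.le hs0
  have hxb : ‖x₁ - z₀‖ < ρ := by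
    by_contra h
    push Not at h
    have h1 : ρ ^ 2 ≤ ‖x₁ - z₀‖ ^ 2 := pow_le_pow_left₀ hρ.le h 2
    have h2 : K * ρ ^ 2 ≤ K * ‖x₁ - z₀‖ ^ 2 := mul_le_mul_of_nonneg_left h1 hK0.le
    have h3 : 0 ≤ K * ‖y₁ - z₀‖ ^ 2 := by positivity
    linarith
  have hyb : ‖y₁ - z₀‖ < ρ := by
    by_contra h
    push Not at h
    have h1 : ρ ^ 2 ≤ ‖y₁ - z₀‖ ^ 2 := pow_le_pow_left₀ hρ.le h 2
    have h2 : K * ρ ^ 2 ≤ K * ‖y₁ - z₀‖ ^ 2 := mul_le_mul_of_nonneg_left h1 hK0.le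
    have h3 : 0 ≤ K * ‖x₁ - z₀‖ ^ 2 := by positivity
    linarith
  have hxB : x₁ ∈ Metric.ball z₀ ρ := by simpa [dist_eq_norm] using hxb
  have hyB : y₁ ∈ Metric.ball z₀ ρ := by simpa [dist_eq_norm] using hyb
  have hθs4 : θ * s < 4 * M := by
    have h3 : 0 ≤ K * (‖x₁ - z₀‖ ^ 2 + ‖y₁ - z₀‖ ^ 2) := by positivity
    linarith
  have hspos : 0 < s := by
    rcases hs0.eq_or_lt with h | h
    · exfalso
      have h1 : x₁ = y₁ := by
        rw [← sub_eq_zero, ← norm_eq_zero, ← hs, ← h]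
      have h2 : F (x₁, y₁) ≤ 0 := by
        rw [hFv, ← h, h1]
        have : 0 ≤ K * (‖y₁ - z₀‖ ^ 2 + ‖y₁ - z₀‖ ^ 2) := by positivity
        nlinarith
      linarith
    · exact h
  -- the unit vector
  let e : ℂ := (s⁻¹ : ℝ) • (x₁ - y₁)
  have he : ‖e‖ = 1 := by
    show ‖(s⁻¹ : ℝ) • (x₁ - y₁)‖ = 1
    rw [norm_smul, ← hs, Real.norm_eq_abs, abs_of_pos (inv_pos.mpr hspos),
      inv_mul_cancel₀ hspos.ne']
  have hse : x₁ - y₁ = s • e := by
    show x₁ - y₁ = s • ((s⁻¹ : ℝ) • (x₁ - y₁))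
    rw [smul_smul, mul_inv_cancel₀ hspos.ne', one_smul]
  have he' : ‖Complex.I * e‖ = 1 := by rw [norm_mul, Complex.norm_I, he, one_mul]
  have hdist : ∀ τ : ℝ, -s ≤ τ → ‖(s + τ) • e‖ = s + τ := by
    intro τ hτ
    rw [norm_smul, he, mul_one, Real.norm_eq_abs, abs_of_nonneg (by linarith)]
  -- neighbourhoods
  have hnear : ∀ (a v : ℂ), a ∈ Metric.ball z₀ ρ →
      ∀ᶠ τ : ℝ in 𝓝 0, a + τ • v ∈ Metric.closedBall z₀ ρ := by
    intro a v ha
    have h1 : ∀ᶠ q in 𝓝 a, q ∈ Metric.closedBall z₀ ρ := by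
      filter_upwards [Metric.isOpen_ball.mem_nhds ha] with q hq using Metric.ball_subset_closedBall hq
    exact (A9_aff_tendsto a v).eventually h1
  have hsmall : ∀ᶠ τ : ℝ in 𝓝 0, |τ| < s / 2 := by
    have : Tendsto (fun τ : ℝ => |τ|) (𝓝 0) (𝓝 |0|) := continuous_abs.tendsto 0
    rw [abs_zero] at this
    exact this.eventually (gt_mem_nhds (by linarith))
  -- differentiability
  have hdiff : ∀ q ∈ Metric.ball z₀ ρ, DifferentiableAt ℝ V q := by
    intro q hq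
    by_cases h : q ∈ S
    · exact (hd q hq h).1
    · exact (hS q hq h).1.differentiableAt (by norm_num)
  have hbnd : θ - 2 * μ * s - 2 * K * ρ > c := by
    have h1 : μ * s * ρ = θ * s / 4 := by
      have : μ * s * ρ = (μ * ρ) * s := by ring
      rw [this, hμρ]; ring
    have h2 : μ * s < M / ρ := by
      rw [lt_div_iff₀ hρ, h1]; linarith
    have h3 : 2 * K * ρ = 4 * (M / ρ) := by
      have : 2 * K * ρ = 2 * (K * ρ) := by ring
      rw [this, hKρ']; ring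
    rw [h3]
    linarith
  have hinner : ∀ q : ℂ, ‖q - z₀‖ ≤ ρ → |inner ℝ (q - z₀) e| ≤ ρ := by
    intro q hq
    have := abs_real_inner_le_norm (q - z₀) e
    rw [he, mul_one] at this
    exact this.trans hq
  -- x is not in S
  have hxS : x₁ ∉ S := by
    intro hxS
    have hloc : IsLocalMax (fun τ : ℝ => V (x₁ + τ • e) - (θ * (s + τ) - μ * (s + τ) ^ 2) -
        K * (2 * τ * inner ℝ (x₁ - z₀) e + τ ^ 2)) 0 := by
      filter_upwards [hnear x₁ e hxB, hsmall] with τ h1 h2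
      have h3 : F (x₁ + τ • e, y₁) ≤ F (x₁, y₁) :=
        hmax (show (x₁ + τ • e, y₁) ∈ _ from ⟨h1, hy₁⟩)
      have h4 : x₁ + τ • e - y₁ = (s + τ) • e := by
        have : x₁ + τ • e - y₁ = (x₁ - y₁) + τ • e := by ring
        rw [this, hse, add_smul]
      have h5 : x₁ + τ • e - z₀ = (x₁ - z₀) + τ • e := by ring
      have h6 : F (x₁ + τ • e, y₁) = V (x₁ + τ • e) - V y₁ - (θ * (s + τ) - μ * (s + τ) ^ 2) -
          K * (‖x₁ - z₀‖ ^ 2 + 2 * τ * inner ℝ (x₁ - z₀) e + τ ^ 2 + ‖y₁ - z₀‖ ^ 2) := by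
        simp only [F]
        rw [h4, h5, A9_sq _ _ he, hdist τ (by linarith [neg_abs_le τ])]
      rw [h6, hFv] at h3
      simp only [zero_smul, add_zero, mul_zero, zero_mul]
      nlinarith
    have hder : HasDerivAt (fun τ : ℝ => V (x₁ + τ • e) - (θ * (s + τ) - μ * (s + τ) ^ 2) -
        K * (2 * τ * inner ℝ (x₁ - z₀) e + τ ^ 2))
        (fderiv ℝ V x₁ e - (θ - 2 * μ * s) - K * (2 * inner ℝ (x₁ - z₀) e)) 0 := by
      have h1 := A9_line1 e (hdiff x₁ hxB)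
      have h2 : HasDerivAt (fun τ : ℝ => θ * (s + τ) - μ * (s + τ) ^ 2)
          (θ * 1 - μ * (2 * (s + 0) ^ (2 - 1) * 1)) 0 :=
        (((hasDerivAt_id (0 : ℝ)).const_add s).const_mul θ).sub
          ((((hasDerivAt_id (0 : ℝ)).const_add s).pow 2).const_mul μ)
      have h3 : HasDerivAt (fun τ : ℝ => K * (2 * τ * inner ℝ (x₁ - z₀) e + τ ^ 2))
          (K * (2 * 1 * inner ℝ (x₁ - z₀) e + 2 * (0 : ℝ) ^ (2 - 1) * 1)) 0 :=
        (((((hasDerivAt_id (0 : ℝ)).const_mul 2).mul_const _)).add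
          ((hasDerivAt_id (0 : ℝ)).pow 2)).const_mul K
      have h4 := (h1.sub h2).sub h3
      refine h4.congr_deriv ?_
      simp
      ring
    have h0 := hloc.hasDerivAt_eq_zero hder
    have h1 := (hd x₁ hxB hxS).2
    have h2 : fderiv ℝ V x₁ e ≤ ‖fderiv ℝ V x₁‖ := by
      have := (fderiv ℝ V x₁).le_opNorm e
      rw [he, mul_one, Real.norm_eq_abs] at this
      exact (le_abs_self _).trans this
    have h3 := (abs_le.mp (hinner x₁ hxn)).1
    have h4 : K * (-ρ) ≤ K * inner ℝ (x₁ - z₀) e := mul_le_mul_of_nonneg_left h3 hK0.le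
    linarith
  have hyS : y₁ ∉ S := by
    intro hyS
    have hloc : IsLocalMax (fun τ : ℝ => -V (y₁ + τ • e) - (θ * (s + -τ) - μ * (s + -τ) ^ 2) -
        K * (2 * τ * inner ℝ (y₁ - z₀) e + τ ^ 2)) 0 := by
      filter_upwards [hnear y₁ e hyB, hsmall] with τ h1 h2
      have h3 : F (x₁, y₁ + τ • e) ≤ F (x₁, y₁) :=
        hmax (show (x₁, y₁ + τ • e) ∈ _ from ⟨hx₁, h1⟩)
      have h4 : x₁ - (y₁ + τ • e) = (s + -τ) • e := by
        have : x₁ - (y₁ + τ • e) = (x₁ - y₁) - τ • e := by ring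
        rw [this, hse, add_smul, neg_smul, sub_eq_add_neg]
      have h5 : y₁ + τ • e - z₀ = (y₁ - z₀) + τ • e := by ring
      have h6 : F (x₁, y₁ + τ • e) = V x₁ - V (y₁ + τ • e) -
          (θ * (s + -τ) - μ * (s + -τ) ^ 2) -
          K * (‖x₁ - z₀‖ ^ 2 + (‖y₁ - z₀‖ ^ 2 + 2 * τ * inner ℝ (y₁ - z₀) e + τ ^ 2)) := by
        simp only [F]
        rw [h4, h5, A9_sq _ _ he, hdist (-τ) (by linarith [le_abs_self τ])]
      rw [h6, hFv] at h3
      simp only [zero_smul, add_zero, mul_zero, zero_mul, neg_zero]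
      nlinarith
    have hder : HasDerivAt (fun τ : ℝ => -V (y₁ + τ • e) - (θ * (s + -τ) - μ * (s + -τ) ^ 2) -
        K * (2 * τ * inner ℝ (y₁ - z₀) e + τ ^ 2))
        (-fderiv ℝ V y₁ e - (-θ + 2 * μ * s) - K * (2 * inner ℝ (y₁ - z₀) e)) 0 := by
      have h1 := (A9_line1 e (hdiff y₁ hyB)).neg
      have h2 : HasDerivAt (fun τ : ℝ => θ * (s + -τ) - μ * (s + -τ) ^ 2)
          (θ * (-1) - μ * (2 * (s + -0) ^ (2 - 1) * (-1))) 0 :=
        (((hasDerivAt_id (0 : ℝ)).neg.const_add s).const_mul θ).sub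
          ((((hasDerivAt_id (0 : ℝ)).neg.const_add s).pow 2).const_mul μ)
      have h3 : HasDerivAt (fun τ : ℝ => K * (2 * τ * inner ℝ (y₁ - z₀) e + τ ^ 2))
          (K * (2 * 1 * inner ℝ (y₁ - z₀) e + 2 * (0 : ℝ) ^ (2 - 1) * 1)) 0 :=
        (((((hasDerivAt_id (0 : ℝ)).const_mul 2).mul_const _)).add
          ((hasDerivAt_id (0 : ℝ)).pow 2)).const_mul K
      have h4 := (h1.sub h2).sub h3
      refine h4.congr_deriv ?_
      simp
      ring
    have h0 := hloc.hasDerivAt_eq_zero hder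
    have h1 := (hd y₁ hyB hyS).2
    have h2 : fderiv ℝ V y₁ e ≤ ‖fderiv ℝ V y₁‖ := by
      have := (fderiv ℝ V y₁).le_opNorm e
      rw [he, mul_one, Real.norm_eq_abs] at this
      exact (le_abs_self _).trans this
    have h3 := (abs_le.mp (hinner y₁ hyn)).2
    have h4 : K * inner ℝ (y₁ - z₀) e ≤ K * ρ := mul_le_mul_of_nonneg_left h3 hK0.le
    linarith
  -- second order
  have hHx := hS x₁ hxB hxS
  have hHy := hS y₁ hyB hyS
  obtain ⟨a1, a2⟩ := A9_line2 e hHx.1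
  obtain ⟨b1, b2⟩ := A9_line2 (-e) hHy.1
  obtain ⟨c1, c2⟩ := A9_line2 (Complex.I * e) hHx.1
  obtain ⟨d1, d2⟩ := A9_line2 (Complex.I * e) hHy.1
  let b : ℝ := -2 * θ + 4 * μ * s - 2 * K * inner ℝ (x₁ - z₀) e -
    2 * K * inner ℝ (y₁ - z₀) (-e) - 2 * K * inner ℝ (x₁ - z₀) (Complex.I * e) -
    2 * K * inner ℝ (y₁ - z₀) (Complex.I * e)
  have hlm : IsLocalMax (fun τ : ℝ => V (x₁ + τ • e) - V (y₁ + τ • (-e)) +
      (V (x₁ + τ • (Complex.I * e)) - V (y₁ + τ • (Complex.I * e))) +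
      (b * τ + (4 * μ - 4 * K) * τ ^ 2)) 0 := by
    filter_upwards [hnear x₁ e hxB, hnear y₁ (-e) hyB, hnear x₁ (Complex.I * e) hxB,
      hnear y₁ (Complex.I * e) hyB, hsmall] with τ h1 h2 h3 h4 h5
    have g1 : F (x₁ + τ • e, y₁ + τ • (-e)) ≤ F (x₁, y₁) :=
      hmax (show (x₁ + τ • e, y₁ + τ • (-e)) ∈ _ from ⟨h1, h2⟩)
    have g2 : F (x₁ + τ • (Complex.I * e), y₁ + τ • (Complex.I * e)) ≤ F (x₁, y₁) :=
      hmax (show (x₁ + τ • (Complex.I * e), y₁ + τ • (Complex.I * e)) ∈ _ from ⟨h3, h4⟩)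
    have k1 : x₁ + τ • e - (y₁ + τ • (-e)) = (s + 2 * τ) • e := by
      have : x₁ + τ • e - (y₁ + τ • (-e)) = (x₁ - y₁) + (2 * τ) • e := by
        rw [smul_neg, two_mul, add_smul]; ring
      rw [this, hse, add_smul]
    have k2 : x₁ + τ • (Complex.I * e) - (y₁ + τ • (Complex.I * e)) = x₁ - y₁ := by ring
    have k3 : x₁ + τ • e - z₀ = (x₁ - z₀) + τ • e := by ring
    have k4 : y₁ + τ • (-e) - z₀ = (y₁ - z₀) + τ • (-e) := by ring
    have k5 : x₁ + τ • (Complex.I * e) - z₀ = (x₁ - z₀) + τ • (Complex.I * e) := by ring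
    have k6 : y₁ + τ • (Complex.I * e) - z₀ = (y₁ - z₀) + τ • (Complex.I * e) := by ring
    have hne : ‖-e‖ = 1 := by rw [norm_neg, he]
    have f1 : F (x₁ + τ • e, y₁ + τ • (-e)) = V (x₁ + τ • e) - V (y₁ + τ • (-e)) -
        (θ * (s + 2 * τ) - μ * (s + 2 * τ) ^ 2) -
        K * ((‖x₁ - z₀‖ ^ 2 + 2 * τ * inner ℝ (x₁ - z₀) e + τ ^ 2) +
          (‖y₁ - z₀‖ ^ 2 + 2 * τ * inner ℝ (y₁ - z₀) (-e) + τ ^ 2)) := by
      simp only [F]
      rw [k1, k3, k4, A9_sq _ _ he, A9_sq _ _ hne, hdist (2 * τ) (by linarith [neg_abs_le τ])]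
    have f2 : F (x₁ + τ • (Complex.I * e), y₁ + τ • (Complex.I * e)) =
        V (x₁ + τ • (Complex.I * e)) - V (y₁ + τ • (Complex.I * e)) -
        (θ * s - μ * s ^ 2) -
        K * ((‖x₁ - z₀‖ ^ 2 + 2 * τ * inner ℝ (x₁ - z₀) (Complex.I * e) + τ ^ 2) +
          (‖y₁ - z₀‖ ^ 2 + 2 * τ * inner ℝ (y₁ - z₀) (Complex.I * e) + τ ^ 2)) := by
      simp only [F]
      rw [k2, k5, k6, A9_sq _ _ he', A9_sq _ _ he']
    rw [f1, hFv] at g1
    rw [f2, hFv] at g2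
    simp only [zero_smul, add_zero, mul_zero, ne_eq, OfNat.ofNat_ne_zero, not_false_eq_true,
      zero_pow, b]
    nlinarith
  have hD := A9_test (φ' := fun τ : ℝ => fderiv ℝ V (x₁ + τ • e) e -
      fderiv ℝ V (y₁ + τ • (-e)) (-e) +
      (fderiv ℝ V (x₁ + τ • (Complex.I * e)) (Complex.I * e) -
        fderiv ℝ V (y₁ + τ • (Complex.I * e)) (Complex.I * e)) +
      (b + (4 * μ - 4 * K) * (2 * τ)))
    (D := fderiv ℝ (fderiv ℝ V) x₁ e e - fderiv ℝ (fderiv ℝ V) y₁ (-e) (-e) +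
      (fderiv ℝ (fderiv ℝ V) x₁ (Complex.I * e) (Complex.I * e) -
        fderiv ℝ (fderiv ℝ V) y₁ (Complex.I * e) (Complex.I * e)) +
      (4 * μ - 4 * K) * 2) ?_ ?_ hlm
  · have hl1 := A9_lap hHx he
    have hl2 := A9_lap hHy he
    have hneg : fderiv ℝ (fderiv ℝ V) y₁ (-e) (-e) = fderiv ℝ (fderiv ℝ V) y₁ e e := by
      simp
    rw [hneg] at hD
    linarith
  · filter_upwards [a1, b1, c1, d1] with τ h1 h2 h3 h4
    have h5 : HasDerivAt (fun τ : ℝ => b * τ + (4 * μ - 4 * K) * τ ^ 2)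
        (b * 1 + (4 * μ - 4 * K) * (2 * τ ^ (2 - 1) * 1)) τ :=
      ((hasDerivAt_id τ).const_mul b).add (((hasDerivAt_id τ).pow 2).const_mul _)
    refine (((h1.sub h2).add (h3.sub h4)).add h5).congr_deriv ?_
    simp
  · have h5 : HasDerivAt (fun τ : ℝ => b + (4 * μ - 4 * K) * (2 * τ))
        ((4 * μ - 4 * K) * (2 * 1)) 0 :=
      (((hasDerivAt_id (0 : ℝ)).const_mul 2).const_mul _).const_add b
    refine (((a2.sub b2).add (c2.sub d2)).add h5).congr_deriv ?_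
    ring

/-- Two-point maximum principle. Let `θ > c + 8 M / ρ`, `μ = θ / (4 ρ)`, `K = 2 M / ρ ^ 2`
(take `M > 0` first) and
`F (x, y) = V x - V y - (θ |x - y| - μ |x - y| ^ 2) - K (|x - z₀| ^ 2 + |y - z₀| ^ 2)`
on `closedBall × closedBall` of radius `ρ`. Claim `F ≤ 0`, which gives (with `y = z₀`)
`‖∇ V z₀‖ ≤ θ`. Otherwise let `(x, y)` be a maximum point; `F (x, x) ≤ 0` gives `x ≠ y`; with
`s = |x - y| ≤ 2 ρ`, `θ s / 2 + K (|x - z₀| ^ 2 + |y - z₀| ^ 2) < 2 M`, so both points are in the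
open ball and `s < 4 M / θ`. The first order conditions give, with `e = (x - y) / s`,
`∇ V x = (θ - 2 μ s) e + 2 K (x - z₀)`, `∇ V y = (θ - 2 μ s) e - 2 K (y - z₀)`, of norm
`≥ θ - 2 M / ρ - 4 M / ρ > c`, so `x, y ∉ S` and `V` is harmonic near both. The functions
`τ ↦ F (x + τ e, y - τ e)` and `τ ↦ F (x + τ e', y + τ e')`, `e' = i e`, have a local maximum
at `0`, so `V_ee x - V_ee y + 8 μ - 4 K ≤ 0` and `V_e'e' x - V_e'e' y - 4 K ≤ 0`; the sum is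
`8 μ - 8 K ≤ 0`, but `μ > K`. -/
theorem grad_est {V : ℂ → ℝ} {S : Set ℂ} {z₀ : ℂ} {ρ c M : ℝ} (hρ : 0 < ρ) (hc : 0 ≤ c)
    (hcont : ContinuousOn V (Metric.closedBall z₀ ρ))
    (hM : ∀ y ∈ Metric.closedBall z₀ ρ, |V y| ≤ M)
    (hS : ∀ y ∈ Metric.ball z₀ ρ, y ∉ S → HarmonicAt V y)
    (hd : ∀ y ∈ Metric.ball z₀ ρ, y ∈ S → DifferentiableAt ℝ V y ∧ ‖fderiv ℝ V y‖ ≤ c) :
    ‖fderiv ℝ V z₀‖ ≤ c + 8 * M / ρ := by
  have hz : z₀ ∈ Metric.closedBall z₀ ρ := Metric.mem_closedBall_self hρ.le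
  have hM0 : 0 ≤ M := (abs_nonneg _).trans (hM z₀ hz)
  refine le_of_forall_pos_le_add fun ε hε => ?_
  set M' : ℝ := M + ε * ρ / 16 with hM'
  have hM'0 : 0 < M' := by positivity
  set θ : ℝ := c + 8 * M / ρ + ε with hθ
  have hθM : c + 8 * M' / ρ < θ := by
    have : 8 * M' / ρ = 8 * M / ρ + ε / 2 := by rw [hM']; field_simp; ring
    rw [this, hθ]; linarith
  have hθ0 : 0 < θ := by
    have : 0 ≤ 8 * M / ρ := by positivity
    linarith
  have hbd : ∀ y ∈ Metric.closedBall z₀ ρ, |V y| ≤ M' := fun y hy =>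
    (hM y hy).trans (by rw [hM']; have : 0 < ε * ρ / 16 := by positivity
                        linarith)
  have hμK : 2 * M' / ρ ^ 2 ≤ θ / (4 * ρ) := by
    rw [div_le_div_iff₀ (by positivity) (by positivity)]
    have h1 : 8 * M' / ρ < θ := by linarith
    rw [div_lt_iff₀ hρ] at h1
    have : 2 * M' * (4 * ρ) ≤ θ * ρ * ρ := by nlinarith
    linarith [this, show θ * ρ ^ 2 = θ * ρ * ρ by ring]
  refine norm_fderiv_le_of_lip' ℝ hθ0.le ?_
  filter_upwards [Metric.isOpen_ball.mem_nhds (Metric.mem_ball_self hρ)] with x hx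
  have hx' : x ∈ Metric.closedBall z₀ ρ := Metric.ball_subset_closedBall hx
  have h1 := A9_key hρ hc hM'0 hθM hcont hbd hS hd hx' hz
  have h2 := A9_key hρ hc hM'0 hθM hcont hbd hS hd hz hx'
  rw [sub_self, norm_zero] at h1 h2
  rw [norm_sub_rev z₀ x] at h2
  have h3 : 2 * M' / ρ ^ 2 * ‖x - z₀‖ ^ 2 ≤ θ / (4 * ρ) * ‖x - z₀‖ ^ 2 :=
    mul_le_mul_of_nonneg_right hμK (by positivity)
  rw [Real.norm_eq_abs, abs_le]
  constructor <;> nlinarith

end Pool.Agent.Helper34.BD
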