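import Pool.Agent.Helper34.BD.Defs

set_option autoImplicit false

open MeasureTheory Real Filter Topology Set InnerProductSpace
open scoped ContDiff

noncomputable section

namespace Pool.Agent.Helper34.BD

open Pool.Agent.Helper12.RD

theorem PK_pos {ξ η : ℝ} (hη : 0 < η) (s : ℝ) : 0 < PK ξ η s := by
  unfold PK
  positivity

theorem PK_nonneg {ξ η : ℝ} (hη : 0 < η) (s : ℝ) : 0 ≤ PK ξ η s := (PK_pos hη s).le

theorem PK_le {ξ η : ℝ} (hη : 0 < η) (s : ℝ) : PK ξ η s ≤ η⁻¹ := by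
  unfold PK
  rw [div_le_iff₀ (by positivity)]
  have h1 : η⁻¹ * ((s - ξ) ^ 2 + η ^ 2) = η⁻¹ * (s - ξ) ^ 2 + η := by
    field_simp
  rw [h1]
  have h2 : 0 ≤ η⁻¹ * (s - ξ) ^ 2 := by positivity
  linarith

theorem PK_cont {ξ η : ℝ} (hη : 0 < η) : Continuous (PK ξ η) := by
  unfold PK
  refine Continuous.div continuous_const (by fun_prop) fun s => ?_
  positivity

theorem PK_mul {ξ η : ℝ} (hη : 0 < η) (s : ℝ) : PK ξ η s * ((s - ξ) ^ 2 + η ^ 2) = η := by
  unfold PK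
  have h : (s - ξ) ^ 2 + η ^ 2 ≠ 0 := by positivity
  exact div_mul_cancel₀ _ h

theorem B0_eq {ξ η : ℝ} (hη : 0 < η) :
    PK ξ η = fun s => η⁻¹ * (1 + ((s - ξ) / η) ^ 2)⁻¹ := by
  funext s
  unfold PK
  have h : (s - ξ) ^ 2 + η ^ 2 ≠ 0 := by positivity
  have h2 : 1 + ((s - ξ) / η) ^ 2 = ((s - ξ) ^ 2 + η ^ 2) / η ^ 2 := by
    field_simp
    ring
  rw [h2, inv_div]
  field_simp

theorem PK_integrable {ξ η : ℝ} (hη : 0 < η) : Integrable (PK ξ η) := by
  rw [B0_eq hη]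
  exact ((integrable_inv_one_add_sq.comp_div hη.ne').comp_sub_right ξ).const_mul η⁻¹

/-- from `integral_univ_inv_one_add_sq` -/
theorem PK_int {ξ η : ℝ} (hη : 0 < η) : ∫ s, PK ξ η s = π := by
  rw [B0_eq hη, integral_const_mul]
  have h1 : ∫ s : ℝ, (1 + ((s - ξ) / η) ^ 2)⁻¹ = ∫ s : ℝ, (1 + (s / η) ^ 2)⁻¹ :=
    integral_sub_right_eq_self (fun s : ℝ => (1 + (s / η) ^ 2)⁻¹) ξ
  have h2 : ∫ s : ℝ, (1 + (s / η) ^ 2)⁻¹ = |η| • ∫ s : ℝ, (1 + s ^ 2)⁻¹ :=
    Measure.integral_comp_div (fun s : ℝ => (1 + s ^ 2)⁻¹) η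
  rw [h1, h2, integral_univ_inv_one_add_sq, abs_of_pos hη, smul_eq_mul, ← mul_assoc,
    inv_mul_cancel₀ hη.ne', one_mul]

theorem B0_tail {ξ η l R : ℝ} (hl : 0 < l) (hR : 1 ≤ R) (h1 : |ξ| ≤ l / 2) (h2 : l / 2 ≤ η)
    (h3 : η ≤ 3 * l / 2) : ∫ s in Ioi (R * l), PK ξ η s ≤ 6 / R := by
  have hη : 0 < η := by linarith
  have hR0 : 0 < R := by linarith
  have ha : 0 < R * l := by positivity
  have hint : IntegrableOn (fun s : ℝ => 6 * l * s ^ (-2 : ℝ)) (Ioi (R * l)) :=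
    (integrableOn_Ioi_rpow_of_lt (by norm_num) ha).const_mul _
  have hle : ∫ s in Ioi (R * l), PK ξ η s ≤ ∫ s in Ioi (R * l), 6 * l * s ^ (-2 : ℝ) := by
    refine setIntegral_mono_on (PK_integrable hη).integrableOn hint measurableSet_Ioi ?_
    intro s hs
    have hs1 : R * l < s := hs
    have hs0 : 0 < s := ha.trans hs1
    have hls : l ≤ s := by
      have : l ≤ R * l := by nlinarith
      linarith
    have hxs := abs_le.1 h1
    have hsx : s / 2 ≤ s - ξ := by linarith [hxs.2]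
    have hsq : s ^ 2 / 4 ≤ (s - ξ) ^ 2 + η ^ 2 := by nlinarith [sq_nonneg η]
    have e1 : s ^ (-2 : ℝ) = (s ^ 2)⁻¹ := by
      rw [Real.rpow_neg hs0.le, Real.rpow_two]
    rw [e1]
    unfold PK
    calc η / ((s - ξ) ^ 2 + η ^ 2) ≤ η / (s ^ 2 / 4) :=
          div_le_div_of_nonneg_left hη.le (by positivity) hsq
      _ = 4 * η * (s ^ 2)⁻¹ := by field_simp
      _ ≤ 6 * l * (s ^ 2)⁻¹ := by
          apply mul_le_mul_of_nonneg_right _ (by positivity)
          linarith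
  refine hle.trans (le_of_eq ?_)
  rw [integral_const_mul, integral_Ioi_rpow_of_lt (by norm_num) ha]
  have e2 : (R * l) ^ ((-2 : ℝ) + 1) = (R * l)⁻¹ := by
    rw [show (-2 : ℝ) + 1 = -1 by norm_num, Real.rpow_neg_one]
  rw [e2]
  field_simp
  norm_num

/-- for `|s| ≥ R λ` one has `|s - ξ| ≥ |s| / 2`, so `PK ≤ 6 λ / s ^ 2` -/
theorem PK_tail {ξ η l R : ℝ} (hl : 0 < l) (hR : 1 ≤ R) (h1 : |ξ| ≤ l / 2) (h2 : l / 2 ≤ η)
    (h3 : η ≤ 3 * l / 2) : ∫ s in {s : ℝ | R * l < |s|}, PK ξ η s ≤ 12 / R := by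
  have hη : 0 < η := by linarith
  have ha : 0 < R * l := by positivity
  have hset : {s : ℝ | R * l < |s|} = Ioi (R * l) ∪ Iio (-(R * l)) := by
    ext s
    simp only [mem_setOf_eq, mem_union, mem_Ioi, mem_Iio, lt_abs]
    constructor
    · rintro (h | h)
      · exact Or.inl h
      · exact Or.inr (by linarith)
    · rintro (h | h)
      · exact Or.inl h
      · exact Or.inr (by linarith)
  have hdis : Disjoint (Ioi (R * l)) (Iio (-(R * l))) := by
    rw [Set.disjoint_left]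
    intro s hs hs'
    simp only [mem_Ioi, mem_Iio] at hs hs'
    linarith
  rw [hset, setIntegral_union hdis measurableSet_Iio (PK_integrable hη).integrableOn
    (PK_integrable hη).integrableOn]
  have h4 : ∫ s in Iio (-(R * l)), PK ξ η s = ∫ s in Ioi (R * l), PK (-ξ) η s := by
    rw [← integral_Iic_eq_integral_Iio]
    have h5 := integral_comp_neg_Iic (-(R * l)) (fun s => PK (-ξ) η s)
    rw [neg_neg] at h5
    rw [← h5]
    refine setIntegral_congr_fun measurableSet_Iic fun s _ => ?_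
    unfold PK
    congr 1
    ring
  rw [h4]
  have h6 := B0_tail hl hR h1 h2 h3
  have h7 := B0_tail (ξ := -ξ) hl hR (by rwa [abs_neg]) h2 h3
  have h8 : 12 / R = 6 / R + 6 / R := by ring
  rw [h8]
  exact add_le_add h6 h7

end Pool.Agent.Helper34.BD
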