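import Pool.Agent.Helper34.BD.Defs

set_option autoImplicit false

open MeasureTheory Real Filter Topology Set InnerProductSpace
open scoped ContDiff

noncomputable section

namespace Pool.Agent.Helper34.BD

open Pool.Agent.Helper12.RD

variable {f : ℝ × ℝ → ℝ} {C0 : ℝ}

theorem HypB.C0_nonneg (h : HypB f C0) : 0 ≤ C0 :=
  (abs_nonneg _).trans (h.bdd (0, 0))

theorem gg_cont (h : HypB f C0) : Continuous (gg f) := by
  unfold gg
  exact (h.cont.comp (by fun_prop)).sub h.cont

theorem gg_bdd (h : HypB f C0) (y : ℝ × ℝ) : |gg f y| ≤ 2 * C0 := by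
  unfold gg
  have h1 := h.bdd (y.1 + 1, y.2)
  have h2 := h.bdd y
  rw [abs_le] at *
  constructor <;> linarith [h1.1, h1.2, h2.1, h2.2]

theorem B1_gg_eq (t p : ℝ) : (fun s : ℝ => gg f (p - t * s, s)) =
    fun s : ℝ => f (p + 1 - t * s, s) - f (p - t * s, s) := by
  funext s
  simp only [gg]
  rw [show p - t * s + 1 = p + 1 - t * s from by ring]

theorem gg_line (h : HypB f C0) (t p : ℝ) : Integrable (fun s : ℝ => gg f (p - t * s, s)) := by
  rw [B1_gg_eq]
  exact (h.line t (p + 1)).sub (h.line t p)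

theorem gg_zero (h : HypB f C0) (t p : ℝ) : ∫ s : ℝ, gg f (p - t * s, s) = 0 := by
  rw [B1_gg_eq, integral_sub (h.line t (p + 1)) (h.line t p), h.zero, h.zero, sub_zero]

theorem As_bdd (h : HypB f C0) (s : ℝ) (z : ℝ × ℝ) : |As f s z| ≤ C0 := by
  unfold As
  have h1 := intervalIntegral.norm_integral_le_of_norm_le_const (a := z.2) (b := z.2 + 1)
    (f := fun q => f (q - z.1 * s, s)) (C := C0) (fun x _ => h.bdd _)
  simpa using h1

/-- the primitive of `f (·, s)` -/
def B1_P (f : ℝ × ℝ → ℝ) (s y : ℝ) : ℝ := ∫ q in (0 : ℝ)..y, f (q, s)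

theorem B1_cont (h : HypB f C0) (s : ℝ) : Continuous (fun q : ℝ => f (q, s)) :=
  h.cont.comp (by fun_prop)

theorem B1_P_deriv (h : HypB f C0) (s y : ℝ) : HasDerivAt (B1_P f s) (f (y, s)) y := by
  unfold B1_P
  exact intervalIntegral.integral_hasDerivAt_right ((B1_cont h s).intervalIntegrable _ _)
    (B1_cont h s).stronglyMeasurable.stronglyMeasurableAtFilter (B1_cont h s).continuousAt

theorem B1_P_contDiff (h : HypB f C0) (s : ℝ) : ContDiff ℝ 1 (B1_P f s) := by
  rw [contDiff_one_iff_deriv]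
  refine ⟨fun y => (B1_P_deriv h s y).differentiableAt, ?_⟩
  rw [show deriv (B1_P f s) = fun q : ℝ => f (q, s) from funext fun y => (B1_P_deriv h s y).deriv]
  exact B1_cont h s

theorem B1_As_eq (h : HypB f C0) (s : ℝ) (z : ℝ × ℝ) :
    As f s z = B1_P f s (z.2 + 1 - z.1 * s) - B1_P f s (z.2 - z.1 * s) := by
  unfold As B1_P
  rw [intervalIntegral.integral_comp_sub_right (fun q => f (q, s)) (z.1 * s),
    intervalIntegral.integral_interval_sub_left ((B1_cont h s).intervalIntegrable _ _)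
      ((B1_cont h s).intervalIntegrable _ _)]

/-- joint continuity: `As f s (t, p) = ∫ q in 0..1, f (p + q - t s, s)` -/
theorem As_cont (h : HypB f C0) : Continuous (fun y : ℝ × (ℝ × ℝ) => As f y.1 y.2) := by
  have h1 : (fun y : ℝ × (ℝ × ℝ) => As f y.1 y.2) =
      fun y : ℝ × (ℝ × ℝ) => ∫ q in (0 : ℝ)..1, f (q + y.2.2 - y.2.1 * y.1, y.1) := by
    funext y
    unfold As
    rw [intervalIntegral.integral_comp_add_right
      (fun q => f (q - y.2.1 * y.1, y.1)) y.2.2, zero_add, add_comm]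
  rw [h1]
  refine intervalIntegral.continuous_parametric_intervalIntegral_of_continuous' ?_ 0 1
  have h2 : Continuous fun x : (ℝ × (ℝ × ℝ)) × ℝ =>
      f (x.2 + x.1.2.2 - x.1.2.1 * x.1.1, x.1.1) := h.cont.comp (by fun_prop)
  exact h2

theorem As_dp (h : HypB f C0) (s t p : ℝ) :
    HasDerivAt (fun x : ℝ => As f s (t, x)) (gg f (p - t * s, s)) p := by
  have h1 : (fun x : ℝ => As f s (t, x)) =
      fun x : ℝ => B1_P f s (x + 1 - t * s) - B1_P f s (x - t * s) := by
    funext x
    rw [B1_As_eq h]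
  rw [h1]
  have h2 : HasDerivAt (fun x : ℝ => x + 1 - t * s) 1 p :=
    ((hasDerivAt_id' p).add_const 1).sub_const _
  have h3 : HasDerivAt (fun x : ℝ => x - t * s) 1 p := (hasDerivAt_id' p).sub_const _
  have h4 := (B1_P_deriv h s (p + 1 - t * s)).comp p h2
  have h5 := (B1_P_deriv h s (p - t * s)).comp p h3
  have h6 := h4.sub h5
  refine h6.congr_deriv ?_
  simp only [gg]
  rw [show p - t * s + 1 = p + 1 - t * s from by ring]
  ring

/-- `As f s (t, p) = F (p + 1 - t s) - F (p - t s)` with `F` a primitive of `f (·, s)` -/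
theorem As_dt (h : HypB f C0) (s t p : ℝ) :
    HasDerivAt (fun x : ℝ => As f s (x, p)) (-(s * gg f (p - t * s, s))) t := by
  have h1 : (fun x : ℝ => As f s (x, p)) =
      fun x : ℝ => B1_P f s (p + 1 - x * s) - B1_P f s (p - x * s) := by
    funext x
    rw [B1_As_eq h]
  rw [h1]
  have h2 : HasDerivAt (fun x : ℝ => p + 1 - x * s) (-(1 * s)) t :=
    ((hasDerivAt_id' t).mul_const s).const_sub _
  have h3 : HasDerivAt (fun x : ℝ => p - x * s) (-(1 * s)) t :=
    ((hasDerivAt_id' t).mul_const s).const_sub _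
  have h4 := (B1_P_deriv h s (p + 1 - t * s)).comp t h2
  have h5 := (B1_P_deriv h s (p - t * s)).comp t h3
  have h6 := h4.sub h5
  refine h6.congr_deriv ?_
  simp only [gg]
  rw [show p - t * s + 1 = p + 1 - t * s from by ring]
  ring

theorem As_contDiff (h : HypB f C0) (s : ℝ) : ContDiff ℝ 1 (As f s) := by
  have h1 : As f s = fun z : ℝ × ℝ => B1_P f s (z.2 + 1 - z.1 * s) - B1_P f s (z.2 - z.1 * s) := by
    funext z
    rw [B1_As_eq h]
  rw [h1]
  refine ((B1_P_contDiff h s).comp ?_).sub ((B1_P_contDiff h s).comp ?_)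
  · fun_prop
  · fun_prop

end Pool.Agent.Helper34.BD
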