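import Pool.Agent.Helper34.BD.St.B3

set_option autoImplicit false

open MeasureTheory Real Filter Topology Set InnerProductSpace
open scoped ContDiff

noncomputable section

namespace Pool.Agent.Helper34.BD

open Pool.Agent.Helper12.RD

variable {f : ℝ × ℝ → ℝ} {C0 : ℝ}

theorem B9b_ku_int (h : HypB f C0) {X : ℝ} (hX : 0 < X) (z : ℝ × ℝ) :
    Integrable (fun s : ℝ => s / (s ^ 2 + X ^ 2) * gg f (z.2 - z.1 * s, s)) := by
  have hc : Continuous (fun s : ℝ => s / (s ^ 2 + X ^ 2)) := by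
    refine continuous_id.div (by fun_prop) fun s => ?_
    positivity
  refine ((gg_line h z.1 z.2).abs.const_mul (2 * X)⁻¹).mono'
    (hc.mul (B3_gg_meas h z.1 z.2)).aestronglyMeasurable (Eventually.of_forall fun s => ?_)
  rw [norm_mul, Real.norm_eq_abs, Real.norm_eq_abs]
  refine mul_le_mul_of_nonneg_right ?_ (abs_nonneg _)
  have h2 : 0 < s ^ 2 + X ^ 2 := by positivity
  rw [abs_div, abs_of_pos h2, inv_eq_one_div, div_le_div_iff₀ h2 (by positivity), one_mul]
  nlinarith [sq_nonneg (|s| - X), sq_abs s]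

theorem B9b_PK_int (h : HypB f C0) {X : ℝ} (hX : 0 < X) (z : ℝ × ℝ) :
    Integrable (fun s : ℝ => PK 0 X s * gg f (z.2 - z.1 * s, s)) := by
  refine ((gg_line h z.1 z.2).abs.const_mul X⁻¹).mono'
    ((PK_cont hX).mul (B3_gg_meas h z.1 z.2)).aestronglyMeasurable (Eventually.of_forall fun s => ?_)
  rw [norm_mul, Real.norm_eq_abs, Real.norm_eq_abs, abs_of_nonneg (PK_nonneg hX s)]
  exact mul_le_mul_of_nonneg_right (PK_le hX s) (abs_nonneg _)

theorem B9b_kernel {X : ℝ} (hX : 0 < X) (s : ℝ) :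
    (X : ℂ) / ((s : ℂ) + X * Complex.I) =
      ((X * (s / (s ^ 2 + X ^ 2)) : ℝ) : ℂ) - ((X * PK 0 X s : ℝ) : ℂ) * Complex.I := by
  have h1 : (s : ℝ) ^ 2 + X ^ 2 ≠ 0 := by positivity
  have h2 : (s : ℂ) + X * Complex.I ≠ 0 := by
    intro h0
    have := congrArg Complex.im h0
    simp at this
    exact hX.ne' this
  have h3 : ((s : ℂ) ^ 2 + (X : ℂ) ^ 2) ≠ 0 := by
    intro h0
    apply h1
    exact_mod_cast h0
  have h4 : ((s : ℂ) + X * Complex.I) * ((s : ℂ) - X * Complex.I) = (s : ℂ) ^ 2 + (X : ℂ) ^ 2 := by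
    have := Complex.I_mul_I
    linear_combination (-(X : ℂ) ^ 2) * this
  unfold PK
  rw [div_eq_iff h2]
  push_cast
  rw [sub_zero]
  field_simp
  linear_combination (-(X : ℂ)) * h4

theorem B9b_ofReal (F : ℝ → ℝ) : ∫ s : ℝ, ((F s : ℝ) : ℂ) = ((∫ s : ℝ, F s : ℝ) : ℂ) :=
  integral_ofReal

/-- `X (s - i X) / (s ^ 2 + X ^ 2) = X / (s + i X)` -/
theorem Ph_eq (h : HypB f C0) {X : ℝ} (hX : 0 < X) (z : ℝ × ℝ) :
    Ph (gg f) X z = ((X * uu f X z : ℝ) : ℂ) - ((X * vv f 0 X z : ℝ) : ℂ) * Complex.I := by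
  have h1 : ∀ s : ℝ, ((gg f (z.2 - z.1 * s, s) : ℝ) : ℂ) * ((X : ℂ) / ((s : ℂ) + X * Complex.I)) =
      ((X * (s / (s ^ 2 + X ^ 2) * gg f (z.2 - z.1 * s, s)) : ℝ) : ℂ) -
        ((X * (PK 0 X s * gg f (z.2 - z.1 * s, s)) : ℝ) : ℂ) * Complex.I := by
    intro s
    rw [B9b_kernel hX]
    push_cast
    ring
  unfold Ph
  simp_rw [h1]
  rw [integral_sub ((B9b_ku_int h hX z).const_mul X).ofReal
    (((B9b_PK_int h hX z).const_mul X).ofReal.mul_const _), integral_mul_const, B9b_ofReal,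
    B9b_ofReal, integral_const_mul, integral_const_mul]
  rfl

/-- dominated convergence and `gg_zero` -/
theorem Ph_limit (h : HypB f C0) (z : ℝ × ℝ) :
    Tendsto (fun k : ℕ => Ph (gg f) (2 ^ k) z) atTop (𝓝 0) := by
  have hlim : ∀ s : ℝ, Tendsto (fun k : ℕ => ((gg f (z.2 - z.1 * s, s) : ℝ) : ℂ) *
      (((2 ^ k : ℝ) : ℂ) / ((s : ℂ) + ((2 ^ k : ℝ) : ℂ) * Complex.I))) atTop
      (𝓝 (((gg f (z.2 - z.1 * s, s) : ℝ) : ℂ) * (1 / (0 + Complex.I)))) := by
    intro s
    refine Tendsto.const_mul _ ?_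
    have h2 : Tendsto (fun k : ℕ => ((s / 2 ^ k : ℝ) : ℂ)) atTop (𝓝 0) := by
      have h3 : Tendsto (fun k : ℕ => s / (2 : ℝ) ^ k) atTop (𝓝 0) :=
        Tendsto.const_div_atTop (tendsto_pow_atTop_atTop_of_one_lt one_lt_two) s
      have := (Complex.continuous_ofReal.tendsto 0).comp h3
      rw [Complex.ofReal_zero] at this
      exact this
    have h4 : ∀ k : ℕ, ((2 ^ k : ℝ) : ℂ) / ((s : ℂ) + ((2 ^ k : ℝ) : ℂ) * Complex.I) =
        1 / (((s / 2 ^ k : ℝ) : ℂ) + Complex.I) := by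
      intro k
      have h5 : ((2 ^ k : ℝ) : ℂ) ≠ 0 := by
        have : (2 ^ k : ℝ) ≠ 0 := by positivity
        exact_mod_cast this
      have h6 : (s : ℂ) + ((2 ^ k : ℝ) : ℂ) * Complex.I ≠ 0 := by
        intro h0
        have := congrArg Complex.im h0
        rw [Complex.add_im, Complex.ofReal_im, Complex.mul_im, Complex.ofReal_im, Complex.I_re,
          Complex.I_im, Complex.ofReal_re, Complex.zero_im] at this
        have h7 : (2 : ℝ) ^ k > 0 := by positivity
        linarith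
      have h8 : ((s / 2 ^ k : ℝ) : ℂ) + Complex.I ≠ 0 := by
        intro h0
        have := congrArg Complex.im h0
        rw [Complex.add_im, Complex.ofReal_im, Complex.I_im, Complex.zero_im] at this
        linarith
      rw [div_eq_div_iff h6 h8, Complex.ofReal_div]
      field_simp
    simp_rw [h4]
    refine Tendsto.div tendsto_const_nhds (h2.add tendsto_const_nhds) ?_
    rw [zero_add]
    exact Complex.I_ne_zero
  have key := tendsto_integral_of_dominated_convergence (μ := volume)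
    (bound := fun s : ℝ => |gg f (z.2 - z.1 * s, s)|)
    (F := fun (k : ℕ) (s : ℝ) => ((gg f (z.2 - z.1 * s, s) : ℝ) : ℂ) *
      (((2 ^ k : ℝ) : ℂ) / ((s : ℂ) + ((2 ^ k : ℝ) : ℂ) * Complex.I)))
    (f := fun s : ℝ => ((gg f (z.2 - z.1 * s, s) : ℝ) : ℂ) * (1 / (0 + Complex.I)))
    (fun k => by
      refine Continuous.aestronglyMeasurable ?_
      refine (Complex.continuous_ofReal.comp (B3_gg_meas h z.1 z.2)).mul ?_
      refine continuous_const.div (Complex.continuous_ofReal.add continuous_const) fun s => ?_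
      intro h0
      have := congrArg Complex.im h0
      rw [Complex.add_im, Complex.ofReal_im, Complex.mul_im, Complex.ofReal_im, Complex.I_re,
        Complex.I_im, Complex.ofReal_re, Complex.zero_im] at this
      have h7 : (2 : ℝ) ^ k > 0 := by positivity
      linarith)
    (gg_line h z.1 z.2).abs
    (fun k => Eventually.of_forall fun s => by
      rw [norm_mul, Complex.norm_real, Real.norm_eq_abs]
      refine mul_le_of_le_one_right (abs_nonneg _) ?_
      have h7 : (0 : ℝ) < 2 ^ k := by positivity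
      rw [norm_div]
      apply div_le_one_of_le₀ _ (norm_nonneg _)
      rw [Complex.norm_real, Real.norm_eq_abs, abs_of_pos h7]
      have h9 := Complex.abs_im_le_norm ((s : ℂ) + ((2 ^ k : ℝ) : ℂ) * Complex.I)
      rw [Complex.add_im, Complex.ofReal_im, Complex.mul_im, Complex.ofReal_im, Complex.I_re,
        Complex.I_im, Complex.ofReal_re] at h9
      have h10 : |(0 : ℝ) + (2 ^ k * 1 + 0 * 0)| = 2 ^ k := by
        rw [mul_one, mul_zero, add_zero, zero_add, abs_of_pos h7]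
      rwa [h10] at h9)
    (Eventually.of_forall hlim)
  have hz : ∫ s : ℝ, ((gg f (z.2 - z.1 * s, s) : ℝ) : ℂ) * (1 / (0 + Complex.I)) = 0 := by
    rw [integral_mul_const, B9b_ofReal, gg_zero h z.1 z.2, Complex.ofReal_zero, zero_mul]
  rw [hz] at key
  refine key.congr fun k => ?_
  unfold Ph
  rfl

end Pool.Agent.Helper34.BD
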