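import Pool.Agent.Helper34.BD.St.B2b
import Pool.Agent.Helper34.BD.St.B9b

set_option autoImplicit false

open MeasureTheory Real Filter Topology Set InnerProductSpace
open scoped ContDiff

noncomputable section

namespace Pool.Agent.Helper34.BD

open Pool.Agent.Helper12.RD

variable {f : ℝ × ℝ → ℝ} {C0 : ℝ}

/-- product with a compactly supported smooth function inside `O` is continuous and integrable -/
theorem B10_int {V ψ : ℝ × ℝ → ℝ} {O : Set (ℝ × ℝ)} (hO : IsOpen O) (hV : ContinuousOn V O)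
    (hψ : Continuous ψ) (hc : HasCompactSupport ψ) (hs : tsupport ψ ⊆ O) :
    Integrable (fun z => V z * ψ z) := by
  have h1 : tsupport (fun z => V z * ψ z) ⊆ tsupport ψ := tsupport_mul_subset_right
  have h2 : Continuous (fun z => V z * ψ z) :=
    (hV.mul hψ.continuousOn).continuous_of_tsupport_subset hO (h1.trans hs)
  exact h2.integrable_of_hasCompactSupport (hc.mul_left)

theorem B10_ibp {V V' ψ : ℝ × ℝ → ℝ} {v : ℝ × ℝ} {O : Set (ℝ × ℝ)} (hO : IsOpen O)
    (hV : Continuous V) (hV' : ContinuousOn V' O)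
    (hd : ∀ z ∈ O, HasLineDerivAt ℝ V (V' z) z v) (hψ : ContDiff ℝ ∞ ψ)
    (hc : HasCompactSupport ψ) (hs : tsupport ψ ⊆ O) :
    ∫ z, V z * fderiv ℝ ψ z v = -∫ z, V' z * ψ z := by
  have hcd : Continuous (fun z => fderiv ℝ ψ z v) :=
    (hψ.continuous_fderiv (by simp)).clm_apply continuous_const
  have hsd : tsupport (fun z => fderiv ℝ ψ z v) ⊆ tsupport ψ :=
    (tsupport_fderiv_apply_subset ℝ v)
  have hccd : HasCompactSupport (fun z => fderiv ℝ ψ z v) := hc.fderiv_apply ℝ v
  have h := integral_bilinear_hasLineDerivAt_right_eq_neg_left_of_integrable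
    (μ := (volume : Measure (ℝ × ℝ))) (f := V) (f' := V') (g := ψ)
    (g' := fun z => fderiv ℝ ψ z v) (v := v) (B := ContinuousLinearMap.mul ℝ ℝ)
    (B10_int hO hV' hψ.continuous hc hs)
    (B10_int isOpen_univ hV.continuousOn hcd hccd (subset_univ _))
    (B10_int isOpen_univ hV.continuousOn hψ.continuous hc (subset_univ _))
    (fun x hx => hd x (hs hx))
    (fun x _ => ((hψ.differentiable (by simp)) x).hasFDerivAt.hasLineDerivAt v)
  simpa using h

/-- With `Φ = X u - i X v`, `∂_t V = - X u`, `∂_p V = v`: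
`∫ Φ (-X⁻¹ ∂_t φ + i ∂_p φ) = ∫ (- u ∂_t φ + X v ∂_p φ) + i ∫ (X u ∂_p φ + v ∂_t φ)`; integrate by
parts: the real part is `- X⁻¹ ∫ V (∂_t² + X² ∂_p²) φ = - DD f φ` by `VV_lap` and the imaginary
part is `∫ V (∂_t ∂_p - ∂_p ∂_t) φ = 0`. -/
theorem pair_eq (h : HypB f C0) {X : ℝ} (hX : 0 < X) {O : Set (ℝ × ℝ)} (hO : IsOpen O)
    (hu : ContinuousOn (uu f X) O)
    (hd : ∀ z ∈ O, HasDerivAt (fun x : ℝ => VV f 0 X (x, z.2)) (-(X * uu f X z)) z.1)
    {φ : ℝ × ℝ → ℝ} (hφ : ContDiff ℝ ∞ φ) (hc : HasCompactSupport φ) (hs : tsupport φ ⊆ O) :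
    Bp X (Ph (gg f) X) φ = ((-DD f φ : ℝ) : ℂ) := by
  have hV : Continuous (VV f 0 X) := VV_cont h hX
  have hv : Continuous (vv f 0 X) := vv_cont h hX
  have hct : HasCompactSupport (dt φ) := hc.fderiv_apply ℝ (1, 0)
  have hcp : HasCompactSupport (dp φ) := hc.fderiv_apply ℝ (0, 1)
  have hst : tsupport (dt φ) ⊆ O := (dt_supp φ).trans hs
  have hsp : tsupport (dp φ) ⊆ O := (dp_supp φ).trans hs
  have hφt := dt_smooth hφ
  have hφp := dp_smooth hφ
  -- line derivatives
  have ht1 : ∀ z ∈ O, HasLineDerivAt ℝ (VV f 0 X) (-(X * uu f X z)) z (1, 0) := by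
    intro z hz
    have h1 := hd z hz
    have h2 : HasDerivAt (fun s : ℝ => z.1 + s) 1 0 := by
      simpa using (hasDerivAt_id (0 : ℝ)).const_add z.1
    have h3 : HasDerivAt (fun x : ℝ => VV f 0 X (x, z.2)) (-(X * uu f X z)) (z.1 + 0) := by
      simpa using h1
    have h4 := h3.comp (0 : ℝ) h2
    simp only [mul_one] at h4
    refine h4.congr_of_eventuallyEq (Eventually.of_forall fun s => ?_)
    show VV f 0 X (z + s • _) = _
    congr 1
    ext <;> simp
  have hp1 : ∀ z ∈ (univ : Set (ℝ × ℝ)), HasLineDerivAt ℝ (VV f 0 X) (vv f 0 X z) z (0, 1) := by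
    intro z _
    have h1 := VV_dp h (ξ := 0) hX z.1 z.2
    have h2 : HasDerivAt (fun s : ℝ => z.2 + s) 1 0 := by
      simpa using (hasDerivAt_id (0 : ℝ)).const_add z.2
    have h3 : HasDerivAt (fun x : ℝ => VV f 0 X (z.1, x)) (vv f 0 X z) (z.2 + 0) := by
      simpa using h1
    have h4 := h3.comp (0 : ℝ) h2
    simp only [mul_one] at h4
    refine h4.congr_of_eventuallyEq (Eventually.of_forall fun s => ?_)
    show VV f 0 X (z + s • _) = _
    congr 1
    ext <;> simp
  have hXu : ContinuousOn (fun z => -(X * uu f X z)) O := (continuousOn_const.mul hu).neg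
  have e1 := B10_ibp hO hV hXu ht1 hφt hct hst
  have e2 := B10_ibp hO hV hXu ht1 hφp hcp hsp
  have e3 := B10_ibp isOpen_univ hV hv.continuousOn hp1 hφt hct (subset_univ _)
  have e4 := B10_ibp isOpen_univ hV hv.continuousOn hp1 hφp hcp (subset_univ _)
  have i1 := B10_int hO hu hφt.continuous hct hst
  have i2 := B10_int hO hu hφp.continuous hcp hsp
  have i3 := B10_int isOpen_univ hv.continuousOn hφt.continuous hct (subset_univ _)
  have i4 := B10_int isOpen_univ hv.continuousOn hφp.continuous hcp (subset_univ _)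
  have hlap := VV_lap h (ξ := 0) hX hφ hc
  -- the integrand
  have hpt : ∀ z, Ph (gg f) X z * Dop X φ z =
      ((-(uu f X z * dt φ z) + X * (vv f 0 X z * dp φ z) : ℝ) : ℂ) +
        ((X * (uu f X z * dp φ z) + vv f 0 X z * dt φ z : ℝ) : ℂ) * Complex.I := by
    intro z
    rw [Ph_eq h hX z, Dop]
    have hX' : (X : ℂ) ≠ 0 := by exact_mod_cast hX.ne'
    apply Complex.ext
    · simp
      field_simp
    · simp
      field_simp
  have hR : Integrable (fun z => -(uu f X z * dt φ z) + X * (vv f 0 X z * dp φ z)) :=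
    Integrable.add (f := fun z => -(uu f X z * dt φ z)) i1.neg (i4.const_mul X)
  have hI : Integrable (fun z => X * (uu f X z * dp φ z) + vv f 0 X z * dt φ z) :=
    (i2.const_mul X).add i3
  have hsplit : Bp X (Ph (gg f) X) φ =
      ((∫ z, (-(uu f X z * dt φ z) + X * (vv f 0 X z * dp φ z)) : ℝ) : ℂ) +
        ((∫ z, (X * (uu f X z * dp φ z) + vv f 0 X z * dt φ z) : ℝ) : ℂ) * Complex.I := by
    rw [Bp, integral_congr_ae (Eventually.of_forall hpt), integral_add hR.ofReal
      (hI.ofReal.mul_const _), integral_mul_const, integral_complex_ofReal,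
      integral_complex_ofReal]
  rw [hsplit]
  have hIm : ∫ z, (X * (uu f X z * dp φ z) + vv f 0 X z * dt φ z) = 0 := by
    rw [integral_add (i2.const_mul X) i3, integral_const_mul]
    have hsym : ∫ z, VV f 0 X z * fderiv ℝ (dp φ) z (1, 0) =
        ∫ z, VV f 0 X z * fderiv ℝ (dt φ) z (0, 1) := by
      refine integral_congr_ae (Eventually.of_forall fun z => ?_)
      have := dt_dp hφ z
      simp only [dt, dp] at this ⊢
      rw [this]
    have e2' : ∫ z, -(X * uu f X z) * dp φ z = -(X * ∫ z, uu f X z * dp φ z) := by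
      rw [← integral_const_mul, ← integral_neg]
      refine integral_congr_ae (Eventually.of_forall fun z => ?_)
      ring
    rw [e2'] at e2
    linarith
  have hRe : ∫ z, (-(uu f X z * dt φ z) + X * (vv f 0 X z * dp φ z)) = -DD f φ := by
    have i1n : Integrable (fun z => -(uu f X z * dt φ z)) := i1.neg
    rw [integral_add i1n (i4.const_mul X), integral_const_mul, integral_neg]
    have e1' : ∫ z, -(X * uu f X z) * dt φ z = -(X * ∫ z, uu f X z * dt φ z) := by
      rw [← integral_const_mul, ← integral_neg]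
      refine integral_congr_ae (Eventually.of_forall fun z => ?_)
      ring
    rw [e1'] at e1
    have j1 : Integrable (fun z => VV f 0 X z * fderiv ℝ (dt φ) z (1, 0)) :=
      B10_int isOpen_univ hV.continuousOn
        ((hφt.continuous_fderiv (by simp)).clm_apply continuous_const)
        (hct.fderiv_apply ℝ (1, 0)) (subset_univ _)
    have j4 : Integrable (fun z => VV f 0 X z * fderiv ℝ (dp φ) z (0, 1)) :=
      B10_int isOpen_univ hV.continuousOn
        ((hφp.continuous_fderiv (by simp)).clm_apply continuous_const)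
        (hcp.fderiv_apply ℝ (0, 1)) (subset_univ _)
    have hl2 : ∫ z, VV f 0 X z * (dt (dt φ) z + 2 * 0 * dt (dp φ) z +
        (0 ^ 2 + X ^ 2) * dp (dp φ) z) =
        (∫ z, VV f 0 X z * fderiv ℝ (dt φ) z (1, 0)) +
          X ^ 2 * ∫ z, VV f 0 X z * fderiv ℝ (dp φ) z (0, 1) := by
      rw [← integral_const_mul, ← integral_add j1 (j4.const_mul _)]
      refine integral_congr_ae (Eventually.of_forall fun z => ?_)
      simp only [dt, dp]
      ring
    rw [hl2, e1, e4] at hlap
    have : X * (-(∫ z, uu f X z * dt φ z) + X * ∫ z, vv f 0 X z * dp φ z) = X * (-DD f φ) := by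
      linarith
    exact mul_left_cancel₀ hX.ne' this
  rw [hIm, hRe]
  simp

end Pool.Agent.Helper34.BD
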