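import Pool.Agent.Helper34.BD.St.B3

set_option autoImplicit false

open MeasureTheory Real Filter Topology Set InnerProductSpace
open scoped ContDiff

noncomputable section

namespace Pool.Agent.Helper34.BD

open Pool.Agent.Helper12.RD

variable {f : ℝ × ℝ → ℝ} {C0 : ℝ}

/-- the Poisson integral of `G`, written with the kernel `1 / (1 + u ^ 2)` -/
theorem B11_subst (G : ℝ → ℝ) {ξ η : ℝ} (hη : 0 < η) :
    ∫ s : ℝ, PK ξ η s * G s = ∫ u : ℝ, (1 + u ^ 2)⁻¹ * G (ξ + η * u) := by
  have h1 : ∫ u : ℝ, (1 + u ^ 2)⁻¹ * G (ξ + η * u) =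
      ∫ u : ℝ, (fun v : ℝ => (1 + (v / η) ^ 2)⁻¹ * G (ξ + v)) (η * u) := by
    congr 1
    funext u
    have : η * u / η = u := by field_simp
    simp only [this]
  rw [h1, Measure.integral_comp_mul_left (fun v : ℝ => (1 + (v / η) ^ 2)⁻¹ * G (ξ + v)) η]
  have h2 : ∫ v : ℝ, (1 + (v / η) ^ 2)⁻¹ * G (ξ + v) =
      ∫ s : ℝ, (1 + ((s - ξ) / η) ^ 2)⁻¹ * G s := by
    rw [← integral_sub_right_eq_self (fun v : ℝ => (1 + (v / η) ^ 2)⁻¹ * G (ξ + v)) ξ]
    congr 1
    funext s
    congr 2
    ring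
  rw [h2, smul_eq_mul, abs_of_pos (inv_pos.mpr hη), ← integral_const_mul]
  congr 1
  funext s
  rw [B0_eq hη]
  ring

/-- Poisson kernels are an approximate identity: `vv f ξ η (0, x) → π g (x, ξ)` as `η → 0` -/
theorem gg_zero_of_vv (h : HypB f C0)
    (hv : ∀ ξ η : ℝ, 0 < η → ∀ z : ℝ × ℝ, vv f ξ η z = 0) : gg f = 0 := by
  funext y
  obtain ⟨x, ξ⟩ := y
  set G : ℝ → ℝ := fun s => gg f (x, s) with hG
  have hGc : Continuous G := by
    have := h.cont
    simp only [hG, gg]
    fun_prop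
  have hGb : ∀ s, |G s| ≤ 2 * C0 := by
    intro s
    simp only [hG, gg]
    have h1 := h.bdd (x + 1, s)
    have h2 := h.bdd (x, s)
    calc |f (x + 1, s) - f (x, s)| ≤ |f (x + 1, s)| + |f (x, s)| := abs_sub _ _
      _ ≤ 2 * C0 := by linarith
  have hzero : ∀ η : ℝ, 0 < η → ∫ u : ℝ, (1 + u ^ 2)⁻¹ * G (ξ + η * u) = 0 := by
    intro η hη
    rw [← B11_subst G hη]
    have := hv ξ η hη (0, x)
    unfold vv at this
    simpa [hG] using this
  have hlim : Tendsto (fun η : ℝ => ∫ u : ℝ, (1 + u ^ 2)⁻¹ * G (ξ + η * u)) (𝓝[>] 0)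
      (𝓝 (∫ u : ℝ, (1 + u ^ 2)⁻¹ * G (ξ + 0 * u))) := by
    refine tendsto_integral_filter_of_dominated_convergence
      (fun u : ℝ => (1 + u ^ 2)⁻¹ * (2 * C0)) ?_ ?_ ?_ ?_
    · refine Eventually.of_forall fun η => ?_
      refine Continuous.aestronglyMeasurable ?_
      refine Continuous.mul (Continuous.inv₀ (by fun_prop) fun u => by positivity) ?_
      exact hGc.comp (by fun_prop)
    · refine Eventually.of_forall fun η => Eventually.of_forall fun u => ?_
      rw [norm_mul, Real.norm_eq_abs, Real.norm_eq_abs,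
        abs_of_nonneg (by positivity : (0 : ℝ) ≤ (1 + u ^ 2)⁻¹)]
      exact mul_le_mul_of_nonneg_left (hGb _) (by positivity)
    · exact integrable_inv_one_add_sq.mul_const _
    · refine Eventually.of_forall fun u => ?_
      refine Tendsto.const_mul _ ?_
      refine Tendsto.mono_left ?_ nhdsWithin_le_nhds
      exact (hGc.comp (by fun_prop : Continuous fun η : ℝ => ξ + η * u)).tendsto 0
  have hev : ∀ᶠ η : ℝ in 𝓝[>] 0, ∫ u : ℝ, (1 + u ^ 2)⁻¹ * G (ξ + η * u) = 0 :=
    eventually_nhdsWithin_of_forall fun η hη => hzero η hη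
  have h0 : ∫ u : ℝ, (1 + u ^ 2)⁻¹ * G (ξ + 0 * u) = 0 :=
    tendsto_nhds_unique hlim (tendsto_const_nhds.congr' (hev.mono fun η hη => hη.symm))
  simp only [zero_mul, add_zero] at h0
  rw [integral_mul_const, integral_univ_inv_one_add_sq] at h0
  have : G ξ = 0 := by
    rcases mul_eq_zero.mp h0 with h1 | h1
    · exact absurd h1 Real.pi_ne_zero
    · exact h1
  simpa [hG] using this

/-- a continuous integrable function with period one is zero -/
theorem f_zero_of_gg (h : HypB f C0) (hg : gg f = 0) : f = 0 := by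
  funext y
  obtain ⟨x, s⟩ := y
  set F : ℝ → ℝ := fun x => |f (x, s)| with hF
  have hFc : Continuous F := by
    have := h.cont
    simp only [hF]
    fun_prop
  have hFi : Integrable F := (h.hor s).abs
  have hFn : ∀ x, 0 ≤ F x := fun x => abs_nonneg _
  have hper : Function.Periodic F 1 := by
    intro x
    have := congrFun hg (x, s)
    simp only [gg, Pi.zero_apply] at this
    have h2 : f (x + 1, s) = f (x, s) := by linarith
    simp only [hF, h2]
  -- the integral over a period vanishes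
  have hI : ∀ a : ℝ, ∫ q in a..(a + 1), F q = 0 := by
    intro a
    have hnn : 0 ≤ ∫ q in a..(a + 1), F q :=
      intervalIntegral.integral_nonneg (by linarith) fun q _ => hFn q
    by_contra hne
    have hpos : 0 < ∫ q in a..(a + 1), F q := lt_of_le_of_ne hnn (Ne.symm hne)
    obtain ⟨n, hn⟩ := exists_nat_gt ((∫ q, F q) / ∫ q in a..(a + 1), F q)
    have h1 : (∫ q, F q) < n * ∫ q in a..(a + 1), F q := by
      rwa [div_lt_iff₀ hpos] at hn
    have h2 : ∫ q in a..(a + n • (1 : ℝ)), F q = n • ∫ q in a..(a + 1), F q := by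
      have := hper.intervalIntegral_add_zsmul_eq n a (fun t₁ t₂ => hFc.intervalIntegrable _ _)
      simpa using this
    have h3 : ∫ q in a..(a + n • (1 : ℝ)), F q ≤ ∫ q, F q := by
      rw [intervalIntegral.integral_of_le (by simp)]
      exact setIntegral_le_integral hFi (Eventually.of_forall hFn)
    rw [h2, nsmul_eq_mul] at h3
    linarith
  have hz : F x = 0 := by
    by_contra hne
    have hpos : 0 < F x := lt_of_le_of_ne (hFn x) (Ne.symm hne)
    have : 0 < ∫ q in x..(x + 1), F q := by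
      refine intervalIntegral.integral_pos (by linarith) hFc.continuousOn (fun q _ => hFn q) ?_
      exact ⟨x, ⟨le_refl _, by linarith⟩, hpos⟩
    rw [hI x] at this
    exact lt_irrefl _ this
  simpa [hF] using hz

end Pool.Agent.Helper34.BD
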