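import Pool.Agent.Helper34.BD.St.B0
import Pool.Agent.Helper34.BD.St.B1

set_option autoImplicit false

open MeasureTheory Real Filter Topology Set InnerProductSpace
open scoped ContDiff

noncomputable section

namespace Pool.Agent.Helper34.BD

open Pool.Agent.Helper12.RD

variable {f : ℝ × ℝ → ℝ} {C0 : ℝ}

theorem B2a_smooth {φ : ℝ × ℝ → ℝ} (hφ : ContDiff ℝ ∞ φ) (v : ℝ × ℝ) :
    ContDiff ℝ ∞ (fun z => fderiv ℝ φ z v) :=
  (contDiff_infty_iff_fderiv.1 hφ).2.clm_apply contDiff_const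

theorem B2a_second {φ : ℝ × ℝ → ℝ} (hφ : ContDiff ℝ ∞ φ) (v w z : ℝ × ℝ) :
    fderiv ℝ (fun z => fderiv ℝ φ z v) z w = fderiv ℝ (fderiv ℝ φ) z w v := by
  have h1 : DifferentiableAt ℝ (fderiv ℝ φ) z :=
    ((contDiff_infty_iff_fderiv.1 hφ).2.differentiable (by simp)) z
  have h2 := (h1.hasFDerivAt.clm_apply (hasFDerivAt_const v z)).fderiv
  rw [h2]
  simp

/-- symmetry of second derivatives -/
theorem dt_dp {φ : ℝ × ℝ → ℝ} (hφ : ContDiff ℝ ∞ φ) (z : ℝ × ℝ) : dt (dp φ) z = dp (dt φ) z := by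
  unfold dt dp
  rw [B2a_second hφ, B2a_second hφ]
  have h2 : ((2 : ℕ∞) : WithTop ℕ∞) ≤ ((⊤ : ℕ∞) : WithTop ℕ∞) := WithTop.coe_le_coe.2 le_top
  exact (hφ.contDiffAt.isSymmSndFDerivAt (by simpa using h2)) _ _

theorem dt_smooth {φ : ℝ × ℝ → ℝ} (hφ : ContDiff ℝ ∞ φ) : ContDiff ℝ ∞ (dt φ) :=
  B2a_smooth hφ _

theorem dp_smooth {φ : ℝ × ℝ → ℝ} (hφ : ContDiff ℝ ∞ φ) : ContDiff ℝ ∞ (dp φ) :=
  B2a_smooth hφ _

theorem B2a_supp (φ : ℝ × ℝ → ℝ) (v : ℝ × ℝ) :
    tsupport (fun z => fderiv ℝ φ z v) ⊆ tsupport φ := by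
  refine closure_minimal (fun z hz => ?_) (isClosed_tsupport φ)
  refine support_fderiv_subset ℝ (fun h0 => hz ?_)
  simp only at h0 ⊢
  rw [h0]
  simp

theorem dt_supp (φ : ℝ × ℝ → ℝ) : tsupport (dt φ) ⊆ tsupport φ := B2a_supp φ _

theorem dp_supp (φ : ℝ × ℝ → ℝ) : tsupport (dp φ) ⊆ tsupport φ := B2a_supp φ _

theorem B2a_hcs {φ : ℝ × ℝ → ℝ} (hc : HasCompactSupport φ) (v : ℝ × ℝ) :
    HasCompactSupport (fun z => fderiv ℝ φ z v) :=
  hc.of_isClosed_subset (isClosed_tsupport _) (B2a_supp φ v)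

theorem B2a_As_cont (h : HypB f C0) (s : ℝ) : Continuous (As f s) :=
  (As_contDiff h s).continuous

theorem B2a_int (h : HypB f C0) (s : ℝ) {ψ : ℝ × ℝ → ℝ} (hψ : Continuous ψ)
    (hc : HasCompactSupport ψ) : Integrable (fun z => As f s z * ψ z) :=
  ((B2a_As_cont h s).mul hψ).integrable_of_hasCompactSupport hc.mul_left

theorem B2a_As_fderiv (h : HypB f C0) (s : ℝ) (z : ℝ × ℝ) :
    fderiv ℝ (As f s) z (1, 0) = -(s * fderiv ℝ (As f s) z (0, 1)) := by
  obtain ⟨t, p⟩ := z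
  have hd : HasFDerivAt (As f s) (fderiv ℝ (As f s) (t, p)) (t, p) :=
    ((As_contDiff h s).differentiable one_ne_zero (t, p)).hasFDerivAt
  have h1 : HasDerivAt (fun x : ℝ => As f s (x, p)) (fderiv ℝ (As f s) (t, p) (1, 0)) t := by
    have h2 : HasDerivAt (fun x : ℝ => (x, p)) ((1 : ℝ), (0 : ℝ)) t :=
      (hasDerivAt_id t).prodMk (hasDerivAt_const t p)
    exact hd.comp_hasDerivAt t h2
  have h3 : HasDerivAt (fun x : ℝ => As f s (t, x)) (fderiv ℝ (As f s) (t, p) (0, 1)) p := by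
    have h2 : HasDerivAt (fun x : ℝ => (t, x)) ((0 : ℝ), (1 : ℝ)) p :=
      (hasDerivAt_const p t).prodMk (hasDerivAt_id p)
    exact hd.comp_hasDerivAt p h2
  rw [h1.unique (As_dt h s t p), h3.unique (As_dp h s t p)]

/-- integration by parts: `∂_t As = - s ∂_p As` -/
theorem As_transport (h : HypB f C0) (s : ℝ) {φ : ℝ × ℝ → ℝ} (hφ : ContDiff ℝ ∞ φ)
    (hc : HasCompactSupport φ) : ∫ z, As f s z * dt φ z = -(s * ∫ z, As f s z * dp φ z) := by
  have hcd := As_contDiff h s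
  have hg : Differentiable ℝ φ := hφ.differentiable (by simp)
  have hfd : ∀ v : ℝ × ℝ, Continuous fun z => fderiv ℝ (As f s) z v := fun v =>
    (hcd.continuous_fderiv one_ne_zero).clm_apply continuous_const
  have ibp : ∀ v : ℝ × ℝ, ∫ z, As f s z * fderiv ℝ φ z v =
      -∫ z, fderiv ℝ (As f s) z v * φ z := by
    intro v
    refine integral_mul_fderiv_eq_neg_fderiv_mul_of_integrable ?_ ?_ ?_
      (fun x _ => hcd.differentiable one_ne_zero x) (fun x _ => hg x)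
    · exact ((hfd v).mul hφ.continuous).integrable_of_hasCompactSupport hc.mul_left
    · exact B2a_int h s (B2a_smooth hφ v).continuous (B2a_hcs hc v)
    · exact B2a_int h s hφ.continuous hc
  unfold dt dp
  rw [ibp, ibp, mul_neg, neg_neg, ← integral_const_mul, ← integral_neg]
  refine integral_congr_ae (Eventually.of_forall fun z => ?_)
  simp only
  rw [B2a_As_fderiv h]
  ring

theorem As_lap (h : HypB f C0) (s ξ η : ℝ) {φ : ℝ × ℝ → ℝ} (hφ : ContDiff ℝ ∞ φ)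
    (hc : HasCompactSupport φ) :
    ∫ z, As f s z * (dt (dt φ) z + 2 * ξ * dt (dp φ) z + (ξ ^ 2 + η ^ 2) * dp (dp φ) z) =
      ((s - ξ) ^ 2 + η ^ 2) * ∫ z, As f s z * dp (dp φ) z := by
  have hct : HasCompactSupport (dt φ) := B2a_hcs hc _
  have hcp : HasCompactSupport (dp φ) := B2a_hcs hc _
  have e1 : ∫ z, As f s z * dt (dp φ) z = -(s * ∫ z, As f s z * dp (dp φ) z) :=
    As_transport h s (dp_smooth hφ) hcp
  have e2 : ∫ z, As f s z * dt (dt φ) z = s ^ 2 * ∫ z, As f s z * dp (dp φ) z := by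
    rw [As_transport h s (dt_smooth hφ) hct]
    have e3 : ∫ z, As f s z * dp (dt φ) z = ∫ z, As f s z * dt (dp φ) z :=
      integral_congr_ae (Eventually.of_forall fun z => by
        simp only
        rw [dt_dp hφ])
    rw [e3, e1]
    ring
  have i1 : Integrable fun z => As f s z * dt (dt φ) z :=
    B2a_int h s (dt_smooth (dt_smooth hφ)).continuous (B2a_hcs hct _)
  have i2 : Integrable fun z => As f s z * dt (dp φ) z :=
    B2a_int h s (dt_smooth (dp_smooth hφ)).continuous (B2a_hcs hcp _)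
  have i3 : Integrable fun z => As f s z * dp (dp φ) z :=
    B2a_int h s (dp_smooth (dp_smooth hφ)).continuous (B2a_hcs hcp _)
  have e4 : ∀ z, As f s z * (dt (dt φ) z + 2 * ξ * dt (dp φ) z + (ξ ^ 2 + η ^ 2) * dp (dp φ) z) =
      (As f s z * dt (dt φ) z + 2 * ξ * (As f s z * dt (dp φ) z)) +
        (ξ ^ 2 + η ^ 2) * (As f s z * dp (dp φ) z) := fun z => by ring
  have i12 : Integrable fun z => As f s z * dt (dt φ) z + 2 * ξ * (As f s z * dt (dp φ) z) :=
    i1.add (i2.const_mul _)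
  rw [integral_congr_ae (Eventually.of_forall e4), integral_add i12
    (i3.const_mul _), integral_add i1 (i2.const_mul _), integral_const_mul, integral_const_mul,
    e1, e2]
  ring

end Pool.Agent.Helper34.BD
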