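import Pool.Agent.Helper34.BD.St.B0
import Pool.Agent.Helper34.BD.St.B1

set_option autoImplicit false

open MeasureTheory Real Filter Topology Set InnerProductSpace
open scoped ContDiff

noncomputable section

namespace Pool.Agent.Helper34.BD

open Pool.Agent.Helper12.RD

variable {f : ℝ × ℝ → ℝ} {C0 : ℝ}

theorem B3_As_meas (h : HypB f C0) (z : ℝ × ℝ) : Continuous (fun s : ℝ => As f s z) :=
  (As_cont h).comp (continuous_id.prodMk continuous_const)

theorem B3_gg_meas (h : HypB f C0) (t p : ℝ) : Continuous (fun s : ℝ => gg f (p - t * s, s)) :=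
  (gg_cont h).comp ((continuous_const.sub (continuous_const.mul continuous_id)).prodMk
    continuous_id)

theorem B3_VV_bound (h : HypB f C0) {ξ η : ℝ} (hη : 0 < η) (z : ℝ × ℝ) (s : ℝ) :
    ‖PK ξ η s * As f s z‖ ≤ PK ξ η s * C0 := by
  rw [norm_mul, Real.norm_eq_abs, Real.norm_eq_abs, abs_of_nonneg (PK_nonneg hη s)]
  exact mul_le_mul_of_nonneg_left (As_bdd h s z) (PK_nonneg hη s)

theorem B3_vv_bound (h : HypB f C0) {ξ η : ℝ} (hη : 0 < η) (y : ℝ × ℝ) (s : ℝ) :
    ‖PK ξ η s * gg f y‖ ≤ PK ξ η s * (2 * C0) := by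
  rw [norm_mul, Real.norm_eq_abs, Real.norm_eq_abs, abs_of_nonneg (PK_nonneg hη s)]
  exact mul_le_mul_of_nonneg_left (gg_bdd h y) (PK_nonneg hη s)

theorem VV_cont (h : HypB f C0) {ξ η : ℝ} (hη : 0 < η) : Continuous (VV f ξ η) := by
  refine MeasureTheory.continuous_of_dominated (bound := fun s => PK ξ η s * C0) ?_ ?_
    ((PK_integrable hη).mul_const _) ?_
  · intro z
    exact ((PK_cont hη).mul (B3_As_meas h z)).aestronglyMeasurable
  · intro z
    exact Eventually.of_forall fun s => B3_VV_bound h hη z s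
  · refine Eventually.of_forall fun s => ?_
    exact continuous_const.mul ((As_cont h).comp (continuous_const.prodMk continuous_id))

theorem VV_bdd (h : HypB f C0) {ξ η : ℝ} (hη : 0 < η) (z : ℝ × ℝ) : |VV f ξ η z| ≤ π * C0 := by
  have h1 := norm_integral_le_of_norm_le ((PK_integrable (ξ := ξ) hη).mul_const C0)
    (Eventually.of_forall fun s => B3_VV_bound h hη z s)
  rw [integral_mul_const, PK_int hη] at h1
  exact h1

theorem vv_cont (h : HypB f C0) {ξ η : ℝ} (hη : 0 < η) : Continuous (vv f ξ η) := by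
  refine MeasureTheory.continuous_of_dominated (bound := fun s => PK ξ η s * (2 * C0)) ?_ ?_
    ((PK_integrable hη).mul_const _) ?_
  · intro z
    exact ((PK_cont hη).mul (B3_gg_meas h z.1 z.2)).aestronglyMeasurable
  · intro z
    exact Eventually.of_forall fun s => B3_vv_bound h hη _ s
  · refine Eventually.of_forall fun s => ?_
    exact continuous_const.mul ((gg_cont h).comp
      ((continuous_snd.sub (continuous_fst.mul continuous_const)).prodMk continuous_const))

theorem vv_bdd (h : HypB f C0) {ξ η : ℝ} (hη : 0 < η) (z : ℝ × ℝ) :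
    |vv f ξ η z| ≤ 2 * π * C0 := by
  have h1 := norm_integral_le_of_norm_le ((PK_integrable (ξ := ξ) hη).mul_const (2 * C0))
    (Eventually.of_forall fun s => B3_vv_bound h hη (z.2 - z.1 * s, s) s)
  rw [integral_mul_const, PK_int hη] at h1
  have h2 : π * (2 * C0) = 2 * π * C0 := by ring
  rw [h2] at h1
  exact h1

/-- differentiation under the integral, `As_dp` -/
theorem VV_dp (h : HypB f C0) {ξ η : ℝ} (hη : 0 < η) (t p : ℝ) :
    HasDerivAt (fun x : ℝ => VV f ξ η (t, x)) (vv f ξ η (t, p)) p := by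
  have h1 := hasDerivAt_integral_of_dominated_loc_of_deriv_le (μ := volume) (𝕜 := ℝ)
    (F := fun x s => PK ξ η s * As f s (t, x)) (F' := fun x s => PK ξ η s * gg f (x - t * s, s))
    (x₀ := p) (s := Set.univ) (bound := fun s => PK ξ η s * (2 * C0)) Filter.univ_mem
    (Eventually.of_forall fun x => ((PK_cont hη).mul (B3_As_meas h (t, x))).aestronglyMeasurable)
    (((PK_integrable hη).mul_const C0).mono'
      ((PK_cont hη).mul (B3_As_meas h (t, p))).aestronglyMeasurable
      (Eventually.of_forall fun s => B3_VV_bound h hη (t, p) s))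
    ((PK_cont hη).mul (B3_gg_meas h t p)).aestronglyMeasurable
    (Eventually.of_forall fun s x _ => B3_vv_bound h hη _ s)
    ((PK_integrable hη).mul_const _)
    (Eventually.of_forall fun s x _ => (As_dp h s t x).const_mul _)
  exact h1.2

theorem NN_nonneg (f : ℝ × ℝ → ℝ) (z : ℝ × ℝ) : 0 ≤ NN f z :=
  integral_nonneg fun _ => abs_nonneg _

theorem vv_le_NN (h : HypB f C0) {ξ η : ℝ} (hη : 0 < η) (z : ℝ × ℝ) :
    |vv f ξ η z| ≤ NN f z / η := by
  have h1 := norm_integral_le_of_norm_le (f := fun s => PK ξ η s * gg f (z.2 - z.1 * s, s))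
    ((gg_line h z.1 z.2).abs.const_mul η⁻¹)
    (Eventually.of_forall fun s => by
      rw [norm_mul, Real.norm_eq_abs, Real.norm_eq_abs, abs_of_nonneg (PK_nonneg hη s)]
      exact mul_le_mul_of_nonneg_right (PK_le hη s) (abs_nonneg _))
  rw [integral_const_mul, inv_mul_eq_div] at h1
  exact h1

/-- `|s| / (s ^ 2 + X ^ 2) ≤ 1 / (2 X)` -/
theorem uu_le_NN (h : HypB f C0) {X : ℝ} (hX : 0 < X) (z : ℝ × ℝ) :
    |uu f X z| ≤ NN f z / (2 * X) := by
  have h1 := norm_integral_le_of_norm_le
    (f := fun s => s / (s ^ 2 + X ^ 2) * gg f (z.2 - z.1 * s, s))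
    ((gg_line h z.1 z.2).abs.const_mul (2 * X)⁻¹)
    (Eventually.of_forall fun s => by
      rw [norm_mul, Real.norm_eq_abs, Real.norm_eq_abs]
      refine mul_le_mul_of_nonneg_right ?_ (abs_nonneg _)
      have h2 : 0 < s ^ 2 + X ^ 2 := by positivity
      rw [abs_div, abs_of_pos h2, inv_eq_one_div, div_le_div_iff₀ h2 (by positivity), one_mul]
      nlinarith [sq_nonneg (|s| - X), sq_abs s])
  rw [integral_const_mul, inv_mul_eq_div] at h1
  exact h1

end Pool.Agent.Helper34.BD
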