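import Pool.Agent.Helper34.BD.St.B2a
import Pool.Agent.Helper34.BD.St.B3

set_option autoImplicit false

open MeasureTheory Real Filter Topology Set InnerProductSpace
open scoped ContDiff

noncomputable section

namespace Pool.Agent.Helper34.BD

open Pool.Agent.Helper12.RD

variable {f : ℝ × ℝ → ℝ} {C0 : ℝ}

/-- Fubini for the potential -/
theorem B2b_swap (h : HypB f C0) {ξ η : ℝ} (hη : 0 < η) {L : ℝ × ℝ → ℝ} (hL : Continuous L)
    (hc : HasCompactSupport L) :
    ∫ z, VV f ξ η z * L z = ∫ s : ℝ, PK ξ η s * ∫ z : ℝ × ℝ, As f s z * L z := by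
  have hLi : Integrable L := hL.integrable_of_hasCompactSupport hc
  have hAc : Continuous fun y : (ℝ × ℝ) × ℝ => As f y.2 y.1 :=
    (As_cont h).comp (continuous_snd.prodMk continuous_fst)
  have hint : Integrable (Function.uncurry fun (z : ℝ × ℝ) (s : ℝ) =>
      PK ξ η s * As f s z * L z) (volume.prod volume) := by
    have hb : Integrable (fun y : (ℝ × ℝ) × ℝ => (C0 * |L y.1|) * PK ξ η y.2)
        (volume.prod volume) := (hLi.abs.const_mul C0).mul_prod (PK_integrable hη)
    refine hb.mono' ?_ (Eventually.of_forall fun y => ?_)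
    · exact ((((PK_cont hη).comp continuous_snd).mul hAc).mul
        (hL.comp continuous_fst)).aestronglyMeasurable
    · obtain ⟨z, s⟩ := y
      simp only [Function.uncurry_apply_pair]
      rw [norm_mul]
      have h1 := B3_VV_bound (ξ := ξ) h hη z s
      have h2 := mul_le_mul_of_nonneg_right h1 (norm_nonneg (L z))
      refine h2.trans (le_of_eq ?_)
      rw [Real.norm_eq_abs]
      ring
  calc ∫ z, VV f ξ η z * L z = ∫ z, ∫ s : ℝ, PK ξ η s * As f s z * L z := by
        refine integral_congr_ae (Eventually.of_forall fun z => ?_)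
        simp only [VV]
        rw [← integral_mul_const]
    _ = ∫ s : ℝ, ∫ z : ℝ × ℝ, PK ξ η s * As f s z * L z := integral_integral_swap hint
    _ = ∫ s : ℝ, PK ξ η s * ∫ z : ℝ × ℝ, As f s z * L z := by
        refine integral_congr_ae (Eventually.of_forall fun s => ?_)
        simp only
        rw [← integral_const_mul]
        refine integral_congr_ae (Eventually.of_forall fun z => ?_)
        simp only
        ring

/-- Fubini and `PK_mul`; absolute convergence since
`∫ As dp dp φ = s⁻² ∫ As dt dt φ` -/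
theorem VV_lap (h : HypB f C0) {ξ η : ℝ} (hη : 0 < η) {φ : ℝ × ℝ → ℝ} (hφ : ContDiff ℝ ∞ φ)
    (hc : HasCompactSupport φ) :
    ∫ z, VV f ξ η z * (dt (dt φ) z + 2 * ξ * dt (dp φ) z + (ξ ^ 2 + η ^ 2) * dp (dp φ) z) =
      η * DD f φ := by
  have hct : HasCompactSupport (dt φ) := B2a_hcs hc _
  have hcp : HasCompactSupport (dp φ) := B2a_hcs hc _
  have hL : Continuous fun z => dt (dt φ) z + 2 * ξ * dt (dp φ) z +
      (ξ ^ 2 + η ^ 2) * dp (dp φ) z :=
    ((dt_smooth (dt_smooth hφ)).continuous.add
      (continuous_const.mul (dt_smooth (dp_smooth hφ)).continuous)).add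
      (continuous_const.mul (dp_smooth (dp_smooth hφ)).continuous)
  have hLc : HasCompactSupport fun z => dt (dt φ) z + 2 * ξ * dt (dp φ) z +
      (ξ ^ 2 + η ^ 2) * dp (dp φ) z := by
    have h1 : HasCompactSupport (dt (dt φ)) := B2a_hcs hct _
    have h2 : HasCompactSupport fun z => 2 * ξ * dt (dp φ) z :=
      HasCompactSupport.mul_left (f := fun _ => 2 * ξ) (B2a_hcs hcp (1, 0))
    have h3 : HasCompactSupport fun z => (ξ ^ 2 + η ^ 2) * dp (dp φ) z :=
      HasCompactSupport.mul_left (f := fun _ => ξ ^ 2 + η ^ 2) (B2a_hcs hcp (0, 1))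
    exact (h1.add h2).add h3
  rw [B2b_swap h hη hL hLc, DD, ← integral_const_mul]
  refine integral_congr_ae (Eventually.of_forall fun s => ?_)
  simp only
  rw [As_lap h s ξ η hφ hc, ← mul_assoc, PK_mul hη]

end Pool.Agent.Helper34.BD
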