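import Pool.Agent.Helper34.BD.St.B2a

set_option autoImplicit false

open MeasureTheory Real Filter Topology Set InnerProductSpace
open scoped ContDiff

noncomputable section

namespace Pool.Agent.Helper34.BD

open Pool.Agent.Helper12.RD

variable {f : ℝ × ℝ → ℝ} {C0 : ℝ}

theorem ci_cz {ξ η : ℝ} (hη : 0 < η) (z : ℝ × ℝ) : ci ξ η (cz ξ η z) = z := by
  unfold ci cz
  refine Prod.ext ?_ ?_
  · simp only
    field_simp
  · simp only
    field_simp
    ring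

theorem cz_ci {ξ η : ℝ} (hη : 0 < η) (w : ℂ) : cz ξ η (ci ξ η w) = w := by
  unfold ci cz
  refine Complex.ext ?_ ?_
  · simp only
    ring
  · simp only
    field_simp

/-- `cz` as a continuous linear map -/
def B4a_L (ξ η : ℝ) : ℝ × ℝ →L[ℝ] ℂ :=
  Complex.equivRealProdCLM.symm.toContinuousLinearMap.comp
    ((((-ξ) • ContinuousLinearMap.fst ℝ ℝ ℝ + (1 : ℝ) • ContinuousLinearMap.snd ℝ ℝ ℝ)).prod
      (η • ContinuousLinearMap.fst ℝ ℝ ℝ + (0 : ℝ) • ContinuousLinearMap.snd ℝ ℝ ℝ))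

theorem B4a_L_apply (ξ η : ℝ) (z : ℝ × ℝ) : B4a_L ξ η z = cz ξ η z := by
  unfold B4a_L cz
  refine Complex.ext ?_ ?_
  · simp
    ring
  · simp

theorem B4a_L_coe (ξ η : ℝ) : (cz ξ η : ℝ × ℝ → ℂ) = B4a_L ξ η :=
  funext fun z => (B4a_L_apply ξ η z).symm

theorem cz_smooth (ξ η : ℝ) : ContDiff ℝ ∞ (cz ξ η) := by
  rw [B4a_L_coe]
  exact (B4a_L ξ η).contDiff

theorem ci_smooth (ξ η : ℝ) : ContDiff ℝ ∞ (ci ξ η) := by
  unfold ci
  have h1 : ContDiff ℝ ∞ (fun w : ℂ => w.im) := Complex.imCLM.contDiff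
  have h2 : ContDiff ℝ ∞ (fun w : ℂ => w.re) := Complex.reCLM.contDiff
  exact (h1.div_const η).prodMk (h2.add ((contDiff_const.mul h1).div_const η))

/-- change of variables; the determinant is `η` -/
theorem int_cz {ξ η : ℝ} (hη : 0 < η) (F : ℂ → ℝ) : ∫ w, F w = η * ∫ z, F (cz ξ η z) := by
  set M : ℝ × ℝ →L[ℝ] ℝ × ℝ :=
    LinearMap.toContinuousLinearMap
      (Matrix.toLin (Module.Basis.finTwoProd ℝ) (Module.Basis.finTwoProd ℝ) !![-ξ, 1; η, 0])
    with hM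
  have hMa : ∀ z : ℝ × ℝ, M z = (z.2 - ξ * z.1, η * z.1) := by
    intro z
    rw [hM, Matrix.toLin_finTwoProd_toContinuousLinearMap]
    refine Prod.ext ?_ ?_
    · simp
      ring
    · simp
  have hdet : M.det = -η := by
    rw [hM]
    simp only [LinearMap.det_toContinuousLinearMap, LinearMap.det_toLin, Matrix.det_fin_two_of]
    ring
  have hinj : Set.InjOn M univ := by
    intro x _ y _ hxy
    rw [hMa, hMa, Prod.mk.injEq] at hxy
    obtain ⟨h1, h2⟩ := hxy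
    have h3 : x.1 = y.1 := mul_left_cancel₀ hη.ne' h2
    refine Prod.ext h3 ?_
    rw [h3] at h1
    linarith
  have himg : M '' univ = univ := by
    refine Set.eq_univ_of_forall fun y => ?_
    refine ⟨(y.2 / η, y.1 + ξ * (y.2 / η)), mem_univ _, ?_⟩
    rw [hMa]
    refine Prod.ext ?_ ?_
    · simp
    · simp only
      field_simp
  have h1 : ∫ w, F w = ∫ x : ℝ × ℝ, F (Complex.measurableEquivRealProd.symm x) :=
    ((Complex.volume_preserving_equiv_real_prod.symm _).integral_comp' F).symm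
  have h2 := integral_image_eq_integral_abs_det_fderiv_smul (volume : Measure (ℝ × ℝ))
    MeasurableSet.univ (f := M) (f' := fun _ => M)
    (fun x _ => M.hasFDerivAt.hasFDerivWithinAt) hinj
    (fun x : ℝ × ℝ => F (Complex.measurableEquivRealProd.symm x))
  rw [himg, Measure.restrict_univ] at h2
  rw [h1, h2, ← integral_const_mul]
  refine integral_congr_ae (ae_of_all _ fun z => ?_)
  simp only [hdet, abs_neg, abs_of_pos hη, smul_eq_mul, hMa]
  rfl

theorem setInt_cz {ξ η : ℝ} (hη : 0 < η) (F : ℂ → ℝ) (A : Set ℂ) (hA : MeasurableSet A) :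
    ∫ w in A, F w = η * ∫ z in cz ξ η ⁻¹' A, F (cz ξ η z) := by
  rw [← integral_indicator hA, int_cz (ξ := ξ) hη,
    ← integral_indicator (hA.preimage (cz_smooth ξ η).continuous.measurable)]
  rfl

/-- `cz` as a homeomorphism -/
def B4a_H (ξ η : ℝ) (hη : 0 < η) : (ℝ × ℝ) ≃ₜ ℂ where
  toFun := cz ξ η
  invFun := ci ξ η
  left_inv := ci_cz hη
  right_inv := cz_ci hη
  continuous_toFun := (cz_smooth ξ η).continuous
  continuous_invFun := (ci_smooth ξ η).continuous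

theorem comp_supp {ξ η : ℝ} (hη : 0 < η) {χ : ℂ → ℝ} (hc : HasCompactSupport χ) :
    HasCompactSupport (fun z => χ (cz ξ η z)) ∧
      tsupport (fun z => χ (cz ξ η z)) = cz ξ η ⁻¹' tsupport χ := by
  refine ⟨hc.comp_homeomorph (B4a_H ξ η hη), ?_⟩
  have h1 : Function.support (fun z => χ (cz ξ η z)) =
      (B4a_H ξ η hη) ⁻¹' Function.support χ := rfl
  rw [tsupport, h1, ← (B4a_H ξ η hη).preimage_closure]
  rfl

theorem B4a_fd {ξ η : ℝ} {χ : ℂ → ℝ} (hχ : ContDiff ℝ ∞ χ) (z v : ℝ × ℝ) :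
    fderiv ℝ (fun z => χ (cz ξ η z)) z v = fderiv ℝ χ (cz ξ η z) (B4a_L ξ η v) := by
  have h1 : DifferentiableAt ℝ χ (cz ξ η z) := (hχ.differentiable (by simp)) _
  have h2 : HasFDerivAt (cz ξ η) (B4a_L ξ η) z := by
    rw [B4a_L_coe]
    exact (B4a_L ξ η).hasFDerivAt
  have h3 : HasFDerivAt (fun z => χ (cz ξ η z)) ((fderiv ℝ χ (cz ξ η z)).comp (B4a_L ξ η)) z :=
    h1.hasFDerivAt.comp z h2
  rw [h3.fderiv]
  rfl

theorem B4a_smooth {χ : ℂ → ℝ} (hχ : ContDiff ℝ ∞ χ) (a : ℂ) :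
    ContDiff ℝ ∞ (fun w => fderiv ℝ χ w a) :=
  (hχ.fderiv_right (m := ∞) (by simp)).clm_apply contDiff_const

theorem B4a_fd2 {χ : ℂ → ℝ} (hχ : ContDiff ℝ ∞ χ) (a b w : ℂ) :
    fderiv ℝ (fun w => fderiv ℝ χ w a) w b = fderiv ℝ (fderiv ℝ χ) w b a := by
  have h1 : DifferentiableAt ℝ (fderiv ℝ χ) w :=
    ((hχ.fderiv_right (m := ∞) (by simp)).differentiable (by simp)) w
  have h2 : HasFDerivAt (fun w => fderiv ℝ χ w a)
      ((fderiv ℝ (fderiv ℝ χ) w).flip a) w := by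
    have h3 := h1.hasFDerivAt.clm_apply (hasFDerivAt_const a w)
    simpa using h3
  rw [h2.fderiv]
  rfl

/-- chain rule: `∂_t` is the derivative in the direction `-ξ + i η`, `∂_p` in the direction `1` -/
theorem lap_cz {ξ η : ℝ} {χ : ℂ → ℝ} (hχ : ContDiff ℝ ∞ χ) (z : ℝ × ℝ) :
    dt (dt (fun z => χ (cz ξ η z))) z + 2 * ξ * dt (dp (fun z => χ (cz ξ η z))) z +
      (ξ ^ 2 + η ^ 2) * dp (dp (fun z => χ (cz ξ η z))) z = η ^ 2 * lap χ (cz ξ η z) := by
  set w := cz ξ η z with hw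
  have e1 : B4a_L ξ η (1, 0) = (-ξ) • (1 : ℂ) + η • Complex.I := by
    rw [B4a_L_apply]
    unfold cz
    refine Complex.ext ?_ ?_ <;> simp
  have e2 : B4a_L ξ η (0, 1) = 1 := by
    rw [B4a_L_apply]
    unfold cz
    refine Complex.ext ?_ ?_ <;> simp
  have h1 : dt (fun z => χ (cz ξ η z)) = fun z => (fun w => fderiv ℝ χ w (B4a_L ξ η (1, 0)))
      (cz ξ η z) := funext fun z => B4a_fd hχ z (1, 0)
  have h2 : dp (fun z => χ (cz ξ η z)) = fun z => (fun w => fderiv ℝ χ w (B4a_L ξ η (0, 1)))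
      (cz ξ η z) := funext fun z => B4a_fd hχ z (0, 1)
  have h3 : dt (dt (fun z => χ (cz ξ η z))) z =
      fderiv ℝ (fderiv ℝ χ) w (B4a_L ξ η (1, 0)) (B4a_L ξ η (1, 0)) := by
    rw [h1]
    unfold dt
    rw [B4a_fd (B4a_smooth hχ _), B4a_fd2 hχ]
  have h4 : dt (dp (fun z => χ (cz ξ η z))) z =
      fderiv ℝ (fderiv ℝ χ) w (B4a_L ξ η (1, 0)) (B4a_L ξ η (0, 1)) := by
    rw [h2]
    unfold dt
    rw [B4a_fd (B4a_smooth hχ _), B4a_fd2 hχ]
  have h5 : dp (dp (fun z => χ (cz ξ η z))) z =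
      fderiv ℝ (fderiv ℝ χ) w (B4a_L ξ η (0, 1)) (B4a_L ξ η (0, 1)) := by
    rw [h2]
    unfold dp
    rw [B4a_fd (B4a_smooth hχ _), B4a_fd2 hχ]
  have h6 : fderiv ℝ (fderiv ℝ χ) w Complex.I 1 = fderiv ℝ (fderiv ℝ χ) w 1 Complex.I := by
    have h7 : IsSymmSndFDerivAt ℝ χ w := by
      refine hχ.contDiffAt.isSymmSndFDerivAt ?_
      rw [minSmoothness_of_isRCLikeNormedField]
      exact WithTop.coe_le_coe.mpr le_top
    exact h7 Complex.I 1
  rw [h3, h4, h5, e1, e2]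
  unfold lap
  rw [B4a_fd2 hχ, B4a_fd2 hχ]
  simp only [map_add, map_smul, _root_.add_apply, _root_.smul_apply,
    smul_eq_mul, h6]
  ring

end Pool.Agent.Helper34.BD
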