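import Pool.Agent.Helper34.BD.St.B4a
import Pool.Agent.Helper34.BD.St.B2b

set_option autoImplicit false

open MeasureTheory Real Filter Topology Set InnerProductSpace
open scoped ContDiff

noncomputable section

namespace Pool.Agent.Helper34.BD

open Pool.Agent.Helper12.RD

variable {f : ℝ × ℝ → ℝ} {C0 : ℝ}

theorem Vc_cont (h : HypB f C0) {ξ η : ℝ} (hη : 0 < η) : Continuous (Vc f ξ η) :=
  (VV_cont h hη).comp (ci_smooth ξ η).continuous

theorem vc_cont (h : HypB f C0) {ξ η : ℝ} (hη : 0 < η) : Continuous (vc f ξ η) :=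
  (vv_cont h hη).comp (ci_smooth ξ η).continuous

theorem Vc_lap (h : HypB f C0) {ξ η : ℝ} (hη : 0 < η) {χ : ℂ → ℝ} (hχ : ContDiff ℝ ∞ χ)
    (hc : HasCompactSupport χ) :
    ∫ w, Vc f ξ η w * lap χ w = DD f (fun z => χ (cz ξ η z)) := by
  have h1 := VV_lap h (ξ := ξ) hη (hχ.comp (cz_smooth ξ η)) (comp_supp hη hc).1
  rw [int_cz (ξ := ξ) hη]
  have h2 : ∀ z : ℝ × ℝ, VV f ξ η z * (dt (dt (χ ∘ cz ξ η)) z + 2 * ξ * dt (dp (χ ∘ cz ξ η)) z +
      (ξ ^ 2 + η ^ 2) * dp (dp (χ ∘ cz ξ η)) z) =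
      η ^ 2 * (Vc f ξ η (cz ξ η z) * lap χ (cz ξ η z)) := by
    intro z
    have h3 := lap_cz (ξ := ξ) (η := η) hχ z
    change dt (dt (χ ∘ cz ξ η)) z + 2 * ξ * dt (dp (χ ∘ cz ξ η)) z +
      (ξ ^ 2 + η ^ 2) * dp (dp (χ ∘ cz ξ η)) z = _ at h3
    rw [h3, Vc, ci_cz hη]
    ring
  simp only [h2] at h1
  rw [integral_const_mul] at h1
  have h4 : η * (η * ∫ z, Vc f ξ η (cz ξ η z) * lap χ (cz ξ η z)) =
      η * DD f (fun z => χ (cz ξ η z)) := by
    rw [← mul_assoc, ← pow_two]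
    exact h1
  exact mul_left_cancel₀ hη.ne' h4

/-- derivative along a vertical line -/
theorem B4b_line {g : ℝ × ℝ → ℝ} (hg : ContDiff ℝ ∞ g) (t p : ℝ) :
    HasDerivAt (fun x : ℝ => g (t, x)) (dp g (t, p)) p := by
  have h1 : HasFDerivAt g (fderiv ℝ g (t, p)) (t, p) :=
    (hg.differentiable (by simp)).differentiableAt.hasFDerivAt
  have h2 : HasDerivAt (fun x : ℝ => ((t, x) : ℝ × ℝ)) ((0, 1) : ℝ × ℝ) p :=
    (hasDerivAt_const p t).prodMk (hasDerivAt_id p)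
  exact h1.comp_hasDerivAt p h2

theorem B4b_supp {g : ℝ × ℝ → ℝ} (hc : HasCompactSupport g) (u : ℝ × ℝ → ℝ)
    (hu : ∀ z, z ∉ tsupport g → u z = 0) (t : ℝ) : HasCompactSupport (fun x : ℝ => u (t, x)) := by
  refine HasCompactSupport.intro (K := Prod.snd '' tsupport g)
    (IsCompact.image hc continuous_snd) ?_
  intro x hx
  refine hu _ fun hmem => hx ⟨(t, x), hmem, rfl⟩

/-- integration by parts in the direction `p` -/
theorem B4b_ibp (h : HypB f C0) {ξ η : ℝ} (hη : 0 < η) {g : ℝ × ℝ → ℝ} (hg : ContDiff ℝ ∞ g)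
    (hc : HasCompactSupport g) :
    ∫ z, vv f ξ η z * g z = -∫ z, VV f ξ η z * dp g z := by
  have hd : ContDiff ℝ ∞ (dp g) := dp_smooth hg
  have hg0 : ∀ z, z ∉ tsupport g → g z = 0 := fun z hz => image_eq_zero_of_notMem_tsupport hz
  have hd0 : ∀ z, z ∉ tsupport g → dp g z = 0 := fun z hz =>
    image_eq_zero_of_notMem_tsupport fun h2 => hz (dp_supp g h2)
  have hdc : HasCompactSupport (dp g) := HasCompactSupport.intro hc hd0
  have i1 : Integrable (fun z : ℝ × ℝ => vv f ξ η z * g z) :=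
    ((vv_cont h hη).mul hg.continuous).integrable_of_hasCompactSupport
      (HasCompactSupport.mul_left hc)
  have i2 : Integrable (fun z : ℝ × ℝ => VV f ξ η z * dp g z) :=
    ((VV_cont h hη).mul hd.continuous).integrable_of_hasCompactSupport
      (HasCompactSupport.mul_left hdc)
  rw [Measure.volume_eq_prod] at i1 i2 ⊢
  rw [integral_prod _ i1, integral_prod _ i2, ← integral_neg]
  refine integral_congr_ae (Eventually.of_forall fun t => ?_)
  have hVt : Continuous fun x : ℝ => VV f ξ η (t, x) :=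
    (VV_cont h hη).comp (Continuous.prodMk_right t)
  have hvt : Continuous fun x : ℝ => vv f ξ η (t, x) :=
    (vv_cont h hη).comp (Continuous.prodMk_right t)
  have hgt : Continuous fun x : ℝ => g (t, x) := hg.continuous.comp (Continuous.prodMk_right t)
  have hdt : Continuous fun x : ℝ => dp g (t, x) := hd.continuous.comp (Continuous.prodMk_right t)
  have c1 : HasCompactSupport fun x : ℝ => g (t, x) := B4b_supp hc g hg0 t
  have c2 : HasCompactSupport fun x : ℝ => dp g (t, x) := B4b_supp hc (dp g) hd0 t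
  have h3 := integral_mul_deriv_eq_deriv_mul_of_integrable
    (u := fun x : ℝ => VV f ξ η (t, x)) (u' := fun x : ℝ => vv f ξ η (t, x))
    (v := fun x : ℝ => g (t, x)) (v' := fun x : ℝ => dp g (t, x))
    (fun x _ => VV_dp h hη t x) (fun x _ => B4b_line hg t x)
    ((hVt.mul hdt).integrable_of_hasCompactSupport (HasCompactSupport.mul_left c2))
    ((hvt.mul hgt).integrable_of_hasCompactSupport (HasCompactSupport.mul_left c1))
    ((hVt.mul hgt).integrable_of_hasCompactSupport (HasCompactSupport.mul_left c1))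
  change ∫ x, vv f ξ η (t, x) * g (t, x) = -∫ x, VV f ξ η (t, x) * dp g (t, x)
  rw [h3, neg_neg]

/-- the operator commutes with `dp` -/
theorem B4b_comm (ξ η : ℝ) {φ : ℝ × ℝ → ℝ} (hφ : ContDiff ℝ ∞ φ) (z : ℝ × ℝ) :
    dp (fun z => dt (dt φ) z + 2 * ξ * dt (dp φ) z + (ξ ^ 2 + η ^ 2) * dp (dp φ) z) z =
      dt (dt (dp φ)) z + 2 * ξ * dt (dp (dp φ)) z + (ξ ^ 2 + η ^ 2) * dp (dp (dp φ)) z := by
  have s1 : ContDiff ℝ ∞ (dt φ) := dt_smooth hφ
  have s2 : ContDiff ℝ ∞ (dp φ) := dp_smooth hφ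
  have d1 : HasFDerivAt (dt (dt φ)) (fderiv ℝ (dt (dt φ)) z) z :=
    ((dt_smooth s1).differentiable (by simp)).differentiableAt.hasFDerivAt
  have d2 : HasFDerivAt (dt (dp φ)) (fderiv ℝ (dt (dp φ)) z) z :=
    ((dt_smooth s2).differentiable (by simp)).differentiableAt.hasFDerivAt
  have d3 : HasFDerivAt (dp (dp φ)) (fderiv ℝ (dp (dp φ)) z) z :=
    ((dp_smooth s2).differentiable (by simp)).differentiableAt.hasFDerivAt
  have e1 : dp (dt (dt φ)) z = dt (dt (dp φ)) z := by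
    rw [← dt_dp s1 z]
    congr 1
    funext w
    exact (dt_dp hφ w).symm
  have e2 : dp (dt (dp φ)) z = dt (dp (dp φ)) z := (dt_dp s2 z).symm
  have h4 := ((d1.add (d2.const_mul (2 * ξ))).add (d3.const_mul (ξ ^ 2 + η ^ 2))).fderiv
  rw [← e1, ← e2]
  unfold dp at *
  change (fderiv ℝ (fun z => dt (dt φ) z + 2 * ξ * dt (fun z => fderiv ℝ φ z (0, 1)) z +
    (ξ ^ 2 + η ^ 2) * fderiv ℝ (fun z => fderiv ℝ φ z (0, 1)) z (0, 1)) z) (0, 1) = _
  have h5 := congrArg (fun L : ℝ × ℝ →L[ℝ] ℝ => L (0, 1)) h4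
  exact h5

theorem B4b_dpcz (ξ η : ℝ) {χ : ℂ → ℝ} (hχ : ContDiff ℝ ∞ χ) (z : ℝ × ℝ) :
    dp (fun z => χ (cz ξ η z)) z = fderiv ℝ χ (cz ξ η z) 1 := by
  have h1 := B4b_line (hχ.comp (cz_smooth ξ η)) z.1 z.2
  have h2 : HasFDerivAt χ (fderiv ℝ χ (cz ξ η z)) (cz ξ η (z.1, z.2)) :=
    (hχ.differentiable (by simp)).differentiableAt.hasFDerivAt
  have h3 : HasDerivAt (fun x : ℝ => cz ξ η (z.1, x)) (1 : ℂ) z.2 := by
    have h4 : HasDerivAt (fun x : ℝ => ((x : ℂ) + (cz ξ η (z.1, 0)))) (1 : ℂ) z.2 :=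
      (Complex.ofRealCLM.hasDerivAt (x := z.2)).add_const _
    have h5 : (fun x : ℝ => cz ξ η (z.1, x)) = fun x : ℝ => ((x : ℂ) + (cz ξ η (z.1, 0))) := by
      funext x
      apply Complex.ext
      · simp [cz]
        ring
      · simp [cz]
    rw [h5]
    exact h4
  have h6 := h2.comp_hasDerivAt z.2 h3
  exact h1.unique h6

/-- integrate by parts in the real direction (`VV_dp`): `vc = ∂_x Vc`, and
`∂_x (lap χ) = lap (∂_x χ)` -/
theorem vc_lap (h : HypB f C0) {ξ η : ℝ} (hη : 0 < η) {χ : ℂ → ℝ} (hχ : ContDiff ℝ ∞ χ)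
    (hc : HasCompactSupport χ) :
    ∫ w, vc f ξ η w * lap χ w = -∫ w, Vc f ξ η w * lap (fun y => fderiv ℝ χ y 1) w := by
  have hχ' : ContDiff ℝ ∞ (fun y => fderiv ℝ χ y 1) :=
    (hχ.fderiv_right (m := ∞) (by simp)).clm_apply contDiff_const
  set φ : ℝ × ℝ → ℝ := fun z => χ (cz ξ η z) with hφdef
  have hφ : ContDiff ℝ ∞ φ := hχ.comp (cz_smooth ξ η)
  have hφc : HasCompactSupport φ := (comp_supp hη hc).1
  set M : ℝ × ℝ → ℝ := fun z => dt (dt φ) z + 2 * ξ * dt (dp φ) z +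
    (ξ ^ 2 + η ^ 2) * dp (dp φ) z with hM
  have hMs : ContDiff ℝ ∞ M :=
    ((dt_smooth (dt_smooth hφ)).add (contDiff_const.mul (dt_smooth (dp_smooth hφ)))).add
      (contDiff_const.mul (dp_smooth (dp_smooth hφ)))
  have hMc : HasCompactSupport M := by
    refine HasCompactSupport.intro hφc fun z hz => ?_
    have z1 : dt (dt φ) z = 0 := image_eq_zero_of_notMem_tsupport fun h2 =>
      hz (dt_supp φ (dt_supp (dt φ) h2))
    have z2 : dt (dp φ) z = 0 := image_eq_zero_of_notMem_tsupport fun h2 =>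
      hz (dp_supp φ (dt_supp (dp φ) h2))
    have z3 : dp (dp φ) z = 0 := image_eq_zero_of_notMem_tsupport fun h2 =>
      hz (dp_supp φ (dp_supp (dp φ) h2))
    simp only [hM, z1, z2, z3, mul_zero, add_zero]
  have k1 : ∀ z, η ^ 2 * lap χ (cz ξ η z) = M z := fun z => (lap_cz hχ z).symm
  have hdpφ : dp φ = fun z => (fun y => fderiv ℝ χ y 1) (cz ξ η z) := by
    funext z
    exact B4b_dpcz ξ η hχ z
  have k2 : ∀ z, η ^ 2 * lap (fun y => fderiv ℝ χ y 1) (cz ξ η z) = dp M z := by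
    intro z
    rw [hM, B4b_comm ξ η hφ z, hdpφ]
    exact (lap_cz hχ' z).symm
  rw [int_cz (ξ := ξ) hη, int_cz (ξ := ξ) hη]
  have l1 : η ^ 2 * ∫ z, vc f ξ η (cz ξ η z) * lap χ (cz ξ η z) = ∫ z, vv f ξ η z * M z := by
    rw [← integral_const_mul]
    congr 1
    funext z
    rw [← k1, vc, ci_cz hη]
    ring
  have l2 : η ^ 2 * ∫ z, Vc f ξ η (cz ξ η z) * lap (fun y => fderiv ℝ χ y 1) (cz ξ η z) =
      ∫ z, VV f ξ η z * dp M z := by
    rw [← integral_const_mul]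
    congr 1
    funext z
    rw [← k2, Vc, ci_cz hη]
    ring
  have l3 := B4b_ibp h (ξ := ξ) hη hMs hMc
  rw [← l1, ← l2] at l3
  have l4 : η ^ 2 * (∫ z, vc f ξ η (cz ξ η z) * lap χ (cz ξ η z)) = η ^ 2 *
      -(∫ z, Vc f ξ η (cz ξ η z) * lap (fun y => fderiv ℝ χ y 1) (cz ξ η z)) := by
    rw [l3]
    ring
  have l5 := mul_left_cancel₀ (pow_ne_zero 2 hη.ne') l4
  rw [l5]
  ring

end Pool.Agent.Helper34.BD
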