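import Pool.Agent.Helper34.BD.St.A1
import Pool.Agent.Helper34.BD.St.A3
import Pool.Agent.Helper34.BD.St.B4b

set_option autoImplicit false

open MeasureTheory Real Filter Topology Set InnerProductSpace
open scoped ContDiff

noncomputable section

namespace Pool.Agent.Helper34.BD

open Pool.Agent.Helper12.RD

variable {f : ℝ × ℝ → ℝ} {C0 : ℝ}

theorem SB_closed (f : ℝ × ℝ → ℝ) : IsClosed (SB f) := by
  rw [← isOpen_compl_iff, isOpen_iff_forall_mem_open]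
  intro z hz
  have hz : RegB f z := not_not.1 hz
  obtain ⟨U, hU, hzU, h⟩ := hz
  exact ⟨U, fun y hy => not_not.2 ⟨U, hU, hy, h⟩, hU, hzU⟩

theorem B5_dsmooth {χ : ℂ → ℝ} (hχ : ContDiff ℝ ∞ χ) : ContDiff ℝ ∞ (fun y => fderiv ℝ χ y 1) :=
  (hχ.fderiv_right (m := ∞) (by simp)).clm_apply contDiff_const

theorem B5_dsupp (χ : ℂ → ℝ) : tsupport (fun y => fderiv ℝ χ y 1) ⊆ tsupport χ :=
  tsupport_fderiv_apply_subset ℝ 1

theorem B5_dcpt {χ : ℂ → ℝ} (hc : HasCompactSupport χ) :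
    HasCompactSupport (fun y => fderiv ℝ χ y 1) :=
  hc.of_isClosed_subset (isClosed_tsupport _) (B5_dsupp χ)

/-- the functional vanishes on the test functions near a regular point -/
theorem B5_Vc (h : HypB f C0) {ξ η : ℝ} (hη : 0 < η) {w : ℂ} (hw : ci ξ η w ∉ SB f) :
    ∃ O : Set ℂ, IsOpen O ∧ w ∈ O ∧ ∀ φ : ℂ → ℝ, ContDiff ℝ ∞ φ → HasCompactSupport φ →
      tsupport φ ⊆ O → ∫ z, Vc f ξ η z * lap φ z = 0 := by
  have hw : RegB f (ci ξ η w) := not_not.1 hw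
  obtain ⟨U, hU, hzU, hD⟩ := hw
  refine ⟨ci ξ η ⁻¹' U, hU.preimage (ci_smooth ξ η).continuous, hzU, ?_⟩
  intro φ h1 h2 h3
  rw [Vc_lap h hη h1 h2]
  obtain ⟨h4, h5⟩ := comp_supp (ξ := ξ) hη h2
  refine hD _ (h1.comp (cz_smooth ξ η)) h4 ?_
  rw [h5]
  intro z hz
  have h6 := h3 hz
  rw [mem_preimage, ci_cz hη] at h6
  exact h6

/-- `weyl2` with `Vc_lap`: near `w` the functional `DD f` vanishes -/
theorem Vc_harm (h : HypB f C0) {ξ η : ℝ} (hη : 0 < η) {w : ℂ} (hw : ci ξ η w ∉ SB f) :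
    HarmonicAt (Vc f ξ η) w := by
  obtain ⟨O, hO, hwO, h1⟩ := B5_Vc h hη hw
  exact weyl2 (Vc_cont h hη) hO h1 w hwO

theorem vc_harm (h : HypB f C0) {ξ η : ℝ} (hη : 0 < η) {w : ℂ} (hw : ci ξ η w ∉ SB f) :
    HarmonicAt (vc f ξ η) w := by
  obtain ⟨O, hO, hwO, h1⟩ := B5_Vc h hη hw
  refine weyl2 (vc_cont h hη) hO (fun φ a1 a2 a3 => ?_) w hwO
  rw [vc_lap h hη a1 a2, h1 _ (B5_dsmooth a1) (B5_dcpt a2) ((B5_dsupp φ).trans a3), neg_zero]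

/-- `vc_lap`, and `lap_zero` for `∂_x χ`, whose support does not meet the preimage of `SB f` -/
theorem vc_test (h : HypB f C0) {ξ η : ℝ} (hη : 0 < η) {χ : ℂ → ℝ} (hχ : ContDiff ℝ ∞ χ)
    (hc : HasCompactSupport χ) (hloc : ∀ w, ci ξ η w ∈ SB f → ∀ᶠ y in 𝓝 w, χ y = χ w) :
    ∫ w, vc f ξ η w * lap χ w = 0 := by
  rw [vc_lap h hη hχ hc, lap_zero (B5_dsmooth hχ) (B5_dcpt hc), neg_zero]
  intro z hz
  apply Vc_harm h hη
  intro hzS
  have h1 := hloc z hzS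
  have h2 : (fun y => fderiv ℝ χ y 1) =ᶠ[𝓝 z] 0 := by
    have h3 : ∀ᶠ y in 𝓝 z, ∀ᶠ x in 𝓝 y, χ x = χ z := eventually_eventually_nhds.2 h1
    filter_upwards [h3] with y hy
    have h4 : χ =ᶠ[𝓝 y] fun _ => χ z := hy
    rw [h4.fderiv_eq]
    simp
  exact (notMem_tsupport_iff_eventuallyEq.2 h2) hz

end Pool.Agent.Helper34.BD
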