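import Pool.Agent.Helper34.BD.St.B3
import Pool.Agent.Helper12.RD.St.B1

set_option autoImplicit false

open MeasureTheory Real Filter Topology Set InnerProductSpace
open scoped ContDiff

noncomputable section

namespace Pool.Agent.Helper34.BD

open Pool.Agent.Helper12.RD

variable {f : ℝ × ℝ → ℝ} {C0 : ℝ}

theorem B6_joint (h : HypB f C0) :
    Continuous (fun y : (ℝ × ℝ) × ℝ => gg f (y.1.2 - y.1.1 * y.2, y.2)) :=
  (gg_cont h).comp (by fun_prop)

theorem B6_trunc (h : HypB f C0) (m : ℕ) :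
    Continuous (fun z : ℝ × ℝ => ∫ s in (-(m : ℝ))..m, |gg f (z.2 - z.1 * s, s)|) := by
  refine intervalIntegral.continuous_parametric_intervalIntegral_of_continuous'
    (f := fun (z : ℝ × ℝ) (s : ℝ) => |gg f (z.2 - z.1 * s, s)|) ?_ _ _
  exact (B6_joint h).abs

theorem B6_trunc2 (h : HypB f C0) (m : ℕ) :
    Continuous (fun z : ℝ × ℝ => ∫ s in (-(m : ℝ))..m,
      s / (s ^ 2 + 1 ^ 2) * gg f (z.2 - z.1 * s, s)) := by
  refine intervalIntegral.continuous_parametric_intervalIntegral_of_continuous'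
    (f := fun (z : ℝ × ℝ) (s : ℝ) => s / (s ^ 2 + 1 ^ 2) * gg f (z.2 - z.1 * s, s)) ?_ _ _
  refine Continuous.mul ?_ (B6_joint h)
  refine Continuous.div (by fun_prop) (by fun_prop) fun y => ?_
  positivity

theorem B6_set (h : HypB f C0) (n : ℝ) : {z | NN f z ≤ n} =
    ⋂ m : ℕ, {z : ℝ × ℝ | (∫ s in (-(m : ℝ))..m, |gg f (z.2 - z.1 * s, s)|) ≤ n} := by
  ext z
  simp only [mem_ofPred_eq, mem_iInter]
  have hi : Integrable (fun s : ℝ => |gg f (z.2 - z.1 * s, s)|) := (gg_line h z.1 z.2).abs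
  constructor
  · intro hz m
    refine le_trans ?_ hz
    rw [intervalIntegral.integral_of_le (by
      have : (0 : ℝ) ≤ m := Nat.cast_nonneg m
      linarith)]
    exact setIntegral_le_integral hi (Eventually.of_forall fun s => abs_nonneg _)
  · intro hz
    have ht : Tendsto (fun m : ℕ => ∫ s in (-(m : ℝ))..m, |gg f (z.2 - z.1 * s, s)|) atTop
        (𝓝 (∫ s, |gg f (z.2 - z.1 * s, s)|)) := by
      refine intervalIntegral_tendsto_integral hi ?_ tendsto_natCast_atTop_atTop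
      exact tendsto_neg_atTop_atBot.comp tendsto_natCast_atTop_atTop
    exact le_of_tendsto' ht hz

/-- `NN` is a supremum of continuous functions (integrals of `|g|` over bounded intervals) -/
theorem NN_closed (h : HypB f C0) (n : ℝ) : IsClosed {z | NN f z ≤ n} := by
  rw [B6_set h n]
  exact isClosed_iInter fun m => isClosed_le (B6_trunc h m) continuous_const

/-- Baire (`B1_baire`) on a nonempty closed set -/
theorem baire_box (h : HypB f C0) {S : Set (ℝ × ℝ)} (hS : IsClosed S) (hne : S.Nonempty) :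
    ∃ z₀ ∈ S, ∃ ρ : ℝ, 0 < ρ ∧ ∃ n : ℝ, 1 ≤ n ∧ ∀ z ∈ S, z ∈ box z₀ ρ → NN f z ≤ n := by
  obtain ⟨N, z₀, hz₀, ε, hε, hN⟩ := B1_baire hS hne (fun N : ℕ => {z | NN f z ≤ N})
    (fun N => NN_closed h N) (fun z _ => by
      obtain ⟨N, hN⟩ := exists_nat_ge (NN f z)
      exact ⟨N, hN⟩)
  refine ⟨z₀, hz₀, ε, hε, max 1 N, le_max_left _ _, fun z hz hb => ?_⟩
  refine le_trans (hN z hz ?_) (le_max_right _ _)
  obtain ⟨h1, h2⟩ := hb
  rw [Prod.dist_eq]
  refine max_lt ?_ ?_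
  · rw [Real.dist_eq, abs_lt]
    exact ⟨by linarith [h1.1], by linarith [h1.2]⟩
  · rw [Real.dist_eq, abs_lt]
    exact ⟨by linarith [h2.1], by linarith [h2.2]⟩

theorem B6_ker (s : ℝ) : |s / (s ^ 2 + 1 ^ 2)| ≤ 1 := by
  rw [abs_div, abs_of_pos (show (0 : ℝ) < s ^ 2 + 1 ^ 2 by positivity), div_le_one (by positivity)]
  nlinarith [sq_abs s, sq_nonneg (|s| - 1)]

theorem B6_int (h : HypB f C0) (z : ℝ × ℝ) :
    Integrable (fun s : ℝ => s / (s ^ 2 + 1 ^ 2) * gg f (z.2 - z.1 * s, s)) := by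
  refine (gg_line h z.1 z.2).bdd_mul (c := 1) ?_ (Eventually.of_forall fun s => ?_)
  · refine Continuous.aestronglyMeasurable ?_
    refine Continuous.div (by fun_prop) (by fun_prop) fun y => ?_
    positivity
  · rw [Real.norm_eq_abs]; exact B6_ker s

theorem B6_err (h : HypB f C0) (z : ℝ × ℝ) {m : ℕ} (hm : 1 ≤ m) :
    |uu f 1 z - ∫ s in (-(m : ℝ))..m, s / (s ^ 2 + 1 ^ 2) * gg f (z.2 - z.1 * s, s)| ≤
      NN f z / m := by
  have hm1 : (1 : ℝ) ≤ m := by exact_mod_cast hm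
  have hm0 : (0 : ℝ) < m := by linarith
  have hi := B6_int h z
  have hg : Integrable (fun s : ℝ => |gg f (z.2 - z.1 * s, s)|) := (gg_line h z.1 z.2).abs
  rw [intervalIntegral.integral_of_le (by linarith)]
  have h1 := integral_add_compl (measurableSet_Ioc (a := -(m : ℝ)) (b := (m : ℝ))) hi
  have h2 : uu f 1 z - ∫ s in Ioc (-(m : ℝ)) m, s / (s ^ 2 + 1 ^ 2) * gg f (z.2 - z.1 * s, s) =
      ∫ s in (Ioc (-(m : ℝ)) m)ᶜ, s / (s ^ 2 + 1 ^ 2) * gg f (z.2 - z.1 * s, s) := by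
    unfold uu
    rw [← h1]; ring
  rw [h2]
  have h3 : |∫ s in (Ioc (-(m : ℝ)) m)ᶜ, s / (s ^ 2 + 1 ^ 2) * gg f (z.2 - z.1 * s, s)| ≤
      ∫ s in (Ioc (-(m : ℝ)) m)ᶜ, |s / (s ^ 2 + 1 ^ 2) * gg f (z.2 - z.1 * s, s)| :=
    abs_integral_le_integral_abs
  have h4 : (∫ s in (Ioc (-(m : ℝ)) m)ᶜ, |s / (s ^ 2 + 1 ^ 2) * gg f (z.2 - z.1 * s, s)|) ≤
      ∫ s in (Ioc (-(m : ℝ)) m)ᶜ, (1 / (m : ℝ)) * |gg f (z.2 - z.1 * s, s)| := by
    refine setIntegral_mono_on hi.abs.integrableOn (hg.const_mul _).integrableOn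
      measurableSet_Ioc.compl ?_
    intro s hs
    rw [abs_mul]
    refine mul_le_mul_of_nonneg_right ?_ (abs_nonneg _)
    have hs' : (m : ℝ) ≤ |s| := by
      by_contra hc
      push Not at hc
      rw [abs_lt] at hc
      exact hs ⟨hc.1, hc.2.le⟩
    rw [abs_div, abs_of_pos (show (0 : ℝ) < s ^ 2 + 1 ^ 2 by positivity),
      div_le_div_iff₀ (by positivity) hm0, one_mul]
    nlinarith [sq_abs s, abs_nonneg s]
  have h5 : (∫ s in (Ioc (-(m : ℝ)) m)ᶜ, (1 / (m : ℝ)) * |gg f (z.2 - z.1 * s, s)|) ≤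
      ∫ s, (1 / (m : ℝ)) * |gg f (z.2 - z.1 * s, s)| :=
    setIntegral_le_integral (hg.const_mul _) (Eventually.of_forall fun s => by positivity)
  have h6 : (∫ s, (1 / (m : ℝ)) * |gg f (z.2 - z.1 * s, s)|) = NN f z / m := by
    rw [integral_const_mul]
    unfold NN; ring
  rw [h6] at h5
  exact h3.trans (h4.trans h5)

/-- truncate the integral at `|s| ≤ R`: the truncations are continuous and the error is at most
`n / R` on the set -/
theorem uu_contOn (h : HypB f C0) (n : ℝ) : ContinuousOn (uu f 1) {z | NN f z ≤ n} := by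
  have hu : TendstoUniformlyOn (fun (m : ℕ) (z : ℝ × ℝ) => ∫ s in (-(m : ℝ))..m,
      s / (s ^ 2 + 1 ^ 2) * gg f (z.2 - z.1 * s, s)) (uu f 1) atTop {z | NN f z ≤ n} := by
    rw [Metric.tendstoUniformlyOn_iff]
    intro ε hε
    obtain ⟨M, hM⟩ := exists_nat_gt (|n| / ε)
    filter_upwards [eventually_ge_atTop (max 1 M)] with m hm z hz
    have hm1 : 1 ≤ m := (le_max_left _ _).trans hm
    have hm2 : M ≤ m := (le_max_right _ _).trans hm
    have hm0 : (0 : ℝ) < m := by exact_mod_cast hm1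
    rw [Real.dist_eq]
    refine (B6_err h z hm1).trans_lt ?_
    have e1 : |n| / ε < m := hM.trans_le (by exact_mod_cast hm2)
    rw [div_lt_iff₀ hε] at e1
    rw [div_lt_iff₀ hm0]
    have e2 : NN f z ≤ |n| := le_trans hz (le_abs_self n)
    linarith
  exact hu.continuousOn (Frequently.of_forall fun m => (B6_trunc2 h m).continuousOn)

end Pool.Agent.Helper34.BD
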