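import Pool.Agent.Helper34.BD.Defs

set_option autoImplicit false

open MeasureTheory Real Filter Topology Set InnerProductSpace
open scoped ContDiff

noncomputable section

namespace Pool.Agent.Helper34.BD

open Pool.Agent.Helper12.RD

variable {f : ℝ × ℝ → ℝ} {C0 : ℝ}

/-- Fubini and dominated convergence: for every `x` the inner integral divided by `Y` tends to
zero and is at most `2 R' C` -/
theorem strip_lim {F : ℝ × ℝ → ℝ} (hF : Continuous F) {C : ℝ} (hb : ∀ y, |F y| ≤ C) (a : ℝ)
    (hl : ∀ x : ℝ, Integrable (fun s : ℝ => F (x - a * s, s))) {R R' : ℝ} (hR : 0 < R)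
    (hR' : 0 < R') :
    Tendsto (fun Y : ℝ => Y⁻¹ * ∫ x in (-R)..R, ∫ s in (-(R' * Y))..(R' * Y),
      |F (x - a * s, s)|) atTop (𝓝 0) := by
  have hI : ∀ Y : ℝ, Continuous fun x : ℝ => ∫ s in (-(R' * Y))..(R' * Y),
      |F (x - a * s, s)| := by
    intro Y
    apply intervalIntegral.continuous_parametric_intervalIntegral_of_continuous'
    have h1 : Continuous fun z : ℝ × ℝ => (z.1 - a * z.2, z.2) := by fun_prop
    exact (hF.comp h1).abs
  have e : (fun Y : ℝ => Y⁻¹ * ∫ x in (-R)..R, ∫ s in (-(R' * Y))..(R' * Y),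
      |F (x - a * s, s)|) = fun Y : ℝ => ∫ x in (-R)..R, Y⁻¹ * ∫ s in (-(R' * Y))..(R' * Y),
      |F (x - a * s, s)| := by
    funext Y
    rw [intervalIntegral.integral_const_mul]
  rw [e]
  have h := intervalIntegral.tendsto_integral_filter_of_dominated_convergence (μ := volume)
    (a := -R) (b := R) (l := atTop)
    (F := fun (Y x : ℝ) => Y⁻¹ * ∫ s in (-(R' * Y))..(R' * Y), |F (x - a * s, s)|)
    (f := fun _ => (0 : ℝ)) (fun _ => 2 * R' * C) ?_ ?_ ?_ ?_
  · simpa using h
  · exact Filter.Eventually.of_forall fun Y =>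
      (continuous_const.mul (hI Y)).aestronglyMeasurable
  · filter_upwards [eventually_gt_atTop (0 : ℝ)] with Y hY
    refine Filter.Eventually.of_forall fun x _ => ?_
    have h1 : ‖∫ s in (-(R' * Y))..(R' * Y), |F (x - a * s, s)|‖ ≤
        C * |R' * Y - -(R' * Y)| := by
      apply intervalIntegral.norm_integral_le_of_norm_le_const
      intro s _
      rw [norm_eq_abs, abs_abs]
      exact hb _
    have h2 : |R' * Y - -(R' * Y)| = 2 * R' * Y := by
      rw [abs_of_nonneg]
      · ring
      · have : 0 < R' * Y := mul_pos hR' hY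
        linarith
    rw [h2] at h1
    rw [norm_mul, norm_eq_abs Y⁻¹, abs_of_pos (inv_pos.mpr hY)]
    calc Y⁻¹ * ‖∫ s in (-(R' * Y))..(R' * Y), |F (x - a * s, s)|‖ ≤
        Y⁻¹ * (C * (2 * R' * Y)) := mul_le_mul_of_nonneg_left h1 (inv_pos.mpr hY).le
      _ = 2 * R' * C := by field_simp
  · exact intervalIntegrable_const
  · refine Filter.Eventually.of_forall fun x _ => ?_
    have hint : Integrable fun s : ℝ => |F (x - a * s, s)| := (hl x).abs
    have h0 : Tendsto (fun Y : ℝ => Y⁻¹ * ∫ s : ℝ, |F (x - a * s, s)|) atTop (𝓝 0) := by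
      have h1 := tendsto_inv_atTop_zero (𝕜 := ℝ)
      have h2 := h1.mul_const (∫ s : ℝ, |F (x - a * s, s)|)
      rwa [zero_mul] at h2
    refine squeeze_zero' ?_ ?_ h0
    · filter_upwards [eventually_gt_atTop (0 : ℝ)] with Y hY
      have : 0 < R' * Y := mul_pos hR' hY
      exact mul_nonneg (inv_pos.mpr hY).le
        (intervalIntegral.integral_nonneg (by linarith) fun s _ => abs_nonneg _)
    · filter_upwards [eventually_gt_atTop (0 : ℝ)] with Y hY
      have hRY : 0 < R' * Y := mul_pos hR' hY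
      refine mul_le_mul_of_nonneg_left ?_ (inv_pos.mpr hY).le
      rw [intervalIntegral.integral_of_le (by linarith)]
      exact setIntegral_le_integral hint (Filter.Eventually.of_forall fun s => abs_nonneg _)

end Pool.Agent.Helper34.BD
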