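import Pool.Agent.Helper34.BD.St.B7a
import Pool.Agent.Helper34.BD.St.B3

set_option autoImplicit false

open MeasureTheory Real Filter Topology Set InnerProductSpace
open scoped ContDiff

noncomputable section

namespace Pool.Agent.Helper34.BD

open Pool.Agent.Helper12.RD

variable {f : ℝ × ℝ → ℝ} {C0 : ℝ}

theorem B7b_As_cont (h : HypB f C0) (z : ℝ × ℝ) : Continuous (fun s : ℝ => As f s z) :=
  (As_cont h).comp (by fun_prop : Continuous fun s : ℝ => (s, z))

theorem B7b_int (h : HypB f C0) {ξ η : ℝ} (hη : 0 < η) (z : ℝ × ℝ) :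
    Integrable (fun s : ℝ => PK ξ η s * As f s z) := by
  refine Integrable.mono' ((PK_integrable (ξ := ξ) hη).mul_const C0)
    ((PK_cont hη).mul (B7b_As_cont h z)).aestronglyMeasurable (Eventually.of_forall fun s => ?_)
  rw [norm_mul, norm_of_nonneg (PK_nonneg hη s)]
  exact mul_le_mul_of_nonneg_left (As_bdd h s z) (PK_nonneg hη s)

/-- the local average is bounded by the integral over a large interval after the shift -/
theorem B7b_As_le (h : HypB f C0) (a : ℝ) {R R2 s : ℝ} {z : ℝ × ℝ} (hz : |z.2| ≤ R)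
    (hs : R + 1 + |(z.1 - a) * s| ≤ R2) :
    |As f s z| ≤ ∫ x in (-R2)..R2, |f (x - a * s, s)| := by
  have hc : Continuous fun x : ℝ => |f (x - a * s, s)| := (h.cont.comp (by fun_prop)).abs
  have h1 : As f s z = ∫ x in (z.2 - (z.1 - a) * s)..(z.2 + 1 - (z.1 - a) * s),
      f (x - a * s, s) := by
    rw [← intervalIntegral.integral_comp_sub_right (fun x => f (x - a * s, s)) ((z.1 - a) * s)]
    unfold As
    refine intervalIntegral.integral_congr fun q _ => ?_
    rw [show q - (z.1 - a) * s - a * s = q - z.1 * s from by ring]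
  have h2 := abs_le.mp (le_refl |(z.1 - a) * s|)
  have h3 := abs_le.mp hz
  have h4 : z.2 - (z.1 - a) * s ≤ z.2 + 1 - (z.1 - a) * s := by linarith
  have h5 : -R2 ≤ z.2 - (z.1 - a) * s := by linarith [h2.2, h3.1]
  have h6 : z.2 + 1 - (z.1 - a) * s ≤ R2 := by linarith [h2.1, h3.2]
  rw [h1]
  refine (intervalIntegral.abs_integral_le_integral_abs h4).trans ?_
  exact intervalIntegral.integral_mono_interval h5 h4 h6
    (Eventually.of_forall fun x => abs_nonneg _) (hc.intervalIntegrable _ _)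

/-- `|s| ≤ R' Y`: `PK ≤ Y⁻¹`, and `q - t s = x - a s` with `x = q - (t - a) s`,
`|x| ≤ R + 1 + R R'`; use `strip_lim`; `|s| > R' Y`: `PK_tail`. -/
theorem window_V (h : HypB f C0) (a : ℝ) {R ε : ℝ} (hR : 0 < R) (hε : 0 < ε) :
    ∃ Y₀ : ℝ, 1 ≤ Y₀ ∧ ∀ Y, Y₀ ≤ Y → ∀ z : ℝ × ℝ, |z.1 - a| ≤ R / Y → |z.2| ≤ R →
      |VV f 0 Y z| ≤ ε := by
  have hC0 := h.C0_nonneg
  set R' : ℝ := max 1 (24 * C0 / ε) with hR'
  have hR'1 : 1 ≤ R' := le_max_left _ _
  have hR'0 : 0 < R' := by linarith
  have hR'2 : C0 * (12 / R') ≤ ε / 2 := by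
    have h1 : 24 * C0 / ε ≤ R' := le_max_right _ _
    rw [div_le_iff₀ hε] at h1
    rw [mul_div_assoc', div_le_iff₀ hR'0]
    linarith
  set R2 : ℝ := R + 1 + R * R' with hR2
  have hR20 : 0 < R2 := by positivity
  have hlim := strip_lim h.cont h.bdd a (h.line a) hR20 hR'0
  have hev : ∀ᶠ Y : ℝ in atTop, (Y⁻¹ * ∫ x in (-R2)..R2, ∫ s in (-(R' * Y))..(R' * Y),
      |f (x - a * s, s)|) < ε / 2 := hlim.eventually_lt_const (by linarith)
  obtain ⟨Y₁, hY₁⟩ := eventually_atTop.mp hev
  refine ⟨max 1 Y₁, le_max_left _ _, ?_⟩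
  intro Y hY z hz1 hz2
  have hY1 : 1 ≤ Y := (le_max_left _ _).trans hY
  have hY0 : 0 < Y := by linarith
  have hY2 := hY₁ Y ((le_max_right _ _).trans hY)
  have hG := B7b_int h (ξ := 0) hY0 z
  have hm : MeasurableSet {s : ℝ | R' * Y < |s|} := measurableSet_lt measurable_const (by fun_prop)
  have hRY : 0 < R' * Y := by positivity
  have hsplit : VV f 0 Y z = (∫ s in {s : ℝ | R' * Y < |s|}, PK 0 Y s * As f s z) +
      ∫ s in {s : ℝ | R' * Y < |s|}ᶜ, PK 0 Y s * As f s z := (integral_add_compl hm hG).symm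
  have hcompl : {s : ℝ | R' * Y < |s|}ᶜ = Icc (-(R' * Y)) (R' * Y) := by
    ext s
    simp only [mem_compl_iff, mem_ofPred_eq, not_lt, mem_Icc, abs_le]
  -- the tail
  have htail : |∫ s in {s : ℝ | R' * Y < |s|}, PK 0 Y s * As f s z| ≤ ε / 2 := by
    have h1 : |∫ s in {s : ℝ | R' * Y < |s|}, PK 0 Y s * As f s z| ≤
        ∫ s in {s : ℝ | R' * Y < |s|}, C0 * PK 0 Y s := by
      refine (abs_integral_le_integral_abs).trans ?_
      refine integral_mono_of_nonneg (Eventually.of_forall fun s => abs_nonneg _)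
        (((PK_integrable hY0).const_mul C0).integrableOn) (Eventually.of_forall fun s => ?_)
      change |PK 0 Y s * As f s z| ≤ C0 * PK 0 Y s
      rw [abs_mul, abs_of_nonneg (PK_nonneg hY0 s), mul_comm]
      exact mul_le_mul_of_nonneg_right (As_bdd h s z) (PK_nonneg hY0 s)
    rw [integral_const_mul] at h1
    have h2 := PK_tail (ξ := 0) (η := Y) hY0 hR'1 (by rw [abs_zero]; linarith) (by linarith)
      (by linarith)
    exact h1.trans ((mul_le_mul_of_nonneg_left h2 hC0).trans hR'2)
  -- the main part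
  have hmain : |∫ s in {s : ℝ | R' * Y < |s|}ᶜ, PK 0 Y s * As f s z| ≤ ε / 2 := by
    rw [hcompl, integral_Icc_eq_integral_Ioc, ← intervalIntegral.integral_of_le (by linarith)]
    have hc3 : Continuous fun s : ℝ => ∫ x in (-R2)..R2, |f (x - a * s, s)| := by
      refine intervalIntegral.continuous_parametric_intervalIntegral_of_continuous' ?_ _ _
      have h9 : Continuous fun y : ℝ × ℝ => |f (y.2 - a * y.1, y.1)| :=
        (h.cont.comp (by fun_prop)).abs
      exact h9
    have h1 : |∫ s in (-(R' * Y))..(R' * Y), PK 0 Y s * As f s z| ≤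
        ∫ s in (-(R' * Y))..(R' * Y), Y⁻¹ * ∫ x in (-R2)..R2, |f (x - a * s, s)| := by
      refine (intervalIntegral.abs_integral_le_integral_abs (by linarith)).trans ?_
      refine intervalIntegral.integral_mono_on (by linarith)
        (((PK_cont hY0).mul (B7b_As_cont h z)).abs.intervalIntegrable _ _)
        ((hc3.const_mul Y⁻¹).intervalIntegrable _ _) ?_
      intro s hs
      rw [abs_mul, abs_of_nonneg (PK_nonneg hY0 s)]
      refine mul_le_mul (PK_le hY0 s) ?_ (abs_nonneg _) (by positivity)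
      refine B7b_As_le h a hz2 ?_
      have h2 : |(z.1 - a) * s| ≤ R * R' := by
        rw [abs_mul]
        calc |z.1 - a| * |s| ≤ R / Y * (R' * Y) :=
              mul_le_mul hz1 (abs_le.mpr hs) (abs_nonneg _) (by positivity)
          _ = R * R' := by field_simp
      linarith
    rw [intervalIntegral.integral_const_mul] at h1
    have h3 : (∫ s in (-(R' * Y))..(R' * Y), ∫ x in (-R2)..R2, |f (x - a * s, s)|) =
        ∫ x in (-R2)..R2, ∫ s in (-(R' * Y))..(R' * Y), |f (x - a * s, s)| := by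
      refine MeasureTheory.intervalIntegral_intervalIntegral_swap ?_
      have h9 : Continuous (Function.uncurry fun s x : ℝ => |f (x - a * s, s)|) := by
        have h10 : Continuous fun y : ℝ × ℝ => |f (y.2 - a * y.1, y.1)| :=
          (h.cont.comp (by fun_prop)).abs
        exact h10
      exact (h9.continuousOn.integrableOn_compact (isCompact_uIcc.prod isCompact_uIcc)).mono_set
        (prod_mono uIoc_subset_uIcc uIoc_subset_uIcc)
    rw [h3] at h1
    exact h1.trans hY2.le
  rw [hsplit]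
  refine (abs_add_le _ _).trans ?_
  linarith

end Pool.Agent.Helper34.BD
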