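import Pool.Agent.Helper34.BD.St.B7a
import Pool.Agent.Helper34.BD.St.B3
import Pool.Agent.Helper34.BD.St.B4a

set_option autoImplicit false

open MeasureTheory Real Filter Topology Set InnerProductSpace
open scoped ContDiff

noncomputable section

namespace Pool.Agent.Helper34.BD

open Pool.Agent.Helper12.RD

variable {f : ℝ × ℝ → ℝ} {C0 : ℝ}

/-- central part of the line integral -/
def B7c_I (f : ℝ × ℝ → ℝ) (A : ℝ) (z : ℝ × ℝ) : ℝ :=
  ∫ s in (-A)..A, |gg f (z.2 - z.1 * s, s)|

lemma B7c_cont (h : HypB f C0) :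
    Continuous (fun q : (ℝ × ℝ) × ℝ => |gg f (q.1.2 - q.1.1 * q.2, q.2)|) := by
  have h1 := gg_cont h
  have h2 : Continuous (fun q : (ℝ × ℝ) × ℝ => (q.1.2 - q.1.1 * q.2, q.2)) := by fun_prop
  exact (h1.comp h2).abs

lemma B7c_I_cont (h : HypB f C0) (A : ℝ) : Continuous (B7c_I f A) := by
  unfold B7c_I
  exact intervalIntegral.continuous_parametric_intervalIntegral_of_continuous'
    (f := fun (z : ℝ × ℝ) (s : ℝ) => |gg f (z.2 - z.1 * s, s)|) (B7c_cont h) _ _

lemma B7c_I_nonneg {A : ℝ} (hA : 0 ≤ A) (z : ℝ × ℝ) : 0 ≤ B7c_I f A z := by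
  unfold B7c_I
  exact intervalIntegral.integral_nonneg (by linarith) (fun s _ => abs_nonneg _)

/-- pointwise bound of the potential -/
lemma B7c_point (h : HypB f C0) {ξ η l R : ℝ} (hl : 0 < l) (hR : 1 ≤ R) (h1 : |ξ| ≤ l / 2)
    (h2 : l / 2 ≤ η) (h3 : η ≤ 3 * l / 2) (z : ℝ × ℝ) :
    |vv f ξ η z| ≤ η⁻¹ * B7c_I f (R * l) z + 2 * C0 * (12 / R) := by
  have hη : 0 < η := by linarith
  have hC := h.C0_nonneg
  have hA : 0 ≤ R * l := by positivity
  have hline := (gg_line h z.1 z.2).abs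
  have hPK := PK_integrable (ξ := ξ) hη
  set A : Set ℝ := {s : ℝ | R * l < |s|} with hAdef
  have hAm : MeasurableSet A := by
    rw [hAdef]; exact measurableSet_lt measurable_const (measurable_id.abs)
  have hint : Integrable (fun s : ℝ => PK ξ η s * |gg f (z.2 - z.1 * s, s)|) := by
    refine Integrable.mono' (hPK.mul_const (2 * C0)) ?_ (ae_of_all _ (fun s => ?_))
    · exact ((PK_cont hη).aestronglyMeasurable).mul hline.aestronglyMeasurable
    · rw [Real.norm_eq_abs, abs_mul, abs_abs, abs_of_nonneg (PK_nonneg hη s)]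
      exact mul_le_mul_of_nonneg_left (gg_bdd h _) (PK_nonneg hη s)
  have e1 : |vv f ξ η z| ≤ ∫ s : ℝ, PK ξ η s * |gg f (z.2 - z.1 * s, s)| := by
    unfold vv
    refine (abs_integral_le_integral_abs).trans (le_of_eq ?_)
    refine integral_congr_ae (ae_of_all _ (fun s => ?_))
    simp only [abs_mul, abs_of_nonneg (PK_nonneg hη s)]
  have e2 := integral_add_compl hAm hint
  have e3 : ∫ s in A, PK ξ η s * |gg f (z.2 - z.1 * s, s)| ≤ 2 * C0 * (12 / R) := by
    calc ∫ s in A, PK ξ η s * |gg f (z.2 - z.1 * s, s)| ≤ ∫ s in A, PK ξ η s * (2 * C0) := by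
          refine setIntegral_mono hint.integrableOn (hPK.mul_const _).integrableOn (fun s => ?_)
          exact mul_le_mul_of_nonneg_left (gg_bdd h _) (PK_nonneg hη s)
      _ = (∫ s in A, PK ξ η s) * (2 * C0) := by rw [integral_mul_const]
      _ ≤ 12 / R * (2 * C0) := mul_le_mul_of_nonneg_right (PK_tail hl hR h1 h2 h3) (by positivity)
      _ = _ := by ring
  have hAc : Aᶜ = Icc (-(R * l)) (R * l) := by
    ext s
    simp only [hAdef, mem_compl_iff, mem_ofPred_eq, not_lt, mem_Icc, abs_le]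
  have e4 : ∫ s in Aᶜ, PK ξ η s * |gg f (z.2 - z.1 * s, s)| ≤ η⁻¹ * B7c_I f (R * l) z := by
    rw [hAc, integral_Icc_eq_integral_Ioc, ← intervalIntegral.integral_of_le (by linarith)]
    unfold B7c_I
    rw [← intervalIntegral.integral_const_mul]
    refine intervalIntegral.integral_mono_on (by linarith) hint.intervalIntegrable
      (hline.const_mul _).intervalIntegrable (fun s _ => ?_)
    exact mul_le_mul_of_nonneg_right (PK_le hη s) (abs_nonneg _)
  linarith

/-- the central part over one vertical segment -/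
lemma B7c_seg (h : HypB f C0) (t₀ p₀ t : ℝ) {A r B : ℝ} (hA : 0 ≤ A) (hr : 0 ≤ r)
    (hB : |p₀| + r + |t - t₀| * A ≤ B) :
    ∫ p in Icc (p₀ - r) (p₀ + r), B7c_I f A (t, p) ≤
      ∫ x in (-B)..B, ∫ s in (-A)..A, |gg f (x - t₀ * s, s)| := by
  have hBp : 0 ≤ B := by
    have := abs_nonneg p₀
    have := mul_nonneg (abs_nonneg (t - t₀)) hA
    linarith
  have hc := B7c_cont h
  have hc1 : Continuous (Function.uncurry (fun p s : ℝ => |gg f (p - t * s, s)|)) :=
    hc.comp (f := fun q : ℝ × ℝ => ((t, q.1), q.2)) (by fun_prop)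
  have hc2 : Continuous (Function.uncurry (fun s x : ℝ => |gg f (x - t₀ * s, s)|)) :=
    hc.comp (f := fun q : ℝ × ℝ => ((t₀, q.2), q.1)) (by fun_prop)
  rw [integral_Icc_eq_integral_Ioc, ← intervalIntegral.integral_of_le (by linarith)]
  unfold B7c_I
  simp only
  rw [intervalIntegral_intervalIntegral_swap (F := fun p s : ℝ => |gg f (p - t * s, s)|)
    ((hc1.continuousOn.integrableOn_compact (isCompact_uIcc.prod isCompact_uIcc)).mono_set
      (prod_mono uIoc_subset_uIcc uIoc_subset_uIcc))]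
  rw [← intervalIntegral_intervalIntegral_swap (F := fun s x : ℝ => |gg f (x - t₀ * s, s)|)
    (a := -A) (b := A) (c := -B) (d := B)
    ((hc2.continuousOn.integrableOn_compact (isCompact_uIcc.prod isCompact_uIcc)).mono_set
      (prod_mono uIoc_subset_uIcc uIoc_subset_uIcc))]
  refine intervalIntegral.integral_mono_on (by linarith) ?_ ?_ (fun s hs => ?_)
  · refine Continuous.intervalIntegrable ?_ _ _
    exact intervalIntegral.continuous_parametric_intervalIntegral_of_continuous'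
      (f := fun s p : ℝ => |gg f (p - t * s, s)|)
      (hc.comp (f := fun q : ℝ × ℝ => ((t, q.2), q.1)) (by fun_prop)) _ _
  · refine Continuous.intervalIntegrable ?_ _ _
    exact intervalIntegral.continuous_parametric_intervalIntegral_of_continuous'
      (f := fun s x : ℝ => |gg f (x - t₀ * s, s)|) hc2 _ _
  · have hG : Continuous (fun u : ℝ => |gg f (u - t₀ * s, s)|) :=
      hc.comp (f := fun u : ℝ => ((t₀, u), s)) (by fun_prop)
    have e1 : ∫ p in (p₀ - r)..(p₀ + r), |gg f (p - t * s, s)| =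
        ∫ p in (p₀ - r)..(p₀ + r), (fun u : ℝ => |gg f (u - t₀ * s, s)|) (p - (t - t₀) * s) := by
      refine intervalIntegral.integral_congr (fun p _ => ?_)
      simp only
      congr 3
      ring
    rw [e1, intervalIntegral.integral_comp_sub_right (fun u : ℝ => |gg f (u - t₀ * s, s)|)
      ((t - t₀) * s)]
    have hs1 : |(t - t₀) * s| ≤ |t - t₀| * A := by
      rw [abs_mul]
      exact mul_le_mul_of_nonneg_left (abs_le.mpr hs) (abs_nonneg _)
    have hs2 := abs_le.mp hs1
    have hp := abs_le.mp (le_refl |p₀|)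
    refine intervalIntegral.integral_mono_interval (by linarith) (by linarith) (by linarith)
      (ae_of_all _ (fun u => abs_nonneg _)) (hG.intervalIntegrable _ _)

/-- In the coordinates `z` (`setInt_cz`) the ball is inside
`{|t - a| ≤ 2 R / l, |p - p₀| ≤ 2 R}`, the factor is `η ≤ 3 l / 2`; then as for `window_V`. -/
theorem window_v (h : HypB f C0) (z₀ : ℝ × ℝ) {R ε : ℝ} (hR : 0 < R) (hε : 0 < ε) :
    ∃ L : ℝ, 1 ≤ L ∧ ∀ l, L ≤ l → ∀ ξ η : ℝ, |ξ| ≤ l / 2 → l / 2 ≤ η → η ≤ 3 * l / 2 →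
      ∫ w in Metric.closedBall (cz ξ η z₀) R, |vc f ξ η w| ≤ ε := by
  have hC := h.C0_nonneg
  -- choice of the splitting parameter
  obtain ⟨R', hR'1, hR'2⟩ : ∃ R' : ℝ, 1 ≤ R' ∧ 576 * C0 * R ^ 2 / R' ≤ ε / 2 := by
    refine ⟨1 + 1152 * C0 * R ^ 2 / ε, ?_, ?_⟩
    · have : 0 ≤ 1152 * C0 * R ^ 2 / ε := by positivity
      linarith
    · have h0 : 0 ≤ 1152 * C0 * R ^ 2 / ε := by positivity
      rw [div_le_iff₀ (by linarith)]
      have : ε / 2 * (1 + 1152 * C0 * R ^ 2 / ε) = ε / 2 + 576 * C0 * R ^ 2 := by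
        field_simp; ring
      rw [this]; linarith
  have hR'0 : 0 < R' := by linarith
  set B : ℝ := |z₀.2| + 2 * R + 2 * R * R' with hB
  have hB0 : 0 < B := by
    have := abs_nonneg z₀.2
    have : 0 < 2 * R * R' := by positivity
    linarith
  have hlim := strip_lim (gg_cont h) (gg_bdd h) z₀.1 (fun x => gg_line h z₀.1 x) hB0 hR'0
  have hev : ∀ᶠ Y : ℝ in atTop, Y⁻¹ * ∫ x in (-B)..B, ∫ s in (-(R' * Y))..(R' * Y),
      |gg f (x - z₀.1 * s, s)| < ε / (8 * R) :=
    (tendsto_order.mp hlim).2 _ (by positivity)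
  obtain ⟨L0, hL0⟩ := eventually_atTop.mp hev
  refine ⟨max 1 L0, le_max_left _ _, fun l hl ξ η h1 h2 h3 => ?_⟩
  have hl1 : 1 ≤ l := (le_max_left _ _).trans hl
  have hl0 : 0 < l := by linarith
  have hη : 0 < η := by linarith
  have hJ := hL0 l ((le_max_right _ _).trans hl)
  set J : ℝ := ∫ x in (-B)..B, ∫ s in (-(R' * l))..(R' * l), |gg f (x - z₀.1 * s, s)| with hJdef
  have hA : 0 ≤ R' * l := by positivity
  set S : Set (ℝ × ℝ) := Icc (z₀.1 - 2 * R / l) (z₀.1 + 2 * R / l) ×ˢ
    Icc (z₀.2 - 2 * R) (z₀.2 + 2 * R) with hS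
  have hSm : MeasurableSet S := measurableSet_Icc.prod measurableSet_Icc
  have hSc : IsCompact S := isCompact_Icc.prod isCompact_Icc
  -- the ball in the coordinates `z`
  have hsub : cz ξ η ⁻¹' Metric.closedBall (cz ξ η z₀) R ⊆ S := by
    intro z hz
    rw [mem_preimage, Metric.mem_closedBall, Complex.dist_eq] at hz
    have hre := (Complex.abs_re_le_norm _).trans hz
    have him := (Complex.abs_im_le_norm _).trans hz
    simp only [Complex.sub_re, Complex.sub_im, cz] at hre him
    have him2 : η * |z.1 - z₀.1| ≤ R := by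
      have : η * z.1 - η * z₀.1 = η * (z.1 - z₀.1) := by ring
      rw [this, abs_mul, abs_of_pos hη] at him
      exact him
    have ht : |z.1 - z₀.1| ≤ 2 * R / l := by
      rw [le_div_iff₀ hl0]
      have : l / 2 * |z.1 - z₀.1| ≤ R :=
        (mul_le_mul_of_nonneg_right h2 (abs_nonneg _)).trans him2
      linarith
    have hp : |z.2 - z₀.2| ≤ 2 * R := by
      have e : z.2 - z₀.2 = (z.2 - ξ * z.1 - (z₀.2 - ξ * z₀.1)) + ξ * (z.1 - z₀.1) := by ring
      rw [e]
      refine (abs_add_le _ _).trans ?_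
      have : |ξ * (z.1 - z₀.1)| ≤ R := by
        rw [abs_mul]
        exact (mul_le_mul_of_nonneg_right (h1.trans h2) (abs_nonneg _)).trans him2
      linarith
    rw [abs_le] at ht hp
    rw [hS, mem_prod, mem_Icc, mem_Icc]
    exact ⟨⟨by linarith [ht.1], by linarith [ht.2]⟩, ⟨by linarith [hp.1], by linarith [hp.2]⟩⟩
  have hvc : ∀ z, |vc f ξ η (cz ξ η z)| = |vv f ξ η z| := by
    intro z
    unfold vc
    rw [ci_cz hη]
  rw [setInt_cz hη _ _ Metric.isClosed_closedBall.measurableSet]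
  have e0 : ∫ z in cz ξ η ⁻¹' Metric.closedBall (cz ξ η z₀) R, |vc f ξ η (cz ξ η z)| =
      ∫ z in cz ξ η ⁻¹' Metric.closedBall (cz ξ η z₀) R, |vv f ξ η z| :=
    integral_congr_ae (ae_of_all _ hvc)
  rw [e0]
  have hvvi : IntegrableOn (fun z => |vv f ξ η z|) S :=
    ((vv_cont h hη).abs).continuousOn.integrableOn_compact hSc
  have e1 : ∫ z in cz ξ η ⁻¹' Metric.closedBall (cz ξ η z₀) R, |vv f ξ η z| ≤
      ∫ z in S, |vv f ξ η z| :=
    setIntegral_mono_set hvvi (ae_of_all _ (fun z => abs_nonneg _)) (hsub.eventuallyLE)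
  have hIi : IntegrableOn (B7c_I f (R' * l)) S :=
    (B7c_I_cont h _).continuousOn.integrableOn_compact hSc
  have e2 : ∫ z in S, |vv f ξ η z| ≤
      ∫ z in S, (η⁻¹ * B7c_I f (R' * l) z + 2 * C0 * (12 / R')) := by
    refine setIntegral_mono hvvi ?_ (fun z => B7c_point h hl0 hR'1 h1 h2 h3 z)
    exact (hIi.const_mul _).add (continuous_const.continuousOn.integrableOn_compact hSc)
  have hvol : (volume : Measure (ℝ × ℝ)).real S = 2 * (2 * R / l) * (4 * R) := by
    rw [hS, Measure.volume_eq_prod, measureReal_prod_prod, Real.volume_real_Icc_of_le,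
      Real.volume_real_Icc_of_le]
    · ring
    · linarith
    · have : 0 < 2 * R / l := by positivity
      linarith
  have e3 : ∫ z in S, (η⁻¹ * B7c_I f (R' * l) z + 2 * C0 * (12 / R')) =
      η⁻¹ * (∫ z in S, B7c_I f (R' * l) z) + 2 * (2 * R / l) * (4 * R) * (2 * C0 * (12 / R')) := by
    rw [integral_add (hIi.const_mul _)
      (continuous_const.continuousOn.integrableOn_compact hSc), integral_const_mul,
      setIntegral_const, hvol, smul_eq_mul]
  -- the central part
  have e4 : ∫ z in S, B7c_I f (R' * l) z ≤ 2 * (2 * R / l) * J := by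
    rw [hS, Measure.volume_eq_prod, setIntegral_prod _ hIi]
    have hseg : ∀ t ∈ Icc (z₀.1 - 2 * R / l) (z₀.1 + 2 * R / l),
        ∫ p in Icc (z₀.2 - 2 * R) (z₀.2 + 2 * R), B7c_I f (R' * l) (t, p) ≤ J := by
      intro t ht
      refine B7c_seg h z₀.1 z₀.2 t hA (by linarith) ?_
      have h4 : |t - z₀.1| ≤ 2 * R / l := by
        rw [abs_le]; constructor <;> linarith [ht.1, ht.2]
      have h5 : |t - z₀.1| * (R' * l) ≤ 2 * R / l * (R' * l) :=
        mul_le_mul_of_nonneg_right h4 hA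
      have h6 : 2 * R / l * (R' * l) = 2 * R * R' := by field_simp
      rw [hB]; linarith
    calc ∫ t in Icc (z₀.1 - 2 * R / l) (z₀.1 + 2 * R / l),
          ∫ p in Icc (z₀.2 - 2 * R) (z₀.2 + 2 * R), B7c_I f (R' * l) (t, p)
        ≤ ∫ t in Icc (z₀.1 - 2 * R / l) (z₀.1 + 2 * R / l), J := by
          refine setIntegral_mono_on ?_ (continuous_const.continuousOn.integrableOn_compact
            isCompact_Icc) measurableSet_Icc hseg
          refine ContinuousOn.integrableOn_compact isCompact_Icc (Continuous.continuousOn ?_)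
          have hcc : Continuous (fun t : ℝ => ∫ p in (z₀.2 - 2 * R)..(z₀.2 + 2 * R),
              B7c_I f (R' * l) (t, p)) :=
            intervalIntegral.continuous_parametric_intervalIntegral_of_continuous'
              (f := fun t p : ℝ => B7c_I f (R' * l) (t, p)) (B7c_I_cont h _) _ _
          refine hcc.congr (fun t => ?_)
          rw [integral_Icc_eq_integral_Ioc, intervalIntegral.integral_of_le (by linarith)]
      _ = 2 * (2 * R / l) * J := by
          rw [setIntegral_const, smul_eq_mul, Real.volume_real_Icc_of_le]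
          · ring
          · have : 0 < 2 * R / l := by positivity
            linarith
  have hJ2 : J ≤ l * (ε / (8 * R)) := by
    have h7 : l⁻¹ * J < ε / (8 * R) := hJ
    have h8 : J = l * (l⁻¹ * J) := by field_simp
    rw [h8]
    exact mul_le_mul_of_nonneg_left h7.le hl0.le
  have e5 : 2 * (2 * R / l) * J ≤ ε / 2 := by
    calc 2 * (2 * R / l) * J ≤ 2 * (2 * R / l) * (l * (ε / (8 * R))) :=
          mul_le_mul_of_nonneg_left hJ2 (by positivity)
      _ = ε / 2 := by field_simp; ring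
  have e6 : η * (2 * (2 * R / l) * (4 * R) * (2 * C0 * (12 / R'))) ≤ 576 * C0 * R ^ 2 / R' := by
    have h9 : η * (2 * (2 * R / l) * (4 * R) * (2 * C0 * (12 / R'))) ≤
        3 * l / 2 * (2 * (2 * R / l) * (4 * R) * (2 * C0 * (12 / R'))) :=
      mul_le_mul_of_nonneg_right h3 (by positivity)
    refine h9.trans (le_of_eq ?_)
    field_simp
    ring
  calc η * ∫ z in cz ξ η ⁻¹' Metric.closedBall (cz ξ η z₀) R, |vv f ξ η z|
      ≤ η * (η⁻¹ * (∫ z in S, B7c_I f (R' * l) z) +
        2 * (2 * R / l) * (4 * R) * (2 * C0 * (12 / R'))) :=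
        mul_le_mul_of_nonneg_left (e1.trans (e2.trans (le_of_eq e3))) hη.le
    _ = (∫ z in S, B7c_I f (R' * l) z) +
        η * (2 * (2 * R / l) * (4 * R) * (2 * C0 * (12 / R'))) := by
        rw [mul_add, ← mul_assoc, mul_inv_cancel₀ hη.ne', one_mul]
    _ ≤ ε / 2 + ε / 2 := add_le_add (e4.trans e5) (e6.trans hR'2)
    _ = ε := by ring

end Pool.Agent.Helper34.BD
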