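import Pool.Agent.Helper34.BD.Defs

set_option autoImplicit false

open MeasureTheory Real Filter Topology Set InnerProductSpace
open scoped ContDiff

noncomputable section

namespace Pool.Agent.Helper34.BD

open Pool.Agent.Helper12.RD

variable {f : ℝ × ℝ → ℝ} {C0 : ℝ}

theorem B8a_deriv_pos {F : ℂ → ℂ} (hF : DifferentiableOn ℂ F {σ : ℂ | 0 < σ.im}) {l b : ℝ}
    (hl : 0 < l) (hb0 : 0 < b)
    (hb : ∀ σ : ℂ, ‖σ - l * Complex.I‖ ≤ l / 2 → |(F σ).im| ≤ b) :
    ‖deriv F (l * Complex.I)‖ ≤ 16 * (b / l) := by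
  have hopen : IsOpen {σ : ℂ | 0 < σ.im} := isOpen_lt continuous_const Complex.continuous_im
  have hsub : ∀ σ : ℂ, ‖σ - l * Complex.I‖ ≤ l / 2 → 0 < σ.im := by
    intro σ hσ
    have h1 : |(σ - l * Complex.I).im| ≤ l / 2 := (Complex.abs_im_le_norm _).trans hσ
    have h2 : (σ - l * Complex.I).im = σ.im - l := by simp
    rw [h2] at h1
    have := (abs_le.1 h1).1
    linarith
  set c : ℂ := l * Complex.I with hc
  have hc0 : ‖c - c‖ ≤ l / 2 := by rw [sub_self, norm_zero]; positivity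
  set G : ℂ → ℂ := fun σ => Complex.exp (-(Complex.I / b) * F σ) with hG
  have hGn : ∀ σ, ‖G σ‖ = Real.exp ((F σ).im / b) := by
    intro σ
    rw [hG, Complex.norm_exp]
    congr 1
    have : -(Complex.I / b) * F σ = (((1 / b : ℝ)) : ℂ) * (-(Complex.I * F σ)) := by
      push_cast; ring
    rw [this, Complex.re_ofReal_mul]
    simp
    ring
  have hFd : ∀ σ : ℂ, ‖σ - c‖ ≤ l / 2 → DifferentiableAt ℂ F σ := fun σ hσ =>
    hF.differentiableAt (hopen.mem_nhds (hsub σ hσ))
  have hGd : ∀ σ : ℂ, ‖σ - c‖ ≤ l / 2 → DifferentiableAt ℂ G σ := fun σ hσ =>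
    ((hFd σ hσ).const_mul _).cexp
  have hR : 0 < l / 2 := by positivity
  have h1 : ‖deriv G c‖ ≤ Real.exp 1 / (l / 2) := by
    apply Complex.norm_deriv_le_of_forall_mem_sphere_norm_le hR
    · apply DifferentiableOn.diffContOnCl
      intro σ hσ
      have h2 : ‖σ - c‖ ≤ l / 2 := by
        have := Metric.closure_ball_subset_closedBall hσ
        rwa [Metric.mem_closedBall, dist_eq_norm] at this
      exact (hGd σ h2).differentiableWithinAt
    · intro σ hσ
      rw [mem_sphere_iff_norm] at hσ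
      rw [hGn]
      apply Real.exp_le_exp.2
      rw [div_le_one hb0]
      exact (le_abs_self _).trans (hb σ hσ.le)
  have h2 : deriv G c = G c * (-(Complex.I / b) * deriv F c) := by
    have := ((hFd c hc0).hasDerivAt.const_mul (-(Complex.I / b))).cexp
    exact this.deriv
  have h3 : Real.exp (-1) ≤ ‖G c‖ := by
    rw [hGn]
    apply Real.exp_le_exp.2
    rw [le_div_iff₀ hb0]
    have := (abs_le.1 (hb c hc0)).1
    linarith
  have h4 : ‖deriv G c‖ = ‖G c‖ * (‖deriv F c‖ / b) := by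
    rw [h2, norm_mul, norm_mul, norm_neg, norm_div, Complex.norm_I, Complex.norm_real,
      Real.norm_of_nonneg hb0.le]
    ring
  have h5 : Real.exp (-1) * (‖deriv F c‖ / b) ≤ Real.exp 1 / (l / 2) := by
    refine le_trans ?_ h1
    rw [h4]
    exact mul_le_mul_of_nonneg_right h3 (by positivity)
  have h6 : ‖deriv F c‖ / b ≤ Real.exp 1 * (Real.exp 1 / (l / 2)) := by
    have h7 : Real.exp 1 * (Real.exp (-1) * (‖deriv F c‖ / b)) = ‖deriv F c‖ / b := by
      rw [← mul_assoc, ← Real.exp_add]; simp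
    rw [← h7]
    exact mul_le_mul_of_nonneg_left h5 (Real.exp_pos _).le
  have he : Real.exp 1 ≤ 2.7182818286 := Real.exp_one_lt_d9.le
  have he0 := Real.exp_pos 1
  have h8 : Real.exp 1 * Real.exp 1 ≤ 8 := by nlinarith
  rw [div_le_iff₀ hb0] at h6
  refine h6.trans ?_
  have h9 : Real.exp 1 * (Real.exp 1 / (l / 2)) * b = (Real.exp 1 * Real.exp 1) * 2 * (b / l) := by
    field_simp
  rw [h9]
  have h10 : 0 ≤ b / l := by positivity
  nlinarith

theorem B8a_deriv {F : ℂ → ℂ} (hF : DifferentiableOn ℂ F {σ : ℂ | 0 < σ.im}) {l b : ℝ}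
    (hl : 0 < l)
    (hb : ∀ σ : ℂ, ‖σ - l * Complex.I‖ ≤ l / 2 → |(F σ).im| ≤ b) :
    ‖deriv F (l * Complex.I)‖ ≤ 16 * (b / l) := by
  have hb0 : 0 ≤ b := (abs_nonneg _).trans (hb (l * Complex.I) (by simp; positivity))
  refine le_of_forall_pos_le_add fun ε hε => ?_
  have h1 := B8a_deriv_pos hF (b := b + ε * l / 16) hl (by positivity) (fun σ hσ =>
    (hb σ hσ).trans (le_add_of_nonneg_right (by positivity)))
  refine h1.trans (le_of_eq ?_)
  field_simp

/-- Let `|Im F| ≤ B` on the disc of centre `l i` and radius `l / 2`, `B > 0`. Then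
`G = exp (-i F / B)` satisfies `e⁻¹ ≤ |G| ≤ e`, so `|F' (l i)| = B |G'| / |G| ≤ 2 e² B / l` by
Cauchy's estimate; integrate over `l` (`2 e² ≤ 16`). -/
theorem im_control {F : ℂ → ℂ} {B : ℝ → ℝ} (hF : DifferentiableOn ℂ F {σ : ℂ | 0 < σ.im})
    {L Y : ℝ} (hL : 0 < L) (hLY : L ≤ Y) (hB : ContinuousOn B (Icc L Y))
    (hb : ∀ l ∈ Icc L Y, ∀ σ : ℂ, ‖σ - l * Complex.I‖ ≤ l / 2 → |(F σ).im| ≤ B l) :
    |(F (L * Complex.I)).re - (F (Y * Complex.I)).re| ≤ 16 * ∫ l in L..Y, B l / l := by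
  have hopen : IsOpen {σ : ℂ | 0 < σ.im} := isOpen_lt continuous_const Complex.continuous_im
  have huIcc : uIcc L Y = Icc L Y := uIcc_of_le hLY
  have hpos : ∀ l ∈ Icc L Y, 0 < l := fun l hl => hL.trans_le hl.1
  have him : ∀ l ∈ Icc L Y, (l * Complex.I : ℂ) ∈ {σ : ℂ | 0 < σ.im} := fun l hl => by
    simpa using hpos l hl
  have hder : ∀ l ∈ uIcc L Y, HasDerivAt (fun l : ℝ => F (l * Complex.I))
      (deriv F (l * Complex.I) * Complex.I) l := by
    intro l hl
    rw [huIcc] at hl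
    have h1 : HasDerivAt F (deriv F (l * Complex.I)) (l * Complex.I) :=
      (hF.differentiableAt (hopen.mem_nhds (him l hl))).hasDerivAt
    have h2 : HasDerivAt (fun l : ℝ => (l : ℂ) * Complex.I) (1 * Complex.I) l :=
      (Complex.ofRealCLM.hasDerivAt (x := l)).mul_const Complex.I
    rw [one_mul] at h2
    exact h1.comp_of_eq l h2 rfl
  have hcont : ContinuousOn (fun l : ℝ => deriv F (l * Complex.I) * Complex.I) (uIcc L Y) := by
    rw [huIcc]
    refine ContinuousOn.mul ?_ continuousOn_const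
    refine (hF.deriv hopen).continuousOn.comp ?_ him
    fun_prop
  have hint := intervalIntegral.integral_eq_sub_of_hasDerivAt hder hcont.intervalIntegrable
  have hBint : IntervalIntegrable (fun l => 16 * (B l / l)) volume L Y := by
    apply ContinuousOn.intervalIntegrable
    rw [huIcc]
    exact continuousOn_const.mul (hB.div continuousOn_id fun l hl => (hpos l hl).ne')
  have h3 : ‖∫ l in L..Y, deriv F (l * Complex.I) * Complex.I‖ ≤ ∫ l in L..Y, 16 * (B l / l) := by
    apply intervalIntegral.norm_integral_le_of_norm_le hLY _ hBint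
    refine Filter.Eventually.of_forall fun l hl => ?_
    have hl' : l ∈ Icc L Y := ⟨hl.1.le, hl.2⟩
    rw [norm_mul, Complex.norm_I, mul_one]
    exact B8a_deriv hF (hpos l hl') (hb l hl')
  rw [intervalIntegral.integral_const_mul] at h3
  refine le_trans ?_ h3
  rw [hint, ← Complex.sub_re, ← norm_neg (F (Y * Complex.I) - F (L * Complex.I)), neg_sub]
  exact Complex.abs_re_le_norm _

end Pool.Agent.Helper34.BD
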