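import Pool.Agent.Helper34.BD.St.B3

set_option autoImplicit false

open MeasureTheory Real Filter Topology Set InnerProductSpace
open scoped ContDiff

noncomputable section

namespace Pool.Agent.Helper34.BD

open Pool.Agent.Helper12.RD

variable {f : ℝ × ℝ → ℝ} {C0 : ℝ}

/-- the Cauchy transform of `g` on the line `z` -/
def UU (f : ℝ × ℝ → ℝ) (z : ℝ × ℝ) (σ : ℂ) : ℂ :=
  ∫ s : ℝ, ((gg f (z.2 - z.1 * s, s) : ℝ) : ℂ) / ((s : ℂ) - σ)

theorem B8b_g (h : HypB f C0) (z : ℝ × ℝ) :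
    Continuous fun s : ℝ => gg f (z.2 - z.1 * s, s) :=
  (gg_cont h).comp (by fun_prop)

theorem B8b_norm (s : ℝ) (σ : ℂ) : σ.im ≤ ‖(s : ℂ) - σ‖ := by
  have h1 := Complex.abs_im_le_norm ((s : ℂ) - σ)
  rw [Complex.sub_im, Complex.ofReal_im, zero_sub, abs_neg] at h1
  exact (le_abs_self _).trans h1

theorem B8b_ne {σ : ℂ} (hσ : 0 < σ.im) (s : ℝ) : (s : ℂ) - σ ≠ 0 := by
  have h1 := B8b_norm s σ
  exact norm_pos_iff.1 (hσ.trans_le h1)

theorem B8b_cont (h : HypB f C0) (z : ℝ × ℝ) {σ : ℂ} (hσ : 0 < σ.im) (k : ℕ) :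
    Continuous fun s : ℝ => ((gg f (z.2 - z.1 * s, s) : ℝ) : ℂ) / ((s : ℂ) - σ) ^ k := by
  refine Continuous.div (Complex.continuous_ofReal.comp (B8b_g h z))
    ((Complex.continuous_ofReal.sub continuous_const).pow k) fun s => ?_
  exact pow_ne_zero k (B8b_ne hσ s)

theorem B8b_int (h : HypB f C0) (z : ℝ × ℝ) {σ : ℂ} (hσ : 0 < σ.im) :
    Integrable fun s : ℝ => ((gg f (z.2 - z.1 * s, s) : ℝ) : ℂ) / ((s : ℂ) - σ) := by
  have hc := B8b_cont h z hσ 1
  simp only [pow_one] at hc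
  refine Integrable.mono' ((gg_line h z.1 z.2).norm.mul_const σ.im⁻¹)
    hc.aestronglyMeasurable (ae_of_all _ fun s => ?_)
  rw [norm_div, Complex.norm_real, div_eq_mul_inv]
  exact mul_le_mul_of_nonneg_left (inv_anti₀ hσ (B8b_norm s σ)) (norm_nonneg _)

theorem UU_diff (h : HypB f C0) (z : ℝ × ℝ) :
    DifferentiableOn ℂ (UU f z) {σ : ℂ | 0 < σ.im} := by
  intro σ₀ hσ₀
  have hσ : 0 < σ₀.im := hσ₀
  refine DifferentiableAt.differentiableWithinAt ?_
  have him : ∀ σ ∈ Metric.ball σ₀ (σ₀.im / 2), σ₀.im / 2 < σ.im := by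
    intro σ hσ'
    rw [Metric.mem_ball, dist_eq_norm] at hσ'
    have h1 := (Complex.abs_im_le_norm (σ - σ₀)).trans_lt hσ'
    rw [Complex.sub_im, abs_lt] at h1
    linarith [h1.1]
  have hpos : ∀ σ ∈ Metric.ball σ₀ (σ₀.im / 2), 0 < σ.im := fun σ hσ' => by
    have := him σ hσ'
    linarith
  have hmain := hasDerivAt_integral_of_dominated_loc_of_deriv_le (μ := volume) (𝕜 := ℂ)
    (F := fun (σ : ℂ) (s : ℝ) => ((gg f (z.2 - z.1 * s, s) : ℝ) : ℂ) / ((s : ℂ) - σ))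
    (F' := fun (σ : ℂ) (s : ℝ) => ((gg f (z.2 - z.1 * s, s) : ℝ) : ℂ) / ((s : ℂ) - σ) ^ 2)
    (x₀ := σ₀) (s := Metric.ball σ₀ (σ₀.im / 2))
    (bound := fun s : ℝ => ‖gg f (z.2 - z.1 * s, s)‖ * ((σ₀.im / 2) ^ 2)⁻¹)
    (Metric.ball_mem_nhds _ (by linarith))
    (by
      filter_upwards [Metric.ball_mem_nhds σ₀ (show 0 < σ₀.im / 2 by linarith)] with σ hσ'
      have hc := B8b_cont h z (hpos σ hσ') 1
      simp only [pow_one] at hc
      exact hc.aestronglyMeasurable)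
    (B8b_int h z hσ)
    (B8b_cont h z hσ 2).aestronglyMeasurable
    (ae_of_all _ fun s σ hσ' => by
      rw [norm_div, Complex.norm_real, norm_pow, div_eq_mul_inv]
      refine mul_le_mul_of_nonneg_left (inv_anti₀ (by positivity) ?_) (norm_nonneg _)
      exact pow_le_pow_left₀ (by linarith) ((him σ hσ').le.trans (B8b_norm s σ)) 2)
    ((gg_line h z.1 z.2).norm.mul_const _)
    (ae_of_all _ fun s σ hσ' => by
      have hne := B8b_ne (hpos σ hσ') s
      have h1 : HasDerivAt (fun σ : ℂ => (s : ℂ) - σ) (-1) σ := by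
        simpa using (hasDerivAt_id σ).const_sub (s : ℂ)
      have h2 := (h1.inv hne).const_mul ((gg f (z.2 - z.1 * s, s) : ℝ) : ℂ)
      have h3 : (fun σ : ℂ => ((gg f (z.2 - z.1 * s, s) : ℝ) : ℂ) / ((s : ℂ) - σ)) =
          fun σ : ℂ => ((gg f (z.2 - z.1 * s, s) : ℝ) : ℂ) * ((s : ℂ) - σ)⁻¹ := by
        funext σ
        rw [div_eq_mul_inv]
      rw [h3]
      have h4 : ((gg f (z.2 - z.1 * s, s) : ℝ) : ℂ) * (-(-1) / ((s : ℂ) - σ) ^ 2) =
          ((gg f (z.2 - z.1 * s, s) : ℝ) : ℂ) / ((s : ℂ) - σ) ^ 2 := by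
        rw [neg_neg, mul_one_div]
      exact h2.congr_deriv h4)
  exact hmain.2.differentiableAt

theorem B8b_inv (s : ℝ) (σ : ℂ) : ((s : ℂ) - σ)⁻¹ =
    (((s - σ.re) / ((s - σ.re) ^ 2 + σ.im ^ 2) : ℝ) : ℂ) +
      ((σ.im / ((s - σ.re) ^ 2 + σ.im ^ 2) : ℝ) : ℂ) * Complex.I := by
  apply Complex.ext
  · rw [Complex.inv_re, Complex.normSq_apply]
    simp only [Complex.sub_re, Complex.ofReal_re, Complex.sub_im, Complex.ofReal_im, zero_sub,
      Complex.add_re, Complex.mul_re, Complex.I_re, Complex.I_im, mul_zero, mul_one,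
      sub_self, add_zero]
    congr 1
    ring
  · rw [Complex.inv_im, Complex.normSq_apply]
    simp only [Complex.sub_re, Complex.ofReal_re, Complex.sub_im, Complex.ofReal_im, zero_sub,
      Complex.add_im, Complex.mul_im, Complex.I_re, Complex.I_im, mul_zero, mul_one, zero_add,
      Complex.ofReal_im, add_zero, neg_neg]
    congr 1
    ring

theorem UU_im (h : HypB f C0) (z : ℝ × ℝ) {σ : ℂ} (hσ : 0 < σ.im) :
    (UU f z σ).im = vv f σ.re σ.im z := by
  have h1 := Complex.imCLM.integral_comp_comm (B8b_int h z hσ)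
  have h2 : (UU f z σ).im = Complex.imCLM (UU f z σ) := rfl
  rw [h2, UU, ← h1, vv]
  congr 1
  funext s
  rw [Complex.imCLM_apply, div_eq_mul_inv, B8b_inv, PK]
  simp only [Complex.mul_im, Complex.add_im, Complex.add_re, Complex.ofReal_re, Complex.ofReal_im,
    Complex.I_re, Complex.I_im, mul_zero, mul_one, zero_add, zero_mul, add_zero]
  ring

theorem UU_re (h : HypB f C0) (z : ℝ × ℝ) {X : ℝ} (hX : 0 < X) :
    (UU f z (X * Complex.I)).re = uu f X z := by
  have hi : ((X : ℂ) * Complex.I).im = X := by simp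
  have hr : ((X : ℂ) * Complex.I).re = 0 := by simp
  have hσ : 0 < ((X : ℂ) * Complex.I).im := by rw [hi]; exact hX
  have h1 := Complex.reCLM.integral_comp_comm (B8b_int h z hσ)
  have h2 : (UU f z (X * Complex.I)).re = Complex.reCLM (UU f z (X * Complex.I)) := rfl
  rw [h2, UU, ← h1, uu]
  congr 1
  funext s
  rw [Complex.reCLM_apply, div_eq_mul_inv, B8b_inv, hi, hr]
  simp only [Complex.mul_re, Complex.add_im, Complex.add_re, Complex.ofReal_re, Complex.ofReal_im,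
    Complex.mul_im, Complex.I_re, Complex.I_im, mul_zero, mul_one, zero_add, zero_mul, add_zero,
    sub_zero]
  ring

end Pool.Agent.Helper34.BD
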