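import Pool.Agent.Helper34.BD.St.B3

set_option autoImplicit false

open MeasureTheory Real Filter Topology Set InnerProductSpace
open scoped ContDiff

noncomputable section

namespace Pool.Agent.Helper34.BD

open Pool.Agent.Helper12.RD

variable {f : ℝ × ℝ → ℝ} {C0 : ℝ}

/-- the kernel of `uu` is at most `1 / (2 X)` -/
theorem B9a_ker {X : ℝ} (hX : 0 < X) (s : ℝ) : |s / (s ^ 2 + X ^ 2)| ≤ 1 / (2 * X) := by
  have h1 : 0 < s ^ 2 + X ^ 2 := by positivity
  rw [abs_div, abs_of_pos h1, div_le_div_iff₀ h1 (by positivity)]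
  have h2 := sq_nonneg (|s| - X)
  rw [sub_sq, sq_abs] at h2
  linarith

theorem B9a_ker_cont {X : ℝ} (hX : 0 < X) : Continuous fun s : ℝ => s / (s ^ 2 + X ^ 2) := by
  refine Continuous.div continuous_id (by fun_prop) fun s => ?_
  positivity

/-- the kernel of `ue` -/
def B9a_K (X s : ℝ) : ℝ := s / (s ^ 2 + 1) - s / (s ^ 2 + X ^ 2)

theorem B9a_K_cont {X : ℝ} (hX : 0 < X) : Continuous (B9a_K X) := by
  have h1 := B9a_ker_cont (X := 1) one_pos
  simp only [one_pow] at h1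
  exact h1.sub (B9a_ker_cont hX)

theorem B9a_K_eq {X : ℝ} (hX : 0 < X) (s : ℝ) :
    B9a_K X s = (X ^ 2 - 1) * (s / (s ^ 2 + X ^ 2)) * (1 + s ^ 2)⁻¹ := by
  unfold B9a_K
  have h1 : s ^ 2 + X ^ 2 ≠ 0 := by positivity
  have h2 : s ^ 2 + 1 ≠ 0 := by positivity
  have h3 : 1 + s ^ 2 ≠ 0 := by positivity
  field_simp
  ring

theorem B9a_K_le {X : ℝ} (hX : 0 < X) (s : ℝ) :
    |B9a_K X s| ≤ |X ^ 2 - 1| * (1 / (2 * X)) * (1 + s ^ 2)⁻¹ := by
  rw [B9a_K_eq hX, abs_mul, abs_mul, abs_of_nonneg (show 0 ≤ (1 + s ^ 2)⁻¹ by positivity)]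
  exact mul_le_mul_of_nonneg_right (mul_le_mul_of_nonneg_left (B9a_ker hX s) (abs_nonneg _))
    (by positivity)

theorem B9a_int_one {X : ℝ} (h : HypB f C0) (hX : 0 < X) (z : ℝ × ℝ) :
    Integrable fun s : ℝ => s / (s ^ 2 + X ^ 2) * gg f (z.2 - z.1 * s, s) := by
  refine (gg_line h z.1 z.2).bdd_mul (c := 1 / (2 * X))
    (B9a_ker_cont hX).aestronglyMeasurable ?_
  refine Filter.Eventually.of_forall fun s => ?_
  exact B9a_ker hX s

theorem ue_eq (h : HypB f C0) {X : ℝ} (hX : 0 < X) (z : ℝ × ℝ) :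
    ue f X z = uu f 1 z - uu f X z := by
  have h1 := B9a_int_one h one_pos z
  have h2 := B9a_int_one h hX z
  unfold ue uu
  rw [← integral_sub h1 h2]
  refine integral_congr_ae (Filter.Eventually.of_forall fun s => ?_)
  simp only [one_pow]
  ring

theorem B9a_gg_cont (h : HypB f C0) (s : ℝ) :
    Continuous fun z : ℝ × ℝ => gg f (z.2 - z.1 * s, s) :=
  (gg_cont h).comp (by fun_prop)

theorem B9a_gg_cont' (h : HypB f C0) (z : ℝ × ℝ) :
    Continuous fun s : ℝ => gg f (z.2 - z.1 * s, s) :=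
  (gg_cont h).comp (by fun_prop)

theorem B9a_bound (h : HypB f C0) {X : ℝ} (hX : 0 < X) (s : ℝ) (y : ℝ × ℝ) :
    ‖B9a_K X s * gg f y‖ ≤ |X ^ 2 - 1| * (1 / (2 * X)) * (2 * C0) * (1 + s ^ 2)⁻¹ := by
  rw [norm_mul, Real.norm_eq_abs, Real.norm_eq_abs]
  have h1 := mul_le_mul (B9a_K_le hX s) (gg_bdd h y) (abs_nonneg _) (by positivity)
  refine h1.trans (le_of_eq ?_)
  ring

theorem ue_cont (h : HypB f C0) {X : ℝ} (hX : 0 < X) : Continuous (ue f X) := by
  unfold ue
  refine continuous_of_dominated (F := fun (z : ℝ × ℝ) (s : ℝ) =>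
      (s / (s ^ 2 + 1) - s / (s ^ 2 + X ^ 2)) * gg f (z.2 - z.1 * s, s))
    (bound := fun s => |X ^ 2 - 1| * (1 / (2 * X)) * (2 * C0) * (1 + s ^ 2)⁻¹) ?_ ?_ ?_ ?_
  · intro z
    exact ((B9a_K_cont hX).mul (B9a_gg_cont' h z)).aestronglyMeasurable
  · intro z
    exact Filter.Eventually.of_forall fun s => B9a_bound h hX s _
  · exact integrable_inv_one_add_sq.const_mul _
  · exact Filter.Eventually.of_forall fun s => continuous_const.mul (B9a_gg_cont h s)

/-- the kernel is at most `X / (2 (s ^ 2 + 1))` -/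
theorem ue_le (h : HypB f C0) {X : ℝ} (hX : 1 ≤ X) (z : ℝ × ℝ) : |ue f X z| ≤ π * C0 * X := by
  have hX0 : 0 < X := by linarith
  have hC := h.C0_nonneg
  have h1 : ∀ s : ℝ, ‖(s / (s ^ 2 + 1) - s / (s ^ 2 + X ^ 2)) * gg f (z.2 - z.1 * s, s)‖ ≤
      C0 * X * (1 + s ^ 2)⁻¹ := by
    intro s
    refine (B9a_bound h hX0 s _).trans ?_
    refine mul_le_mul_of_nonneg_right ?_ (by positivity)
    have h2 : |X ^ 2 - 1| ≤ X ^ 2 := by
      rw [abs_of_nonneg (by nlinarith)]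
      linarith
    have h3 : |X ^ 2 - 1| * (1 / (2 * X)) * (2 * C0) ≤ X ^ 2 * (1 / (2 * X)) * (2 * C0) :=
      mul_le_mul_of_nonneg_right (mul_le_mul_of_nonneg_right h2 (by positivity)) (by positivity)
    refine h3.trans (le_of_eq ?_)
    field_simp
  have h4 : ‖ue f X z‖ ≤ ∫ s : ℝ, C0 * X * (1 + s ^ 2)⁻¹ := by
    unfold ue
    exact norm_integral_le_of_norm_le (integrable_inv_one_add_sq.const_mul _)
      (Filter.Eventually.of_forall h1)
  rw [integral_const_mul, integral_univ_inv_one_add_sq, Real.norm_eq_abs] at h4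
  refine h4.trans (le_of_eq ?_)
  ring

theorem B9a_As_cont (h : HypB f C0) (z : ℝ × ℝ) : Continuous fun s : ℝ => As f s z :=
  (As_cont h).comp (by fun_prop : Continuous fun s : ℝ => (s, z))

theorem B9a_PK_As (h : HypB f C0) {η : ℝ} (hη : 0 < η) (z : ℝ × ℝ) :
    Integrable fun s : ℝ => PK 0 η s * As f s z := by
  refine (PK_integrable hη).mul_bdd (c := C0) (B9a_As_cont h z).aestronglyMeasurable ?_
  exact Filter.Eventually.of_forall fun s => As_bdd h s z

/-- differentiation under the integral, `As_dt` -/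
theorem VV_dt_diff (h : HypB f C0) {X : ℝ} (hX : 0 < X) (t p : ℝ) :
    HasDerivAt (fun x : ℝ => VV f 0 1 (x, p) - X⁻¹ * VV f 0 X (x, p)) (-(ue f X (t, p))) t := by
  have e1 : (fun x : ℝ => VV f 0 1 (x, p) - X⁻¹ * VV f 0 X (x, p)) =
      fun x : ℝ => ∫ s : ℝ, (PK 0 1 s - X⁻¹ * PK 0 X s) * As f s (x, p) := by
    funext x
    unfold VV
    rw [← integral_const_mul, ← integral_sub (B9a_PK_As h one_pos (x, p))
      ((B9a_PK_As h hX (x, p)).const_mul _)]
    refine integral_congr_ae (Filter.Eventually.of_forall fun s => ?_)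
    simp only
    ring
  have e2 : -(ue f X (t, p)) = ∫ s : ℝ, -(B9a_K X s * gg f (p - t * s, s)) := by
    rw [integral_neg]
    rfl
  have e3 : ∀ s : ℝ, (PK 0 1 s - X⁻¹ * PK 0 X s) * s = B9a_K X s := by
    intro s
    unfold PK B9a_K
    have h1 : s ^ 2 + X ^ 2 ≠ 0 := by positivity
    have h2 : s ^ 2 + 1 ≠ 0 := by positivity
    simp only [sub_zero, one_pow]
    field_simp
  rw [e1, e2]
  refine (hasDerivAt_integral_of_dominated_loc_of_deriv_le
    (F := fun (x : ℝ) (s : ℝ) => (PK 0 1 s - X⁻¹ * PK 0 X s) * As f s (x, p))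
    (F' := fun (x : ℝ) (s : ℝ) => -(B9a_K X s * gg f (p - x * s, s)))
    (bound := fun s => |X ^ 2 - 1| * (1 / (2 * X)) * (2 * C0) * (1 + s ^ 2)⁻¹)
    (s := Set.univ) Filter.univ_mem ?_ ?_ ?_ ?_ ?_ ?_).2
  · refine Filter.Eventually.of_forall fun x => ?_
    exact (((PK_cont one_pos).sub (continuous_const.mul (PK_cont hX))).mul
      (B9a_As_cont h (x, p))).aestronglyMeasurable
  · have h1 := (B9a_PK_As h one_pos (t, p)).sub ((B9a_PK_As h hX (t, p)).const_mul X⁻¹)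
    refine h1.congr (Filter.Eventually.of_forall fun s => ?_)
    simp only [Pi.sub_apply]
    ring
  · exact ((B9a_K_cont hX).mul (B9a_gg_cont' h (t, p))).neg.aestronglyMeasurable
  · refine Filter.Eventually.of_forall fun s x _ => ?_
    rw [norm_neg]
    exact B9a_bound h hX s _
  · exact integrable_inv_one_add_sq.const_mul _
  · refine Filter.Eventually.of_forall fun s x _ => ?_
    have h1 := (As_dt h s x p).const_mul (PK 0 1 s - X⁻¹ * PK 0 X s)
    refine h1.congr_deriv ?_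
    rw [← e3]
    ring

end Pool.Agent.Helper34.BD
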