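import Pool.Agent.Helper34.BD.St.A4b
import Pool.Agent.Helper34.BD.St.B5
import Pool.Agent.Helper34.BD.St.B7c

set_option autoImplicit false

open MeasureTheory Real Filter Topology Set InnerProductSpace
open scoped ContDiff

noncomputable section

namespace Pool.Agent.Helper34.BD

open Pool.Agent.Helper12.RD

variable {f : ℝ × ℝ → ℝ} {C0 : ℝ}

/-- The ball of radius `r ≤ ρ / 4` in the coordinate `cz ξ η` stays in the box. -/
theorem ball_in_box {z₀ : ℝ × ℝ} {ρ l ξ η : ℝ} (hρ : 0 < ρ) (hl : 1 ≤ l) (h1 : |ξ| ≤ l / 2)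
    (h2 : l / 2 ≤ η) {w : ℂ} (hw : w ∈ Metric.closedBall (cz ξ η z₀) (ρ / 4)) :
    ci ξ η w ∈ box z₀ ρ := by
  have hη : 0 < η := by linarith
  rw [Metric.mem_closedBall, dist_eq_norm] at hw
  have hre : |w.re - (z₀.2 - ξ * z₀.1)| ≤ ρ / 4 := by
    have h3 := Complex.abs_re_le_norm (w - cz ξ η z₀)
    have h4 : (w - cz ξ η z₀).re = w.re - (z₀.2 - ξ * z₀.1) := rfl
    rw [h4] at h3
    exact h3.trans hw
  have him : |w.im - η * z₀.1| ≤ ρ / 4 := by
    have h3 := Complex.abs_im_le_norm (w - cz ξ η z₀)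
    have h4 : (w - cz ξ η z₀).im = w.im - η * z₀.1 := rfl
    rw [h4] at h3
    exact h3.trans hw
  set a := w.re - (z₀.2 - ξ * z₀.1) with ha
  set b := w.im - η * z₀.1 with hb
  have hbη : |b / η| ≤ ρ / (4 * η) := by
    rw [abs_div, abs_of_pos hη, div_le_div_iff₀ hη (by positivity)]
    nlinarith
  have hb1 : |b / η| ≤ ρ / 2 := by
    refine hbη.trans ?_
    apply div_le_div_of_nonneg_left hρ.le (by norm_num)
    linarith
  have hb2 : |ξ * (b / η)| ≤ ρ / 4 := by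
    rw [abs_mul]
    calc |ξ| * |b / η| ≤ η * (ρ / (4 * η)) :=
          mul_le_mul (h1.trans h2) hbη (abs_nonneg _) hη.le
      _ = ρ / 4 := by
        field_simp
  have e1 : w.im / η = z₀.1 + b / η := by
    rw [hb]
    field_simp
    ring
  have e2 : w.re + ξ * w.im / η = z₀.2 + (a + ξ * (b / η)) := by
    rw [mul_div_assoc, e1, ha]
    ring
  have e3 : |a + ξ * (b / η)| ≤ ρ / 2 := (abs_add_le _ _).trans (by linarith)
  have g1 := abs_le.1 hb1
  have g2 := abs_le.1 e3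
  unfold ci box
  rw [e1, e2]
  refine ⟨⟨?_, ?_⟩, ⟨?_, ?_⟩⟩
  · show z₀.1 - ρ < z₀.1 + b / η
    linarith [g1.1]
  · show z₀.1 + b / η < z₀.1 + ρ
    linarith [g1.2]
  · show z₀.2 - ρ < z₀.2 + (a + ξ * (b / η))
    linarith [g2.1]
  · show z₀.2 + (a + ξ * (b / η)) < z₀.2 + ρ
    linarith [g2.2]

/-- Smallness of `vc` on the ball of radius `ρ / 8`: `submean_ball` at the points of the ball with
radius `ρ / 8` and `c = n / η` (`vv_le_NN`, `vc_harm`), and `window_v` with `R = ρ / 4`. -/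
theorem vc_small (h : HypB f C0) {z₀ : ℝ × ℝ} {ρ n : ℝ} (hρ : 0 < ρ) (hn : 1 ≤ n)
    (hN : ∀ z ∈ SB f, z ∈ box z₀ ρ → NN f z ≤ n) {ε : ℝ} (hε : 0 < ε) :
    ∃ L : ℝ, 1 ≤ L ∧ ∀ l, L ≤ l → ∀ ξ η : ℝ, |ξ| ≤ l / 2 → l / 2 ≤ η → η ≤ 3 * l / 2 →
      ∀ w ∈ Metric.closedBall (cz ξ η z₀) (ρ / 8), |vc f ξ η w| ≤ n / η + ε := by
  have hR : 0 < ρ / 8 := by positivity
  have hε' : 0 < ε * (ρ / 8) ^ 2 / 100 := by positivity
  obtain ⟨L, hL1, hL⟩ := window_v h z₀ (R := ρ / 4) (by positivity) hε'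
  refine ⟨L, hL1, fun l hl ξ η h1 h2 h3 w hw => ?_⟩
  have hl1 : 1 ≤ l := hL1.trans hl
  have hη : 0 < η := by linarith
  have hsub : Metric.closedBall w (ρ / 8) ⊆ Metric.closedBall (cz ξ η z₀) (ρ / 4) := by
    apply Metric.closedBall_subset_closedBall'
    rw [Metric.mem_closedBall] at hw
    linarith
  have hc : 0 ≤ n / η := by positivity
  have hs := submean_ball (vc_cont h (ξ := ξ) hη) hc hR (z₀ := w) (fun z hz hz' => by
    apply vc_harm h hη
    intro hS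
    have h4 := hN _ hS (ball_in_box hρ hl1 h1 h2 (hsub hz))
    have h5 : |vc f ξ η z| ≤ n / η :=
      (vv_le_NN h hη (ci ξ η z)).trans (div_le_div_of_nonneg_right h4 hη.le)
    linarith)
  have hi : IntegrableOn (fun y => |vc f ξ η y|) (Metric.closedBall (cz ξ η z₀) (ρ / 4)) :=
    (vc_cont h hη).abs.continuousOn.integrableOn_compact (isCompact_closedBall _ _)
  have hm : ∫ y in Metric.closedBall w (ρ / 8), |vc f ξ η y| ≤
      ∫ y in Metric.closedBall (cz ξ η z₀) (ρ / 4), |vc f ξ η y| :=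
    setIntegral_mono_set hi (Eventually.of_forall fun y => abs_nonneg _)
      (Eventually.of_forall hsub)
  have hb := hm.trans (hL l hl ξ η h1 h2 h3)
  refine hs.trans ?_
  have h6 : 100 / (ρ / 8) ^ 2 * ∫ y in Metric.closedBall w (ρ / 8), |vc f ξ η y| ≤
      100 / (ρ / 8) ^ 2 * (ε * (ρ / 8) ^ 2 / 100) :=
    mul_le_mul_of_nonneg_left hb (by positivity)
  have h7 : 100 / (ρ / 8) ^ 2 * (ε * (ρ / 8) ^ 2 / 100) = ε := by
    field_simp
  linarith

end Pool.Agent.Helper34.BD
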