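import Pool.Agent.Helper34.BD.St.G0a

set_option autoImplicit false

open MeasureTheory Real Filter Topology Set InnerProductSpace
open scoped ContDiff

noncomputable section

namespace Pool.Agent.Helper34.BD

open Pool.Agent.Helper12.RD

theorem G0b_comp {v : ℂ → ℝ} {z₀ z : ℂ} {R : ℝ} (h : HarmonicAt v (z₀ + R * z)) :
    HarmonicAt (fun y : ℂ => v (z₀ + R * y)) z := by
  obtain ⟨ε, hε, hb⟩ := Metric.eventually_nhds_iff_ball.mp h.eventually
  have h1 : HarmonicOnNhd v (Metric.ball (z₀ + R * z) ε) := fun y hy => hb y hy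
  obtain ⟨F, hF, hFv⟩ := h1.exists_analyticOnNhd_ball_re_eq
  have h2 : AnalyticAt ℂ (fun y : ℂ => F (z₀ + R * y)) z := by
    have h3 : AnalyticAt ℂ F (z₀ + R * z) := hF _ (Metric.mem_ball_self hε)
    have h4 : AnalyticAt ℂ (fun y : ℂ => z₀ + R * y) z := by fun_prop
    exact AnalyticAt.comp (g := F) (f := fun y : ℂ => z₀ + R * y) h3 h4
  have h5 := h2.harmonicAt_re
  have hc : Continuous fun y : ℂ => z₀ + R * y := by fun_prop
  have h6 : (fun y : ℂ => (F (z₀ + R * y)).re) =ᶠ[𝓝 z] fun y : ℂ => v (z₀ + R * y) := by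
    have h7 : ∀ᶠ y in 𝓝 z, z₀ + R * y ∈ Metric.ball (z₀ + R * z) ε :=
      hc.continuousAt.eventually_mem (Metric.ball_mem_nhds _ hε)
    filter_upwards [h7] with y hy
    exact hFv hy
  exact (harmonicAt_congr_nhds h6).mp h5

/-- The scaled form of `growth_unit` -/
theorem growth_scaled : ∃ κ : ℝ, 0 < κ ∧ κ < 1 ∧ ∀ v : ℂ → ℝ, Continuous v →
    ∀ c M R : ℝ, ∀ z₀ : ℂ, 0 ≤ c → 0 ≤ M → 0 < R →
    (∀ z ∈ Metric.closedBall z₀ R, c < |v z| → HarmonicAt v z) →
    (∀ r : ℝ, 0 < r → r < R → ∃ z ∈ Metric.sphere z₀ r, |v z| ≤ c) →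
    (∀ z ∈ Metric.closedBall z₀ R, |v z| ≤ c + M) →
    ∀ z ∈ Metric.closedBall z₀ (R / 8), |v z| ≤ c + (1 - κ) * M := by
  obtain ⟨κ, hκ0, hκ1, H⟩ := growth_unit
  refine ⟨κ, hκ0, hκ1, fun v hv c M R z₀ hc hM hR hh hs hb z hz => ?_⟩
  have hR' : (R : ℂ) ≠ 0 := by exact_mod_cast hR.ne'
  have hmem : ∀ (y : ℂ) (ρ : ℝ), y ∈ Metric.closedBall (0 : ℂ) ρ →
      z₀ + R * y ∈ Metric.closedBall z₀ (R * ρ) := by
    intro y ρ hy
    rw [Metric.mem_closedBall, dist_eq_norm, sub_zero] at hy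
    rw [Metric.mem_closedBall, dist_eq_norm, add_sub_cancel_left, norm_mul, Complex.norm_real,
      Real.norm_eq_abs, abs_of_pos hR]
    exact mul_le_mul_of_nonneg_left hy hR.le
  have key := H (fun y => v (z₀ + R * y)) (by fun_prop) c M hc hM
    (fun y hy hcy => G0b_comp (hh _ (by simpa using hmem y 1 hy) hcy))
    (fun r hr hr1 => by
      obtain ⟨y, hy, hcy⟩ := hs (R * r) (mul_pos hR hr) (by nlinarith)
      refine ⟨(y - z₀) / R, ?_, ?_⟩
      · rw [mem_sphere_iff_norm] at hy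
        rw [mem_sphere_iff_norm, sub_zero, norm_div, hy, Complex.norm_real, Real.norm_eq_abs,
          abs_of_pos hR]
        field_simp
      · have h1 : z₀ + R * ((y - z₀) / R) = y := by
          field_simp
          ring
        rw [h1]
        exact hcy)
    (fun y hy => hb _ (by simpa using hmem y 1 hy)) ((z - z₀) / R) (by
      rw [mem_closedBall_iff_norm] at hz
      rw [mem_closedBall_iff_norm, sub_zero, norm_div, Complex.norm_real, Real.norm_eq_abs,
        abs_of_pos hR, div_le_iff₀ hR]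
      linarith)
  have h1 : z₀ + R * ((z - z₀) / R) = z := by
    field_simp
    ring
  rw [h1] at key
  exact key

/-- Iterate `growth_scaled` with the radii `R / 8 ^ j`; `C = (1 - κ)⁻¹`,
`α = log (1 - κ)⁻¹ / log 8`. -/
theorem decay : ∃ α C : ℝ, 0 < α ∧ 0 < C ∧ ∀ v : ℂ → ℝ, Continuous v →
    ∀ c M R : ℝ, ∀ z₀ : ℂ, 0 ≤ c → 0 ≤ M → 0 < R →
    (∀ z ∈ Metric.closedBall z₀ R, c < |v z| → HarmonicAt v z) →
    (∀ r : ℝ, 0 < r → r < R → ∃ z ∈ Metric.sphere z₀ r, |v z| ≤ c) →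
    (∀ z ∈ Metric.closedBall z₀ R, |v z| ≤ c + M) →
    ∀ z ∈ Metric.closedBall z₀ R, |v z| ≤ c + C * M * (‖z - z₀‖ / R) ^ α := by
  obtain ⟨κ, hκ0, hκ1, H⟩ := growth_scaled
  have hk : 0 < 1 - κ := by linarith
  have hk1 : 1 - κ < 1 := by linarith
  have hl8 : 0 < Real.log 8 := Real.log_pos (by norm_num)
  have hlk : Real.log (1 - κ) < 0 := Real.log_neg hk hk1
  have hα : 0 < - Real.log (1 - κ) / Real.log 8 := div_pos (by linarith) hl8
  refine ⟨- Real.log (1 - κ) / Real.log 8, (1 - κ)⁻¹, hα, inv_pos.mpr hk,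
    fun v hv c M R z₀ hc hM hR hh hs hb z hz => ?_⟩
  have h8 : ((1 : ℝ) / 8) ^ (- Real.log (1 - κ) / Real.log 8) = 1 - κ := by
    rw [one_div, Real.inv_rpow (by norm_num), ← Real.rpow_neg (by norm_num),
      Real.rpow_def_of_pos (by norm_num)]
    have h1 : Real.log 8 * -(-Real.log (1 - κ) / Real.log 8) = Real.log (1 - κ) := by
      field_simp
    rw [h1, Real.exp_log hk]
  have hit : ∀ j : ℕ, ∀ y ∈ Metric.closedBall z₀ (R * (1 / 8) ^ j),
      |v y| ≤ c + (1 - κ) ^ j * M := by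
    intro j
    induction j with
    | zero =>
      intro y hy
      rw [pow_zero, one_mul]
      rw [pow_zero, mul_one] at hy
      exact hb y hy
    | succ j ih =>
      intro y hy
      have hp : (0 : ℝ) < (1 / 8) ^ j := by positivity
      have hp1 : ((1 : ℝ) / 8) ^ j ≤ 1 := pow_le_one₀ (by norm_num) (by norm_num)
      have hle : R * (1 / 8) ^ j ≤ R := by nlinarith
      have h1 := H v hv c ((1 - κ) ^ j * M) (R * (1 / 8) ^ j) z₀ hc
        (mul_nonneg (pow_nonneg hk.le j) hM) (mul_pos hR hp)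
        (fun y hy => hh y (Metric.closedBall_subset_closedBall hle hy))
        (fun r hr hr1 => hs r hr (lt_of_lt_of_le hr1 hle)) ih y (by
          convert hy using 2
          rw [pow_succ]
          ring)
      calc |v y| ≤ c + (1 - κ) * ((1 - κ) ^ j * M) := h1
        _ = c + (1 - κ) ^ (j + 1) * M := by ring
  by_cases hzz : z = z₀
  · subst hzz
    rw [sub_self, norm_zero, zero_div, Real.zero_rpow hα.ne', mul_zero, add_zero]
    have hlim : Tendsto (fun j : ℕ => c + (1 - κ) ^ j * M) atTop (𝓝 (c + 0 * M)) :=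
      ((tendsto_pow_atTop_nhds_zero_of_lt_one hk.le hk1).mul_const M).const_add c
    rw [zero_mul, add_zero] at hlim
    exact ge_of_tendsto' hlim fun j => hit j z (Metric.mem_closedBall_self (by positivity))
  · have hn : 0 < ‖z - z₀‖ := norm_pos_iff.mpr (sub_ne_zero.mpr hzz)
    rw [mem_closedBall_iff_norm] at hz
    obtain ⟨j, hj1, hj2⟩ := exists_nat_pow_near_of_lt_one (div_pos hn hR)
      ((div_le_one hR).mpr hz) (by norm_num : (0 : ℝ) < 1 / 8) (by norm_num)
    have h1 := hit j z (by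
      rw [mem_closedBall_iff_norm]
      rw [div_le_iff₀ hR] at hj2
      linarith)
    refine h1.trans ?_
    have h2 : (1 - κ) ^ (j + 1) ≤ (‖z - z₀‖ / R) ^ (- Real.log (1 - κ) / Real.log 8) := by
      calc (1 - κ) ^ (j + 1) =
          (((1 : ℝ) / 8) ^ (- Real.log (1 - κ) / Real.log 8)) ^ (j + 1) := by rw [h8]
        _ = (((1 : ℝ) / 8) ^ (j + 1)) ^ (- Real.log (1 - κ) / Real.log 8) := by
          rw [← Real.rpow_natCast, ← Real.rpow_mul (by norm_num), mul_comm,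
            Real.rpow_mul (by norm_num), Real.rpow_natCast]
        _ ≤ _ := Real.rpow_le_rpow (by positivity) hj1.le hα.le
    have h3 : (1 - κ) ^ j = (1 - κ)⁻¹ * (1 - κ) ^ (j + 1) := by
      rw [pow_succ]
      field_simp
    rw [h3]
    have h4 : (1 - κ)⁻¹ * (1 - κ) ^ (j + 1) * M ≤
        (1 - κ)⁻¹ * M * (‖z - z₀‖ / R) ^ (- Real.log (1 - κ) / Real.log 8) := by
      have h5 : 0 ≤ (1 - κ)⁻¹ * M := mul_nonneg (inv_pos.mpr hk).le hM
      calc (1 - κ)⁻¹ * (1 - κ) ^ (j + 1) * M = (1 - κ)⁻¹ * M * (1 - κ) ^ (j + 1) := by ring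
        _ ≤ _ := mul_le_mul_of_nonneg_left h2 h5
    linarith

end Pool.Agent.Helper34.BD
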