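import Pool.Agent.Helper34.BD.St.C1a
import Pool.Agent.Helper34.BD.St.G0b
import Pool.Agent.Helper34.BD.St.A5

set_option autoImplicit false

open MeasureTheory Real Filter Topology Set InnerProductSpace
open scoped ContDiff

noncomputable section

namespace Pool.Agent.Helper34.BD

open Pool.Agent.Helper12.RD

variable {f : ℝ × ℝ → ℝ} {C0 : ℝ}

/-- Decay towards a point of the support: `decay` with `R = ρ / 8`, `c = n / η`, the circle
property from `circle_pt` (with its `R = ρ / 4`) and `vc_test`, the bound from `vc_small`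
with `ε / C`. -/
theorem vc_decay (h : HypB f C0) {z₀ : ℝ × ℝ} {ρ n : ℝ} (hρ : 0 < ρ) (hn : 1 ≤ n)
    (hz₀ : z₀ ∈ SB f) (hN : ∀ z ∈ SB f, z ∈ box z₀ ρ → NN f z ≤ n) :
    ∃ α : ℝ, 0 < α ∧ ∀ ε : ℝ, 0 < ε → ∃ L : ℝ, 1 ≤ L ∧ ∀ l, L ≤ l → ∀ ξ η : ℝ, |ξ| ≤ l / 2 →
      l / 2 ≤ η → η ≤ 3 * l / 2 → ∀ w ∈ Metric.closedBall (cz ξ η z₀) (ρ / 8),
        |vc f ξ η w| ≤ n / η + ε * (‖w - cz ξ η z₀‖ / (ρ / 8)) ^ α := by
  obtain ⟨α, C, hα, hC, H⟩ := decay
  refine ⟨α, hα, fun ε hε => ?_⟩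
  obtain ⟨L, hL, HL⟩ := vc_small h hρ hn hN (div_pos hε hC)
  refine ⟨L, hL, fun l hl ξ η hξ h1 h2 w hw => ?_⟩
  have hl1 : 1 ≤ l := hL.trans hl
  have hη : 0 < η := by linarith
  have hc : 0 ≤ n / η := div_nonneg (by linarith) hη.le
  have hS : ∀ z ∈ Metric.closedBall (cz ξ η z₀) (ρ / 4), ci ξ η z ∈ SB f →
      |vc f ξ η z| ≤ n / η := by
    intro z hz hzS
    have h3 := hN _ hzS (ball_in_box hρ hl1 hξ h1 hz)
    exact (vv_le_NN h hη _).trans (div_le_div_of_nonneg_right h3 hη.le)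
  have hsub : Metric.closedBall (cz ξ η z₀) (ρ / 8) ⊆ Metric.closedBall (cz ξ η z₀) (ρ / 4) :=
    Metric.closedBall_subset_closedBall (by linarith)
  have hh : ∀ z ∈ Metric.closedBall (cz ξ η z₀) (ρ / 4), n / η < |vc f ξ η z| →
      HarmonicAt (vc f ξ η) z := by
    intro z hz hzc
    exact vc_harm h hη fun hzS => absurd (hS z hz hzS) (not_le.2 hzc)
  have hcen : |vc f ξ η (cz ξ η z₀)| ≤ n / η :=
    hS _ (Metric.mem_closedBall_self (by linarith)) (by rw [ci_cz hη]; exact hz₀)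
  have key := H (vc f ξ η) (vc_cont h hη) (n / η) (ε / C) (ρ / 8) (cz ξ η z₀) hc
    (div_pos hε hC).le (by linarith) (fun z hz => hh z (hsub hz)) ?_
    (HL l hl ξ η hξ h1 h2) w hw
  · rw [mul_div_cancel₀ _ hC.ne'] at key
    exact key
  · intro r hr hr8
    refine circle_pt (R := ρ / 4) (vc_cont h hη) hr (by linarith) hc hcen
      (fun z hz => hh z (Metric.ball_subset_closedBall hz)) ?_
    intro χ hχ hχc hχs hχl
    refine vc_test h hη hχ hχc fun z hzS => ?_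
    by_cases hz : z ∈ Metric.ball (cz ξ η z₀) (ρ / 4)
    · exact hχl z hz (hS z (Metric.ball_subset_closedBall hz) hzS)
    · have h4 : z ∉ tsupport χ := fun h5 => hz (hχs h5)
      have h5 : χ =ᶠ[𝓝 z] 0 := notMem_tsupport_iff_eventuallyEq.1 h4
      have h6 : χ z = 0 := h5.eq_of_nhds
      filter_upwards [h5] with y hy
      rw [hy, h6]
      rfl

end Pool.Agent.Helper34.BD
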