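import Pool.Agent.Helper34.BD.St.C1b
import Pool.Agent.Helper34.BD.St.B8a
import Pool.Agent.Helper34.BD.St.B8b
import Pool.Agent.Helper34.BD.St.B9a

set_option autoImplicit false

open MeasureTheory Real Filter Topology Set InnerProductSpace
open scoped ContDiff

noncomputable section

namespace Pool.Agent.Helper34.BD

open Pool.Agent.Helper12.RD

variable {f : ℝ × ℝ → ℝ} {C0 : ℝ}

/-- the integral of the majorant -/
theorem ue_small_int {n ε₁ α L Y : ℝ} (hn : 0 ≤ n) (hε₁ : 0 ≤ ε₁) (hα : 0 < α) (hL : 0 < L)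
    (hLY : L ≤ Y) :
    ∫ l in L..Y, (4 * n / l + ε₁ * (l / Y) ^ α) / l ≤ 4 * n / L + ε₁ / α := by
  have hY : 0 < Y := hL.trans_le hLY
  have hd : ∀ l ∈ uIcc L Y, HasDerivAt (fun l : ℝ => -(4 * n / l) + ε₁ / α * (l / Y) ^ α)
      ((4 * n / l + ε₁ * (l / Y) ^ α) / l) l := by
    intro l hl
    rw [uIcc_of_le hLY] at hl
    have hl0 : 0 < l := hL.trans_le hl.1
    have h1 : HasDerivAt (fun l : ℝ => 4 * n / l) (-(4 * n) / l ^ 2) l := by
      have := (hasDerivAt_inv hl0.ne').const_mul (4 * n)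
      refine this.congr_deriv ?_ |>.congr_of_eventuallyEq ?_
      · field_simp
      · exact Eventually.of_forall fun x => by simp [div_eq_mul_inv]
    have h2 : HasDerivAt (fun l : ℝ => l / Y) (1 / Y) l := (hasDerivAt_id l).div_const Y
    have h3 := h2.rpow_const (p := α) (Or.inl (div_pos hl0 hY).ne')
    have h4 := h1.neg.add (h3.const_mul (ε₁ / α))
    refine h4.congr_deriv ?_
    rw [Real.rpow_sub_one (div_pos hl0 hY).ne']
    field_simp
  have hc : IntervalIntegrable (fun l : ℝ => (4 * n / l + ε₁ * (l / Y) ^ α) / l) volume L Y := by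
    refine ContinuousOn.intervalIntegrable ?_
    rw [uIcc_of_le hLY]
    intro l hl
    have hl0 : 0 < l := hL.trans_le hl.1
    have h1 : ContinuousAt (fun l : ℝ => 4 * n / l) l := continuousAt_const.div continuousAt_id hl0.ne'
    have h2 : ContinuousAt (fun l : ℝ => (l / Y) ^ α) l :=
      (continuousAt_id.div_const Y).rpow_const (Or.inl (div_pos hl0 hY).ne')
    exact ((h1.add (continuousAt_const.mul h2)).div continuousAt_id hl0.ne').continuousWithinAt
  rw [intervalIntegral.integral_eq_sub_of_hasDerivAt hd hc]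
  have h5 : (Y / Y) ^ α = 1 := by rw [div_self hY.ne', Real.one_rpow]
  rw [h5]
  have h6 : 0 ≤ 4 * n / Y := by positivity
  have h7 : 0 ≤ ε₁ / α * (L / Y) ^ α := by positivity
  linarith

/-- Choose `L` with `n / L` small and from `vc_decay`; `ue f Y = ue f L + (uu f L - uu f Y)`
(`ue_eq`), `ue f L` is continuous. For the rest apply `im_control` on `[L, Y]` to
`F σ = UU f (τ, z₀.2) σ - UU f z₀ σ` (`UU_re`, `UU_im`) with
`B l = 4 n / l + ε₁ (l / Y) ^ α`: for `‖σ - l i‖ ≤ l / 2`, `σ = ξ + i η`, one has `|ξ| ≤ l / 2`,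
`l / 2 ≤ η ≤ 3 l / 2`, `‖cz ξ η (τ, z₀.2) - cz ξ η z₀‖ = |σ| |τ - z₀.1| ≤ (ρ / 8) (l / Y)`, and
`|vv f ξ η z₀| ≤ n / η`. The integral of `B l / l` over `[L, Y]` is at most
`4 n / L + ε₁ / α`. -/
theorem ue_small (h : HypB f C0) {z₀ : ℝ × ℝ} {ρ n : ℝ} (hρ : 0 < ρ) (hn : 1 ≤ n)
    (hz₀ : z₀ ∈ SB f) (hN : ∀ z ∈ SB f, z ∈ box z₀ ρ → NN f z ≤ n) {ε : ℝ} (hε : 0 < ε) :
    ∃ Y₀ : ℝ, 1 ≤ Y₀ ∧ ∀ Y, Y₀ ≤ Y → ∀ τ : ℝ, |τ - z₀.1| ≤ ρ / (16 * Y) →
      |ue f Y (τ, z₀.2) - ue f Y z₀| ≤ ε := by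
  have hn0 : 0 < n := lt_of_lt_of_le one_pos hn
  obtain ⟨α, hα, hdec⟩ := vc_decay h hρ hn hz₀ hN
  set ε₁ : ℝ := α * ε / 64 with hε₁
  have hε₁0 : 0 < ε₁ := by positivity
  obtain ⟨L₁, hL₁, hdec⟩ := hdec ε₁ hε₁0
  set L : ℝ := max L₁ (256 * n / ε) with hLdef
  have hLL₁ : L₁ ≤ L := le_max_left _ _
  have hL1 : 1 ≤ L := hL₁.trans hLL₁
  have hL0 : 0 < L := lt_of_lt_of_le one_pos hL1
  have hLn : 256 * n / ε ≤ L := le_max_right _ _
  -- continuity of `ue f L`
  have hcont : ContinuousAt (fun τ : ℝ => ue f L (τ, z₀.2)) z₀.1 :=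
    ((ue_cont h hL0).comp (by fun_prop : Continuous fun τ : ℝ => (τ, z₀.2))).continuousAt
  obtain ⟨δ, hδ, hδc⟩ := Metric.continuousAt_iff.1 hcont (ε / 4) (by positivity)
  refine ⟨max L (ρ / (8 * δ)), hL1.trans (le_max_left _ _), fun Y hY τ hτ => ?_⟩
  have hLY : L ≤ Y := (le_max_left _ _).trans hY
  have hY0 : 0 < Y := hL0.trans_le hLY
  have hYδ : ρ / (8 * δ) ≤ Y := (le_max_right _ _).trans hY
  have hτδ : |τ - z₀.1| < δ := by
    refine lt_of_le_of_lt hτ ?_
    rw [div_le_iff₀ (by positivity)] at hYδ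
    rw [div_lt_iff₀ (by positivity)]
    have : 0 < δ * Y := by positivity
    nlinarith
  have hz₀box : z₀ ∈ box z₀ ρ := by
    refine ⟨⟨by linarith, by linarith⟩, ⟨by linarith, by linarith⟩⟩
  have hNz₀ : NN f z₀ ≤ n := hN z₀ hz₀ hz₀box
  -- first part
  have hpart1 : |ue f L (τ, z₀.2) - ue f L z₀| ≤ ε / 4 := by
    have := hδc (x := τ) (by rw [Real.dist_eq]; exact hτδ)
    rw [Real.dist_eq] at this
    exact this.le
  -- second part
  set F : ℂ → ℂ := fun σ => UU f (τ, z₀.2) σ - UU f z₀ σ with hF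
  have hFd : DifferentiableOn ℂ F {σ : ℂ | 0 < σ.im} :=
    (UU_diff h (τ, z₀.2)).sub (UU_diff h z₀)
  have hpart2 : |(F (L * Complex.I)).re - (F (Y * Complex.I)).re| ≤
      16 * ∫ l in L..Y, (4 * n / l + ε₁ * (l / Y) ^ α) / l := by
    refine im_control hFd hL0 hLY (B := fun l => 4 * n / l + ε₁ * (l / Y) ^ α) ?_ ?_
    · intro l hl
      have hl0 : 0 < l := hL0.trans_le hl.1
      have h1 : ContinuousAt (fun l : ℝ => 4 * n / l) l :=
        continuousAt_const.div continuousAt_id hl0.ne'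
      have h2 : ContinuousAt (fun l : ℝ => (l / Y) ^ α) l :=
        (continuousAt_id.div_const Y).rpow_const (Or.inl (div_pos hl0 hY0).ne')
      exact (h1.add (continuousAt_const.mul h2)).continuousWithinAt
    · intro l hl σ hσ
      have hl0 : 0 < l := hL0.trans_le hl.1
      have hre : |σ.re| ≤ l / 2 := by
        have h1 := Complex.abs_re_le_norm (σ - l * Complex.I)
        have h2 : (σ - l * Complex.I).re = σ.re := by simp
        rw [h2] at h1
        exact h1.trans hσ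
      have him : |σ.im - l| ≤ l / 2 := by
        have h1 := Complex.abs_im_le_norm (σ - l * Complex.I)
        have h2 : (σ - l * Complex.I).im = σ.im - l := by simp
        rw [h2] at h1
        exact h1.trans hσ
      obtain ⟨him1, him2⟩ := abs_le.1 him
      have hη1 : l / 2 ≤ σ.im := by linarith
      have hη2 : σ.im ≤ 3 * l / 2 := by linarith
      have hη0 : 0 < σ.im := by linarith
      have hFim : (F σ).im = vv f σ.re σ.im (τ, z₀.2) - vv f σ.re σ.im z₀ := by
        rw [hF]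
        simp only [Complex.sub_im]
        rw [UU_im h _ hη0, UU_im h _ hη0]
      have hnη : n / σ.im ≤ 2 * n / l := by
        rw [div_le_div_iff₀ hη0 hl0]
        nlinarith
      have hv0 : |vv f σ.re σ.im z₀| ≤ 2 * n / l := by
        refine (vv_le_NN h hη0 z₀).trans (le_trans ?_ hnη)
        exact div_le_div_of_nonneg_right hNz₀ hη0.le
      have hnorm : ‖cz σ.re σ.im (τ, z₀.2) - cz σ.re σ.im z₀‖ ≤ ρ / 8 * (l / Y) := by
        have h1 : cz σ.re σ.im (τ, z₀.2) - cz σ.re σ.im z₀ =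
            -((τ - z₀.1 : ℝ) : ℂ) * (starRingEnd ℂ) σ := by
          apply Complex.ext
          · simp [cz]; ring
          · simp [cz]; ring
        rw [h1, norm_mul, norm_neg, Complex.norm_real, RCLike.norm_conj, Real.norm_eq_abs]
        have h2 : ‖σ‖ ≤ 3 * l / 2 := by
          have h3 : σ = (σ - l * Complex.I) + l * Complex.I := by ring
          calc ‖σ‖ = ‖(σ - l * Complex.I) + l * Complex.I‖ := by rw [← h3]
            _ ≤ ‖σ - l * Complex.I‖ + ‖(l : ℂ) * Complex.I‖ := norm_add_le _ _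
            _ ≤ l / 2 + l := by
              refine add_le_add hσ ?_
              rw [norm_mul, Complex.norm_I, mul_one, Complex.norm_real, Real.norm_eq_abs,
                abs_of_pos hl0]
            _ = 3 * l / 2 := by ring
        calc |τ - z₀.1| * ‖σ‖ ≤ ρ / (16 * Y) * (3 * l / 2) :=
              mul_le_mul hτ h2 (norm_nonneg _) (by positivity)
          _ = 3 / 4 * (ρ / 8 * (l / Y)) := by field_simp; ring
          _ ≤ 1 * (ρ / 8 * (l / Y)) :=
              mul_le_mul_of_nonneg_right (by norm_num) (by positivity)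
          _ = _ := one_mul _
      have hlY : l / Y ≤ 1 := (div_le_one hY0).2 hl.2
      have hv1 : |vv f σ.re σ.im (τ, z₀.2)| ≤ 2 * n / l + ε₁ * (l / Y) ^ α := by
        have h1 := hdec l (hLL₁.trans hl.1) σ.re σ.im hre hη1 hη2 (cz σ.re σ.im (τ, z₀.2)) (by
          rw [Metric.mem_closedBall, dist_eq_norm]
          refine hnorm.trans ?_
          calc ρ / 8 * (l / Y) ≤ ρ / 8 * 1 := mul_le_mul_of_nonneg_left hlY (by positivity)
            _ = ρ / 8 := mul_one _)
        have h2 : vc f σ.re σ.im (cz σ.re σ.im (τ, z₀.2)) = vv f σ.re σ.im (τ, z₀.2) := by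
          unfold vc
          rw [ci_cz hη0]
        rw [h2] at h1
        refine h1.trans (add_le_add hnη (mul_le_mul_of_nonneg_left ?_ hε₁0.le))
        refine Real.rpow_le_rpow (by positivity) ?_ hα.le
        rw [div_le_iff₀ (by positivity)]
        calc _ ≤ _ := hnorm
          _ = _ := by ring
      rw [hFim]
      calc _ ≤ |vv f σ.re σ.im (τ, z₀.2)| + |vv f σ.re σ.im z₀| := abs_sub _ _
        _ ≤ (2 * n / l + ε₁ * (l / Y) ^ α) + 2 * n / l := add_le_add hv1 hv0
        _ = 4 * n / l + ε₁ * (l / Y) ^ α := by ring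
  have hint := ue_small_int hn0.le hε₁0.le hα hL0 hLY
  have hFL : (F (L * Complex.I)).re = uu f L (τ, z₀.2) - uu f L z₀ := by
    rw [hF]
    simp only [Complex.sub_re]
    rw [UU_re h _ hL0, UU_re h _ hL0]
  have hFY : (F (Y * Complex.I)).re = uu f Y (τ, z₀.2) - uu f Y z₀ := by
    rw [hF]
    simp only [Complex.sub_re]
    rw [UU_re h _ hY0, UU_re h _ hY0]
  rw [hFL, hFY] at hpart2
  have e1 := ue_eq h hY0 (τ, z₀.2)
  have e2 := ue_eq h hY0 z₀
  have e3 := ue_eq h hL0 (τ, z₀.2)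
  have e4 := ue_eq h hL0 z₀
  have e5 : ue f Y (τ, z₀.2) - ue f Y z₀ = (ue f L (τ, z₀.2) - ue f L z₀) +
      ((uu f L (τ, z₀.2) - uu f L z₀) - (uu f Y (τ, z₀.2) - uu f Y z₀)) := by
    rw [e1, e2, e3, e4]; ring
  have e6 : 16 * (4 * n / L + ε₁ / α) ≤ ε / 2 := by
    have h1 : 4 * n / L ≤ ε / 64 := by
      rw [div_le_iff₀ hε] at hLn
      rw [div_le_div_iff₀ hL0 (by norm_num)]
      linarith
    have h2 : ε₁ / α = ε / 64 := by
      rw [hε₁]; field_simp
    rw [h2]; linarith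
  rw [e5]
  calc _ ≤ |ue f L (τ, z₀.2) - ue f L z₀| +
        |(uu f L (τ, z₀.2) - uu f L z₀) - (uu f Y (τ, z₀.2) - uu f Y z₀)| := abs_add_le _ _
    _ ≤ ε / 4 + 16 * (4 * n / L + ε₁ / α) :=
        add_le_add hpart1 (hpart2.trans (mul_le_mul_of_nonneg_left hint (by norm_num)))
    _ ≤ ε := by linarith

end Pool.Agent.Helper34.BD
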