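import Pool.Agent.Helper34.BD.St.C2
import Pool.Agent.Helper34.BD.St.B7b
import Pool.Agent.Helper34.BD.St.B9a

set_option autoImplicit false

open MeasureTheory Real Filter Topology Set InnerProductSpace
open scoped ContDiff

noncomputable section

namespace Pool.Agent.Helper34.BD

open Pool.Agent.Helper12.RD

variable {f : ℝ × ℝ → ℝ} {C0 : ℝ}

/-- For `t ≠ z₀.1` let `Y = ρ / (16 |t - z₀.1|)`. By `VV_dt_diff` and the mean value theorem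
`VV f 0 1 (t, p₀) - VV f 0 1 z₀ = Y⁻¹ (VV f 0 Y (t, p₀) - VV f 0 Y z₀) - ∫ τ in z₀.1..t, ue f Y (τ, p₀)`;
the first term is `o (1 / Y)` by `window_V`, in the second use `ue_small` and
`ue f Y z₀ = uu f 1 z₀ - uu f Y z₀ → uu f 1 z₀` (`uu_le_NN`). -/
theorem VV_dt_S (h : HypB f C0) {z₀ : ℝ × ℝ} {ρ n : ℝ} (hρ : 0 < ρ) (hn : 1 ≤ n)
    (hz₀ : z₀ ∈ SB f) (hN : ∀ z ∈ SB f, z ∈ box z₀ ρ → NN f z ≤ n) :
    HasDerivAt (fun x : ℝ => VV f 0 1 (x, z₀.2)) (-(uu f 1 z₀)) z₀.1 := by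
  have hn0 : 0 < n := lt_of_lt_of_le one_pos hn
  have hz₀box : z₀ ∈ box z₀ ρ := by
    refine ⟨⟨by linarith, by linarith⟩, ⟨by linarith, by linarith⟩⟩
  have hNz₀ : NN f z₀ ≤ n := hN z₀ hz₀ hz₀box
  rw [hasDerivAt_iff_isLittleO, Asymptotics.isLittleO_iff]
  intro ε hε
  obtain ⟨Y₁, hY₁1, hY₁⟩ := ue_small h hρ hn hz₀ hN (ε := ε / 4) (by positivity)
  set R : ℝ := |z₀.2| + ρ with hR
  have hR0 : 0 < R := by have := abs_nonneg z₀.2; linarith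
  obtain ⟨Y₂, hY₂1, hY₂⟩ := window_V h z₀.1 hR0 (ε := ρ * ε / 128) (by positivity)
  set Y₀ : ℝ := max (max Y₁ Y₂) (2 * n / ε) with hY₀
  have hY₀1 : 1 ≤ Y₀ := hY₁1.trans ((le_max_left _ _).trans (le_max_left _ _))
  have hY₀0 : 0 < Y₀ := lt_of_lt_of_le one_pos hY₀1
  have hball : Metric.ball z₀.1 (ρ / (16 * Y₀)) ∈ 𝓝 z₀.1 :=
    Metric.ball_mem_nhds _ (by positivity)
  filter_upwards [hball] with x hx
  rw [Metric.mem_ball, Real.dist_eq] at hx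
  rcases eq_or_ne x z₀.1 with hxe | hxe
  · subst hxe
    simp
  have hd0 : 0 < |x - z₀.1| := abs_pos.2 (sub_ne_zero.2 hxe)
  set Y : ℝ := ρ / (16 * |x - z₀.1|) with hY
  have hY0 : 0 < Y := by positivity
  have hdY : |x - z₀.1| = ρ / (16 * Y) := by rw [hY]; field_simp
  have hYY : Y₀ ≤ Y := by
    rw [hY, le_div_iff₀ (by positivity)]
    rw [lt_div_iff₀ (by positivity)] at hx
    linarith
  have hYY₁ : Y₁ ≤ Y := ((le_max_left _ _).trans (le_max_left _ _)).trans hYY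
  have hYY₂ : Y₂ ≤ Y := ((le_max_right _ _).trans (le_max_left _ _)).trans hYY
  have hYn : 2 * n / ε ≤ Y := (le_max_right _ _).trans hYY
  -- the mean value inequality
  have hmv : |(VV f 0 1 (x, z₀.2) - Y⁻¹ * VV f 0 Y (x, z₀.2) + x * ue f Y z₀) -
      (VV f 0 1 (z₀.1, z₀.2) - Y⁻¹ * VV f 0 Y (z₀.1, z₀.2) + z₀.1 * ue f Y z₀)| ≤
      ε / 4 * |x - z₀.1| := by
    have h1 : ∀ τ ∈ Metric.closedBall z₀.1 (ρ / (16 * Y)),
        HasDerivWithinAt (fun τ : ℝ => VV f 0 1 (τ, z₀.2) - Y⁻¹ * VV f 0 Y (τ, z₀.2) +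
          τ * ue f Y z₀) (-(ue f Y (τ, z₀.2)) + ue f Y z₀) (Metric.closedBall z₀.1 (ρ / (16 * Y))) τ := by
      intro τ _
      have h2 := (VV_dt_diff h hY0 τ z₀.2).add ((hasDerivAt_id τ).mul_const (ue f Y z₀))
      rw [one_mul] at h2
      exact h2.hasDerivWithinAt
    have h3 : ∀ τ ∈ Metric.closedBall z₀.1 (ρ / (16 * Y)),
        ‖-(ue f Y (τ, z₀.2)) + ue f Y z₀‖ ≤ ε / 4 := by
      intro τ hτ
      rw [Metric.mem_closedBall, Real.dist_eq] at hτ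
      have h4 := hY₁ Y hYY₁ τ hτ
      rw [Real.norm_eq_abs, ← abs_neg]
      have h5 : -(-(ue f Y (τ, z₀.2)) + ue f Y z₀) = ue f Y (τ, z₀.2) - ue f Y z₀ := by ring
      rw [h5]; exact h4
    have h6 := (convex_closedBall z₀.1 (ρ / (16 * Y))).norm_image_sub_le_of_norm_hasDerivWithin_le
      h1 h3 (Metric.mem_closedBall_self (by positivity)) (y := x)
      (by rw [Metric.mem_closedBall, Real.dist_eq, hdY])
    rw [Real.norm_eq_abs, Real.norm_eq_abs] at h6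
    exact h6
  -- the window
  have hR1 : ρ / (16 * Y) ≤ R / Y := by
    rw [div_le_div_iff₀ (by positivity) hY0]
    have := abs_nonneg z₀.2
    nlinarith
  have hw1 : |VV f 0 Y (x, z₀.2)| ≤ ρ * ε / 128 :=
    hY₂ Y hYY₂ (x, z₀.2) (by rw [hdY]; exact hR1) (by simp only [hR]; linarith)
  have hw2 : |VV f 0 Y (z₀.1, z₀.2)| ≤ ρ * ε / 128 :=
    hY₂ Y hYY₂ (z₀.1, z₀.2) (by simp; positivity) (by simp only [hR]; linarith)
  have hw3 : |Y⁻¹ * VV f 0 Y (x, z₀.2) - Y⁻¹ * VV f 0 Y (z₀.1, z₀.2)| ≤ ε / 4 * |x - z₀.1| := by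
    rw [← mul_sub, abs_mul, abs_of_pos (inv_pos.2 hY0)]
    calc Y⁻¹ * |VV f 0 Y (x, z₀.2) - VV f 0 Y (z₀.1, z₀.2)|
        ≤ Y⁻¹ * (ρ * ε / 128 + ρ * ε / 128) := by
          refine mul_le_mul_of_nonneg_left ?_ (inv_pos.2 hY0).le
          exact (abs_sub _ _).trans (add_le_add hw1 hw2)
      _ = ε / 4 * |x - z₀.1| := by
          rw [hdY]; field_simp; ring
  -- the conjugate at the scale `Y`
  have hu : |uu f Y z₀| ≤ ε / 4 := by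
    refine (uu_le_NN h hY0 z₀).trans ?_
    rw [div_le_iff₀ hε] at hYn
    rw [div_le_iff₀ (by positivity)]
    nlinarith
  have hue := ue_eq h hY0 z₀
  rw [Real.norm_eq_abs, Real.norm_eq_abs, smul_eq_mul]
  have hid : VV f 0 1 (x, z₀.2) - VV f 0 1 (z₀.1, z₀.2) - (x - z₀.1) * -(uu f 1 z₀) =
      ((VV f 0 1 (x, z₀.2) - Y⁻¹ * VV f 0 Y (x, z₀.2) + x * ue f Y z₀) -
      (VV f 0 1 (z₀.1, z₀.2) - Y⁻¹ * VV f 0 Y (z₀.1, z₀.2) + z₀.1 * ue f Y z₀)) +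
      (Y⁻¹ * VV f 0 Y (x, z₀.2) - Y⁻¹ * VV f 0 Y (z₀.1, z₀.2)) + (x - z₀.1) * uu f Y z₀ := by
    rw [hue]; ring
  rw [hid]
  have h7 : |(x - z₀.1) * uu f Y z₀| ≤ ε / 4 * |x - z₀.1| := by
    rw [abs_mul, mul_comm]
    exact mul_le_mul_of_nonneg_right hu (abs_nonneg _)
  calc _ ≤ _ := abs_add_three _ _ _
    _ ≤ ε / 4 * |x - z₀.1| + ε / 4 * |x - z₀.1| + ε / 4 * |x - z₀.1| :=
        add_le_add (add_le_add hmv hw3) h7
    _ ≤ ε * |x - z₀.1| := by nlinarith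

end Pool.Agent.Helper34.BD
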