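import Pool.Agent.Helper34.BD.St.C3a

set_option autoImplicit false

open MeasureTheory Real Filter Topology Set InnerProductSpace
open scoped ContDiff

noncomputable section

namespace Pool.Agent.Helper34.BD

open Pool.Agent.Helper12.RD

variable {f : ℝ × ℝ → ℝ} {C0 : ℝ}

/-- a function with a derivative in `t` on the line `p = z₀.2` and a derivative in `p` continuous
at `z₀` is differentiable at `z₀` -/
theorem C3b_gen {F G : ℝ × ℝ → ℝ} {z₀ : ℝ × ℝ} {a : ℝ}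
    (h1 : HasDerivAt (fun x : ℝ => F (x, z₀.2)) a z₀.1)
    (h2 : ∀ t p : ℝ, HasDerivAt (fun x : ℝ => F (t, x)) (G (t, p)) p) (hG : ContinuousAt G z₀) :
    HasFDerivAt F (a • ContinuousLinearMap.fst ℝ ℝ ℝ + G z₀ • ContinuousLinearMap.snd ℝ ℝ ℝ)
      z₀ := by
  rw [hasFDerivAt_iff_isLittleO, Asymptotics.isLittleO_iff]
  intro c hc
  have hc2 : 0 < c / 2 := by positivity
  rw [hasDerivAt_iff_isLittleO, Asymptotics.isLittleO_iff] at h1
  have e1 := h1 hc2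
  have e1' : ∀ᶠ z : ℝ × ℝ in 𝓝 z₀,
      ‖F (z.1, z₀.2) - F (z₀.1, z₀.2) - (z.1 - z₀.1) • a‖ ≤ c / 2 * ‖z.1 - z₀.1‖ :=
    (continuous_fst.tendsto z₀).eventually e1
  rw [Metric.continuousAt_iff] at hG
  obtain ⟨δ, hδ, hG'⟩ := hG (c / 2) hc2
  filter_upwards [e1', Metric.ball_mem_nhds z₀ hδ] with z hz hzb
  have hzd : dist z z₀ < δ := hzb
  have hz1 : |z.1 - z₀.1| ≤ ‖z - z₀‖ := norm_fst_le (z - z₀)
  have hz2 : |z.2 - z₀.2| ≤ ‖z - z₀‖ := norm_snd_le (z - z₀)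
  have hzn : ‖z - z₀‖ < δ := by rwa [dist_eq_norm] at hzd
  -- mean value inequality in the second variable
  have key : ‖(F (z.1, z.2) - G z₀ * z.2) - (F (z.1, z₀.2) - G z₀ * z₀.2)‖ ≤
      c / 2 * ‖z.2 - z₀.2‖ := by
    have hs : Convex ℝ (uIcc z₀.2 z.2) := convex_uIcc _ _
    refine hs.norm_image_sub_le_of_norm_hasDerivWithin_le
      (f := fun x : ℝ => F (z.1, x) - G z₀ * x) (f' := fun x => G (z.1, x) - G z₀)
      (fun x _ => ?_) (fun x hx => ?_) left_mem_uIcc right_mem_uIcc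
    · have h3 := (h2 z.1 x).sub ((hasDerivAt_id' x).const_mul (G z₀))
      rw [mul_one] at h3
      exact h3.hasDerivWithinAt
    · have hx' : |x - z₀.2| ≤ |z.2 - z₀.2| := abs_sub_left_of_mem_uIcc hx
      have h4 : dist (z.1, x) z₀ < δ := by
        rw [Prod.dist_eq]
        refine max_lt ?_ ?_
        · rw [Real.dist_eq]; exact lt_of_le_of_lt hz1 hzn
        · rw [Real.dist_eq]; exact lt_of_le_of_lt (hx'.trans hz2) hzn
      have h5 := hG' h4
      rw [dist_eq_norm] at h5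
      exact h5.le
  have e3 : F z - F z₀ - (a • ContinuousLinearMap.fst ℝ ℝ ℝ +
      G z₀ • ContinuousLinearMap.snd ℝ ℝ ℝ) (z - z₀) =
      ((F (z.1, z.2) - G z₀ * z.2) - (F (z.1, z₀.2) - G z₀ * z₀.2)) +
      (F (z.1, z₀.2) - F (z₀.1, z₀.2) - (z.1 - z₀.1) • a) := by
    simp only [Prod.mk.eta, add_apply, smul_apply, ContinuousLinearMap.coe_fst',
      ContinuousLinearMap.coe_snd', Prod.fst_sub, Prod.snd_sub, smul_eq_mul]
    ring
  rw [e3]
  refine (norm_add_le _ _).trans ?_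
  rw [Real.norm_eq_abs (z.1 - z₀.1)] at hz
  rw [Real.norm_eq_abs (z.2 - z₀.2)] at key
  have h6 : c / 2 * |z.2 - z₀.2| ≤ c / 2 * ‖z - z₀‖ := by gcongr
  have h7 : c / 2 * |z.1 - z₀.1| ≤ c / 2 * ‖z - z₀‖ := by gcongr
  linarith

/-- `Vc f 0 1 w = VV f 0 1 (w.im, w.re)`: first move in `t` with `p = z₀.2` fixed (`VV_dt_S`), then in
`p` with `t` fixed, where the derivative `vv f 0 1` is continuous in both variables (`VV_dp`,
`vv_cont`). -/
theorem Vc_diff_S (h : HypB f C0) {z₀ : ℝ × ℝ} {ρ n : ℝ} (hρ : 0 < ρ) (hn : 1 ≤ n)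
    (hz₀ : z₀ ∈ SB f) (hN : ∀ z ∈ SB f, z ∈ box z₀ ρ → NN f z ≤ n) :
    HasFDerivAt (Vc f 0 1) (vv f 0 1 z₀ • Complex.reCLM - uu f 1 z₀ • Complex.imCLM)
      (cz 0 1 z₀) := by
  have h1 := C3b_gen (F := VV f 0 1) (G := vv f 0 1) (VV_dt_S h hρ hn hz₀ hN)
    (fun t p => VV_dp h one_pos t p) (vv_cont h one_pos).continuousAt
  have e1 : ci 0 1 = fun w : ℂ => (Complex.imCLM.prod Complex.reCLM) w := by
    funext w
    simp [ci]
  have h2 : HasFDerivAt (ci 0 1) (Complex.imCLM.prod Complex.reCLM) (cz 0 1 z₀) := by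
    rw [e1]
    exact ContinuousLinearMap.hasFDerivAt _
  have e2 : ci 0 1 (cz 0 1 z₀) = z₀ := ci_cz one_pos z₀
  rw [← e2] at h1
  have h3 := h1.comp (cz 0 1 z₀) h2
  rw [e2] at h3
  have e3 : (VV f 0 1) ∘ (ci 0 1) = Vc f 0 1 := rfl
  rw [e3] at h3
  refine h3.congr_fderiv ?_
  ext x
  simp
  ring

end Pool.Agent.Helper34.BD
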