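import Pool.Agent.Helper34.BD.St.A9
import Pool.Agent.Helper34.BD.St.B5
import Pool.Agent.Helper34.BD.St.B7b
import Pool.Agent.Helper34.BD.St.B9a

set_option autoImplicit false

open MeasureTheory Real Filter Topology Set InnerProductSpace
open scoped ContDiff

noncomputable section

namespace Pool.Agent.Helper34.BD

open Pool.Agent.Helper12.RD

variable {f : ℝ × ℝ → ℝ} {C0 : ℝ}

/-- the derivative of `VV f 0 1` in `t` off the support, at the scale `Y` -/
theorem C4_der (h : HypB f C0) {z : ℝ × ℝ} (hz : z ∉ SB f) {Y : ℝ} (hY : 0 < Y) :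
    HasDerivAt (fun x : ℝ => VV f 0 1 (x, z.2))
      (fderiv ℝ (Vc f 0 Y) (cz 0 Y z) Complex.I - ue f Y z) z.1 := by
  have hharm : HarmonicAt (Vc f 0 Y) (cz 0 Y z) := Vc_harm h hY (by rwa [ci_cz hY])
  have hdiff : DifferentiableAt ℝ (Vc f 0 Y) (cz 0 Y z) :=
    (harm_smooth hharm).differentiableAt (by simp)
  have h1 : HasDerivAt (fun x : ℝ => cz 0 Y (x, z.2)) ((Y : ℂ) * Complex.I) z.1 := by
    have e1 : (fun x : ℝ => cz 0 Y (x, z.2)) =
        fun x : ℝ => (z.2 : ℂ) + ((x : ℂ) * ((Y : ℂ) * Complex.I)) := by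
      funext x
      apply Complex.ext
      · simp [cz]
      · simp [cz, mul_comm]
    rw [e1]
    have h2 : HasDerivAt (fun x : ℝ => (x : ℂ)) 1 z.1 := Complex.ofRealCLM.hasDerivAt
    have h3 := (h2.mul_const ((Y : ℂ) * Complex.I)).const_add (z.2 : ℂ)
    rwa [one_mul] at h3
  have h2 : HasDerivAt (fun x : ℝ => Vc f 0 Y (cz 0 Y (x, z.2)))
      (fderiv ℝ (Vc f 0 Y) (cz 0 Y z) ((Y : ℂ) * Complex.I)) z.1 :=
    HasFDerivAt.comp_hasDerivAt (f := fun x : ℝ => cz 0 Y (x, z.2)) z.1 hdiff.hasFDerivAt h1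
  have e2 : (fun x : ℝ => Vc f 0 Y (cz 0 Y (x, z.2))) = fun x : ℝ => VV f 0 Y (x, z.2) := by
    funext x
    unfold Vc
    rw [ci_cz hY]
  rw [e2] at h2
  have h3 := (VV_dt_diff h hY z.1 z.2).add (h2.const_mul Y⁻¹)
  have e3 : (fun x : ℝ => VV f 0 1 (x, z.2)) = (fun x : ℝ => VV f 0 1 (x, z.2) -
      Y⁻¹ * VV f 0 Y (x, z.2)) + fun x : ℝ => Y⁻¹ * VV f 0 Y (x, z.2) := by
    funext x
    simp
  rw [e3]
  refine h3.congr_deriv ?_
  have e4 : (Y : ℂ) * Complex.I = Y • Complex.I := (Complex.real_smul).symm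
  rw [e4, map_smul, smul_eq_mul, ← mul_assoc, inv_mul_cancel₀ hY.ne', one_mul]
  ring

/-- the derivative at large scales is small -/
theorem C4_small (h : HypB f C0) {z : ℝ × ℝ} {d : ℝ} (hd : 0 < d)
    (hb : ∀ y : ℝ × ℝ, |y.1 - z.1| < d → |y.2 - z.2| < d → y ∉ SB f) {ε : ℝ} (hε : 0 < ε) :
    ∃ Y₀ : ℝ, 1 ≤ Y₀ ∧ ∀ Y, Y₀ ≤ Y →
      |fderiv ℝ (Vc f 0 Y) (cz 0 Y z) Complex.I| ≤ 16 * ε / d := by
  obtain ⟨Y₀, h1, h2⟩ := window_V h z.1 (R := |z.2| + d) (by positivity) hε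
  refine ⟨Y₀, h1, fun Y hY => ?_⟩
  have hY1 : 1 ≤ Y := h1.trans hY
  have hY0 : 0 < Y := by linarith
  have hre : ∀ w : ℂ, |(ci 0 Y w).2 - z.2| ≤ dist w (cz 0 Y z) := by
    intro w
    have e1 : (ci 0 Y w).2 - z.2 = (w - cz 0 Y z).re := by simp [ci, cz]
    rw [e1, Complex.dist_eq]
    exact Complex.abs_re_le_norm _
  have him : ∀ w : ℂ, |(ci 0 Y w).1 - z.1| ≤ dist w (cz 0 Y z) / Y := by
    intro w
    have e1 : (ci 0 Y w).1 - z.1 = (w - cz 0 Y z).im / Y := by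
      simp only [ci, cz, Complex.sub_im]
      field_simp
    rw [e1, abs_div, abs_of_pos hY0, Complex.dist_eq]
    gcongr
    exact Complex.abs_im_le_norm _
  have key := grad_est (V := Vc f 0 Y) (S := ∅) (z₀ := cz 0 Y z) (ρ := d / 2) (c := 0) (M := ε)
    (by positivity) le_rfl (Vc_cont h hY0).continuousOn
    (fun w hw => by
      rw [Metric.mem_closedBall] at hw
      refine h2 Y hY _ ?_ ?_
      · refine (him w).trans ?_
        gcongr
        have : 0 ≤ |z.2| := abs_nonneg _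
        linarith
      · have h3 := (hre w).trans hw
        have h4 : |(ci 0 Y w).2| ≤ |(ci 0 Y w).2 - z.2| + |z.2| := by
          have := abs_add_le ((ci 0 Y w).2 - z.2) z.2
          rwa [sub_add_cancel] at this
        linarith)
    (fun w hw _ => by
      rw [Metric.mem_ball] at hw
      refine Vc_harm h hY0 (hb _ ?_ ?_)
      · refine lt_of_le_of_lt (him w) ?_
        rw [div_lt_iff₀ hY0]
        nlinarith
      · exact lt_of_le_of_lt (hre w) (by linarith))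
    (fun w _ hw => absurd hw (notMem_empty w))
  have h5 : |fderiv ℝ (Vc f 0 Y) (cz 0 Y z) Complex.I| ≤ ‖fderiv ℝ (Vc f 0 Y) (cz 0 Y z)‖ := by
    have h6 := (fderiv ℝ (Vc f 0 Y) (cz 0 Y z)).le_opNorm Complex.I
    rw [Complex.norm_I, mul_one] at h6
    exact h6
  refine (h5.trans key).trans (le_of_eq ?_)
  field_simp
  ring

/-- Off the support. Let `box z d` be free of `SB f`. For `Y ≥ 1` the function `Vc f 0 Y` is harmonic
on the ball of radius `d` about `cz 0 Y z`, so by `grad_est` (with `S = ∅`, `c = 0`) its derivative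
in the direction `i`, which is `Y⁻¹ ∂_t VV f 0 Y z`, is at most `16 / d` times its supremum on the
closed ball of radius `d / 2`, which tends to zero as `Y → ∞` by `window_V`. By `VV_dt_diff`,
`∂_t VV f 0 1 z = Y⁻¹ ∂_t VV f 0 Y z - ue f Y z → -uu f 1 z` (`ue_eq`, `uu_le_NN`). -/
theorem VV_dt_off (h : HypB f C0) {z : ℝ × ℝ} (hz : z ∉ SB f) :
    HasDerivAt (fun x : ℝ => VV f 0 1 (x, z.2)) (-(uu f 1 z)) z.1 := by
  obtain ⟨d, hd, hb⟩ : ∃ d : ℝ, 0 < d ∧
      ∀ y : ℝ × ℝ, |y.1 - z.1| < d → |y.2 - z.2| < d → y ∉ SB f := by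
    obtain ⟨d, hd, hb⟩ := Metric.isOpen_iff.1 (SB_closed f).isOpen_compl z hz
    refine ⟨d, hd, fun y h1 h2 => hb ?_⟩
    rw [Metric.mem_ball, Prod.dist_eq, Real.dist_eq, Real.dist_eq]
    exact max_lt h1 h2
  have h1 := C4_der h hz one_pos
  have hL : ∀ Y : ℝ, 0 < Y → fderiv ℝ (Vc f 0 1) (cz 0 1 z) Complex.I - ue f 1 z =
      fderiv ℝ (Vc f 0 Y) (cz 0 Y z) Complex.I - ue f Y z := fun Y hY =>
    h1.unique (C4_der h hz hY)
  set L := fderiv ℝ (Vc f 0 1) (cz 0 1 z) Complex.I - ue f 1 z with hLdef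
  have hlim : L = -(uu f 1 z) := by
    have h2 : |L + uu f 1 z| ≤ 0 := by
      refine le_of_forall_pos_le_add fun ε hε => ?_
      obtain ⟨Y₀, h3, h4⟩ := C4_small h hd hb (ε := ε * d / 32) (by positivity)
      have hNN := NN_nonneg f z
      set Y := max Y₀ (NN f z / ε) with hY
      have hY0 : 0 < Y := by
        have := le_max_left Y₀ (NN f z / ε)
        linarith
      have h5 := h4 Y (le_max_left _ _)
      have h6 : NN f z / (2 * Y) ≤ ε / 2 := by
        have h7 : NN f z / ε ≤ Y := le_max_right _ _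
        rw [div_le_iff₀ hε] at h7
        rw [div_le_iff₀ (by positivity)]
        nlinarith
      have h8 := uu_le_NN h hY0 z
      rw [hL Y hY0, ue_eq h hY0]
      have e5 : fderiv ℝ (Vc f 0 Y) (cz 0 Y z) Complex.I - (uu f 1 z - uu f Y z) + uu f 1 z =
          fderiv ℝ (Vc f 0 Y) (cz 0 Y z) Complex.I + uu f Y z := by ring
      rw [e5]
      refine (abs_add_le _ _).trans ?_
      have e6 : 16 * (ε * d / 32) / d = ε / 2 := by
        field_simp
        norm_num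
      rw [e6] at h5
      linarith
    have h9 : L + uu f 1 z = 0 := abs_nonpos_iff.1 h2
    linarith
  rw [← hlim]
  exact h1

end Pool.Agent.Helper34.BD
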