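import Pool.Agent.Helper34.BD.St.C3b
import Pool.Agent.Helper34.BD.St.C4
import Pool.Agent.Helper34.BD.St.A10
import Pool.Agent.Helper34.BD.St.B6

set_option autoImplicit false

open MeasureTheory Real Filter Topology Set InnerProductSpace
open scoped ContDiff

noncomputable section

namespace Pool.Agent.Helper34.BD

open Pool.Agent.Helper12.RD

variable {f : ℝ × ℝ → ℝ} {C0 : ℝ}

theorem C5a_open (z₀ : ℝ × ℝ) (r : ℝ) : IsOpen (box z₀ r) := isOpen_Ioo.prod isOpen_Ioo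

theorem C5a_sub {z₀ z : ℝ × ℝ} {r : ℝ} (hz : z ∈ box z₀ r) :
    ∃ r' : ℝ, 0 < r' ∧ box z r' ⊆ box z₀ r := by
  obtain ⟨⟨h1, h2⟩, ⟨h3, h4⟩⟩ := hz
  refine ⟨min (min (z.1 - (z₀.1 - r)) (z₀.1 + r - z.1)) (min (z.2 - (z₀.2 - r)) (z₀.2 + r - z.2)),
    ?_, ?_⟩
  · refine lt_min (lt_min ?_ ?_) (lt_min ?_ ?_) <;> linarith
  · set m := min (min (z.1 - (z₀.1 - r)) (z₀.1 + r - z.1))
      (min (z.2 - (z₀.2 - r)) (z₀.2 + r - z.2)) with hm
    have e1 : m ≤ z.1 - (z₀.1 - r) := (min_le_left _ _).trans (min_le_left _ _)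
    have e2 : m ≤ z₀.1 + r - z.1 := (min_le_left _ _).trans (min_le_right _ _)
    have e3 : m ≤ z.2 - (z₀.2 - r) := (min_le_right _ _).trans (min_le_left _ _)
    have e4 : m ≤ z₀.2 + r - z.2 := (min_le_right _ _).trans (min_le_right _ _)
    rintro y ⟨⟨g1, g2⟩, ⟨g3, g4⟩⟩
    refine ⟨⟨?_, ?_⟩, ⟨?_, ?_⟩⟩ <;> linarith

theorem C5a_line (p x : ℝ) : HasDerivAt (fun x : ℝ => cz 0 1 (x, p)) Complex.I x := by
  have h4 : HasDerivAt (fun x : ℝ => (x : ℂ) * Complex.I + (p : ℂ)) (1 * Complex.I) x :=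
    ((Complex.ofRealCLM.hasDerivAt (x := x)).mul_const Complex.I).add_const _
  rw [one_mul] at h4
  have h5 : (fun x : ℝ => cz 0 1 (x, p)) = fun x : ℝ => (x : ℂ) * Complex.I + (p : ℂ) := by
    funext x
    apply Complex.ext
    · simp [cz]
    · simp [cz]
  rw [h5]
  exact h4

/-- Apply `c1_of_diff` to `V = Vc f 0 1`, `S = {w | ci 0 1 w ∈ SB f}`, `O = {w | ci 0 1 w ∈ box z₀ ρ}`:
at the points of `S ∩ O` use `Vc_diff_S` (with the smaller box around the point), the gradient is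
continuous on `S ∩ O` by `uu_contOn` and `vv_cont`; off `S` use `Vc_harm`. The gradient in the
direction `i` is `-uu f 1` on `S` by `Vc_diff_S` and off `S` by `VV_dt_off`. -/
theorem box_one (h : HypB f C0) {z₀ : ℝ × ℝ} {ρ n : ℝ} (hρ : 0 < ρ) (hn : 1 ≤ n)
    (hN : ∀ z ∈ SB f, z ∈ box z₀ ρ → NN f z ≤ n) :
    ContinuousOn (uu f 1) (box z₀ ρ) ∧ ∀ z ∈ box z₀ ρ,
      HasDerivAt (fun x : ℝ => VV f 0 1 (x, z.2)) (-(uu f 1 z)) z.1 := by
  have h01 : (0 : ℝ) < 1 := one_pos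
  have hder : ∀ z ∈ box z₀ ρ,
      HasDerivAt (fun x : ℝ => VV f 0 1 (x, z.2)) (-(uu f 1 z)) z.1 := by
    intro z hz
    by_cases hzS : z ∈ SB f
    · obtain ⟨r', hr', hsub⟩ := C5a_sub hz
      exact VV_dt_S h hr' hn hzS fun y hy hyb => hN y hy (hsub hyb)
    · exact VV_dt_off h hzS
  refine ⟨?_, hder⟩
  have hci : Continuous (ci 0 1) := (ci_smooth 0 1).continuous
  have hcz : Continuous (cz 0 1) := (cz_smooth 0 1).continuous
  obtain ⟨hdiff, hcont⟩ := c1_of_diff (V := Vc f 0 1) (S := {w | ci 0 1 w ∈ SB f})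
    (O := {w | ci 0 1 w ∈ box z₀ ρ}) ((C5a_open z₀ ρ).preimage hci)
    ((SB_closed f).preimage hci) (Vc_cont h h01).continuousOn
    (fun y _ hyS => Vc_harm h h01 hyS)
    (fun y hy hyS => by
      obtain ⟨r', hr', hsub⟩ := C5a_sub (show ci 0 1 y ∈ box z₀ ρ from hy)
      have h1 := Vc_diff_S h hr' hn hyS fun x hx hxb => hN x hx (hsub hxb)
      rw [cz_ci h01] at h1
      exact h1.differentiableAt)
    (by
      have h2 : ContinuousOn (fun w : ℂ => vv f 0 1 (ci 0 1 w) • Complex.reCLM -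
          uu f 1 (ci 0 1 w) • Complex.imCLM)
          ({w | ci 0 1 w ∈ box z₀ ρ} ∩ {w | ci 0 1 w ∈ SB f}) := by
        refine ContinuousOn.sub ?_ ?_
        · exact (((vv_cont h h01).comp hci).smul continuous_const).continuousOn
        · have h3 : ContinuousOn (fun w : ℂ => uu f 1 (ci 0 1 w))
              ({w | ci 0 1 w ∈ box z₀ ρ} ∩ {w | ci 0 1 w ∈ SB f}) :=
            (uu_contOn h n).comp hci.continuousOn fun w hw => hN _ hw.2 hw.1
          exact h3.smul continuousOn_const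
      refine h2.congr fun y hy => ?_
      obtain ⟨r', hr', hsub⟩ := C5a_sub (show ci 0 1 y ∈ box z₀ ρ from hy.1)
      have h1 := Vc_diff_S h hr' hn hy.2 fun x hx hxb => hN x hx (hsub hxb)
      rw [cz_ci h01] at h1
      exact h1.fderiv)
  have hmem : ∀ z ∈ box z₀ ρ, cz 0 1 z ∈ {w | ci 0 1 w ∈ box z₀ ρ} := by
    intro z hz
    change ci 0 1 (cz 0 1 z) ∈ box z₀ ρ
    rw [ci_cz h01]
    exact hz
  have hval : ∀ z ∈ box z₀ ρ, uu f 1 z = -(fderiv ℝ (Vc f 0 1) (cz 0 1 z) Complex.I) := by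
    intro z hz
    have h1 : HasFDerivAt (Vc f 0 1) (fderiv ℝ (Vc f 0 1) (cz 0 1 z)) (cz 0 1 (z.1, z.2)) :=
      (hdiff _ (hmem z hz)).hasFDerivAt
    have h2 := h1.comp_hasDerivAt z.1 (C5a_line z.2 z.1)
    have h3 : (Vc f 0 1 ∘ fun x : ℝ => cz 0 1 (x, z.2)) = fun x : ℝ => VV f 0 1 (x, z.2) := by
      funext x
      simp only [Function.comp, Vc]
      rw [ci_cz h01]
    rw [h3] at h2
    have h4 := h2.unique (hder z hz)
    rw [h4, neg_neg]
  have h5 : ContinuousOn (fun z => -(fderiv ℝ (Vc f 0 1) (cz 0 1 z) Complex.I)) (box z₀ ρ) := by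
    refine ContinuousOn.neg ?_
    have h6 : ContinuousOn (fun z => fderiv ℝ (Vc f 0 1) (cz 0 1 z)) (box z₀ ρ) :=
      hcont.comp hcz.continuousOn hmem
    exact h6.clm_apply continuousOn_const
  exact h5.congr hval

end Pool.Agent.Helper34.BD
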