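import Pool.Agent.Helper34.BD.St.C5a

set_option autoImplicit false

open MeasureTheory Real Filter Topology Set InnerProductSpace
open scoped ContDiff

noncomputable section

namespace Pool.Agent.Helper34.BD

open Pool.Agent.Helper12.RD

variable {f : ℝ × ℝ → ℝ} {C0 : ℝ}

/-- the same for all scales: `uu f X = uu f 1 - ue f X`, `VV_dt_diff` -/
theorem box_all (h : HypB f C0) {z₀ : ℝ × ℝ} {ρ n : ℝ} (hρ : 0 < ρ) (hn : 1 ≤ n)
    (hN : ∀ z ∈ SB f, z ∈ box z₀ ρ → NN f z ≤ n) {X : ℝ} (hX : 0 < X) :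
    ContinuousOn (uu f X) (box z₀ ρ) ∧ ∀ z ∈ box z₀ ρ,
      HasDerivAt (fun x : ℝ => VV f 0 X (x, z.2)) (-(X * uu f X z)) z.1 := by
  obtain ⟨h1, h2⟩ := box_one h hρ hn hN
  have hu : ∀ z, uu f X z = uu f 1 z - ue f X z := by
    intro z
    have := ue_eq h hX z
    linarith
  refine ⟨?_, fun z hz => ?_⟩
  · refine ContinuousOn.congr (h1.sub (ue_cont h hX).continuousOn) fun z _ => ?_
    exact hu z
  · have h3 := h2 z hz
    have h4 := VV_dt_diff h hX z.1 z.2
    have h5 := (h3.sub h4).const_mul X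
    have hX0 : X ≠ 0 := hX.ne'
    have e1 : (fun x : ℝ => VV f 0 X (x, z.2)) = fun x : ℝ =>
        X * (VV f 0 1 (x, z.2) - (VV f 0 1 (x, z.2) - X⁻¹ * VV f 0 X (x, z.2))) := by
      funext x
      rw [sub_sub_cancel, mul_inv_cancel_left₀ hX0]
    have e2 : -(X * uu f X z) = X * (-(uu f 1 z) - -(ue f X (z.1, z.2))) := by
      rw [hu z]
      ring
    rw [e1, e2]
    exact h5

end Pool.Agent.Helper34.BD
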