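import Pool.Agent.Helper34.BD.St.C5b
import Pool.Agent.Helper34.BD.St.B9a
import Pool.Agent.Helper34.BD.St.B9b
import Pool.Agent.Helper34.BD.St.B10

set_option autoImplicit false

open MeasureTheory Real Filter Topology Set InnerProductSpace
open scoped ContDiff

noncomputable section

namespace Pool.Agent.Helper34.BD

open Pool.Agent.Helper12.RD

variable {f : ℝ × ℝ → ℝ} {C0 : ℝ}

theorem C6a_box_open (z₀ : ℝ × ℝ) (r : ℝ) : IsOpen (box z₀ r) :=
  isOpen_Ioo.prod isOpen_Ioo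

/-- `Ph_eq`, `box_all`, `Ph_limit`, `pair_eq`; growth: `|uu f X| ≤ |uu f 1| + π C0 X` (`ue_le`) and
`|vv f 0 X| ≤ 2 π C0` -/
theorem lfam_box (h : HypB f C0) {z₀ : ℝ × ℝ} {ρ n : ℝ} (hρ : 0 < ρ) (hn : 1 ≤ n)
    (hN : ∀ z ∈ SB f, z ∈ box z₀ ρ → NN f z ≤ n) :
    LFam (fun k => Ph (gg f) (2 ^ k)) (box z₀ ρ) := by
  have hX : ∀ k : ℕ, (0 : ℝ) < 2 ^ k := fun k => by positivity
  have hX1 : ∀ k : ℕ, (1 : ℝ) ≤ 2 ^ k := fun k => one_le_pow₀ (by norm_num)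
  refine ⟨fun k => ?_, fun z _ => Ph_limit h z, fun Q hQ hQO => ?_, fun k φ hφ hc hs => ?_⟩
  · have h1 := (box_all h hρ hn hN (hX k)).1
    have h2 := (vv_cont h (ξ := 0) (hX k)).continuousOn (s := box z₀ ρ)
    have h3 : ContinuousOn (fun z => (((2 : ℝ) ^ k * uu f (2 ^ k) z : ℝ) : ℂ) -
        (((2 : ℝ) ^ k * vv f 0 (2 ^ k) z : ℝ) : ℂ) * Complex.I) (box z₀ ρ) := by
      refine ContinuousOn.sub ?_ (ContinuousOn.mul ?_ continuousOn_const)
      · exact Complex.continuous_ofReal.comp_continuousOn (continuousOn_const.mul h1)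
      · exact Complex.continuous_ofReal.comp_continuousOn (continuousOn_const.mul h2)
    exact h3.congr fun z _ => Ph_eq h (hX k) z
  · have h1 : ContinuousOn (uu f 1) Q := (box_all h hρ hn hN one_pos).1.mono hQO
    obtain ⟨M, hM⟩ := hQ.exists_bound_of_continuousOn h1
    have hC0 : 0 ≤ C0 := h.C0_nonneg
    have hpi : 0 ≤ π := Real.pi_pos.le
    refine ⟨M + π * C0 + 2 * π * C0, fun k z hz => ?_⟩
    have h2 := hM z hz
    rw [Real.norm_eq_abs] at h2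
    have hM0 : 0 ≤ M := (abs_nonneg _).trans h2
    have h3 := ue_le h (hX1 k) z
    rw [ue_eq h (hX k)] at h3
    have h4 : |uu f (2 ^ k) z| ≤ M + π * C0 * 2 ^ k := by
      have e : uu f (2 ^ k) z = uu f 1 z - (uu f 1 z - uu f (2 ^ k) z) := by ring
      rw [e]
      exact (abs_sub _ _).trans (add_le_add h2 h3)
    have h5 := vv_bdd h (ξ := 0) (hX k) z
    show ‖Ph (gg f) (2 ^ k) z‖ ≤ _
    rw [Ph_eq h (hX k)]
    have h6 : ‖(((2 : ℝ) ^ k * uu f (2 ^ k) z : ℝ) : ℂ)‖ ≤ 2 ^ k * (M + π * C0 * 2 ^ k) := by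
      rw [Complex.norm_real, Real.norm_eq_abs, abs_mul, abs_of_pos (hX k)]
      exact mul_le_mul_of_nonneg_left h4 (hX k).le
    have h7 : ‖(((2 : ℝ) ^ k * vv f 0 (2 ^ k) z : ℝ) : ℂ) * Complex.I‖ ≤ 2 ^ k * (2 * π * C0) := by
      rw [norm_mul, Complex.norm_I, mul_one, Complex.norm_real, Real.norm_eq_abs, abs_mul,
        abs_of_pos (hX k)]
      exact mul_le_mul_of_nonneg_left h5 (hX k).le
    refine (norm_sub_le _ _).trans ((add_le_add h6 h7).trans ?_)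
    have h8 : (4 : ℝ) ^ k = 2 ^ k * 2 ^ k := by
      rw [← mul_pow]; norm_num
    rw [h8]
    have h9 := hX1 k
    have h10 : 0 ≤ M * (2 ^ k * (2 ^ k - 1)) :=
      mul_nonneg hM0 (mul_nonneg (hX k).le (by linarith))
    have h11 : 0 ≤ 2 * π * C0 * (2 ^ k * (2 ^ k - 1)) :=
      mul_nonneg (by positivity) (mul_nonneg (hX k).le (by linarith))
    nlinarith
  · have key : ∀ j : ℕ, Bp (2 ^ j) (Ph (gg f) (2 ^ j)) φ = ((-DD f φ : ℝ) : ℂ) := fun j =>
      pair_eq h (hX j) (C6a_box_open z₀ ρ) (box_all h hρ hn hN (hX j)).1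
        (box_all h hρ hn hN (hX j)).2 hφ hc hs
    have h0 := key 0
    show Bp (2 ^ k) (Ph (gg f) (2 ^ k)) φ = Bp 1 (Ph (gg f) (2 ^ 0)) φ
    rw [key k]
    rw [pow_zero] at h0 ⊢
    exact h0.symm

end Pool.Agent.Helper34.BD
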