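import Pool.Agent.Helper34.BD.Defs
import Pool.Agent.Helper12.RD.Core

/-! PROJECT BD: local form of the theorem `Fam.zero` of Helper12/RD/Core. The proofs of
`LF_T1`, `LF_energy`, `LF_core` are those of `T1_lim`, `energy_k`, `core` there, with the growth
`4 ^ k` and with holomorphy required only in the box. -/

set_option autoImplicit false

open MeasureTheory Real Filter Topology Set InnerProductSpace
open scoped ContDiff

noncomputable section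

namespace Pool.Agent.Helper34.BD

open Pool.Agent.Helper12.RD

/-- first error term: dominated convergence, with
`‖Dop (2 ^ k) φ z‖ ≤ |dt φ z| + |dp φ z|`, `‖Φ k z‖ chi ≤ 2 e n`, `ψ ≤ 1` and
`‖Φ k z‖ → 0` -/
theorem LF_T1 {Φ : ℕ → ℝ × ℝ → ℂ} (hcont : ∀ k, Continuous (Φ k))
    (hlim : ∀ z, Tendsto (fun k => Φ k z) atTop (𝓝 0)) {n : ℝ} (hn : 0 < n) {φ : ℝ × ℝ → ℝ}
    (hφ : ContDiff ℝ 1 φ) (hφc : HasCompactSupport φ) {ε : ℝ} (hε : 0 < ε) :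
    ∃ N : ℕ, ∀ k : ℕ, N ≤ k → ∀ ψ : ℝ → ℝ, Continuous ψ → (∀ t, 0 ≤ ψ t) →
      (∀ t, ψ t ≤ 1) →
      ∫ z, ‖Φ k z‖ * chi n (Φ k) z * ψ z.1 * ‖Dop (2 ^ k) φ z‖ ≤ ε := by
  have hGi := K3_integrable hφ hφc
  have hGcont : ∀ k, Continuous (fun z : ℝ × ℝ =>
      ‖Φ k z‖ * chi n (Φ k) z * (|dt φ z| + |dp φ z|)) := fun k =>
    ((hcont k).norm.mul (K3_chi_continuous (hcont k) hn)).mul
      ((K3_dt_cont hφ).abs.add (K3_dp_cont hφ).abs)
  have hGle : ∀ k, ∀ z : ℝ × ℝ, ‖‖Φ k z‖ * chi n (Φ k) z * (|dt φ z| + |dp φ z|)‖ ≤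
      (2 * Real.exp 1 * n) * (|dt φ z| + |dp φ z|) := by
    intro k z
    rw [Real.norm_eq_abs, abs_of_nonneg (mul_nonneg (mul_nonneg (norm_nonneg _)
      (K3_chi_nonneg n (Φ k) z)) (by positivity))]
    exact mul_le_mul_of_nonneg_right (chi_mul_le hn z) (by positivity)
  have hlim2 : Tendsto (fun k => ∫ z : ℝ × ℝ,
      ‖Φ k z‖ * chi n (Φ k) z * (|dt φ z| + |dp φ z|)) atTop (𝓝 (∫ _ : ℝ × ℝ, (0 : ℝ))) := by
    apply tendsto_integral_of_dominated_convergence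
      (fun z : ℝ × ℝ => (2 * Real.exp 1 * n) * (|dt φ z| + |dp φ z|))
    · exact fun k => (hGcont k).aestronglyMeasurable
    · exact hGi.const_mul _
    · exact fun k => Filter.Eventually.of_forall (hGle k)
    · refine Filter.Eventually.of_forall fun z => ?_
      have h1 : Tendsto (fun k => ‖Φ k z‖ * (|dt φ z| + |dp φ z|)) atTop (𝓝 0) := by
        have h2 := (hlim z).norm.mul_const (|dt φ z| + |dp φ z|)
        simpa using h2
      refine squeeze_zero (fun k => ?_) (fun k => ?_) h1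
      · exact mul_nonneg (mul_nonneg (norm_nonneg _) (K3_chi_nonneg n (Φ k) z)) (by positivity)
      · apply mul_le_mul_of_nonneg_right _ (by positivity)
        calc ‖Φ k z‖ * chi n (Φ k) z ≤ ‖Φ k z‖ * 1 :=
              mul_le_mul_of_nonneg_left (K3_chi_le_one n (Φ k) z) (norm_nonneg _)
          _ = ‖Φ k z‖ := mul_one _
  rw [integral_zero] at hlim2
  have hev := hlim2.eventually (ge_mem_nhds hε)
  obtain ⟨N, hN⟩ := Filter.eventually_atTop.1 hev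
  refine ⟨N, fun k hk ψ hψ h0 h1 => ?_⟩
  refine le_trans ?_ (hN k hk)
  have hGki : Integrable (fun z : ℝ × ℝ =>
      ‖Φ k z‖ * chi n (Φ k) z * (|dt φ z| + |dp φ z|)) :=
    (hGi.const_mul (2 * Real.exp 1 * n)).mono' (hGcont k).aestronglyMeasurable
      (Filter.Eventually.of_forall (hGle k))
  refine integral_mono_of_nonneg (Filter.Eventually.of_forall fun z => ?_) hGki
    (Filter.Eventually.of_forall fun z => ?_)
  · exact mul_nonneg (mul_nonneg (mul_nonneg (norm_nonneg _) (K3_chi_nonneg n (Φ k) z))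
      (h0 _)) (norm_nonneg _)
  · have h3 : 0 ≤ ‖Φ k z‖ * chi n (Φ k) z :=
      mul_nonneg (norm_nonneg _) (K3_chi_nonneg n (Φ k) z)
    have h4 : ‖Φ k z‖ * chi n (Φ k) z * ψ z.1 ≤ ‖Φ k z‖ * chi n (Φ k) z :=
      mul_le_of_le_one_right h3 (h1 _)
    have h5 : ‖Dop (2 ^ k) φ z‖ ≤ |dt φ z| + |dp φ z| :=
      K3_Dop_norm _ (one_le_pow₀ (by norm_num)) φ z
    exact mul_le_mul h4 h5 (norm_nonneg _) h3

theorem LF_exp {C n : ℝ} (hC : 0 ≤ C) (hn : 0 < n) (k : ℕ) :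
    C * 4 ^ k ≤ n * Real.exp (Real.log (C / n + 1) + 2 * k) := by
  have h1 : 0 < C / n + 1 := by positivity
  rw [Real.exp_add, Real.exp_log h1]
  have h2 : (4 : ℝ) ^ k ≤ Real.exp (2 * k) := by
    have h3 : (2 : ℝ) ≤ Real.exp 1 := by
      have := Real.add_one_le_exp (1 : ℝ)
      linarith
    have h5 : (4 : ℝ) ≤ Real.exp 2 := by
      have : Real.exp 2 = Real.exp 1 * Real.exp 1 := by rw [← Real.exp_add]; norm_num
      rw [this]
      nlinarith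
    calc (4 : ℝ) ^ k ≤ (Real.exp 2) ^ k := pow_le_pow_left₀ (by norm_num) h5 k
      _ = Real.exp (2 * k) := by rw [← Real.exp_nat_mul]; ring_nf
  have h4 : 0 < Real.exp (2 * (k : ℝ)) := Real.exp_pos _
  have h5 : n * ((C / n + 1) * Real.exp (2 * k)) = (C + n) * Real.exp (2 * k) := by
    field_simp
  rw [h5]
  have h6 : (0 : ℝ) < 4 ^ k := by positivity
  nlinarith

/-- the energy of the scale `2 ^ k` -/
theorem LF_energy {Φ : ℕ → ℝ × ℝ → ℂ} (hcont : ∀ k, Continuous (Φ k)) {S : Set (ℝ × ℝ)}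
    {a b c₁ c₂ m₁ m₂ r n : ℝ}
    (hS : ∀ z : ℝ × ℝ, z.1 ∈ Ioo a b → z.2 ∈ Icc (c₁ - r) (c₂ + r) → z ∉ S →
      ∀ k, Hol (2 ^ k) (Φ k) z)
    (hP : Port Φ S a b c₁ c₂ m₁ m₂ r n) {K : Set ℝ} (hK : IsCompact K) (hne : K.Nonempty)
    (hKP : ∀ t ∈ K, t ∈ closure {t : ℝ | t ∈ Ioo a b ∧ ∃ p ∈ Ioo m₁ m₂, (t, p) ∈ S})
    {μ : ℝ} (hμ : ∀ t ∈ K, ∀ t', |t' - t| ≤ μ → t' ∈ Ioo a b)
    {κ : ℝ} (hκ : 0 ≤ κ) {k : ℕ} (hk : (r + 3) / 2 ^ k ≤ μ)
    (hb : ∀ z : ℝ × ℝ, z.1 ∈ Ioo a b → z.2 ∈ Icc (c₁ - r) (c₂ + r) →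
      ‖Φ k z‖ ≤ n * Real.exp κ)
    {ψ : ℝ → ℝ} {C : ℝ} (hψ : ContDiff ℝ ∞ ψ) (hψ0 : ∀ t, 0 ≤ ψ t) (hψ1 : ∀ t, ψ t ≤ 1)
    (hψ3 : ∀ t, 3 ≤ 2 ^ k * Metric.infDist t K → ψ t = 0)
    (hψd : ∀ t, |deriv (deriv ψ) t| ≤ C * (2 ^ k) ^ 2)
    (hψz : ∀ t, ¬ (1 ≤ 2 ^ k * Metric.infDist t K ∧ 2 ^ k * Metric.infDist t K ≤ 3) →
      deriv (deriv ψ) t = 0) :
    HasCompactSupport ψ ∧ tsupport ψ ⊆ Ioo a b ∧
    ∫ z in (univ : Set ℝ) ×ˢ Icc m₁ m₂, En (2 ^ k) n (Φ k) z * ψ z.1 ≤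
      κ * (4 / r ^ 2 * bs K (2 ^ k) + (c₂ - c₁) ^ 2 / r * C * ee K (2 ^ k)) := by
  have hX : (0 : ℝ) < 2 ^ k := by positivity
  have hr := hP.hr
  have hn : 0 < n := lt_of_lt_of_le one_pos hP.hn
  have hm := hP.hm
  have hcc : c₁ + r ≤ c₂ - r := by linarith [hP.h1, hP.h2]
  have hrμ : r / 2 ^ k ≤ μ := by
    refine le_trans ?_ hk
    gcongr
    linarith
  have h3μ : 3 / 2 ^ k ≤ μ := by
    refine le_trans ?_ hk
    gcongr
    linarith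
  -- points near K are inside
  have hin : ∀ t, 2 ^ k * Metric.infDist t K ≤ 3 → t ∈ Ioo a b := by
    intro t ht
    obtain ⟨y, hy, hty⟩ := hK.exists_infDist_eq_dist hne t
    refine hμ y hy t ?_
    rw [hty, Real.dist_eq] at ht
    refine le_trans ?_ h3μ
    rw [le_div_iff₀ hX]
    linarith
  have hsub : tsupport ψ ⊆ {t : ℝ | 2 ^ k * Metric.infDist t K ≤ 3} := by
    refine closure_minimal (fun t ht => ?_) (near_compact hK hne hX).isClosed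
    by_contra hne'
    exact ht (hψ3 t (not_le.1 hne').le)
  have hcomp : HasCompactSupport ψ :=
    IsCompact.of_isClosed_subset (near_compact hK hne hX) (isClosed_tsupport ψ) hsub
  have hts : tsupport ψ ⊆ Ioo a b := fun t ht => hin t (hsub ht)
  refine ⟨hcomp, hts, ?_⟩
  have hol : ∀ z : ℝ × ℝ, z.1 ∈ Ioo a b → z.2 ∈ Icc (c₁ - r) (c₂ + r) → n < ‖Φ k z‖ →
      Hol (2 ^ k) (Φ k) z := by
    intro z h1 h2 h3
    refine hS z h1 h2 (fun hz => ?_) k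
    exact absurd (hP.onS k z h1 h2 hz) (not_le.2 h3)
  -- layers
  have hlay : ∀ c, (c = c₁ ∨ c = c₂) → ∀ t, 2 ^ k * Metric.infDist t K ≤ 3 →
      ‖Φ k (t, c)‖ ≤ n * Real.exp (2 * κ * (2 ^ k * Metric.infDist t K) / r) := by
    intro c hc t ht
    have hcm : ∀ x, |x - c| ≤ r → x ∈ Icc (c₁ - r) (c₂ + r) := by
      intro x hx
      rw [abs_le] at hx
      rcases hc with rfl | rfl
      · exact ⟨by linarith, by linarith⟩
      · exact ⟨by linarith, by linarith⟩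
    have hcm' : ∀ x, |x - c| ≤ r → x ∈ Icc (c₁ - r) (c₁ + r) ∨ x ∈ Icc (c₂ - r) (c₂ + r) := by
      intro x hx
      rw [abs_le] at hx
      rcases hc with rfl | rfl
      · left; exact ⟨by linarith, by linarith⟩
      · right; exact ⟨by linarith, by linarith⟩
    obtain ⟨y, hy, hty⟩ := hK.exists_infDist_eq_dist hne t
    rw [hty, Real.dist_eq]
    have hyab : y ∈ Ioo a b := by
      refine hμ y hy y ?_
      rw [sub_self, abs_zero]
      exact le_trans (by positivity) h3μ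
    rcases le_or_gt (2 ^ k * |t - y|) r with h1 | h1
    · have hbox : ∀ z : ℝ × ℝ, 2 ^ k * |z.1 - y| ≤ r → z.1 ∈ Ioo a b := by
        intro z hz
        refine hμ y hy z.1 (le_trans ?_ hrμ)
        rw [le_div_iff₀ hX]
        linarith
      refine layer (hcont k) hX hn hκ hr h1 ?_ ?_ ?_
      · intro z h2 h3 h4
        exact hol z (hbox z h2) (hcm _ h3) h4
      · intro z h2 h3
        exact hb z (hbox z h2) (hcm _ h3)
      · intro p hp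
        exact hP.layer k (y, p) hyab (hKP y hy) (hcm' p hp)
    · refine (hb (t, c) (hin t ht) (hcm c (by simp [hr.le]))).trans ?_
      refine mul_le_mul_of_nonneg_left (Real.exp_le_exp.2 ?_) hn.le
      rw [le_div_iff₀ hr]
      nlinarith
  have hM : ∀ z : ℝ × ℝ, z.1 ∈ tsupport ψ → z.2 ∈ Icc c₁ c₂ → La (lam n (Φ k) z) ≤ κ := by
    intro z h1 h2
    exact La_lam_le hn hκ (hb z (hts h1) ⟨by linarith [h2.1], by linarith [h2.2]⟩)
  have key := energy (hcont k) hX hn hm hr hP.h1 hP.h2 hol (hψ.of_le ENat.LEInfty.out) hψ0 hcomp hts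
    hκ hM
  have l1 := layer_int (hcont k) hX hn hκ hr hK hne hψ.continuous hψ0 hψ1 hψ3
    (hlay c₁ (Or.inl rfl))
  have l2 := layer_int (hcont k) hX hn hκ hr hK hne hψ.continuous hψ0 hψ1 hψ3
    (hlay c₂ (Or.inr rfl))
  have hcd : Continuous (deriv (deriv ψ)) := by
    have h1 : ContDiff ℝ 2 ψ := hψ.of_le ENat.LEInfty.out
    have h2 : ContDiff ℝ 1 (deriv ψ) := by
      have : (2 : WithTop ℕ∞) = 1 + 1 := by norm_num
      rw [this, contDiff_succ_iff_deriv] at h1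
      exact h1.2.2
    exact h2.continuous_deriv (by norm_num)
  have l3 := psi_int hK hne hX hcd hψd hψz
  refine key.trans ?_
  have hX2 : (0 : ℝ) < (2 ^ k) ^ 2 := by positivity
  have l4 : κ * ((2 ^ k) ^ 2 : ℝ)⁻¹ * ∫ t, |deriv (deriv ψ) t| ≤ κ * (C * ee K (2 ^ k)) := by
    rw [mul_assoc]
    refine mul_le_mul_of_nonneg_left ?_ hκ
    rw [inv_mul_le_iff₀ hX2]
    linarith
  have l5 : (c₂ - c₁) ^ 2 / r * (κ * ((2 ^ k) ^ 2 : ℝ)⁻¹ * ∫ t, |deriv (deriv ψ) t|) ≤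
      (c₂ - c₁) ^ 2 / r * (κ * (C * ee K (2 ^ k))) :=
    mul_le_mul_of_nonneg_left l4 (by positivity)
  have l6 : r⁻¹ * ((∫ t, La (lam n (Φ k) (t, c₁)) * ψ t) + ∫ t, La (lam n (Φ k) (t, c₂)) * ψ t) ≤
      r⁻¹ * (2 * κ / r * bs K (2 ^ k) + 2 * κ / r * bs K (2 ^ k)) :=
    mul_le_mul_of_nonneg_left (add_le_add l1 l2) (by positivity)
  refine (add_le_add l6 l5).trans (le_of_eq ?_)
  field_simp
  ring

/-- the pairing vanishes on functions supported in the middle part of the box -/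
theorem LF_core {Φ : ℕ → ℝ × ℝ → ℂ} (hcont : ∀ k, Continuous (Φ k))
    (hlim : ∀ z, Tendsto (fun k => Φ k z) atTop (𝓝 0))
    (hbd : ∃ C : ℝ, ∀ k, ∀ z : ℝ × ℝ, ‖Φ k z‖ ≤ C * 4 ^ k) {S : Set (ℝ × ℝ)}
    {a b c₁ c₂ m₁ m₂ r n : ℝ}
    (hS : ∀ z : ℝ × ℝ, z.1 ∈ Ioo a b → z.2 ∈ Icc (c₁ - r) (c₂ + r) → z ∉ S →
      ∀ k, Hol (2 ^ k) (Φ k) z)
    (hP : Port Φ S a b c₁ c₂ m₁ m₂ r n) {φ : ℝ × ℝ → ℝ} (hφ : ContDiff ℝ 1 φ)
    (hφc : HasCompactSupport φ) (hpair : ∀ k, Bp (2 ^ k) (Φ k) φ = Bp 1 (Φ 0) φ)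
    (hφs : tsupport φ ⊆ Ioo a b ×ˢ Ioo m₁ m₂) :
    Bp 1 (Φ 0) φ = 0 := by
  have hr := hP.hr
  have hn : 0 < n := lt_of_lt_of_le one_pos hP.hn
  have hm := hP.hm
  have hcc : c₁ + r ≤ c₂ - r := by linarith [hP.h1, hP.h2]
  by_cases hts : (tsupport φ).Nonempty
  swap
  · rw [not_nonempty_iff_eq_empty] at hts
    refine bp_zero one_pos hφ hφc fun z hz => ?_
    rw [hts] at hz
    exact absurd hz (notMem_empty z)
  obtain ⟨zm, hzm, hmin⟩ := hφc.isCompact.exists_isMinOn hts continuous_fst.continuousOn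
  obtain ⟨zM, hzM, hmax⟩ := hφc.isCompact.exists_isMaxOn hts continuous_fst.continuousOn
  set α : ℝ := zm.1 with hα
  set β : ℝ := zM.1 with hβ
  have hαa : a < α := (hφs hzm).1.1
  have hβb : β < b := (hφs hzM).1.2
  have hαβ : ∀ z ∈ tsupport φ, z.1 ∈ Icc α β := fun z hz => ⟨hmin hz, hmax hz⟩
  set P : Set ℝ := {t : ℝ | t ∈ Ioo a b ∧ ∃ p ∈ Ioo m₁ m₂, (t, p) ∈ S} with hPdef
  set K : Set ℝ := closure P ∩ Icc α β with hKdef
  have hKc : IsCompact K := isCompact_Icc.inter_left isClosed_closure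
  have hmid : ∀ z ∈ tsupport φ, z.2 ∈ Icc (c₁ - r) (c₂ + r) := by
    intro z hz
    have h2 := (hφs hz).2
    exact ⟨by linarith [h2.1, hP.h1], by linarith [h2.2, hP.h2]⟩
  have hSK : ∀ z ∈ tsupport φ, z ∈ S → z.1 ∈ K := by
    intro z hz hzS
    refine ⟨subset_closure ⟨(hφs hz).1, z.2, (hφs hz).2, hzS⟩, hαβ z hz⟩
  by_cases hne : K.Nonempty
  swap
  · rw [not_nonempty_iff_eq_empty] at hne
    refine bp_zero one_pos hφ hφc fun z hz => ?_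
    have := hS z (hφs hz).1 (hmid z hz) (fun hzS => by
      have h1 := hSK z hz hzS
      rw [hne] at h1
      exact h1) 0
    rwa [pow_zero] at this
  -- margins
  set μ : ℝ := min (α - a) (b - β) / 2 with hμdef
  have hμ0 : 0 < μ := by
    rw [hμdef]
    have : 0 < min (α - a) (b - β) := lt_min (by linarith) (by linarith)
    linarith
  have hμ : ∀ t ∈ K, ∀ t', |t' - t| ≤ μ → t' ∈ Ioo a b := by
    intro t ht t' h1
    have h2 : μ < α - a := by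
      have := min_le_left (α - a) (b - β)
      rw [hμdef] at hμ0 ⊢
      linarith
    have h3 : μ < b - β := by
      have := min_le_right (α - a) (b - β)
      rw [hμdef] at hμ0 ⊢
      linarith
    rw [abs_le] at h1
    exact ⟨by linarith [ht.2.1], by linarith [ht.2.2]⟩
  -- bounds
  obtain ⟨C0, hC0⟩ := hbd
  set C1 : ℝ := max C0 0 with hC1
  have hC10 : 0 ≤ C1 := le_max_right _ _
  set L : ℝ := Real.log (C1 / n + 1) with hL
  have hL0 : 0 ≤ L := Real.log_nonneg (by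
    have : 0 ≤ C1 / n := by positivity
    linarith)
  have hb : ∀ k : ℕ, ∀ z : ℝ × ℝ, z.1 ∈ Ioo a b → z.2 ∈ Icc (c₁ - r) (c₂ + r) →
      ‖Φ k z‖ ≤ n * Real.exp (L + 2 * k) := by
    intro k z h1 h2
    refine (hC0 k z).trans (le_trans ?_ (LF_exp hC10 hn k))
    exact mul_le_mul_of_nonneg_right (le_max_left _ _) (by positivity)
  obtain ⟨C, hC, hcut⟩ := cutoff
  obtain ⟨Mφ, hMφ⟩ := hφc.exists_bound_of_continuous hφ.continuous
  have hMφ' : ∀ z, |φ z| ≤ Mφ := fun z => by rw [← Real.norm_eq_abs]; exact hMφ z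
  have hMφ0 : 0 ≤ Mφ := (abs_nonneg _).trans (hMφ' 0)
  have hφ2 : ∀ z, φ z ≠ 0 → z.2 ∈ Icc m₁ m₂ := by
    intro z hz
    have h1 := (hφs (subset_closure hz)).2
    exact ⟨h1.1.le, h1.2.le⟩
  set V : ℝ := (volume (tsupport φ)).toReal with hV
  have hV0 : 0 ≤ V := ENNReal.toReal_nonneg
  set D : ℝ := (L + 2) * (4 / r ^ 2 + (c₂ - c₁) ^ 2 / r * C) with hD
  have hD0 : 0 ≤ D := by positivity
  set E : ℝ := 2 * Real.exp 1 * n * Mφ with hE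
  have hE0 : 0 ≤ E := by positivity
  set G : ℝ := 1 + E * C * (m₂ - m₁) + 6 * (E * (V + D)) with hG
  have hG0 : 0 < G := by
    have h1 : 0 ≤ m₂ - m₁ := by linarith
    positivity
  have main : ∀ ε : ℝ, 0 < ε → ε ≤ 1 → ‖Bp 1 (Φ 0) φ‖ ≤ ε * G := by
    intro ε hε hε1
    obtain ⟨N1, hN1⟩ := LF_T1 hcont hlim hn hφ hφc hε
    obtain ⟨N2, hN2⟩ : ∃ N2 : ℕ, ∀ k : ℕ, N2 ≤ k → (r + 3) / 2 ^ k ≤ μ := by
      obtain ⟨N2, hN2⟩ := pow_unbounded_of_one_lt ((r + 3) / μ) (one_lt_two (α := ℝ))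
      refine ⟨N2, fun k hk => ?_⟩
      rw [div_le_iff₀ (by positivity)]
      rw [div_lt_iff₀ hμ0] at hN2
      have h1 : (2 : ℝ) ^ N2 ≤ 2 ^ k := pow_le_pow_right₀ one_le_two hk
      nlinarith
    obtain ⟨k, hkN, hk⟩ := sums hKc hne (ε := ε ^ 2) (by positivity) (max N1 N2)
    have hkN1 : N1 ≤ k := (le_max_left _ _).trans hkN
    have hkN2 : N2 ≤ k := (le_max_right _ _).trans hkN
    have hX : (0 : ℝ) < 2 ^ k := by positivity
    obtain ⟨ψ, p1, p2, p3, p4, p5, p6, p7, p8⟩ := hcut K hKc hne (2 ^ k) hX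
    have hκ : 0 ≤ L + 2 * (k : ℝ) := by positivity
    obtain ⟨q1, q2, q3⟩ := LF_energy hcont hS hP hKc hne (fun t ht => ht.1) hμ hκ (hN2 k hkN2)
      (hb k) p1 p2 p3 p5 p7 (fun t ht => (p8 t ht).2)
    have hee := ee_nonneg K (2 ^ k)
    have hbs := bs_nonneg K hX
    have hk0 : (0 : ℝ) ≤ k := by positivity
    have hsum : ee K (2 ^ k) + bs K (2 ^ k) ≤ ε ^ 2 := by
      refine le_trans ?_ hk
      nlinarith [add_nonneg hee hbs]
    have hee2 : ee K (2 ^ k) ≤ ε := by nlinarith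
    -- energy
    have hen : ∫ z in (univ : Set ℝ) ×ˢ Icc m₁ m₂, En (2 ^ k) n (Φ k) z * ψ z.1 ≤ D * ε ^ 2 := by
      refine q3.trans ?_
      have h1 : L + 2 * (k : ℝ) ≤ (L + 2) * ((k : ℝ) + 1) := by nlinarith
      have h2 : 4 / r ^ 2 * bs K (2 ^ k) + (c₂ - c₁) ^ 2 / r * C * ee K (2 ^ k) ≤
          (4 / r ^ 2 + (c₂ - c₁) ^ 2 / r * C) * (ee K (2 ^ k) + bs K (2 ^ k)) := by
        have e1 : 0 ≤ 4 / r ^ 2 := by positivity
        have e2 : 0 ≤ (c₂ - c₁) ^ 2 / r * C := by positivity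
        nlinarith [mul_nonneg e1 hee, mul_nonneg e2 hbs]
      have h3 : 0 ≤ 4 / r ^ 2 * bs K (2 ^ k) + (c₂ - c₁) ^ 2 / r * C * ee K (2 ^ k) := by
        positivity
      calc (L + 2 * (k : ℝ)) * (4 / r ^ 2 * bs K (2 ^ k) + (c₂ - c₁) ^ 2 / r * C * ee K (2 ^ k))
          ≤ ((L + 2) * ((k : ℝ) + 1)) *
            ((4 / r ^ 2 + (c₂ - c₁) ^ 2 / r * C) * (ee K (2 ^ k) + bs K (2 ^ k))) :=
            mul_le_mul h1 h2 h3 (by positivity)
        _ = D * (((k : ℝ) + 1) * (ee K (2 ^ k) + bs K (2 ^ k))) := by rw [hD]; ring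
        _ ≤ D * ε ^ 2 := mul_le_mul_of_nonneg_left hk hD0
    have hol1 : ∀ z ∈ tsupport φ, n < ‖Φ k z‖ → Hol (2 ^ k) (Φ k) z := by
      intro z hz h3
      have h1 := (hφs hz).1
      have h2 := (hφs hz).2
      refine hS z h1 (hmid z hz) (fun hzS => ?_) k
      refine absurd (hP.onS k z h1 ⟨?_, ?_⟩ hzS) (not_le.2 h3)
      · linarith [h2.1, hP.h1]
      · linarith [h2.2, hP.h2]
    have hol2 : ∀ z ∈ tsupport φ, 1 ≤ 2 ^ k * Metric.infDist z.1 K → Hol (2 ^ k) (Φ k) z := by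
      intro z hz h3
      refine hS z (hφs hz).1 (hmid z hz) (fun hzS => ?_) k
      have h4 := Metric.infDist_zero_of_mem (hSK z hz hzS)
      rw [h4, mul_zero] at h3
      linarith
    have hol3 : ∀ z : ℝ × ℝ, z.1 ∈ Ioo a b → z.2 ∈ Icc m₁ m₂ → n < ‖Φ k z‖ →
        Hol (2 ^ k) (Φ k) z := by
      intro z h1 h2 h3
      refine hS z h1 ⟨by linarith [h2.1, hP.h1], by linarith [h2.2, hP.h2]⟩ (fun hzS => ?_) k
      refine absurd (hP.onS k z h1 ⟨?_, ?_⟩ hzS) (not_le.2 h3)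
      · linarith [h2.1, hP.h1]
      · linarith [h2.2, hP.h2]
    have hψ1 : ContDiff ℝ 1 ψ := p1.of_le (by simp)
    rw [← hpair k, reduce (hcont k) hX hn hφ hφc hψ1 p4 hol2 hol1]
    refine (prod_bound (hcont k) hX hn hφ hφc hψ1 p2 hol1).trans ?_
    have t1 := hN1 k hkN1 ψ p1.continuous p2 p3
    have t2 := T2_bound (hcont k) hX hn hφ.continuous hMφ' hm.le hφ2 hKc hne hψ1 hC.le p6
      (fun t ht => (p8 t ht).1)
    have t3 := T3_bound (hcont k) hX hn hφ.continuous hφc hMφ' hφ2 hol3 p1.continuous p2 p3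
      q1 q2 hε
    have t2' : 2 * Real.exp 1 * n * Mφ * C * (m₂ - m₁) * ee K (2 ^ k) ≤
        E * C * (m₂ - m₁) * ε := by
      refine mul_le_mul_of_nonneg_left hee2 ?_
      have : 0 ≤ m₂ - m₁ := by linarith
      positivity
    have t3' : 2 * Real.exp 1 * n * Mφ * (ε * (volume (tsupport φ)).toReal +
        ε⁻¹ * ∫ z in (univ : Set ℝ) ×ˢ Icc m₁ m₂, En (2 ^ k) n (Φ k) z * ψ z.1) ≤
        E * (ε * (V + D)) := by
      refine mul_le_mul_of_nonneg_left ?_ hE0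
      have e1 : ε⁻¹ * ∫ z in (univ : Set ℝ) ×ˢ Icc m₁ m₂, En (2 ^ k) n (Φ k) z * ψ z.1 ≤
          ε⁻¹ * (D * ε ^ 2) := mul_le_mul_of_nonneg_left hen (by positivity)
      have e2 : ε⁻¹ * (D * ε ^ 2) = D * ε := by
        field_simp
      rw [e2] at e1
      linarith
    have t3'' := t3.trans t3'
    have t2'' := t2.trans t2'
    rw [hG]
    linarith
  by_contra hne0
  have h1 : 0 < ‖Bp 1 (Φ 0) φ‖ := norm_pos_iff.2 hne0
  set ε : ℝ := min 1 (‖Bp 1 (Φ 0) φ‖ / (2 * G)) with hε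
  have hε0 : 0 < ε := lt_min one_pos (by positivity)
  have h2 := main ε hε0 (min_le_left _ _)
  have h3 : ε ≤ ‖Bp 1 (Φ 0) φ‖ / (2 * G) := min_le_right _ _
  rw [le_div_iff₀ (by positivity)] at h3
  nlinarith

theorem LF_portion {Φ : ℕ → ℝ × ℝ → ℂ} (hc : ∀ k, Continuous (Φ k))
    (hb : ∀ z, ∃ C : ℝ, ∀ k, ‖Φ k z‖ ≤ C) {S : Set (ℝ × ℝ)} {z₀ : ℝ × ℝ} {r₀ : ℝ}
    (hr₀ : 0 < r₀) (hz₀ : z₀ ∈ S) :
    ∃ a b c₁ c₂ m₁ m₂ r n : ℝ, Port Φ S a b c₁ c₂ m₁ m₂ r n ∧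
      ∀ z : ℝ × ℝ, z.1 ∈ Ioo a b → z.2 ∈ Icc (c₁ - r) (c₂ + r) → z ∈ Metric.ball z₀ r₀ := by
  set K2 : Set (ℝ × ℝ) := closure (S ∩ Metric.ball z₀ (r₀ / 2)) with hK2
  obtain ⟨n0, x, hx, ε', hε', hn0'⟩ := B1_baire (K := K2) isClosed_closure
    ⟨z₀, subset_closure ⟨hz₀, Metric.mem_ball_self (by linarith)⟩⟩
    (fun N : ℕ => {z : ℝ × ℝ | ∀ k, ‖Φ k z‖ ≤ N})
    (fun N => by
      simp only [ofPred_forall]
      exact isClosed_iInter fun k => isClosed_le (hc k).norm continuous_const)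
    (fun z _ => by
      obtain ⟨C, hC⟩ := hb z
      obtain ⟨N, hN⟩ := exists_nat_ge C
      exact ⟨N, fun k => (hC k).trans hN⟩)
  obtain ⟨z0, ⟨hz0, hz0b⟩, hxy⟩ := Metric.mem_closure_iff.1 hx (ε' / 2) (by linarith)
  rw [Metric.mem_ball] at hz0b
  obtain ⟨ε, hεdef⟩ : ∃ ε : ℝ, ε = min (ε' / 2) (r₀ / 2 - dist z0 z₀) := ⟨_, rfl⟩
  have hε : 0 < ε := by rw [hεdef]; exact lt_min (by linarith) (by linarith)
  have hε1 : ε ≤ ε' / 2 := by rw [hεdef]; exact min_le_left _ _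
  have hε2 : ε ≤ r₀ / 2 - dist z0 z₀ := by rw [hεdef]; exact min_le_right _ _
  have hball : ∀ z : ℝ × ℝ, dist z z0 < ε → z ∈ Metric.ball z₀ (r₀ / 2) := by
    intro z hz
    rw [Metric.mem_ball]
    have := dist_triangle z z0 z₀
    linarith
  have hn0 : ∀ z ∈ S, dist z z0 < ε → ∀ k, ‖Φ k z‖ ≤ n0 := by
    intro z hzS hz
    refine hn0' z (subset_closure ⟨hzS, hball z hz⟩) ?_
    have h1 := dist_triangle z z0 x
    rw [dist_comm x z0] at hxy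
    linarith
  obtain ⟨t0, p0⟩ := z0
  set m₁ : ℝ := p0 - ε / 3 with hm₁
  set m₂ : ℝ := p0 + ε / 3 with hm₂
  set P : Set ℝ := {t | t ∈ Ioo (t0 - ε) (t0 + ε) ∧ ∃ p ∈ Ioo m₁ m₂, (t, p) ∈ S} with hP
  have ht0 : t0 ∈ P := ⟨⟨by linarith, by linarith⟩, p0, ⟨by rw [hm₁]; linarith,
    by rw [hm₂]; linarith⟩, hz0⟩
  obtain ⟨⟨⟨q₁, q₂, r, N⟩, hr, h1, h2, h3, h4⟩, x, hx, η, hη, hN⟩ := B1_baire
    (K := closure P) isClosed_closure ⟨t0, subset_closure ht0⟩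
    (ι := {i : ℚ × ℚ × ℚ × ℕ // 0 < i.2.2.1 ∧ p0 - ε < (i.1 : ℝ) - i.2.2.1 ∧
      (i.1 : ℝ) + i.2.2.1 < m₁ ∧ m₂ < (i.2.1 : ℝ) - i.2.2.1 ∧ (i.2.1 : ℝ) + i.2.2.1 < p0 + ε})
    (fun i => {t : ℝ | ∀ k, ∀ p : ℝ, (p ∈ Icc ((i.1.1 : ℝ) - i.1.2.2.1) (i.1.1 + i.1.2.2.1) ∨
      p ∈ Icc ((i.1.2.1 : ℝ) - i.1.2.2.1) (i.1.2.1 + i.1.2.2.1)) → ‖Φ k (t, p)‖ ≤ i.1.2.2.2})
    (fun i => by
      simp only [ofPred_forall]
      exact isClosed_iInter fun k => isClosed_iInter fun p => isClosed_iInter fun _ =>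
        isClosed_le ((hc k).comp (by fun_prop)).norm continuous_const)
    (fun t _ => by
      obtain ⟨q₁, r₁, N₁, hr₁, ha₁, hb₁, hN₁⟩ := B1_int hc hb t
        (show p0 - ε < m₁ by rw [hm₁]; linarith)
      obtain ⟨q₂, r₂, N₂, hr₂, ha₂, hb₂, hN₂⟩ := B1_int hc hb t
        (show m₂ < p0 + ε by rw [hm₂]; linarith)
      have e1 : ((min r₁ r₂ : ℚ) : ℝ) ≤ r₁ := by exact_mod_cast min_le_left r₁ r₂
      have e2 : ((min r₁ r₂ : ℚ) : ℝ) ≤ r₂ := by exact_mod_cast min_le_right r₁ r₂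
      refine ⟨⟨(q₁, q₂, min r₁ r₂, max N₁ N₂), lt_min hr₁ hr₂, ?_, ?_, ?_, ?_⟩, ?_⟩
      · change p0 - ε < (q₁ : ℝ) - ((min r₁ r₂ : ℚ) : ℝ)
        linarith
      · change (q₁ : ℝ) + ((min r₁ r₂ : ℚ) : ℝ) < m₁
        linarith
      · change m₂ < (q₂ : ℝ) - ((min r₁ r₂ : ℚ) : ℝ)
        linarith
      · change (q₂ : ℝ) + ((min r₁ r₂ : ℚ) : ℝ) < p0 + ε
        linarith
      · intro k p hp
        have f1 : ((N₁ : ℕ) : ℝ) ≤ ((max N₁ N₂ : ℕ) : ℝ) := by exact_mod_cast le_max_left _ _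
        have f2 : ((N₂ : ℕ) : ℝ) ≤ ((max N₁ N₂ : ℕ) : ℝ) := by exact_mod_cast le_max_right _ _
        rcases hp with hp | hp
        · refine (hN₁ k p ⟨?_, ?_⟩).trans f1
          · have := hp.1
            change (q₁ : ℝ) - ((min r₁ r₂ : ℚ) : ℝ) ≤ p at this
            linarith
          · have := hp.2
            change p ≤ (q₁ : ℝ) + ((min r₁ r₂ : ℚ) : ℝ) at this
            linarith
        · refine (hN₂ k p ⟨?_, ?_⟩).trans f2
          · have := hp.1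
            change (q₂ : ℝ) - ((min r₁ r₂ : ℚ) : ℝ) ≤ p at this
            linarith
          · have := hp.2
            change p ≤ (q₂ : ℝ) + ((min r₁ r₂ : ℚ) : ℝ) at this
            linarith)
  simp only at hr h1 h2 h3 h4 hN
  obtain ⟨t1, ht1, hd1⟩ := Metric.mem_closure_iff.1 hx η hη
  rw [Real.dist_eq, abs_sub_comm, abs_lt] at hd1
  have hrR : (0 : ℝ) < r := by exact_mod_cast hr
  set a : ℝ := max (t0 - ε) (x - η) with ha
  set b : ℝ := min (t0 + ε) (x + η) with hbd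
  have haa : t0 - ε ≤ a := le_max_left _ _
  have hax : x - η ≤ a := le_max_right _ _
  have hbb : b ≤ t0 + ε := min_le_left _ _
  have hbx : b ≤ x + η := min_le_right _ _
  have hat : a < t1 := max_lt ht1.1.1 (by linarith [hd1.1])
  have htb : t1 < b := lt_min ht1.1.2 (by linarith [hd1.2])
  have hins : ∀ z : ℝ × ℝ, z.1 ∈ Ioo a b → z.2 ∈ Icc ((q₁ : ℝ) - r) ((q₂ : ℝ) + r) →
      z ∈ Metric.ball z₀ r₀ := by
    intro z hz1 hz2
    refine Metric.ball_subset_ball (by linarith) (hball z ?_)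
    rw [Prod.dist_eq]
    refine max_lt ?_ ?_
    · rw [Real.dist_eq, abs_lt]
      exact ⟨by linarith [hz1.1], by linarith [hz1.2]⟩
    · rw [Real.dist_eq, abs_lt]
      exact ⟨by linarith [hz2.1], by linarith [hz2.2]⟩
  refine ⟨a, b, q₁, q₂, m₁, m₂, r, max 1 (max n0 N), ?_, hins⟩
  have g0 : ((n0 : ℕ) : ℝ) ≤ max 1 (max (n0 : ℝ) N) := (le_max_left _ _).trans (le_max_right _ _)
  have gN : ((N : ℕ) : ℝ) ≤ max 1 (max (n0 : ℝ) N) := (le_max_right _ _).trans (le_max_right _ _)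
  refine ⟨hat.trans htb, by rw [hm₁, hm₂]; linarith, hrR, le_max_left _ _, h2.le, by linarith,
    ?_, ?_, ?_⟩
  · intro k z hz1 hz2 hzS
    refine (hn0 z hzS ?_ k).trans g0
    rw [Prod.dist_eq]
    refine max_lt ?_ ?_
    · rw [Real.dist_eq, abs_lt]
      exact ⟨by linarith [hz1.1], by linarith [hz1.2]⟩
    · rw [Real.dist_eq, abs_lt]
      exact ⟨by linarith [hz2.1], by linarith [hz2.2]⟩
  · obtain ⟨p, hp, hpS⟩ := ht1.2
    exact ⟨(t1, p), ⟨hat, htb⟩, hp, hpS⟩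
  · intro k z hz1 hz2 hz3
    have hK : z.1 ∈ closure P := by
      refine closure_mono ?_ hz2
      rintro t ⟨ht, hp⟩
      exact ⟨⟨by linarith [ht.1], by linarith [ht.2]⟩, hp⟩
    refine (hN z.1 hK ?_ k z.2 hz3).trans gN
    rw [Real.dist_eq, abs_lt]
    exact ⟨by linarith [hz1.1], by linarith [hz1.2]⟩

/-- continuous extension from a compact subset -/
theorem LF_ext {Φ : ℕ → ℝ × ℝ → ℂ} {O : Set (ℝ × ℝ)} (hO : IsOpen O) (h : LFam Φ O)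
    {Q : Set (ℝ × ℝ)} (hQ : IsCompact Q) (hQO : Q ⊆ O) :
    ∃ Ψ : ℕ → ℝ × ℝ → ℂ, (∀ k, Continuous (Ψ k)) ∧
      (∀ z, Tendsto (fun k => Ψ k z) atTop (𝓝 0)) ∧
      (∃ C : ℝ, ∀ k, ∀ z : ℝ × ℝ, ‖Ψ k z‖ ≤ C * 4 ^ k) ∧ ∀ k, ∀ z ∈ Q, Ψ k z = Φ k z := by
  obtain ⟨L, hL, hQL, hLO⟩ := exists_compact_between hQ hO hQO
  obtain ⟨g, hg0, hg1, hg⟩ := exists_continuous_zero_one_of_isClosed
    (isOpen_interior (s := L)).isClosed_compl hQ.isClosed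
    (disjoint_left.2 fun z hz hzQ => hz (hQL hzQ))
  have hzero : ∀ z, z ∉ L → g z = 0 := fun z hz => hg0 (fun h1 => hz (interior_subset h1))
  have hone : ∀ z ∈ Q, g z = 1 := fun z hz => hg1 hz
  have hlim : ∀ z, Tendsto (fun k => ((g z : ℝ) : ℂ) * Φ k z) atTop (𝓝 0) := by
    intro z
    by_cases hz : z ∈ O
    · have h1 := (h.lim z hz).const_mul ((g z : ℝ) : ℂ)
      simpa using h1
    · have h2 : g z = 0 := hzero z fun h3 => hz (hLO h3)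
      simp [h2]
  obtain ⟨C, hC⟩ := h.bd L hL hLO
  refine ⟨fun k z => ((g z : ℝ) : ℂ) * Φ k z, fun k => ?_, hlim, ⟨max C 0, fun k z => ?_⟩, ?_⟩
  · rw [continuous_iff_continuousAt]
    intro z
    by_cases hz : z ∈ O
    · exact (Complex.continuous_ofReal.comp g.continuous).continuousAt.mul
        ((h.cont k).continuousAt (hO.mem_nhds hz))
    · have hzL : z ∉ L := fun h1 => hz (hLO h1)
      have h2 : (fun y => ((g y : ℝ) : ℂ) * Φ k y) =ᶠ[𝓝 z] fun _ => 0 := by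
        filter_upwards [hL.isClosed.isOpen_compl.mem_nhds hzL] with y hy
        rw [hzero y hy]
        simp
      exact continuousAt_const.congr h2.symm
  · by_cases hz : z ∈ L
    · have h1 := hC k z hz
      have h2 := hg z
      rw [norm_mul, Complex.norm_real, Real.norm_eq_abs, abs_of_nonneg h2.1]
      have h3 : C * 4 ^ k ≤ max C 0 * 4 ^ k :=
        mul_le_mul_of_nonneg_right (le_max_left _ _) (by positivity)
      nlinarith [norm_nonneg (Φ k z), h2.2]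
    · simp only [hzero z hz]
      have : (0 : ℝ) ≤ max C 0 * 4 ^ k := by positivity
      simpa using this
  · intro k z hz
    simp only [hone z hz]
    simp

theorem LF_congr {Φ Ψ : ℝ × ℝ → ℂ} {X : ℝ} {φ : ℝ × ℝ → ℝ}
    (h : ∀ z ∈ tsupport φ, Ψ z = Φ z) : Bp X Ψ φ = Bp X Φ φ := by
  unfold Bp
  congr 1
  funext z
  by_cases hz : z ∈ tsupport φ
  · rw [h z hz]
  · have h1 : fderiv ℝ φ z = 0 := by
      by_contra h2
      exact hz (support_fderiv_subset ℝ h2)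
    simp [Dop, dt, dp, h1]

/-- regular points in `O` -/
def LF_reg (Φ : ℕ → ℝ × ℝ → ℂ) (O : Set (ℝ × ℝ)) (z : ℝ × ℝ) : Prop :=
  ∃ U : Set (ℝ × ℝ), IsOpen U ∧ z ∈ U ∧ U ⊆ O ∧ ∀ φ : ℝ × ℝ → ℝ, ContDiff ℝ ∞ φ →
    HasCompactSupport φ → tsupport φ ⊆ U → Bp 1 (Φ 0) φ = 0

theorem LF_hol {Φ Ψ : ℕ → ℝ × ℝ → ℂ} {O Q : Set (ℝ × ℝ)} (h : LFam Φ O)
    (hc : ∀ k, Continuous (Ψ k)) (hQ : ∀ k, ∀ z ∈ Q, Ψ k z = Φ k z) {z : ℝ × ℝ}
    (hz : z ∈ interior Q) (hr : LF_reg Φ O z) (k : ℕ) : Hol (2 ^ k) (Ψ k) z := by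
  obtain ⟨U, hU, hzU, hUO, hφ⟩ := hr
  refine weyl (hc k) (by positivity) (hU.inter isOpen_interior) (fun φ h1 h2 h3 => ?_) ⟨hzU, hz⟩
  have h4 : tsupport φ ⊆ U := fun y hy => (h3 hy).1
  rw [LF_congr (Φ := Φ k) fun y hy => hQ k y (interior_subset (h3 hy).2),
    h.pair k φ h1 h2 (h4.trans hUO)]
  exact hφ φ h1 h2 h4

/-- Local form of `Fam.zero` (Helper12/RD/Core) on an open set. -/
theorem LFam.zero {Φ : ℕ → ℝ × ℝ → ℂ} {O : Set (ℝ × ℝ)} (hO : IsOpen O) (h : LFam Φ O)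
    {φ : ℝ × ℝ → ℝ} (hφ : ContDiff ℝ ∞ φ) (hφc : HasCompactSupport φ) (hs : tsupport φ ⊆ O) :
    Bp 1 (Φ 0) φ = 0 := by
  have hreg : ∀ z ∈ O, LF_reg Φ O z := by
    by_contra hcon
    push Not at hcon
    obtain ⟨z₀, hz₀, hnr⟩ := hcon
    obtain ⟨r₀, hr₀, hrO⟩ := Metric.nhds_basis_closedBall.mem_iff.1 (hO.mem_nhds hz₀)
    set S : Set (ℝ × ℝ) := {z | ¬ LF_reg Φ O z} with hSdef
    have hopen : IsOpen {z | LF_reg Φ O z} := by
      rw [isOpen_iff_forall_mem_open]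
      rintro z ⟨U, hU, hzU, hUO, h1⟩
      exact ⟨U, fun y hy => ⟨U, hU, hy, hUO, h1⟩, hU, hzU⟩

    obtain ⟨Ψ, hΨc, hΨl, hΨb, hΨe⟩ := LF_ext hO h (isCompact_closedBall z₀ r₀) hrO
    have hb' : ∀ z, ∃ C : ℝ, ∀ k, ‖Ψ k z‖ ≤ C := by
      intro z
      obtain ⟨C, hC⟩ := (hΨl z).norm.bddAbove_range
      exact ⟨C, fun k => hC ⟨k, rfl⟩⟩
    obtain ⟨a, b, c₁, c₂, m₁, m₂, r, n, hP, hin⟩ := LF_portion hΨc hb' hr₀
      (show z₀ ∈ S from hnr)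

    have hS' : ∀ z : ℝ × ℝ, z.1 ∈ Ioo a b → z.2 ∈ Icc (c₁ - r) (c₂ + r) → z ∉ S →
        ∀ k, Hol (2 ^ k) (Ψ k) z := by
      intro z h1 h2 h3 k
      exact LF_hol h hΨc hΨe (Metric.ball_subset_interior_closedBall (hin z h1 h2)) (not_not.1 h3) k
    obtain ⟨z, hz1, hz2, hzS⟩ := hP.meets
    have hr := hP.hr
    have hsub : Ioo a b ×ˢ Ioo m₁ m₂ ⊆ Metric.ball z₀ r₀ := by
      rintro y ⟨h1, h2⟩
      exact hin y h1 ⟨by linarith [h2.1, hP.h1], by linarith [h2.2, hP.h2]⟩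
    have hsubO : Ioo a b ×ˢ Ioo m₁ m₂ ⊆ O :=
      hsub.trans (Metric.ball_subset_closedBall.trans hrO)
    refine hzS ⟨Ioo a b ×ˢ Ioo m₁ m₂, isOpen_Ioo.prod isOpen_Ioo, ⟨hz1, hz2⟩, hsubO, ?_⟩
    intro φ' h1 h2 h3
    have hcg : ∀ k, ∀ y ∈ tsupport φ', Ψ k y = Φ k y := fun k y hy =>
      hΨe k y (Metric.ball_subset_closedBall (hsub (h3 hy)))
    have hpair : ∀ k, Bp (2 ^ k) (Ψ k) φ' = Bp 1 (Ψ 0) φ' := by
      intro k
      rw [LF_congr (hcg k), LF_congr (hcg 0)]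
      exact h.pair k φ' h1 h2 (h3.trans hsubO)
    rw [← LF_congr (hcg 0)]
    exact LF_core hΨc hΨl hΨb hS' hP (h1.of_le (by simp)) h2 hpair h3
  obtain ⟨Q, hQ, hTQ, hQO⟩ := exists_compact_between hφc.isCompact hO hs
  obtain ⟨Ψ, hΨc, hΨl, hΨb, hΨe⟩ := LF_ext hO h hQ hQO
  rw [← LF_congr (Φ := Φ 0) (Ψ := Ψ 0) fun z hz => hΨe 0 z (interior_subset (hTQ hz))]
  refine bp_zero one_pos (hφ.of_le (by simp)) hφc fun z hz => ?_
  have := LF_hol h hΨc hΨe (hTQ hz) (hreg z (hs hz)) 0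
  rwa [pow_zero] at this

end Pool.Agent.Helper34.BD
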