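import Pool.Agent.Helper34.BD.St.C6a
import Pool.Agent.Helper34.BD.St.B11
import Pool.Agent.Helper34.BD.St.LFam
import Pool.Agent.Helper34.BD.St.B6

set_option autoImplicit false

open MeasureTheory Real Filter Topology Set InnerProductSpace
open scoped ContDiff

noncomputable section

namespace Pool.Agent.Helper34.BD

open Pool.Agent.Helper12.RD

variable {f : ℝ × ℝ → ℝ} {C0 : ℝ}

/-- `baire_box`, `lfam_box`, `LFam.zero`, `pair_eq` -/
theorem SB_empty (h : HypB f C0) : SB f = ∅ := by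
  by_contra hne
  have hne' : (SB f).Nonempty := Set.nonempty_iff_ne_empty.mpr hne
  obtain ⟨z₀, hz₀, ρ, hρ, n, hn, hN⟩ := baire_box h (SB_closed f) hne'
  have hL := lfam_box h hρ hn hN
  have hO : IsOpen (box z₀ ρ) := isOpen_Ioo.prod isOpen_Ioo
  obtain ⟨hu, hd⟩ := box_all h hρ hn hN (X := 1) one_pos
  apply hz₀
  refine ⟨box z₀ ρ, hO, ?_, ?_⟩
  · refine ⟨⟨?_, ?_⟩, ⟨?_, ?_⟩⟩ <;> linarith
  · intro φ hφ hc hs
    have h1 := hL.zero hO hφ hc hs
    have h2 := pair_eq h one_pos hO hu hd hφ hc hs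
    have h3 : Bp 1 (Ph (gg f) 1) φ = 0 := by simpa using h1
    rw [h2] at h3
    have h4 : -DD f φ = 0 := by exact_mod_cast h3
    linarith

/-- `Vc_harm`, `InnerProductSpace.bounded_harmonic_on_complex_plane_is_constant`, `VV_dp`,
`gg_zero_of_vv`, `f_zero_of_gg` -/
theorem HypB.eq_zero (h : HypB f C0) : f = 0 := by
  have hS := SB_empty h
  refine f_zero_of_gg h (gg_zero_of_vv h ?_)
  intro ξ η hη z
  have hharm : HarmonicOnNhd (Vc f ξ η) univ := by
    intro w _
    refine Vc_harm h hη ?_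
    rw [hS]
    exact Set.notMem_empty _
  have hbd : Bornology.IsBounded (range (Vc f ξ η)) := by
    rw [isBounded_iff_forall_norm_le]
    refine ⟨π * C0, ?_⟩
    rintro y ⟨w, rfl⟩
    exact VV_bdd h hη _
  have hconst := InnerProductSpace.bounded_harmonic_on_complex_plane_is_constant _ hharm hbd
  have hV : ∀ y y' : ℝ × ℝ, VV f ξ η y = VV f ξ η y' := by
    intro y y'
    have h1 := hconst (cz ξ η y) (cz ξ η y')
    simpa [Vc, ci_cz hη] using h1
  have h2 := VV_dp (ξ := ξ) h hη z.1 z.2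
  have h3 : (fun x : ℝ => VV f ξ η (z.1, x)) = fun _ => VV f ξ η (z.1, z.2) := by
    funext x
    exact hV _ _
  rw [h3] at h2
  exact h2.unique (hasDerivAt_const _ _)

end Pool.Agent.Helper34.BD
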