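import Pool.Agent.Helper34.BD.St.A5
import Pool.Agent.Helper34.BD.St.A6
import Pool.Agent.Helper34.BD.St.A7
import Pool.Agent.Helper34.BD.St.A8

set_option autoImplicit false

open MeasureTheory Real Filter Topology Set InnerProductSpace
open scoped ContDiff

noncomputable section

namespace Pool.Agent.Helper34.BD

open Pool.Agent.Helper12.RD

/-- Growth lemma: `avg_growth`, `energy_growth` and `dip` are contradictory when `κ` is small;
at the points with `|v| ≤ c` the function `stp (max 0 ((|v| - c) / M))` is zero. -/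
theorem growth_unit : ∃ κ : ℝ, 0 < κ ∧ κ < 1 ∧ ∀ v : ℂ → ℝ, Continuous v → ∀ c M : ℝ, 0 ≤ c → 0 ≤ M →
    (∀ z ∈ Metric.closedBall (0 : ℂ) 1, c < |v z| → HarmonicAt v z) →
    (∀ r : ℝ, 0 < r → r < 1 → ∃ z ∈ Metric.sphere (0 : ℂ) r, |v z| ≤ c) →
    (∀ z ∈ Metric.closedBall (0 : ℂ) 1, |v z| ≤ c + M) →
    ∀ z ∈ Metric.closedBall (0 : ℂ) (1 / 8), |v z| ≤ c + (1 - κ) * M := by
  obtain ⟨C, hC, hE⟩ := energy_growth
  have hD : 0 < 256 * (700 * C + 800) := by positivity
  refine ⟨9 / (256 * (700 * C + 800)), by positivity, ?_, ?_⟩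
  · rw [div_lt_one hD]
    nlinarith
  intro v hv c M hc hM hh hs hb z hz
  set κ := 9 / (256 * (700 * C + 800)) with hκ
  have hκ0 : 0 < κ := by positivity
  have hκ1 : κ < 1 := by
    rw [hκ, div_lt_one hD]
    nlinarith
  have hκ2 : κ * (700 * C + 800) = 9 / 256 := by
    rw [hκ]
    field_simp
  rcases hM.eq_or_lt with rfl | hM
  · have h1 := hb z (Metric.closedBall_subset_closedBall (by norm_num) hz)
    linarith
  by_contra hcon
  push Not at hcon
  have hzn : ‖z‖ ≤ 1 / 8 := by
    rw [Metric.mem_closedBall, dist_zero_right] at hz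
    exact hz
  have h1 := avg_growth hv hc hM hh hb hzn hcon.le hκ1
  obtain ⟨h2, h3⟩ := hE v hv c M hc hM hh hb
  have hwc : Continuous fun y : ℂ => max 0 ((|v y| - c) / M) := by fun_prop
  have hw1 : ∀ y ∈ Metric.closedBall (0 : ℂ) 1,
      0 ≤ max 0 ((|v y| - c) / M) ∧ max 0 ((|v y| - c) / M) ≤ 1 := by
    intro y hy
    refine ⟨le_max_left _ _, max_le zero_le_one ?_⟩
    rw [div_le_one hM]
    linarith [hb y hy]
  have hsub : ∀ {y : ℂ} {r : ℝ}, r ≤ 1 → y ∈ Metric.ball (0 : ℂ) r →
      y ∈ Metric.closedBall (0 : ℂ) 1 := fun hr hy =>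
    Metric.closedBall_subset_closedBall hr (Metric.ball_subset_closedBall hy)
  have h4 := dip (G := fun y => stp (max 0 ((|v y| - c) / M)))
    (w := fun y => max 0 ((|v y| - c) / M)) h2 hwc
    (fun y hy => hw1 y (hsub (by norm_num) hy))
    (fun y _ hy => by
      show stp _ = 1
      unfold stp
      exact Real.smoothTransition.one_of_one_le (by linarith))
    (fun r hr1 hr2 => by
      obtain ⟨y, hy, hyc⟩ := hs r (by linarith) (by linarith)
      refine ⟨y, hy, ?_⟩
      have h5 : max 0 ((|v y| - c) / M) = 0 :=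
        max_eq_left (div_nonpos_of_nonpos_of_nonneg (by linarith) hM.le)
      show stp (max 0 ((|v y| - c) / M)) = 0
      rw [h5]
      unfold stp
      exact Real.smoothTransition.zero_of_nonpos (by norm_num))
  have h6 : (∫ y in Metric.ball (0 : ℂ) (5 / 8), (1 - max 0 ((|v y| - c) / M))) ≤
      ∫ y in Metric.closedBall (0 : ℂ) (11 / 16), (1 - max 0 ((|v y| - c) / M)) := by
    have hci : Continuous fun y : ℂ => 1 - max 0 ((|v y| - c) / M) := continuous_const.sub hwc
    refine setIntegral_mono_set ?_ ?_ ?_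
    · exact hci.continuousOn.integrableOn_compact (isCompact_closedBall _ _)
    · rw [Filter.EventuallyLE, ae_restrict_iff' measurableSet_closedBall]
      refine Filter.Eventually.of_forall fun y hy => ?_
      have h7 := hw1 y (Metric.closedBall_subset_closedBall (by norm_num) hy)
      simp only [Pi.zero_apply]
      linarith [h7.2]
    · refine (Metric.ball_subset_closedBall.trans
        (Metric.closedBall_subset_closedBall (by norm_num))).eventuallyLE
  have h8 : C * (∫ y in Metric.closedBall (0 : ℂ) (11 / 16), (1 - max 0 ((|v y| - c) / M))) ≤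
      C * (100 * κ) := mul_le_mul_of_nonneg_left h1 hC.le
  nlinarith

end Pool.Agent.Helper34.BD
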